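import Pool.Agent.PWK.St3

/-! # PWK.COM (MP_26af1b_gt): combinations of translates have finite orbit -/

set_option autoImplicit false

open scoped BigOperators

namespace Pool.Agent.PWK

open Pool.Agent.PW

private theorem COM_pow {Γ : Type} [Group Γ] {N : Subgroup Γ} {S : MulAut Γ}
    (h : ∀ x, S x * x⁻¹ ∈ N) (k : ℕ) : ∀ x, (S ^ k) x * x⁻¹ ∈ N := by
  induction k with
  | zero => intro x; rw [pow_zero, MulAut.one_apply, mul_inv_cancel]; exact N.one_mem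
  | succ k ih =>
    intro x
    rw [pow_succ, MulAut.mul_apply]
    have h1 := N.mul_mem (ih (S x)) (h x)
    have e : (S ^ k) (S x) * (S x)⁻¹ * (S x * x⁻¹) = (S ^ k) (S x) * x⁻¹ := by group
    rwa [e] at h1

private theorem COM_mem {Γ : Type} [Group Γ] {N : Subgroup Γ} {S : MulAut Γ}
    (h : ∀ x, S x * x⁻¹ ∈ N) {x : Γ} (hx : x ∈ N) : S x ∈ N := by
  have h1 := N.mul_mem (h x) hx
  rwa [inv_mul_cancel_right] at h1

private theorem COM_key {Γ : Type} [Group Γ] {N : Subgroup Γ} [N.Normal] {f : Γ → ℚ}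
    (hf : AddOn N f) {S : MulAut Γ} (h : ∀ x, S x * x⁻¹ ∈ N) {x : Γ} (hx : x ∈ N) (w : Γ) :
    f (w⁻¹ * S x * w) = f (S (w⁻¹ * x * w)) := by
  have h1 : ((w⁻¹ : Γ) : Γ ⧸ N) = (((S w)⁻¹ : Γ) : Γ ⧸ N) := by
    rw [QuotientGroup.eq]
    have h2 := N.inv_mem (h w)
    rw [mul_inv_rev, inv_inv] at h2
    rw [inv_inv]
    exact h2
  have h3 := hf.conj_eq (COM_mem h hx) h1
  rw [inv_inv, inv_inv] at h3
  rw [h3, map_mul, map_mul, map_inv]

private theorem COM_conj {Γ : Type} [Group Γ] {N : Subgroup Γ} [hN : N.Normal] {x : Γ}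
    (hx : x ∈ N) (w : Γ) : w⁻¹ * x * w ∈ N := by
  have := hN.conj_mem x hx w⁻¹
  rwa [inv_inv] at this

theorem thm_COM : St_COM := by
  intro g n N f hF ι _ q w
  have hN := hF.good.normal
  have hadd := hF.good.add
  refine ⟨⟨hN, hF.good.fin, ?_, hF.good.bdryN, ?_, ?_, ?_⟩, ?_⟩
  · intro x hx y hy
    simp only
    rw [← Finset.sum_add_distrib]
    refine Finset.sum_congr rfl fun j _ => ?_
    have e : (w j)⁻¹ * (x * y) * w j = ((w j)⁻¹ * x * w j) * ((w j)⁻¹ * y * w j) := by group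
    rw [e, hadd _ (COM_conj hx _) _ (COM_conj hy _), mul_add]
  · intro v
    refine Finset.sum_eq_zero fun j _ => ?_
    have e : (w j)⁻¹ * (v * bdry g n * v⁻¹) * w j
        = ((w j)⁻¹ * v) * bdry g n * ((w j)⁻¹ * v)⁻¹ := by group
    rw [e, hF.good.bdry, mul_zero]
  · intro v i m hm
    refine Finset.sum_eq_zero fun j _ => ?_
    have e : (w j)⁻¹ * (v * gc i ^ m * v⁻¹) * w j
        = ((w j)⁻¹ * v) * gc i ^ m * ((w j)⁻¹ * v)⁻¹ := by group
    rw [e, hF.good.marked _ _ _ hm, mul_zero]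
  · intro T hT L hL hx
    obtain ⟨M, hM, hLM, hfx⟩ := hF.good.stab T hT L hL hx
    refine ⟨M, hM, hLM, fun x hxN => ?_⟩
    have hMx : ∀ x, (T ^ M) x * x⁻¹ ∈ N := by
      obtain ⟨k, rfl⟩ := hLM
      rw [pow_mul]
      exact COM_pow hx k
    refine Finset.sum_congr rfl fun j _ => ?_
    rw [COM_key hadd hMx hxN, hfx _ (COM_conj hxN _)]
  · refine (hF.orb.image (fun (h : N → ℚ) (x : N) =>
      ∑ j, q j * h ⟨(w j)⁻¹ * x * w j, COM_conj x.2 _⟩)).subset ?_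
    rintro h ⟨φ, hφ, hφN, hh⟩
    refine ⟨fun x => f (φ x), ⟨φ, hφ, hφN, fun x => rfl⟩, ?_⟩
    funext x
    rw [hh x]
    refine Finset.sum_congr rfl fun j _ => ?_
    rw [COM_key hadd hφN x.2]

end Pool.Agent.PWK
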