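import Pool.Agent.PWK.St3

/-!
# PWK, SIM: a simple submodule with a fixed vector (Lean: helper85)
-/

set_option autoImplicit false

open scoped BigOperators

namespace Pool.Agent.PWK

open Pool.Agent.PW

section

variable {Γ : Type} [Group Γ] (N : Subgroup Γ) [hN : N.Normal]

/-- the functions that are fixed by the translations by elements of `N` -/
private def SIM_E : Submodule ℂ (N → ℂ) where
  carrier := {v | ∀ n ∈ N, Rt N n v = v}
  add_mem' := by
    intro a b ha hb n hn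
    rw [map_add, ha n hn, hb n hn]
  zero_mem' := by
    intro n _
    rw [map_zero]
  smul_mem' := by
    intro c a ha n hn
    rw [map_smul, ha n hn]

private lemma SIM_comp (v w : Γ) (h : N → ℂ) : Rt N v (Rt N w h) = Rt N (v * w) h := by
  rw [map_mul]
  rfl

private lemma SIM_stable (w : Γ) {v : N → ℂ} (hv : v ∈ SIM_E N) : Rt N w v ∈ SIM_E N := by
  intro n hn
  have h1 : w⁻¹ * n * w ∈ N := by
    have := hN.conj_mem n hn w⁻¹
    rwa [inv_inv] at this
  have h2 : n * w = w * (w⁻¹ * n * w) := by group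
  rw [SIM_comp, h2, ← SIM_comp, hv _ h1]

private noncomputable def SIM_r0 : Representation ℂ Γ (SIM_E N) where
  toFun w := (Rt N w).restrict fun _ hv => SIM_stable N w hv
  map_one' := by
    apply LinearMap.ext
    intro v
    apply Subtype.ext
    change Rt N 1 v.1 = v.1
    rw [map_one]
    rfl
  map_mul' a b := by
    apply LinearMap.ext
    intro v
    apply Subtype.ext
    change Rt N (a * b) v.1 = Rt N a (Rt N b v.1)
    rw [SIM_comp]

private lemma SIM_ker : N ≤ (SIM_r0 N).ker := by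
  intro n hn
  rw [MonoidHom.mem_ker]
  apply LinearMap.ext
  intro v
  apply Subtype.ext
  exact v.2 n hn

private noncomputable def SIM_r : Representation ℂ (Γ ⧸ N) (SIM_E N) :=
  QuotientGroup.lift N (SIM_r0 N) (SIM_ker N)

private lemma SIM_r_mk (w : Γ) (v : SIM_E N) : ((SIM_r N (QuotientGroup.mk w) v : SIM_E N) : N → ℂ) =
    Rt N w v.1 := rfl

/-- complements -/
private lemma SIM_compl [N.FiniteIndex] (U : Submodule ℂ (N → ℂ)) (_ : U ≤ SIM_E N)
    (hst : ∀ w, ∀ v ∈ U, Rt N w v ∈ U) :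
    ∃ T : Submodule ℂ (N → ℂ), (∀ w, ∀ v ∈ T, Rt N w v ∈ T) ∧ U ⊓ T = ⊥ ∧ SIM_E N ≤ U ⊔ T := by
  have hfin : Finite (Γ ⧸ N) := inferInstance
  have hne : NeZero (Nat.card (Γ ⧸ N) : ℂ) := ⟨Nat.cast_ne_zero.2 Nat.card_pos.ne'⟩
  let U' : Subrepresentation (SIM_r N) :=
    ⟨U.comap (SIM_E N).subtype, by
      intro q v hv
      induction q using QuotientGroup.induction_on with
      | H w =>
        change ((SIM_r N (QuotientGroup.mk w) v : SIM_E N) : N → ℂ) ∈ U
        rw [SIM_r_mk]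
        exact hst w _ hv⟩
  have hss : Representation.IsSemisimpleRepresentation (SIM_r N) := inferInstance
  obtain ⟨T', hT'⟩ := hss.exists_isCompl U'
  refine ⟨T'.toSubmodule.map (SIM_E N).subtype, ?_, ?_, ?_⟩
  · intro w v hv
    obtain ⟨u, hu, rfl⟩ := Submodule.mem_map.1 hv
    refine Submodule.mem_map.2 ⟨SIM_r N (QuotientGroup.mk w) u, T'.apply_mem_toSubmodule _ hu, ?_⟩
    exact SIM_r_mk N w u
  · rw [eq_bot_iff]
    intro v hv
    obtain ⟨h1, h2⟩ := Submodule.mem_inf.1 hv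
    obtain ⟨u, hu, rfl⟩ := Submodule.mem_map.1 h2
    have h3 : u ∈ (U' ⊓ T').toSubmodule := ⟨h1, hu⟩
    rw [hT'.inf_eq_bot] at h3
    have h4 : u = 0 := h3
    rw [h4]
    exact Submodule.zero_mem _
  · intro v hv
    have h3 : (⟨v, hv⟩ : SIM_E N) ∈ (U' ⊔ T').toSubmodule := by
      rw [hT'.sup_eq_top]
      trivial
    obtain ⟨a, ha, b, hb, hab⟩ := Submodule.mem_sup.1 h3
    refine Submodule.mem_sup.2 ⟨a.1, ha, b.1, Submodule.mem_map.2 ⟨b, hb, rfl⟩, ?_⟩
    exact congrArg Subtype.val hab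

end

theorem thm_SIM : St_SIM := by
  intro Γ _ N K hNn hNf hNK f _ hf2 hf3
  -- the function
  let f0 : N → ℂ := fun x => ((f x : ℚ) : ℂ)
  have hK : ∀ k ∈ K, Rt N k f0 = f0 := by
    intro k hk
    funext x
    change ((f (k⁻¹ * x * k) : ℚ) : ℂ) = ((f x : ℚ) : ℂ)
    rw [hf2 k hk x x.2]
  have hf0E : f0 ∈ SIM_E N := fun n hn => hK n (hNK hn)
  have hf0 : f0 ≠ 0 := by
    intro h
    obtain ⟨x, hx, hne⟩ := hf3
    have h1 := congrFun h ⟨x, hx⟩
    change ((f x : ℚ) : ℂ) = 0 at h1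
    exact hne (by exact_mod_cast h1)
  let W : Submodule ℂ (N → ℂ) := Submodule.span ℂ (Set.range fun w : Γ => Rt N w f0)
  have hWE : W ≤ SIM_E N := by
    refine Submodule.span_le.2 ?_
    rintro _ ⟨w, rfl⟩
    exact SIM_stable N w hf0E
  have hWst : ∀ w, ∀ v ∈ W, Rt N w v ∈ W := by
    intro w v hv
    have h1 : W ≤ W.comap (Rt N w) := by
      refine Submodule.span_le.2 ?_
      rintro _ ⟨u, rfl⟩
      change Rt N w (Rt N u f0) ∈ W
      rw [SIM_comp]
      exact Submodule.subset_span ⟨w * u, rfl⟩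
    exact h1 hv
  have hf0W : f0 ∈ W := Submodule.subset_span ⟨1, by
    change Rt N 1 f0 = f0
    rw [map_one]
    rfl⟩
  have hfinite : (Set.range fun w : Γ => Rt N w f0).Finite := by
    refine Set.Finite.subset (Set.finite_range fun q : Γ ⧸ N => Rt N q.out f0) ?_
    rintro _ ⟨w, rfl⟩
    refine ⟨QuotientGroup.mk w, ?_⟩
    obtain ⟨n, hn⟩ := QuotientGroup.mk_out_eq_mul N w
    change Rt N (QuotientGroup.mk w : Γ ⧸ N).out f0 = Rt N w f0
    rw [hn, ← SIM_comp, hf0E _ n.2]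
  have hWfd : FiniteDimensional ℂ W := FiniteDimensional.span_of_finite ℂ hfinite
  -- the submodule with the least dimension
  let P : ℕ → Prop := fun m => ∃ V : Submodule ℂ (N → ℂ), V ≤ W ∧ (∀ w, ∀ v ∈ V, Rt N w v ∈ V) ∧
    (∃ v ∈ V, v ≠ 0 ∧ ∀ k ∈ K, Rt N k v = v) ∧ Module.finrank ℂ V = m
  have hP : ∃ m, P m := ⟨_, W, le_rfl, hWst, ⟨f0, hf0W, hf0, hK⟩, rfl⟩
  classical
  obtain ⟨V, hVW, hVst, ⟨v, hvV, hv0, hvK⟩, hVr⟩ := Nat.find_spec hP
  have hmin : ∀ U : Submodule ℂ (N → ℂ), U < V → (∀ w, ∀ v ∈ U, Rt N w v ∈ U) →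
      ∀ u ∈ U, (∀ k ∈ K, Rt N k u = u) → u = 0 := by
    intro U hUV hUst u hu huK
    by_contra hu0
    have hVfd : FiniteDimensional ℂ V := Submodule.finiteDimensional_of_le hVW
    have h1 := Submodule.finrank_lt_finrank_of_lt hUV
    rw [hVr] at h1
    exact Nat.find_min hP h1 ⟨U, hUV.le.trans hVW, hUst, ⟨u, hu, hu0, huK⟩, rfl⟩
  refine ⟨V, Submodule.finiteDimensional_of_le hVW, hVst, ?_, ⟨v, hvV, hv0, hvK⟩, ?_, ?_⟩
  · intro U hUV hUst
    by_contra hcon
    rw [not_or] at hcon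
    obtain ⟨hUb, hUt⟩ := hcon
    obtain ⟨T, hTst, hUT, hsup⟩ := SIM_compl N U (hUV.trans (hVW.trans hWE)) hUst
    obtain ⟨a, ha, b, hb, hab⟩ := Submodule.mem_sup.1 (hsup (hWE (hVW hvV)))
    -- the components are fixed
    have hfix : ∀ k ∈ K, Rt N k a = a ∧ Rt N k b = b := by
      intro k hk
      have h1 : Rt N k a + Rt N k b = a + b := by
        rw [← map_add, hab, hvK k hk]
      have h2 : Rt N k a - a = b - Rt N k b := by
        rw [sub_eq_sub_iff_add_eq_add, h1, add_comm]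
      have h3 : Rt N k a - a ∈ U ⊓ T := by
        refine ⟨U.sub_mem (hUst k a ha) ha, ?_⟩
        rw [h2]
        exact T.sub_mem hb (hTst k b hb)
      rw [hUT] at h3
      have h4 : Rt N k a - a = 0 := h3
      refine ⟨sub_eq_zero.1 h4, ?_⟩
      rw [h4] at h2
      exact (sub_eq_zero.1 h2.symm).symm
    have ha0 : a = 0 := hmin U (lt_of_le_of_ne hUV hUt) hUst a ha fun k hk => (hfix k hk).1
    have hbV : b ∈ V := by
      have h1 : b = v := by
        rw [← hab, ha0, zero_add]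
      rw [h1]
      exact hvV
    have hlt : T ⊓ V < V := by
      refine lt_of_le_of_ne inf_le_right ?_
      intro h
      apply hUb
      rw [eq_bot_iff, ← hUT]
      exact le_inf le_rfl (hUV.trans (by rw [← h]; exact inf_le_left))
    have hb0 : b = 0 := hmin (T ⊓ V) hlt (fun w u hu => ⟨hTst w u hu.1, hVst w u hu.2⟩) b ⟨hb, hbV⟩
      fun k hk => (hfix k hk).2
    apply hv0
    rw [← hab, ha0, hb0, add_zero]
  · intro w hw u hu
    exact hWE (hVW hu) w hw
  · intro u hu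
    obtain ⟨c, hc⟩ := Finsupp.mem_span_range_iff_exists_finsupp.1 (hVW hu)
    refine ⟨c.support, inferInstance, fun j => c j, fun j => j, ?_⟩
    intro x
    have h1 := congrFun hc x
    rw [← h1, Finsupp.sum, Finset.sum_apply]
    rw [← Finset.sum_coe_sort]
    rfl

end Pool.Agent.PWK
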