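import Pool.Agent.PWK.FIN

/-!
# PWK, part C (central and scalar curves): statements (helper17)

Every `St_XXX` is proved in its own file `PWK/XXX.lean` as `thm_XXX : St_XXX`.
-/

set_option autoImplicit false

open scoped BigOperators

namespace Pool.Agent.PWK

open Pool.Agent.PW

/-- the inner form of the theorem: a class with finite orbit is zero if `a 0` is killed -/
def KilledFine : Prop := ∀ (g n : ℕ) (hg : 0 < g) (N : Subgroup (F g n)) (f : F g n → ℚ),
  Fine N f → ga ⟨0, hg⟩ ∈ N → ∀ x ∈ N, f x = 0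

/-- EXT: extension of an invariant class to a larger group.  Proof: `N` is normal of finite index
(`Good.normal`, `Good.fin`).  Additive extension: as in the proof of `Good.vanish` (`PW/Vanish`): the
weights `H q = 1` if `q` is in the image of `M`, else `0`; `M ≤ kp H`; `tr N f H` is additive on `M`
(`tr_mul`) and `tr N f H x = c * f x` for `x ∈ N`, `c` the number of the `q` with `H q = 1` (`tr_mem`, invariance
under `M`); `f1 x = tr N f H x / c` for `x ∈ M` (and anything outside `M`).  Since `f1` is additive on `M` and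
`x ^ L ∈ N` (`exists_exp`), `f1 x = f (x ^ L) / L` for `x ∈ M`, so `f1` is determined by `f` on `N`.
`Good M f1`: `fin`: `Subgroup.finiteIndex_of_le`; `bdry`, `marked`: the `L`-th power is in `N` and is
killed by `f` (`conj_pow`; for `marked`: `(gc j ^ m) ^ L = gc j ^ (m * L)`); `stab`: let `T ∈ MCG`, `L₀ > 0`.
The homomorphisms `mk' N ∘ T^k : F g n → F g n ⧸ N`, `k : ℕ`, are in a finite set (the generators
are finite in number, the quotient is finite), so `mk' N ∘ T^i = mk' N ∘ T^j` for some `i < j`, hence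
`T^(j-i) x * x⁻¹ ∈ N` for all `x` (put `x = T^i y`).  Apply `h.good.stab` to `T` and `L₀ * (j - i)`; it gives `M₀` with
`f (T^M₀ x) = f x` on `N`, hence the same for `f1` on `M` (`T^M₀` keeps `N`; use the formula with `x ^ L`).
`orb`: for every `φ ∈ MCG` with `φ x * x⁻¹ ∈ M` for all `x` the function `mk' N ∘ φ` is in the finite set of
homomorphisms `F g n → F g n ⧸ N`.  For each value choose one such `φ_η`.  If `mk' N ∘ φ = mk' N ∘ φ_η` then
`γ = φ * φ_η⁻¹` satisfies `γ x * x⁻¹ ∈ N`, and `f1 (φ x) = f1 (γ (φ_η x)) = f (γ (φ_η (x ^ L))) / L`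
(`φ_η (x^L) ∈ N`: `φ_η x ∈ M`); `f ∘ γ` on `N` is in the finite set `h.orb`; so `f1 ∘ φ` is in a finite set. -/
def St_EXT : Prop := ∀ (g n : ℕ) (N M : Subgroup (F g n)) (f : F g n → ℚ), Fine N f →
  M.Normal → N ≤ M → (∀ m ∈ M, ∀ x ∈ N, f (m * x * m⁻¹) = f x) →
  ∃ f1 : F g n → ℚ, Fine M f1 ∧ ∀ x ∈ N, f1 x = f x

/-- CEN: one central curve.  Proof: let `a = ga ⟨0, hg⟩` and
`M = {x | ∃ k : ℤ, a ^ (-k) * x ∈ N}` (the group generated by `N` and `a`; it is normal: in the quotient by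
`N` it is the cyclic group generated by a central element).  `Good.inv_a` (`PW/Central`) says that `f` is
invariant under conjugation by `a`; `AddOn.conj` that it is invariant under `N`; so it is invariant
under `M`.  `St_EXT`: `Fine M f1`, and `ga 0 ∈ M`, so `f1 = 0` on `M` by `KilledFine`. -/
def St_CEN : Prop := KilledFine → St_EXT → ∀ (g n : ℕ) (hg : 0 < g) (N : Subgroup (F g n))
  (f : F g n → ℚ), Fine N f → (∀ x, cm (ga ⟨0, hg⟩) x ∈ N) → ∀ x ∈ N, f x = 0

/-- COM: combinations of translates.  Proof: `normal`, `fin`, `bdryN` are clear, `add`, `bdry`, `marked`: each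
summand (`N` is normal; `w⁻¹ * (v * bdry * v⁻¹) * w` is a conjugate).  `stab`: for `T ∈ MCG`, `L > 0` as in `Good.stab` take the
`M` of `f`; for `x ∈ N`: `w⁻¹ * T^M x * w = T^M (t⁻¹ * x * t)` with `t = (T^M)⁻¹ w`, and `t * w⁻¹ ∈ N` (`L ∣ M`,
`T^M v * v⁻¹ ∈ N`), so `f (w⁻¹ * T^M x * w) = f (t⁻¹ * x * t) = f (w⁻¹ * x * w)` (`AddOn.conj_eq`).  `orb`: for `φ ∈ MCG`
with `φ x * x⁻¹ ∈ N`: `w⁻¹ * φ x * w = φ (t⁻¹ * x * t)`, `t = φ⁻¹ w ≡ w`; with `h = f ∘ φ` on `N` (additive,
in the finite set): `f (w⁻¹ * φ x * w) = h (t⁻¹ x t) = h (w⁻¹ x w)`; so the function on `N` for the combination is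
determined by `h`: the image of a finite set. -/
def St_COM : Prop := ∀ (g n : ℕ) (N : Subgroup (F g n)) (f : F g n → ℚ), Fine N f →
  ∀ (ι : Type) [Fintype ι] (q : ι → ℚ) (w : ι → F g n),
  Fine N (fun x => ∑ j, q j * f ((w j)⁻¹ * x * w j))

/-- the translation operators on the functions on a normal subgroup:
`(Rt N w h) x = h (w⁻¹ * x * w)` -/
def Rt {Γ : Type} [Group Γ] (N : Subgroup Γ) [hN : N.Normal] : Representation ℂ Γ (N → ℂ) where
  toFun w :=
    { toFun := fun h x => h ⟨w⁻¹ * x * w, by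
        have := hN.conj_mem x.1 x.2 w⁻¹
        rwa [inv_inv] at this⟩
      map_add' := fun _ _ => rfl
      map_smul' := fun _ _ => rfl }
  map_one' := by
    apply LinearMap.ext
    intro h
    funext x
    simp
  map_mul' v w := by
    apply LinearMap.ext
    intro h
    funext x
    simp [mul_assoc]

/-- SIM: a simple submodule with a fixed vector.  Proof: let `f₀ : N → ℂ` be the function `f` and `W` the span of
all `Rt N w f₀`, `w ∈ Γ`; it depends only on `w` modulo `N` (`f (n⁻¹ x n) = f x`, additivity), so `W` is finite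
dimensional, it is stable under all `Rt N w`, `N` acts trivially on `W` (conjugation by elements of `N`:
`N` is normal and each translate of `f` is additive on `N`), `f₀ ∈ W` is fixed by `K`, `f₀ ≠ 0`.  Semisimplicity: the
finite group `Γ ⧸ N` acts on `W`; by averaging a projection over `Γ ⧸ N` every stable subspace of `W` has a stable
complement (Maschke; or use `MonoidAlgebra`).  Choose a stable subspace `U` of `W` of maximal dimension with
`f₀ ∉ U`.  Let `V'` be a stable complement of `U` in `W`.  If `V₁ ≤ V'` is stable, `V₁ ≠ 0`, then `f₀ ∈ U + V₁`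
(maximality).  Claim: `V'` is simple: else `V' = V₁ ⊕ V₂`, both stable and nonzero, and `f₀ ∈ (U + V₁) ⊓ (U + V₂) = U`,
a contradiction.  Let `v` be the component of `f₀` in `V'` along `U`: it is not zero, and fixed by `K` (the
projection commutes with all `Rt N w`).  `V = V'`.  Last claim: elements of the span. -/
def St_SIM : Prop := ∀ (Γ : Type) [Group Γ] (N K : Subgroup Γ) [N.Normal] [N.FiniteIndex],
  N ≤ K → ∀ f : Γ → ℚ, (∀ x ∈ N, ∀ y ∈ N, f (x * y) = f x + f y) →
  (∀ k ∈ K, ∀ x ∈ N, f (k⁻¹ * x * k) = f x) → (∃ x ∈ N, f x ≠ 0) →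
  ∃ V : Submodule ℂ (N → ℂ), FiniteDimensional ℂ V ∧ (∀ w, ∀ v ∈ V, Rt N w v ∈ V) ∧
    (∀ U : Submodule ℂ (N → ℂ), U ≤ V → (∀ w, ∀ v ∈ U, Rt N w v ∈ U) → U = ⊥ ∨ U = V) ∧
    (∃ v ∈ V, v ≠ 0 ∧ ∀ k ∈ K, Rt N k v = v) ∧ (∀ w ∈ N, ∀ v ∈ V, Rt N w v = v) ∧
    ∀ v ∈ V, ∃ (ι : Type) (_ : Fintype ι) (c : ι → ℂ) (w : ι → Γ), ∀ x : N,
      v x = ∑ j, c j * ((f ((w j)⁻¹ * x * w j) : ℚ) : ℂ)

/-- every irreducible complex representation of the deck group with a nonzero vector fixed by `K`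
maps some nonseparating simple closed curve to a scalar -/
def ScalarCurves {g n : ℕ} (hg : 0 < g) (K : Subgroup (F g n)) : Prop :=
  ∀ (V : Type) [AddCommGroup V] [Module ℂ V] [FiniteDimensional ℂ V]
    (ρ : Representation ℂ (F g n) V), (∀ x ∈ K.normalCore, ρ x = 1) →
    (∀ U : Submodule ℂ V, (∀ w, ∀ v ∈ U, ρ w v ∈ U) → U = ⊥ ∨ U = ⊤) →
    (∃ v : V, v ≠ 0 ∧ ∀ k ∈ K, ρ k v = v) →
    ∃ θ ∈ MCG g n, ∃ c : ℂ, ∀ v, ρ (θ (ga ⟨0, hg⟩)) v = c • v

/-- the theorem on scalar curves -/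
def OneScalar : Prop := ∀ (g n : ℕ) (hg : 0 < g) (K : Subgroup (F g n)) [K.FiniteIndex],
  bdry g n ∈ K.normalCore → ScalarCurves hg K →
  ∀ f : K → ℚ, IsClass K f → f ≠ 0 → (orbit K f).Infinite

end Pool.Agent.PWK
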