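import Pool.Agent.PWK.St

/-!
# PWK: the refinement and the second shear (module ADL)
-/

set_option autoImplicit false

open scoped BigOperators

namespace Pool.Agent.PWK

theorem thm_ADL : St_ADL := by
  intro hR Ω n x y p q
  obtain ⟨A, h, h1, h2, h3, h4⟩ := hR Ω n y x q p
  refine ⟨(fl n Ω).trans (A.trans (fl n Ω)), fun m => h (fl n Ω m), ?_, ?_, ?_, ?_⟩
  · intro m
    exact congrArg (fl n Ω) (h1 (fl n Ω m))
  · intro m
    exact congrArg (fl n Ω) (h2 (fl n Ω m))
  · intro m
    exact h3 (fl n Ω m)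
  · intro m
    exact h4 (fl n Ω m)

end Pool.Agent.PWK
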