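import Pool.Agent.PWK.St

/-!
# PWK ADM: closure induction over the group generated by the two shears (helper65)
-/

set_option autoImplicit false

open scoped BigOperators

namespace Pool.Agent.PWK

/-- it is enough to check the generators -/
private theorem ADM_gens {M : Type} (X Y X' Y' : Equiv.Perm M) (P Q P' Q' h : M → ℝ)
    (α : MulAut F2) (A : Equiv.Perm M)
    (hx : ∀ m, A (X' m) = ev X Y (α xx) (A m)) (hy : ∀ m, A (Y' m) = ev X Y (α yy) (A m))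
    (cx : ∀ m, cz X Y P Q (α xx) (A m) = P' m + h (X' m) - h m)
    (cy : ∀ m, cz X Y P Q (α yy) (A m) = Q' m + h (Y' m) - h m) :
    (∀ γ m, A (ev X' Y' γ m) = ev X Y (α γ) (A m)) ∧
    (∀ γ m, cz X Y P Q (α γ) (A m) = cz X' Y' P' Q' γ m + h (ev X' Y' γ m) - h m) := by
  have hact : ∀ γ m, A (ev X' Y' γ m) = ev X Y (α γ) (A m) := by
    intro γ m
    rw [ev_conj X' Y' (ev X Y (α xx)) (ev X Y (α yy)) A hx hy, ← ev_pull']
  refine ⟨hact, fun γ m => ?_⟩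
  have e := cz_unique X' Y' (fun w => P' w + (h (X' w) - h w)) (fun w => Q' w + (h (Y' w) - h w))
    (fun γ m => cz X Y P Q (α γ) (A m)) ?_ ?_ ?_ γ m
  · rw [e, cz_add_cob]
    ring
  · intro γ δ w
    simp only [map_mul, cz_mul]
    rw [hact]
  · intro w
    simp only [cx]
    ring
  · intro w
    simp only [cy]
    ring

private theorem ADM_aR (hR : St_ADR) : AdmAt aR := by
  intro Ω n x y p q
  obtain ⟨A, h, h1, h2, h3, h4⟩ := hR Ω n x y p q
  refine ⟨A, h, ?_⟩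
  have e1 : ev x y (aR xx) = x := by rw [aR_xx, ev_xx]
  have e2 : ev x y (aR yy) = y * x := by rw [aR_yy, map_mul, ev_xx, ev_yy]
  have e3 : cz x y p q (aR xx) = p := by
    funext w
    rw [aR_xx, cz_xx]
  have e4 : cz x y p q (aR yy) = fun w => q (x w) + p w := by
    funext w
    rw [aR_yy, cz_mul, cz_xx, cz_yy, ev_xx]
  rw [e1, e2, e3, e4]
  refine ADM_gens _ _ _ _ _ _ _ _ _ _ _ ?_ ?_ ?_ ?_
  · intro m
    rw [aR_xx, ev_xx, h1]
  · intro m
    rw [aR_yy, map_mul, ev_xx, ev_yy, Equiv.Perm.mul_apply, h2]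
  · intro m
    rw [aR_xx, cz_xx, h3]
  · intro m
    rw [aR_yy, cz_mul, cz_xx, cz_yy, ev_xx, h4]

private theorem ADM_aL (hL : ∀ (Ω : Type) (n : ℕ) (x y : Equiv.Perm Ω) (p q : Ω → ℝ),
    ∃ (A : Equiv.Perm (Ω × Fin n × Fin n)) (h : Ω × Fin n × Fin n → ℝ),
    (∀ m, A (hy n y m) = hy n y (A m)) ∧
    (∀ m, A (hx n (x * y) m) = hx n x (hy n y (A m))) ∧
    (∀ m, cY n q (A m) = cY n q m + h (hy n y m) - h m) ∧
    (∀ m, cX n p (hy n y (A m)) + cY n q (A m)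
      = cX n (fun w => p (y w) + q w) m + h (hx n (x * y) m) - h m)) : AdmAt aL := by
  intro Ω n x y p q
  obtain ⟨A, h, h1, h2, h3, h4⟩ := hL Ω n x y p q
  refine ⟨A, h, ?_⟩
  have e1 : ev x y (aL xx) = x * y := by rw [aL_xx, map_mul, ev_xx, ev_yy]
  have e2 : ev x y (aL yy) = y := by rw [aL_yy, ev_yy]
  have e3 : cz x y p q (aL xx) = fun w => p (y w) + q w := by
    funext w
    rw [aL_xx, cz_mul, cz_xx, cz_yy, ev_yy]
  have e4 : cz x y p q (aL yy) = q := by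
    funext w
    rw [aL_yy, cz_yy]
  rw [e1, e2, e3, e4]
  refine ADM_gens _ _ _ _ _ _ _ _ _ _ _ ?_ ?_ ?_ ?_
  · intro m
    rw [aL_xx, map_mul, ev_xx, ev_yy, Equiv.Perm.mul_apply, h2]
  · intro m
    rw [aL_yy, ev_yy, h1]
  · intro m
    rw [aL_xx, cz_mul, cz_xx, cz_yy, ev_yy, h4]
  · intro m
    rw [aL_yy, cz_yy, h3]

private theorem ADM_one : AdmAt 1 := by
  intro Ω n x y p q
  refine ⟨1, fun _ => 0, ?_, ?_⟩
  · intro γ m
    simp only [MulAut.one_apply, ev_xx, ev_yy, Equiv.Perm.one_apply]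
  · intro γ m
    have e3 : cz x y p q xx = p := by
      funext w
      rw [cz_xx]
    have e4 : cz x y p q yy = q := by
      funext w
      rw [cz_yy]
    simp only [MulAut.one_apply, ev_xx, ev_yy, Equiv.Perm.one_apply, e3, e4]
    ring

private theorem ADM_mul {α β : MulAut F2} (hα : AdmAt α) (hβ : AdmAt β) : AdmAt (α * β) := by
  intro Ω n x y p q
  obtain ⟨A, h, h1, h2⟩ := hα Ω n x y p q
  obtain ⟨B, k, k1, k2⟩ := hβ Ω n (ev x y (α xx)) (ev x y (α yy)) (cz x y p q (α xx))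
    (cz x y p q (α yy))
  have e1 : ∀ γ, ev (ev x y (α xx)) (ev x y (α yy)) γ = ev x y (α γ) :=
    fun γ => (ev_pull' x y α γ).symm
  have e2 : ∀ γ, cz (ev x y (α xx)) (ev x y (α yy)) (cz x y p q (α xx)) (cz x y p q (α yy)) γ
      = cz x y p q (α γ) := by
    intro γ
    funext w
    exact (cz_pull' x y p q α γ w).symm
  rw [e1, e1] at k1
  rw [e1, e1, e2, e2] at k2
  refine ⟨A * B, fun m => k m + h (B m), ?_, ?_⟩
  · intro γ m
    simp only [MulAut.mul_apply, Equiv.Perm.mul_apply]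
    rw [k1, h1]
  · intro γ m
    simp only [MulAut.mul_apply, Equiv.Perm.mul_apply]
    rw [h2, k2, k1]
    ring

private theorem ADM_inv {α : MulAut F2} (hα : AdmAt α) : AdmAt α⁻¹ := by
  intro Ω n x y p q
  obtain ⟨A, h, h1, h2⟩ := hα Ω n (ev x y (α⁻¹ xx)) (ev x y (α⁻¹ yy)) (cz x y p q (α⁻¹ xx))
    (cz x y p q (α⁻¹ yy))
  have e1 : ∀ γ, ev (ev x y (α⁻¹ xx)) (ev x y (α⁻¹ yy)) (α γ) = ev x y γ := by
    intro γ
    rw [← ev_pull' x y α⁻¹, MulAut.inv_apply_self]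
  have e2 : ∀ γ, cz (ev x y (α⁻¹ xx)) (ev x y (α⁻¹ yy)) (cz x y p q (α⁻¹ xx))
      (cz x y p q (α⁻¹ yy)) (α γ) = cz x y p q γ := by
    intro γ
    funext w
    rw [← cz_pull' x y p q α⁻¹, MulAut.inv_apply_self]
  have e3 : cz x y p q xx = p := by
    funext w
    rw [cz_xx]
  have e4 : cz x y p q yy = q := by
    funext w
    rw [cz_yy]
  rw [e1, e1, ev_xx, ev_yy] at h1
  rw [e1, e1, e2, e2, ev_xx, ev_yy, e3, e4] at h2
  have h1' : ∀ γ m, A⁻¹ (ev (hx n (ev x y (α⁻¹ xx))) (hy n (ev x y (α⁻¹ yy))) γ m)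
      = ev (hx n x) (hy n y) (α⁻¹ γ) (A⁻¹ m) := by
    intro γ m
    rw [Equiv.Perm.inv_eq_iff_eq, h1]
    simp
  refine ⟨A⁻¹, fun m => - h (A⁻¹ m), h1', ?_⟩
  intro γ m
  have e := h2 (α⁻¹ γ) (A⁻¹ m)
  rw [← h1', MulAut.apply_inv_self, show A (A⁻¹ m) = m from A.apply_symm_apply m] at e
  linarith

theorem thm_ADM : St_ADM := by
  intro hR hL α hα
  refine Subgroup.closure_induction (p := fun α _ => AdmAt α) ?_ ?_ ?_ ?_ hα
  · rintro α (h | h)
    · rw [h]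
      exact ADM_aR hR
    · rw [h]
      exact ADM_aL (hL hR)
  · exact ADM_one
  · intro a b _ _ ha hb
    exact ADM_mul ha hb
  · intro a _ ha
    exact ADM_inv ha

end Pool.Agent.PWK
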