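import Pool.Agent.PWK.St

/-!
# PWK, ADR: refinement by the right shear (helper30)
-/

set_option autoImplicit false

open scoped BigOperators

namespace Pool.Agent.PWK

private theorem ADR_hx1 {Ω : Type} (n : ℕ) (x : Equiv.Perm Ω) (s : Ω) (a b : Fin n)
    (h : (a : ℕ) + 1 < n) : hx n x (s, a, b) = (s, ⟨a + 1, h⟩, b) := by
  show (if h : (a : ℕ) + 1 < n then (s, (⟨a + 1, h⟩ : Fin n), b)
    else (x s, ⟨0, a.pos⟩, b)) = _
  rw [dif_pos h]

private theorem ADR_hx2 {Ω : Type} (n : ℕ) (x : Equiv.Perm Ω) (s : Ω) (a b : Fin n)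
    (h : ¬ (a : ℕ) + 1 < n) : hx n x (s, a, b) = (x s, ⟨0, a.pos⟩, b) := by
  show (if h : (a : ℕ) + 1 < n then (s, (⟨a + 1, h⟩ : Fin n), b)
    else (x s, ⟨0, a.pos⟩, b)) = _
  rw [dif_neg h]

private theorem ADR_hy1 {Ω : Type} (n : ℕ) (y : Equiv.Perm Ω) (s : Ω) (a b : Fin n)
    (h : (b : ℕ) + 1 < n) : hy n y (s, a, b) = (s, a, ⟨b + 1, h⟩) := by
  show fl n Ω (hx n y (s, b, a)) = _
  rw [ADR_hx1 n y s b a h]
  rfl

private theorem ADR_hy2 {Ω : Type} (n : ℕ) (y : Equiv.Perm Ω) (s : Ω) (a b : Fin n)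
    (h : ¬ (b : ℕ) + 1 < n) : hy n y (s, a, b) = (y s, a, ⟨0, b.pos⟩) := by
  show fl n Ω (hx n y (s, b, a)) = _
  rw [ADR_hx2 n y s b a h]
  rfl

/-- the isomorphism of the refinements -/
private def ADR_A {Ω : Type} (n : ℕ) (x : Equiv.Perm Ω) : Equiv.Perm (Ω × Fin n × Fin n) where
  toFun u := if h : (u.2.1 : ℕ) + u.2.2 < n then (u.1, ⟨u.2.1 + u.2.2, h⟩, u.2.2)
    else (x u.1, ⟨u.2.1 + u.2.2 - n, by omega⟩, u.2.2)
  invFun u := if (u.2.2 : ℕ) ≤ u.2.1 then (u.1, ⟨u.2.1 - u.2.2, by omega⟩, u.2.2)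
    else (x.symm u.1, ⟨(u.2.1 + n - u.2.2) % n, Nat.mod_lt _ u.2.1.pos⟩, u.2.2)
  left_inv u := by
    obtain ⟨s, a, b⟩ := u
    dsimp only
    have ha := a.2
    have hb := b.2
    by_cases h1 : (a : ℕ) + b < n
    · rw [dif_pos h1]
      dsimp only
      rw [if_pos (Nat.le_add_left _ _)]
      simp only [Prod.mk.injEq, true_and, and_true]
      apply Fin.ext
      simp only
      omega
    · rw [dif_neg h1]
      dsimp only
      rw [if_neg (by omega), Equiv.symm_apply_apply]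
      simp only [Prod.mk.injEq, true_and, and_true]
      apply Fin.ext
      simp only
      have e : (a : ℕ) + b - n + n - b = a := by omega
      rw [e, Nat.mod_eq_of_lt ha]
  right_inv u := by
    obtain ⟨s, a, b⟩ := u
    dsimp only
    have ha := a.2
    have hb := b.2
    by_cases h1 : (b : ℕ) ≤ a
    · rw [if_pos h1]
      dsimp only
      rw [dif_pos (by omega)]
      simp only [Prod.mk.injEq, true_and, and_true]
      apply Fin.ext
      simp only
      omega
    · rw [if_neg h1]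
      dsimp only
      have e : ((a : ℕ) + n - b) % n = (a : ℕ) + n - b := Nat.mod_eq_of_lt (by omega)
      rw [dif_neg (by rw [e]; omega), Equiv.apply_symm_apply]
      simp only [Prod.mk.injEq, true_and, and_true]
      apply Fin.ext
      simp only
      rw [e]
      omega

private theorem ADR_A1 {Ω : Type} (n : ℕ) (x : Equiv.Perm Ω) (s : Ω) (a b : Fin n)
    (h : (a : ℕ) + b < n) : ADR_A n x (s, a, b) = (s, ⟨a + b, h⟩, b) := by
  show (if h : (a : ℕ) + b < n then (s, (⟨a + b, h⟩ : Fin n), b)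
    else (x s, ⟨a + b - n, by omega⟩, b)) = _
  rw [dif_pos h]

private theorem ADR_A2 {Ω : Type} (n : ℕ) (x : Equiv.Perm Ω) (s : Ω) (a b : Fin n)
    (h : ¬ (a : ℕ) + b < n) : ADR_A n x (s, a, b) = (x s, ⟨a + b - n, by omega⟩, b) := by
  show (if h : (a : ℕ) + b < n then (s, (⟨a + b, h⟩ : Fin n), b)
    else (x s, ⟨a + b - n, by omega⟩, b)) = _
  rw [dif_neg h]

private theorem ADR_c1 {Ω : Type} (n : ℕ) (x : Equiv.Perm Ω) (m : Ω × Fin n × Fin n) :
    ADR_A n x (hx n x m) = hx n x (ADR_A n x m) := by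
  obtain ⟨s, a, b⟩ := m
  have ha := a.2
  have hb := b.2
  by_cases h1 : (a : ℕ) + 1 < n
  · rw [ADR_hx1 n x s a b h1]
    by_cases h2 : (a : ℕ) + b < n
    · rw [ADR_A1 n x s a b h2]
      by_cases h3 : (a : ℕ) + b + 1 < n
      · rw [ADR_A1 n x s ⟨a + 1, h1⟩ b (by simp only; omega), ADR_hx1 n x s _ b (by simpa using h3)]
        simp only [Prod.mk.injEq, true_and, and_true]
        apply Fin.ext
        simp only
        omega
      · rw [ADR_A2 n x s ⟨a + 1, h1⟩ b (by simp only; omega), ADR_hx2 n x s _ b (by simpa using h3)]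
        simp only [Prod.mk.injEq, true_and, and_true]
        apply Fin.ext
        simp only
        omega
    · rw [ADR_A2 n x s a b h2, ADR_A2 n x s ⟨a + 1, h1⟩ b (by simp only; omega),
        ADR_hx1 n x (x s) _ b (by simp only; omega)]
      simp only [Prod.mk.injEq, true_and, and_true]
      apply Fin.ext
      simp only
      omega
  · rw [ADR_hx2 n x s a b h1, ADR_A1 n x (x s) _ b (by simp only; omega)]
    by_cases h2 : (a : ℕ) + b < n
    · rw [ADR_A1 n x s a b h2, ADR_hx2 n x s _ b (by simp only; omega)]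
      simp only [Prod.mk.injEq, true_and, and_true]
      apply Fin.ext
      simp only
      omega
    · rw [ADR_A2 n x s a b h2, ADR_hx1 n x (x s) _ b (by simp only; omega)]
      simp only [Prod.mk.injEq, true_and, and_true]
      apply Fin.ext
      simp only
      omega

private theorem ADR_c2 {Ω : Type} (n : ℕ) (x y : Equiv.Perm Ω) (m : Ω × Fin n × Fin n) :
    ADR_A n x (hy n (y * x) m) = hy n y (hx n x (ADR_A n x m)) := by
  rw [← ADR_c1]
  obtain ⟨s, a, b⟩ := m
  have ha := a.2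
  have hb := b.2
  by_cases h1 : (b : ℕ) + 1 < n
  · rw [ADR_hy1 n (y * x) s a b h1]
    by_cases h2 : (a : ℕ) + 1 < n
    · rw [ADR_hx1 n x s a b h2]
      by_cases h3 : (a : ℕ) + b + 1 < n
      · rw [ADR_A1 n x s a _ (by simp only; omega), ADR_A1 n x s _ b (by simp only; omega),
          ADR_hy1 n y s _ b h1]
        simp only [Prod.mk.injEq, true_and, and_true]
        apply Fin.ext
        simp only
        omega
      · rw [ADR_A2 n x s a _ (by simp only; omega), ADR_A2 n x s _ b (by simp only; omega),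
          ADR_hy1 n y (x s) _ b h1]
        simp only [Prod.mk.injEq, true_and, and_true]
        apply Fin.ext
        simp only
        omega
    · rw [ADR_hx2 n x s a b h2, ADR_A1 n x (x s) _ b (by simp only; omega),
        ADR_hy1 n y (x s) _ b h1, ADR_A2 n x s a _ (by simp only; omega)]
      simp only [Prod.mk.injEq, true_and, and_true]
      apply Fin.ext
      simp only
      omega
  · rw [ADR_hy2 n (y * x) s a b h1, ADR_A1 n x _ a _ (by simp only; omega)]
    by_cases h2 : (a : ℕ) + 1 < n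
    · rw [ADR_hx1 n x s a b h2, ADR_A2 n x s _ b (by simp only; omega),
        ADR_hy2 n y (x s) _ b h1]
      simp only [Prod.mk.injEq, Equiv.Perm.mul_apply, true_and, and_true]
      apply Fin.ext
      simp only
      omega
    · rw [ADR_hx2 n x s a b h2, ADR_A1 n x (x s) _ b (by simp only; omega),
        ADR_hy2 n y (x s) _ b h1]
      simp only [Prod.mk.injEq, Equiv.Perm.mul_apply, true_and, and_true]
      apply Fin.ext
      simp only
      omega

/-- the transfer function -/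
private def ADR_h {Ω : Type} (n : ℕ) (p : Ω → ℝ) (m : Ω × Fin n × Fin n) : ℝ :=
  if (m.2.1 : ℕ) + m.2.2 < n then 0 else p m.1

private theorem ADR_h1 {Ω : Type} (n : ℕ) (p : Ω → ℝ) (s : Ω) (a b : Fin n)
    (h : (a : ℕ) + b < n) : ADR_h n p (s, a, b) = 0 := if_pos h

private theorem ADR_h2 {Ω : Type} (n : ℕ) (p : Ω → ℝ) (s : Ω) (a b : Fin n)
    (h : ¬ (a : ℕ) + b < n) : ADR_h n p (s, a, b) = p s := if_neg h

private theorem ADR_X1 {Ω : Type} (n : ℕ) (p : Ω → ℝ) (s : Ω) (a b : Fin n)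
    (h : (a : ℕ) + 1 < n) : cX n p (s, a, b) = 0 := if_pos h

private theorem ADR_X2 {Ω : Type} (n : ℕ) (p : Ω → ℝ) (s : Ω) (a b : Fin n)
    (h : ¬ (a : ℕ) + 1 < n) : cX n p (s, a, b) = p s := if_neg h

private theorem ADR_Y1 {Ω : Type} (n : ℕ) (q : Ω → ℝ) (s : Ω) (a b : Fin n)
    (h : (b : ℕ) + 1 < n) : cY n q (s, a, b) = 0 := if_pos h

private theorem ADR_Y2 {Ω : Type} (n : ℕ) (q : Ω → ℝ) (s : Ω) (a b : Fin n)
    (h : ¬ (b : ℕ) + 1 < n) : cY n q (s, a, b) = q s := if_neg h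

private theorem ADR_c3 {Ω : Type} (n : ℕ) (x : Equiv.Perm Ω) (p : Ω → ℝ)
    (m : Ω × Fin n × Fin n) :
    cX n p (ADR_A n x m) = cX n p m + ADR_h n p (hx n x m) - ADR_h n p m := by
  obtain ⟨s, a, b⟩ := m
  have ha := a.2
  have hb := b.2
  by_cases h1 : (a : ℕ) + 1 < n
  · rw [ADR_hx1 n x s a b h1, ADR_X1 n p s a b h1]
    by_cases h2 : (a : ℕ) + b < n
    · rw [ADR_A1 n x s a b h2, ADR_h1 n p s a b h2]
      by_cases h3 : (a : ℕ) + b + 1 < n
      · rw [ADR_X1 n p s _ b (by simpa using h3), ADR_h1 n p s _ b (by simp only; omega)]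
        ring
      · rw [ADR_X2 n p s _ b (by simpa using h3), ADR_h2 n p s _ b (by simp only; omega)]
        ring
    · rw [ADR_A2 n x s a b h2, ADR_h2 n p s a b h2, ADR_X1 n p (x s) _ b (by simp only; omega),
        ADR_h2 n p s _ b (by simp only; omega)]
      ring
  · rw [ADR_hx2 n x s a b h1, ADR_X2 n p s a b h1, ADR_h1 n p (x s) _ b (by simp only; omega)]
    by_cases h2 : (a : ℕ) + b < n
    · rw [ADR_A1 n x s a b h2, ADR_h1 n p s a b h2, ADR_X2 n p s _ b (by simp only; omega)]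
      ring
    · rw [ADR_A2 n x s a b h2, ADR_h2 n p s a b h2, ADR_X1 n p (x s) _ b (by simp only; omega)]
      ring

private theorem ADR_c4 {Ω : Type} (n : ℕ) (x y : Equiv.Perm Ω) (p q : Ω → ℝ)
    (m : Ω × Fin n × Fin n) :
    cY n q (hx n x (ADR_A n x m)) + cX n p (ADR_A n x m) =
      cY n (fun w => q (x w) + p w) m + ADR_h n p (hy n (y * x) m) - ADR_h n p m := by
  rw [← ADR_c1, ADR_c3]
  obtain ⟨s, a, b⟩ := m
  have ha := a.2
  have hb := b.2
  by_cases h1 : (b : ℕ) + 1 < n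
  · rw [ADR_hy1 n (y * x) s a b h1, ADR_Y1 n _ s a b h1]
    by_cases h2 : (a : ℕ) + 1 < n
    · rw [ADR_hx1 n x s a b h2, ADR_X1 n p s a b h2]
      by_cases h3 : (a : ℕ) + b + 1 < n
      · rw [ADR_A1 n x s _ b (by simp only; omega), ADR_Y1 n q s _ b h1,
          ADR_h1 n p s _ b (by simp only; omega), ADR_h1 n p s a ⟨b + 1, h1⟩ (by simp only; omega)]
        ring
      · rw [ADR_A2 n x s _ b (by simp only; omega), ADR_Y1 n q (x s) _ b h1,
          ADR_h2 n p s _ b (by simp only; omega), ADR_h2 n p s a ⟨b + 1, h1⟩ (by simp only; omega)]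
        ring
    · rw [ADR_hx2 n x s a b h2, ADR_X2 n p s a b h2, ADR_A1 n x (x s) _ b (by simp only; omega),
        ADR_Y1 n q (x s) _ b h1, ADR_h1 n p (x s) _ b (by simp only; omega),
        ADR_h2 n p s a ⟨b + 1, h1⟩ (by simp only; omega)]
      ring
  · rw [ADR_hy2 n (y * x) s a b h1, ADR_Y2 n _ s a b h1,
      ADR_h1 n p ((y * x) s) a _ (by simp only; omega)]
    by_cases h2 : (a : ℕ) + 1 < n
    · rw [ADR_hx1 n x s a b h2, ADR_X1 n p s a b h2, ADR_A2 n x s _ b (by simp only; omega),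
        ADR_Y2 n q (x s) _ b h1, ADR_h2 n p s _ b (by simp only; omega)]
      ring
    · rw [ADR_hx2 n x s a b h2, ADR_X2 n p s a b h2, ADR_A1 n x (x s) _ b (by simp only; omega),
        ADR_Y2 n q (x s) _ b h1, ADR_h1 n p (x s) _ b (by simp only; omega)]
      ring

/-- **ADR.** -/
theorem thm_ADR : St_ADR := fun _ n x y p q =>
  ⟨ADR_A n x, ADR_h n p, ADR_c1 n x, ADR_c2 n x y, ADR_c3 n x p, ADR_c4 n x y p q⟩

end Pool.Agent.PWK
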