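import Pool.Agent.PWK.St2

/-!
# PWK, part P: automorphisms of the free group of rank two give mapping classes (helper59)
-/

set_option autoImplicit false

namespace Pool.Agent.PWK

open Pool.Agent.PW

variable {g n : ℕ} {S : Type}

/-- an element which fixes the square zero is in the image of the surface group -/
private theorem AMC_fix {hg : 0 < g} (hI : Ind g n hg) (ρ : F g n →* Equiv.Perm S) (γ : F2)
    (s t : S) (h : ev (Xp ρ) (Yp ρ) γ (s, z0 n hg) = (t, z0 n hg)) : ∃ v, iota g n v = γ := by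
  obtain ⟨h1, -, h3, h4⟩ := hI
  obtain ⟨u, i, hi, e⟩ := h3 γ
  have h5 : ev (Xp ρ) (Yp ρ) γ (s, z0 n hg) = (ρ u s, ⟨i, hi⟩) := by
    rw [e, map_mul, Equiv.Perm.mul_apply, h1, h4 S ρ i hi]
  rw [h5] at h
  have h6 : (⟨i, hi⟩ : Fin (dd g n)) = z0 n hg := congrArg Prod.snd h
  have h7 : i = 0 := congrArg Fin.val h6
  refine ⟨u, ?_⟩
  rw [e, h7, pow_zero, one_mul]

/-- the inverse acts trivially too -/
private theorem AMC_inv {ρ : F g n →* Equiv.Perm S} {α : MulAut F2} (h : Tr ρ α) :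
    Tr ρ α⁻¹ := by
  intro γ w
  have h1 := h (α⁻¹ γ) w
  rw [MulAut.apply_inv_self] at h1
  exact h1.symm

/-- the image of the surface group is kept -/
private theorem AMC_img {hg : 0 < g} (hI : Ind g n hg) [Nonempty S]
    {ρ : F g n →* Equiv.Perm S} {α : MulAut F2} (h : Tr ρ α) (u : F g n) :
    ∃ v, iota g n v = α (iota g n u) := by
  obtain ⟨s⟩ := ‹Nonempty S›
  refine AMC_fix hI ρ (α (iota g n u)) s (ρ u s) ?_
  rw [h, hI.1]

/-- the automorphism keeps the conjugacy classes -/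
private theorem AMC_conj {hg : 0 < g} (hI : Ind g n hg) [Nonempty S]
    {ρ : F g n →* Equiv.Perm S} {α : MulAut F2} (h : Tr ρ α) {x y : F g n} {w c : F2}
    (hy : iota g n y = α (iota g n x)) (hx : iota g n x = w * c * w⁻¹) (hc : α c = c) :
    IsConj y x := by
  obtain ⟨s⟩ := ‹Nonempty S›
  obtain ⟨v, hv⟩ := AMC_fix hI ρ (α w * w⁻¹) s s (by
    rw [map_mul, Equiv.Perm.mul_apply, h, map_inv]
    exact (ev (Xp ρ) (Yp ρ) w).apply_symm_apply _)
  have h1 : iota g n y = iota g n (v * x * v⁻¹) := by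
    rw [hy, map_mul, map_mul, map_inv, hv, hx, map_mul, map_mul, map_inv, hc]
    group
  have h2 : y = v * x * v⁻¹ := hI.2.1 h1
  rw [h2]
  exact (isConj_iff.2 ⟨v, rfl⟩ : IsConj x (v * x * v⁻¹)).symm

theorem thm_AMC : St_AMC := by
  intro hL hO g n hg hI S _ ρ α hα hT
  have hT' := AMC_inv hT
  have hinj := hI.2.1
  choose f hf using AMC_img hI hT
  choose f' hf' using AMC_img hI hT'
  have hmul : ∀ u v, f (u * v) = f u * f v := by
    intro u v
    apply hinj
    rw [hf, map_mul, map_mul, map_mul, hf, hf]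
  have hl : ∀ u, f' (f u) = u := by
    intro u
    apply hinj
    rw [hf', hf, MulAut.inv_apply_self]
  have hr : ∀ u, f (f' u) = u := by
    intro u
    apply hinj
    rw [hf, hf', MulAut.apply_inv_self]
  let φ : MulAut (F g n) := { toFun := f, invFun := f', left_inv := hl, right_inv := hr,
                              map_mul' := hmul }
  have hφ : ∀ u, iota g n (φ u) = α (iota g n u) := hf
  have hαc := G0_cc hα
  obtain ⟨o1, o2, o3⟩ := hO g n hg
  obtain ⟨-, -, ⟨w, hw⟩, l4⟩ := hL g n hg F2 (U2 g) (yy ^ dd g n) o1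
  refine ⟨φ, ⟨?_, fun j => ?_⟩, hφ, fun u s => ?_⟩
  · refine AMC_conj hI hT (w := w * yy⁻¹) (c := cc ^ (2 * g - 1)) (hφ _) ?_ ?_
    · show io g n (U2 g) (yy ^ dd g n) (bdry g n) = _
      rw [hw, o2]
      group
    · rw [map_pow, hαc]
  · obtain ⟨w', hw'⟩ := l4 j
    refine AMC_conj hI hT (w := w' * (yy ^ (2 * g + (j : ℕ)))⁻¹) (c := cc⁻¹) (hφ _) ?_ ?_
    · show io g n (U2 g) (yy ^ dd g n) (gc j) = _
      rw [hw', o3]
      simp only [mul_inv_rev, inv_inv, mul_assoc]
    · rw [map_inv, hαc]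
  · have h1 := hI.1 S ρ (φ u) s
    rw [hφ, hT, hI.1] at h1
    exact (congrArg Prod.fst h1).symm

end Pool.Agent.PWK
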