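import Pool.Agent.PWK.St

/-!
# PWK, module AVG: averages of the cocycle over the refinement

The proof follows the docstring of `St_AVG`.
-/

set_option autoImplicit false

open scoped BigOperators

namespace Pool.Agent.PWK

/-- The number of the conditions which fail for one coordinate. -/
private def AVG_s (n l a : ℕ) : ℝ := (if a < l then 1 else 0) + (if n ≤ a + l then 1 else 0)

private theorem AVG_s_nonneg (n l a : ℕ) : 0 ≤ AVG_s n l a := by
  unfold AVG_s
  split_ifs <;> norm_num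

private theorem AVG_s_sum (n l : ℕ) : ∑ a : Fin n, AVG_s n l (a : ℕ) ≤ 2 * l := by
  rw [Fin.sum_univ_eq_sum_range (fun a => AVG_s n l a) n]
  unfold AVG_s
  rw [Finset.sum_add_distrib, Finset.sum_boole, Finset.sum_boole]
  have h1 : ((Finset.range n).filter fun a => a < l).card ≤ l := by
    calc ((Finset.range n).filter fun a => a < l).card ≤ (Finset.range l).card :=
          Finset.card_le_card fun a ha => Finset.mem_range.2 (Finset.mem_filter.1 ha).2
      _ = l := Finset.card_range l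
  have h2 : ((Finset.range n).filter fun a => n ≤ a + l).card ≤ l := by
    calc ((Finset.range n).filter fun a => n ≤ a + l).card ≤ (Finset.Ico (n - l) n).card := by
          refine Finset.card_le_card fun a ha => ?_
          have ha' := Finset.mem_filter.1 ha
          have h3 := Finset.mem_range.1 ha'.1
          rw [Finset.mem_Ico]
          omega
      _ ≤ l := by
          rw [Nat.card_Ico]
          omega
  have h1' : (((Finset.range n).filter fun a => a < l).card : ℝ) ≤ l := by exact_mod_cast h1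
  have h2' : (((Finset.range n).filter fun a => n ≤ a + l).card : ℝ) ≤ l := by exact_mod_cast h2
  linarith

private theorem AVG_count {Ω : Type} [Fintype Ω] (n l : ℕ) :
    ∑ m : Ω × Fin n × Fin n, (AVG_s n l (m.2.1 : ℕ) + AVG_s n l (m.2.2 : ℕ)) ≤
      4 * l * n * Fintype.card Ω := by
  have h1 := AVG_s_sum n l
  rw [Finset.sum_add_distrib]
  have h2 : ∑ m : Ω × Fin n × Fin n, AVG_s n l (m.2.1 : ℕ) =
      (Fintype.card Ω : ℝ) * (n * ∑ a : Fin n, AVG_s n l (a : ℕ)) := by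
    rw [Fintype.sum_prod_type]
    simp only [Fintype.sum_prod_type, Finset.sum_const, Finset.card_univ, Fintype.card_fin,
      nsmul_eq_mul, Finset.mul_sum]
  have h3 : ∑ m : Ω × Fin n × Fin n, AVG_s n l (m.2.2 : ℕ) =
      (Fintype.card Ω : ℝ) * (n * ∑ a : Fin n, AVG_s n l (a : ℕ)) := by
    rw [Fintype.sum_prod_type]
    simp only [Fintype.sum_prod_type, Finset.sum_const, Finset.card_univ, Fintype.card_fin,
      nsmul_eq_mul, Finset.mul_sum]
  rw [h2, h3]
  have h4 : (Fintype.card Ω : ℝ) * (n * ∑ a : Fin n, AVG_s n l (a : ℕ)) ≤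
      (Fintype.card Ω : ℝ) * (n * (2 * l)) := by
    have h5 : (0 : ℝ) ≤ Fintype.card Ω := Nat.cast_nonneg _
    have h6 : (0 : ℝ) ≤ n := Nat.cast_nonneg _
    exact mul_le_mul_of_nonneg_left (mul_le_mul_of_nonneg_left h1 h6) h5
  linarith

private theorem AVG_out {Ω : Type} (n l : ℕ) (m : Ω × Fin n × Fin n) (h : ¬ Inr n l m) :
    1 ≤ AVG_s n l (m.2.1 : ℕ) + AVG_s n l (m.2.2 : ℕ) := by
  have h1 := AVG_s_nonneg n l (m.2.1 : ℕ)
  have h2 := AVG_s_nonneg n l (m.2.2 : ℕ)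
  by_cases ha : (m.2.1 : ℕ) < l
  · have : 1 ≤ AVG_s n l (m.2.1 : ℕ) := by
      unfold AVG_s
      rw [if_pos ha]
      split_ifs <;> norm_num
    linarith
  by_cases hb : n ≤ (m.2.1 : ℕ) + l
  · have : 1 ≤ AVG_s n l (m.2.1 : ℕ) := by
      unfold AVG_s
      rw [if_pos hb]
      split_ifs <;> norm_num
    linarith
  by_cases hc : (m.2.2 : ℕ) < l
  · have : 1 ≤ AVG_s n l (m.2.2 : ℕ) := by
      unfold AVG_s
      rw [if_pos hc]
      split_ifs <;> norm_num
    linarith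
  by_cases hd : n ≤ (m.2.2 : ℕ) + l
  · have : 1 ≤ AVG_s n l (m.2.2 : ℕ) := by
      unfold AVG_s
      rw [if_pos hd]
      split_ifs <;> norm_num
    linarith
  exact absurd ⟨by omega, by omega, by omega, by omega⟩ h

theorem thm_AVG : St_AVG := by
  intro hE γ
  obtain ⟨l, C0, hC0, hE⟩ := hE γ
  set K : ℝ := |((ab γ).1 : ℝ)| + |((ab γ).2 : ℝ)| with hK
  have hK0 : 0 ≤ K := by positivity
  refine ⟨4 * l * C0 + 4 * l * (C0 + K), by positivity, ?_⟩
  intro Ω _ n hn x y P Q F B T hB hT hP hQ hsP hsQ hF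
  obtain ⟨h1, h2⟩ := hE Ω n x y P Q
  have hn' : (0 : ℝ) < n := by exact_mod_cast hn
  set ε : ℝ := 2 * B * ((l + l) / n) with hε
  have hε0 : 0 ≤ ε := by positivity
  have hsl : ∀ (R : Ω × Fin n × Fin n → ℝ), Slow n B R → ∀ m m' : Ω × Fin n × Fin n,
      m.1 = m'.1 → |((m.2.1 : ℕ) : ℤ) - ((m'.2.1 : ℕ) : ℤ)| ≤ l →
      |((m.2.2 : ℕ) : ℤ) - ((m'.2.2 : ℕ) : ℤ)| ≤ l → |R m - R m'| ≤ ε := by
    intro R hR m m' e1 e2 e3
    refine (hR m m' e1).trans ?_
    have e2' : |((m.2.1 : ℕ) : ℝ) - ((m'.2.1 : ℕ) : ℝ)| ≤ l := by exact_mod_cast e2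
    have e3' : |((m.2.2 : ℕ) : ℝ) - ((m'.2.2 : ℕ) : ℝ)| ≤ l := by exact_mod_cast e3
    rw [hε]
    refine mul_le_mul_of_nonneg_left ?_ (by positivity)
    exact div_le_div_of_nonneg_right (add_le_add e2' e3') hn'.le
  have h3 := h1 B hB hP hQ
  have h4 := h2 ε hε0 fun m m' e1 e2 e3 => ⟨hsl P hsP m m' e1 e2 e3, hsl Q hsQ m m' e1 e2 e3⟩
  have hD : ∀ m : Ω × Fin n × Fin n, |cz (hx n x) (hy n y) P Q γ m
      - (((ab γ).1 : ℝ) * P m + ((ab γ).2 : ℝ) * Q m)| ≤
      C0 * ε + (AVG_s n l (m.2.1 : ℕ) + AVG_s n l (m.2.2 : ℕ)) * ((C0 + K) * B) := by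
    intro m
    have h5 := AVG_s_nonneg n l (m.2.1 : ℕ)
    have h6 := AVG_s_nonneg n l (m.2.2 : ℕ)
    have h7 : 0 ≤ (C0 + K) * B := by positivity
    by_cases hI : Inr n l m
    · have := h4 m hI
      have h8 : 0 ≤ (AVG_s n l (m.2.1 : ℕ) + AVG_s n l (m.2.2 : ℕ)) * ((C0 + K) * B) := by
        positivity
      linarith
    · have h8 := AVG_out n l m hI
      have h9 : |((ab γ).1 : ℝ) * P m + ((ab γ).2 : ℝ) * Q m| ≤ K * B := by
        calc |((ab γ).1 : ℝ) * P m + ((ab γ).2 : ℝ) * Q m|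
            ≤ |((ab γ).1 : ℝ) * P m| + |((ab γ).2 : ℝ) * Q m| := abs_add_le _ _
          _ = |((ab γ).1 : ℝ)| * |P m| + |((ab γ).2 : ℝ)| * |Q m| := by rw [abs_mul, abs_mul]
          _ ≤ |((ab γ).1 : ℝ)| * B + |((ab γ).2 : ℝ)| * B :=
              add_le_add (mul_le_mul_of_nonneg_left (hP m) (abs_nonneg _))
                (mul_le_mul_of_nonneg_left (hQ m) (abs_nonneg _))
          _ = K * B := by rw [hK]; ring
      have h10 : |cz (hx n x) (hy n y) P Q γ m
          - (((ab γ).1 : ℝ) * P m + ((ab γ).2 : ℝ) * Q m)| ≤ C0 * B + K * B :=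
        (abs_sub _ _).trans (add_le_add (h3 m) h9)
      have h11 : 1 * ((C0 + K) * B) ≤
          (AVG_s n l (m.2.1 : ℕ) + AVG_s n l (m.2.2 : ℕ)) * ((C0 + K) * B) :=
        mul_le_mul_of_nonneg_right h8 h7
      have h12 : 0 ≤ C0 * ε := by positivity
      linarith
  have hsum : ∑ m : Ω × Fin n × Fin n, (C0 * ε +
      (AVG_s n l (m.2.1 : ℕ) + AVG_s n l (m.2.2 : ℕ)) * ((C0 + K) * B)) ≤
      (4 * l * C0 + 4 * l * (C0 + K)) * B * Fintype.card Ω * n := by
    have e1 : ∑ m : Ω × Fin n × Fin n, (C0 * ε +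
        (AVG_s n l (m.2.1 : ℕ) + AVG_s n l (m.2.2 : ℕ)) * ((C0 + K) * B)) =
        ((Fintype.card Ω * (n * n) : ℕ) : ℝ) * (C0 * ε) +
        (∑ m : Ω × Fin n × Fin n, (AVG_s n l (m.2.1 : ℕ) + AVG_s n l (m.2.2 : ℕ))) *
          ((C0 + K) * B) := by
      rw [Finset.sum_add_distrib, Finset.sum_mul, Finset.sum_const, nsmul_eq_mul,
        Finset.card_univ, Fintype.card_prod, Fintype.card_prod, Fintype.card_fin]
    rw [e1]
    have h13 := mul_le_mul_of_nonneg_right (AVG_count (Ω := Ω) n l)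
      (show 0 ≤ (C0 + K) * B by positivity)
    have h14 : ((Fintype.card Ω * (n * n) : ℕ) : ℝ) * (C0 * ε) =
        4 * l * C0 * B * Fintype.card Ω * n := by
      rw [hε]
      push_cast
      field_simp
      ring
    rw [h14]
    linarith [h13]
  rw [← Finset.sum_sub_distrib]
  calc |∑ m : Ω × Fin n × Fin n, (F m * cz (hx n x) (hy n y) P Q γ m
        - F m * (((ab γ).1 : ℝ) * P m + ((ab γ).2 : ℝ) * Q m))|
      ≤ ∑ m : Ω × Fin n × Fin n, |F m * cz (hx n x) (hy n y) P Q γ m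
        - F m * (((ab γ).1 : ℝ) * P m + ((ab γ).2 : ℝ) * Q m)| :=
        Finset.abs_sum_le_sum_abs _ _
    _ ≤ ∑ m : Ω × Fin n × Fin n, T * (C0 * ε +
        (AVG_s n l (m.2.1 : ℕ) + AVG_s n l (m.2.2 : ℕ)) * ((C0 + K) * B)) := by
        refine Finset.sum_le_sum fun m _ => ?_
        rw [← mul_sub, abs_mul]
        exact mul_le_mul (hF m) (hD m) (abs_nonneg _) hT
    _ = T * ∑ m : Ω × Fin n × Fin n, (C0 * ε +
        (AVG_s n l (m.2.1 : ℕ) + AVG_s n l (m.2.2 : ℕ)) * ((C0 + K) * B)) := by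
        rw [Finset.mul_sum]
    _ ≤ T * ((4 * l * C0 + 4 * l * (C0 + K)) * B * Fintype.card Ω * n) :=
        mul_le_mul_of_nonneg_left hsum hT
    _ = (4 * l * C0 + 4 * l * (C0 + K)) * T * B * Fintype.card Ω * n := by ring

end Pool.Agent.PWK
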