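import Pool.Agent.PWK.St

/-!
# PWK, module BAB (helper98): the real analysis of the weight argument
-/

set_option autoImplicit false

open scoped BigOperators
open Filter Topology

namespace Pool.Agent.PWK

/-- Cauchy and Schwarz for two pairs of functions. -/
private lemma BAB_cs {M : Type} [Fintype M] (F G P Q : M → ℝ) (T : ℝ)
    (hP : ∑ m, P m ^ 2 ≤ T) (hQ : ∑ m, Q m ^ 2 ≤ T) :
    (∑ m, (F m * P m + G m * Q m)) ^ 2 ≤ 2 * T * ∑ m, (F m ^ 2 + G m ^ 2) := by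
  have h1 : (∑ m, F m * P m) ^ 2 ≤ (∑ m, F m ^ 2) * ∑ m, P m ^ 2 :=
    Finset.sum_mul_sq_le_sq_mul_sq _ _ _
  have h2 : (∑ m, G m * Q m) ^ 2 ≤ (∑ m, G m ^ 2) * ∑ m, Q m ^ 2 :=
    Finset.sum_mul_sq_le_sq_mul_sq _ _ _
  have hF : 0 ≤ ∑ m, F m ^ 2 := Finset.sum_nonneg fun _ _ => sq_nonneg _
  have hG : 0 ≤ ∑ m, G m ^ 2 := Finset.sum_nonneg fun _ _ => sq_nonneg _
  have h3 := h1.trans (mul_le_mul_of_nonneg_left hP hF)
  have h4 := h2.trans (mul_le_mul_of_nonneg_left hQ hG)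
  rw [Finset.sum_add_distrib, Finset.sum_add_distrib]
  have h5 : (∑ m, F m * P m + ∑ m, G m * Q m) ^ 2
      ≤ 2 * ((∑ m, F m * P m) ^ 2 + (∑ m, G m * Q m) ^ 2) := by
    have := sq_nonneg (∑ m, F m * P m - ∑ m, G m * Q m)
    nlinarith [this]
  have h6 : 2 * T * (∑ m, F m ^ 2 + ∑ m, G m ^ 2)
      = 2 * ((∑ m, F m ^ 2) * T + (∑ m, G m ^ 2) * T) := by ring
  rw [h6]
  linarith

/-- The double sum of a combination. -/
private lemma BAB_sq {ι M : Type} [Fintype ι] [Fintype M] (a : ι → ℝ) (f : ι → M → ℝ) :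
    ∑ m, (∑ i, a i * f i m) ^ 2 = ∑ i, ∑ j, a i * a j * ∑ m, f i m * f j m := by
  have h1 : ∀ m, (∑ i, a i * f i m) ^ 2 = ∑ i, ∑ j, a i * a j * (f i m * f j m) := by
    intro m
    rw [sq, Finset.sum_mul_sum]
    refine Finset.sum_congr rfl fun i _ => Finset.sum_congr rfl fun j _ => by ring
  rw [Finset.sum_congr rfl fun m _ => h1 m, Finset.sum_comm]
  refine Finset.sum_congr rfl fun i _ => ?_
  rw [Finset.sum_comm]
  refine Finset.sum_congr rfl fun j _ => ?_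
  rw [Finset.mul_sum]

/-- The bound of the sum of the two squares. -/
private lemma BAB_up {ι M : Type} [Fintype ι] [Fintype M] (l : ι → ℝ) (s : ι → ℝ × ℝ)
    (f : ι → M → ℝ) (U E : ℝ)
    (hl : ∀ i, l i ^ 2 * ((s i).1 ^ 2 + (s i).2 ^ 2) = l i)
    (h1 : ∀ i, ∑ m, f i m ^ 2 = U) (hE : 0 ≤ E)
    (h2 : ∀ i j, i ≠ j → |∑ m, f i m * f j m| ≤ E) :
    ∑ m, ((∑ i, l i * (s i).1 * f i m) ^ 2 + (∑ i, l i * (s i).2 * f i m) ^ 2)
      ≤ (∑ i, l i) * U
        + (∑ i, ∑ j, |l i * (s i).1 * (l j * (s j).1) + l i * (s i).2 * (l j * (s j).2)|) * E := by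
  classical
  rw [Finset.sum_add_distrib, BAB_sq, BAB_sq, ← Finset.sum_add_distrib, Finset.sum_mul,
    Finset.sum_mul, ← Finset.sum_add_distrib]
  refine Finset.sum_le_sum fun i _ => ?_
  rw [← Finset.sum_add_distrib, Finset.sum_mul]
  have hd : l i * U = ∑ j, if i = j then l i * U else 0 := by
    rw [Finset.sum_ite_eq Finset.univ i (fun _ => l i * U), if_pos (Finset.mem_univ _)]
  rw [hd, ← Finset.sum_add_distrib]
  refine Finset.sum_le_sum fun j _ => ?_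
  by_cases hij : i = j
  · subst hij
    rw [if_pos rfl]
    have h3 : ∑ m, f i m * f i m = U := by
      rw [← h1 i]
      exact Finset.sum_congr rfl fun m _ => (sq (f i m)).symm
    rw [h3]
    have h4 : l i * (s i).1 * (l i * (s i).1) * U + l i * (s i).2 * (l i * (s i).2) * U
        = l i * U := by
      have h5 : l i * (s i).1 * (l i * (s i).1) * U + l i * (s i).2 * (l i * (s i).2) * U
          = l i ^ 2 * ((s i).1 ^ 2 + (s i).2 ^ 2) * U := by ring
      rw [h5, hl]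
    rw [h4]
    exact le_add_of_nonneg_right (mul_nonneg (abs_nonneg _) hE)
  · rw [if_neg hij, zero_add]
    have h3 : l i * (s i).1 * (l j * (s j).1) * ∑ m, f i m * f j m
        + l i * (s i).2 * (l j * (s j).2) * ∑ m, f i m * f j m
        = (l i * (s i).1 * (l j * (s j).1) + l i * (s i).2 * (l j * (s j).2))
          * ∑ m, f i m * f j m := by ring
    rw [h3]
    refine (le_abs_self _).trans ?_
    rw [abs_mul]
    exact mul_le_mul_of_nonneg_left (h2 i j hij) (abs_nonneg _)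

/-- The linear estimate. -/
private lemma BAB_lin {ι M : Type} [Fintype ι] [Fintype M] (l : ι → ℝ) (s : ι → ℝ × ℝ)
    (f : ι → M → ℝ) (P Q : M → ℝ) (V E : ℝ) (hl : ∀ i, 0 ≤ l i)
    (h : ∀ i, |V - ∑ m, f i m * ((s i).1 * P m + (s i).2 * Q m)| ≤ E) :
    |(∑ i, l i) * V - ∑ m, ((∑ i, l i * (s i).1 * f i m) * P m
      + (∑ i, l i * (s i).2 * f i m) * Q m)| ≤ (∑ i, l i) * E := by
  have h1 : ∑ m, ((∑ i, l i * (s i).1 * f i m) * P m + (∑ i, l i * (s i).2 * f i m) * Q m)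
      = ∑ i, l i * ∑ m, f i m * ((s i).1 * P m + (s i).2 * Q m) := by
    have h2 : ∀ m, (∑ i, l i * (s i).1 * f i m) * P m + (∑ i, l i * (s i).2 * f i m) * Q m
        = ∑ i, l i * (f i m * ((s i).1 * P m + (s i).2 * Q m)) := by
      intro m
      rw [Finset.sum_mul, Finset.sum_mul, ← Finset.sum_add_distrib]
      exact Finset.sum_congr rfl fun i _ => by ring
    rw [Finset.sum_congr rfl fun m _ => h2 m, Finset.sum_comm]
    exact Finset.sum_congr rfl fun i _ => by rw [Finset.mul_sum]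
  rw [h1, Finset.sum_mul, ← Finset.sum_sub_distrib, Finset.sum_mul]
  refine (Finset.abs_sum_le_sum_abs _ _).trans (Finset.sum_le_sum fun i _ => ?_)
  rw [← mul_sub, abs_mul, abs_of_nonneg (hl i)]
  exact mul_le_mul_of_nonneg_left (h i) (hl i)

/-- The limit. -/
private lemma BAB_lim (Z c C S K D : ℝ) (X : ℕ → ℝ)
    (h1 : ∀ n : ℕ, 0 < n → |Z * ((n : ℝ) ^ 2 * c) - X n| ≤ Z * (C * n))
    (h2 : ∀ n : ℕ, 0 < n → X n ^ 2 ≤ 2 * ((n : ℝ) ^ 2 * K) * (Z * ((n : ℝ) ^ 2 * S) + D * (C * n))) :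
    (Z * c) ^ 2 ≤ 2 * K * (Z * S) := by
  have hinv : Tendsto (fun n : ℕ => ((n : ℝ))⁻¹) atTop (𝓝 0) :=
    tendsto_inv_atTop_nhds_zero_nat
  have hx : Tendsto (fun n : ℕ => X n / (n : ℝ) ^ 2) atTop (𝓝 (Z * c)) := by
    have h3 : Tendsto (fun n : ℕ => Z * C * ((n : ℝ))⁻¹) atTop (𝓝 0) := by
      simpa using hinv.const_mul (Z * C)
    rw [tendsto_iff_dist_tendsto_zero]
    refine squeeze_zero' (Eventually.of_forall fun _ => dist_nonneg) ?_ h3
    filter_upwards [eventually_gt_atTop 0] with n hn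
    have hn' : (0 : ℝ) < n := Nat.cast_pos.mpr hn
    rw [Real.dist_eq, abs_sub_comm]
    have h4 : Z * c - X n / (n : ℝ) ^ 2 = (Z * ((n : ℝ) ^ 2 * c) - X n) / (n : ℝ) ^ 2 := by
      field_simp
    rw [h4, abs_div, abs_of_pos (pow_pos hn' 2), div_le_iff₀ (pow_pos hn' 2)]
    refine (h1 n hn).trans (le_of_eq ?_)
    field_simp
  have hr : Tendsto (fun n : ℕ => 2 * K * (Z * S + D * C * ((n : ℝ))⁻¹)) atTop
      (𝓝 (2 * K * (Z * S))) := by
    have := ((hinv.const_mul (D * C)).const_add (Z * S)).const_mul (2 * K)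
    simpa using this
  refine le_of_tendsto_of_tendsto (hx.pow 2) hr ?_
  filter_upwards [eventually_gt_atTop 0] with n hn
  have hn' : (0 : ℝ) < n := Nat.cast_pos.mpr hn
  rw [div_pow, div_le_iff₀ (pow_pos (pow_pos hn' 2) 2)]
  refine (h2 n hn).trans (le_of_eq ?_)
  field_simp

theorem thm_BAB : St_BAB := by
  intro ι _ s M _ f P Q S K c C hS hK hC hf hff hP hQ hc
  set l : ι → ℝ := fun i => 1 / ((s i).1 ^ 2 + (s i).2 ^ 2) with hl
  have hl0 : ∀ i, 0 ≤ l i := fun i =>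
    div_nonneg zero_le_one (add_nonneg (sq_nonneg _) (sq_nonneg _))
  have hl1 : ∀ i, l i ^ 2 * ((s i).1 ^ 2 + (s i).2 ^ 2) = l i := by
    intro i
    rw [hl]
    by_cases h : (s i).1 ^ 2 + (s i).2 ^ 2 = 0
    · simp [h]
    · field_simp
  have hZ : 0 ≤ ∑ i, l i := Finset.sum_nonneg fun i _ => hl0 i
  have key := BAB_lim (∑ i, l i) c C S K
    (∑ i, ∑ j, |l i * (s i).1 * (l j * (s j).1) + l i * (s i).2 * (l j * (s j).2)|)
    (fun n => ∑ m, ((∑ i, l i * (s i).1 * f n i m) * P n m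
      + (∑ i, l i * (s i).2 * f n i m) * Q n m))
    (fun n hn => BAB_lin l s (f n) (P n) (Q n) _ _ hl0 (hc n hn))
    (fun n hn => by
      have h1 := BAB_cs (fun m => ∑ i, l i * (s i).1 * f n i m)
        (fun m => ∑ i, l i * (s i).2 * f n i m) (P n) (Q n) _ (hP n hn) (hQ n hn)
      have h2 := BAB_up l s (f n) _ _ hl1 (hf n hn)
        (mul_nonneg hC (Nat.cast_nonneg n)) (hff n hn)
      exact h1.trans (mul_le_mul_of_nonneg_left h2
        (mul_nonneg zero_le_two (mul_nonneg (sq_nonneg _) hK))))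
  change c ^ 2 * ∑ i, l i ≤ 2 * K * S
  rcases hZ.eq_or_lt with h0 | h0
  · rw [← h0, mul_zero]
    exact mul_nonneg (mul_nonneg zero_le_two hK) hS
  · have h3 : (∑ i, l i) * (c ^ 2 * ∑ i, l i) ≤ (∑ i, l i) * (2 * K * S) := by
      calc (∑ i, l i) * (c ^ 2 * ∑ i, l i) = ((∑ i, l i) * c) ^ 2 := by ring
        _ ≤ 2 * K * ((∑ i, l i) * S) := key
        _ = (∑ i, l i) * (2 * K * S) := by ring
    exact le_of_mul_le_mul_left h3 h0

end Pool.Agent.PWK
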