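import Pool.Agent.PWK.St

/-!
# PWK: BES, assembly of the inequality
-/

set_option autoImplicit false

open scoped BigOperators

namespace Pool.Agent.PWK

private theorem BES_lf_hx {Ω : Type} (n : ℕ) (x : Equiv.Perm Ω) (ψ : Ω → ℝ) (h : ∀ w, ψ (x w) = ψ w)
    (m : Ω × Fin n × Fin n) : lf n ψ (hx n x m) = lf n ψ m := by
  unfold lf
  have h1 : (hx n x m).1 = m.1 ∨ (hx n x m).1 = x m.1 := by
    by_cases hm : (m.2.1 : ℕ) + 1 < n
    · left
      simp [hx, hm]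
    · right
      simp [hx, hm]
  rcases h1 with h1 | h1
  · rw [h1]
  · rw [h1, h]

private theorem BES_sum_lf {Ω : Type} [Fintype Ω] (n : ℕ) (F : Ω → ℝ) :
    ∑ m : Ω × Fin n × Fin n, F m.1 = (n : ℝ) ^ 2 * ∑ w, F w := by
  rw [Fintype.sum_prod_type]
  simp only [Finset.sum_const, Finset.card_univ, Fintype.card_prod, Fintype.card_fin, nsmul_eq_mul]
  rw [← Finset.mul_sum]
  push_cast
  ring

private theorem BES_sq {Ω : Type} [Fintype Ω] (n : ℕ) (B : ℝ) (P : Ω × Fin n × Fin n → ℝ) (h : ∀ m, |P m| ≤ B) :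
    ∑ m, P m ^ 2 ≤ (n : ℝ) ^ 2 * (Fintype.card Ω * B ^ 2) := by
  have h1 : ∀ m ∈ (Finset.univ : Finset (Ω × Fin n × Fin n)), P m ^ 2 ≤ B ^ 2 := by
    intro m _
    rw [← sq_abs (P m)]
    exact pow_le_pow_left₀ (abs_nonneg _) (h m) 2
  have h2 := Finset.sum_le_card_nsmul _ _ _ h1
  rw [nsmul_eq_mul, Finset.card_univ] at h2
  refine h2.trans (le_of_eq ?_)
  simp only [Fintype.card_prod, Fintype.card_fin]
  push_cast
  ring

theorem thm_BES : St_BES := by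
  intro hLFT hEST hAVG hBIL hQIN hINV hDET hORP hBAB hAdm Ω _ x y ψ p q B hB hψ hcl hp hq ι _ α hα hGd hdt
  classical
  have hW : ∀ (n : ℕ) (i : ι), ∃ (A : Equiv.Perm (Ω × Fin n × Fin n)) (v : Ω × Fin n × Fin n → ℝ),
      Wit (hx n x) (hy n y) (fun _ => 0) (lf n ψ) (α i) A v := by
    intro n i
    obtain ⟨h1, u, h2⟩ := hGd i
    exact hLFT (α i) (hAdm _ (hα i)) Ω n x y ψ u hψ h1 h2
  choose A v hA using hW
  set T : ℝ := ∑ w, |ψ w| with hT
  have hT0 : 0 ≤ T := Finset.sum_nonneg fun w _ => abs_nonneg _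
  have hψT : ∀ w, |ψ w| ≤ T := fun w =>
    Finset.single_le_sum (f := fun w => |ψ w|) (fun w _ => abs_nonneg _) (Finset.mem_univ w)
  have h1 : ∀ i, ∃ C : ℝ, 0 ≤ C ∧ ∀ n : ℕ, 0 < n →
      |(n : ℝ) ^ 2 * (∑ w, ψ w * p w) - ∑ m, lf n ψ ((A n i)⁻¹ m) *
        (((ab (α i xx)).1 : ℝ) * bp n y p m + ((ab (α i xx)).2 : ℝ) * bq n x q m)| ≤ C * n := by
    intro i
    obtain ⟨C, hC0, hC⟩ := hAVG hEST (α i xx)
    refine ⟨C * T * B * Fintype.card Ω, by positivity, ?_⟩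
    intro n hn
    obtain ⟨hc, hP, hQ, hsP, hsQ, hsum⟩ := hBIL Ω n hn x y ψ p q B hψ hcl hp hq
    have h3 := hC Ω n hn x y (bp n y p) (bq n x q) (fun m => lf n ψ ((A n i)⁻¹ m)) B T hB hT0 hP hQ hsP hsQ
      (fun m => hψT _)
    have h4 := hINV hQIN (α i) (hα i) (Ω × Fin n × Fin n) (hx n x) (hy n y) (lf n ψ) (bp n y p) (bq n x q)
      (BES_lf_hx n x ψ hψ) hc (A n i) (v n i) (hA n i)
    rw [hsum] at h4
    rw [h4] at h3
    exact h3
  choose C1 hC1 hC1' using h1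
  have h2 : ∀ i j, ∃ C : ℝ, 0 ≤ C ∧ (i ≠ j → ∀ n : ℕ, 0 < n →
      |∑ m, lf n ψ ((A n i)⁻¹ m) * lf n ψ ((A n j)⁻¹ m)| ≤ C * n) := by
    intro i j
    by_cases hij : i = j
    · exact ⟨0, le_refl _, fun h => absurd hij h⟩
    · have hmem : (α j)⁻¹ * α i ∈ G0 := G0.mul_mem (G0.inv_mem (hα j)) (hα i)
      have hne : (ab (((α j)⁻¹ * α i) xx)).2 ≠ 0 := by
        rw [hDET (α i) (hα i) (α j) (hα j)]
        exact hdt j i (Ne.symm hij)
      obtain ⟨C, hC0, hC⟩ := hORP hEST hAVG hQIN hINV ((α j)⁻¹ * α i) hmem hne Ω x y ψ hψ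
      refine ⟨C, hC0, fun _ n hn => ?_⟩
      have h3 := hC n hn ((A n j)⁻¹ * A n i) _ (Wit.mul (Wit.inv (hA n j)) (hA n i))
      rw [mul_inv_rev, inv_inv] at h3
      have h4 : ∑ m, lf n ψ ((A n i)⁻¹ m) * lf n ψ ((A n j)⁻¹ m) =
          ∑ m, lf n ψ (((A n i)⁻¹ * A n j) m) * lf n ψ m := by
        rw [← Equiv.sum_comp (A n j)]
        refine Finset.sum_congr rfl fun m _ => ?_
        rw [Equiv.Perm.mul_apply, show (A n j)⁻¹ (A n j m) = m from (A n j).symm_apply_apply m]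
      rw [h4]
      exact h3
  choose C2 hC2 hC2' using h2
  set C : ℝ := (∑ i, C1 i) + ∑ i, ∑ j, C2 i j with hCdef
  have hsum1 : 0 ≤ ∑ i, C1 i := Finset.sum_nonneg fun i _ => hC1 i
  have hsum2 : 0 ≤ ∑ i, ∑ j, C2 i j := Finset.sum_nonneg fun i _ => Finset.sum_nonneg fun j _ => hC2 i j
  have hC : 0 ≤ C := by rw [hCdef]; linarith
  have hCi : ∀ i, C1 i ≤ C := by
    intro i
    have := Finset.single_le_sum (f := C1) (fun i _ => hC1 i) (Finset.mem_univ i)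
    rw [hCdef]; linarith
  have hCij : ∀ i j, C2 i j ≤ C := by
    intro i j
    have h3 := Finset.single_le_sum (f := fun j => C2 i j) (fun j _ => hC2 i j) (Finset.mem_univ j)
    have h4 := Finset.single_le_sum (f := fun i => ∑ j, C2 i j)
      (fun i _ => Finset.sum_nonneg fun j _ => hC2 i j) (Finset.mem_univ i)
    rw [hCdef]; linarith
  have hmain := hBAB ι (fun i => (((ab (α i xx)).1 : ℝ), ((ab (α i xx)).2 : ℝ)))
    (fun n => Ω × Fin n × Fin n) (fun n i m => lf n ψ ((A n i)⁻¹ m)) (fun n => bp n y p) (fun n => bq n x q)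
    (∑ w, ψ w ^ 2) (Fintype.card Ω * B ^ 2) (∑ w, ψ w * p w) C
    (Finset.sum_nonneg fun w _ => sq_nonneg _) (by positivity) hC ?_ ?_ ?_ ?_ ?_
  · exact hmain
  · intro n _ i
    rw [Equiv.sum_comp (A n i)⁻¹ (fun m => lf n ψ m ^ 2)]
    exact BES_sum_lf n (fun w => ψ w ^ 2)
  · intro n hn i j hij
    refine (hC2' i j hij n hn).trans ?_
    exact mul_le_mul_of_nonneg_right (hCij i j) (Nat.cast_nonneg n)
  · intro n hn
    exact BES_sq n B _ (hBIL Ω n hn x y ψ p q B hψ hcl hp hq).2.1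
  · intro n hn
    exact BES_sq n B _ (hBIL Ω n hn x y ψ p q B hψ hcl hp hq).2.2.1
  · intro n hn i
    refine (hC1' i n hn).trans ?_
    exact mul_le_mul_of_nonneg_right (hCi i) (Nat.cast_nonneg n)

end Pool.Agent.PWK
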