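import Pool.Agent.PWK.St

/-!
# PWK, module BIL: bilinear refinement of a closed cocycle (offer 16236, helper81)

`thm_BIL : St_BIL`.
-/

set_option autoImplicit false

open scoped BigOperators

namespace Pool.Agent.PWK

private theorem BIL_hx {Ω : Type} {n : ℕ} (hn : 0 < n) (x : Equiv.Perm Ω) (q : Ω → ℝ)
    (m : Ω × Fin n × Fin n) : bq n x q (hx n x m) - bq n x q m = (q (x m.1) - q m.1) / n := by
  obtain ⟨w, a, b⟩ := m
  have hn' : (n : ℝ) ≠ 0 := by positivity
  by_cases h : (a : ℕ) + 1 < n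
  · have e : hx n x (w, a, b) = (w, ⟨a + 1, h⟩, b) := by
      show (if h : (a : ℕ) + 1 < n then _ else _) = _
      rw [dif_pos h]
    rw [e]
    unfold bq
    simp only
    push_cast
    field_simp
    ring
  · have e : hx n x (w, a, b) = (x w, ⟨0, a.pos⟩, b) := by
      show (if h : (a : ℕ) + 1 < n then _ else _) = _
      rw [dif_neg h]
    have ha : ((a : ℕ) : ℝ) = (n : ℝ) - 1 := by
      have h1 : (a : ℕ) + 1 = n := by
        have := a.2
        omega
      have h2 : (((a : ℕ) + 1 : ℕ) : ℝ) = (n : ℝ) := by rw [h1]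
      push_cast at h2
      linarith
    rw [e]
    unfold bq
    simp only [ha]
    push_cast
    field_simp
    ring

private theorem BIL_hy {Ω : Type} {n : ℕ} (hn : 0 < n) (y : Equiv.Perm Ω) (p : Ω → ℝ)
    (m : Ω × Fin n × Fin n) : bp n y p (hy n y m) - bp n y p m = (p (y m.1) - p m.1) / n := by
  obtain ⟨w, a, b⟩ := m
  have h := BIL_hx hn y p (w, b, a)
  have e1 : bp n y p (hy n y (w, a, b)) = bq n y p (hx n y (w, b, a)) := rfl
  have e2 : bp n y p (w, a, b) = bq n y p (w, b, a) := rfl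
  rw [e1, e2]
  exact h

private theorem BIL_bd {t u v B : ℝ} (h0 : 0 ≤ t) (h1 : t ≤ 1) (hu : |u| ≤ B) (hv : |v| ≤ B) :
    |(1 - t) * u + t * v| ≤ B := by
  rw [abs_le] at *
  obtain ⟨u1, u2⟩ := hu
  obtain ⟨v1, v2⟩ := hv
  constructor <;> nlinarith

private theorem BIL_bq_bd {Ω : Type} {n : ℕ} (hn : 0 < n) (x : Equiv.Perm Ω) (q : Ω → ℝ) (B : ℝ)
    (hq : ∀ w, |q w| ≤ B) (m : Ω × Fin n × Fin n) : |bq n x q m| ≤ B := by
  have hn' : (0 : ℝ) < n := by exact_mod_cast hn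
  unfold bq
  refine BIL_bd (by positivity) ?_ (hq _) (hq _)
  rw [div_le_one hn']
  exact_mod_cast le_of_lt m.2.1.2

private theorem BIL_slow {Ω : Type} {n : ℕ} (hn : 0 < n) (x : Equiv.Perm Ω) (q : Ω → ℝ) (B : ℝ)
    (hq : ∀ w, |q w| ≤ B) (m m' : Ω × Fin n × Fin n) (h : m.1 = m'.1) :
    |bq n x q m - bq n x q m'| ≤ 2 * B * ((|((m.2.1 : ℕ) : ℝ) - ((m'.2.1 : ℕ) : ℝ)|
      + |((m.2.2 : ℕ) : ℝ) - ((m'.2.2 : ℕ) : ℝ)|) / n) := by
  have hn' : (0 : ℝ) < n := by exact_mod_cast hn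
  have e : bq n x q m - bq n x q m'
      = ((((m.2.1 : ℕ) : ℝ) - ((m'.2.1 : ℕ) : ℝ)) / n) * (q (x m.1) - q m.1) := by
    unfold bq
    rw [← h]
    field_simp
    ring
  have hB : 0 ≤ B := le_trans (abs_nonneg _) (hq m.1)
  have h2 : |q (x m.1) - q m.1| ≤ 2 * B := by
    have h3 := hq (x m.1)
    have h4 := hq m.1
    rw [abs_le] at *
    constructor <;> linarith
  rw [e, abs_mul, abs_div, abs_of_pos hn']
  calc |((m.2.1 : ℕ) : ℝ) - ((m'.2.1 : ℕ) : ℝ)| / n * |q (x m.1) - q m.1|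
      ≤ |((m.2.1 : ℕ) : ℝ) - ((m'.2.1 : ℕ) : ℝ)| / n * (2 * B) :=
        mul_le_mul_of_nonneg_left h2 (by positivity)
    _ = 2 * B * (|((m.2.1 : ℕ) : ℝ) - ((m'.2.1 : ℕ) : ℝ)| / n) := by ring
    _ ≤ _ := by
        refine mul_le_mul_of_nonneg_left ?_ (by positivity)
        refine div_le_div_of_nonneg_right ?_ hn'.le
        have := abs_nonneg (((m.2.2 : ℕ) : ℝ) - ((m'.2.2 : ℕ) : ℝ))
        linarith

/-- **BIL** -/
theorem thm_BIL : St_BIL := by
  intro Ω _ n hn x y ψ p q B hψ hcl hp hq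
  have hn' : (0 : ℝ) < n := by exact_mod_cast hn
  refine ⟨?_, ?_, BIL_bq_bd hn x q B hq, ?_, BIL_slow hn x q B hq, ?_⟩
  · intro m
    have h1 := BIL_hx hn x q m
    have h2 := BIL_hy hn y p m
    have h3 := hcl m.1
    have h4 : p (y m.1) - p m.1 = q (x m.1) - q m.1 := by linarith
    rw [h4] at h2
    linarith
  · intro m
    exact BIL_bq_bd hn y p B hp (m.1, m.2.2, m.2.1)
  · intro m m' h
    have h1 := BIL_slow hn y p B hp (m.1, m.2.2, m.2.1) (m'.1, m'.2.2, m'.2.1) h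
    simp only at h1
    rw [add_comm (|((m.2.2 : ℕ) : ℝ) - ((m'.2.2 : ℕ) : ℝ)|)] at h1
    exact h1
  · have hS : ∑ w, ψ w * p (y w) = ∑ w, ψ w * p w := by
      have h1 : ∑ w, ψ w * q (x w) = ∑ w, ψ w * q w := by
        calc ∑ w, ψ w * q (x w) = ∑ w, ψ (x w) * q (x w) :=
              Finset.sum_congr rfl fun w _ => by rw [hψ w]
          _ = ∑ w, ψ w * q w := Equiv.sum_comp x fun w => ψ w * q w
      have h2 : ∑ w, (ψ w * p (y w) - ψ w * p w) = ∑ w, (ψ w * q (x w) - ψ w * q w) := by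
        refine Finset.sum_congr rfl fun w _ => ?_
        have h3 : p (y w) = q (x w) + p w - q w := by
          have := hcl w
          linarith
        rw [h3]
        ring
      rw [Finset.sum_sub_distrib, Finset.sum_sub_distrib, h1, sub_self] at h2
      linarith
    rw [Fintype.sum_prod_type, Finset.sum_comm]
    have hc : ∀ c : Fin n × Fin n, ∑ w, lf n ψ (w, c) * bp n y p (w, c) = ∑ w, ψ w * p w := by
      intro c
      have h1 : ∀ w, lf n ψ (w, c) * bp n y p (w, c)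
          = (1 - ((c.2 : ℕ) : ℝ) / n) * (ψ w * p w) + (((c.2 : ℕ) : ℝ) / n) * (ψ w * p (y w)) := by
        intro w
        unfold lf bp
        simp only
        ring
      rw [Finset.sum_congr rfl fun w _ => h1 w, Finset.sum_add_distrib, ← Finset.mul_sum,
        ← Finset.mul_sum, hS]
      ring
    rw [Finset.sum_congr rfl fun c _ => hc c, Finset.sum_const, Finset.card_univ,
      Fintype.card_prod, Fintype.card_fin, nsmul_eq_mul]
    push_cast
    ring

end Pool.Agent.PWK
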