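import Pool.Agent.PWK.St2

/-!
# PWK, CRO: the class as a cocycle of the free group of rank two (helper94)

Text: PWK_h17.md (team store), statement `St_CRO` in `PWK/St2.lean`.  Two cocycles of the surface group
with values in the functions on `F ⧸ N` are equal on a subgroup; it contains the elements `ul i` and
`Al`, so it is everything.
-/

set_option autoImplicit false

open scoped BigOperators

namespace Pool.Agent.PWK

open Pool.Agent.PW

section coc

variable {G Q : Type} [Group G] [MulAction G Q] {C C' : G → Q → ℝ}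

private theorem CRO_one (hm : ∀ u v q, C (u * v) q = C u (v • q) + C v q) (q : Q) :
    C 1 q = 0 := by
  have h := hm 1 1 q
  rw [mul_one, one_smul] at h
  linarith

private theorem CRO_inv (hm : ∀ u v q, C (u * v) q = C u (v • q) + C v q) (u : G) (q : Q) :
    C u⁻¹ q = - C u (u⁻¹ • q) := by
  have h := hm u u⁻¹ q
  rw [mul_inv_cancel, CRO_one hm] at h
  linarith

/-- the elements at which two cocycles are equal -/
private def CRO_eqs (hm : ∀ u v q, C (u * v) q = C u (v • q) + C v q)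
    (hm' : ∀ u v q, C' (u * v) q = C' u (v • q) + C' v q) : Subgroup G where
  carrier := {u | ∀ q, C u q = C' u q}
  mul_mem' := by
    intro u v hu hv q
    rw [hm, hm', hu, hv]
  one_mem' := by
    intro q
    rw [CRO_one hm, CRO_one hm']
  inv_mem' := by
    intro u hu q
    rw [CRO_inv hm, CRO_inv hm', hu]

private theorem CRO_triv {N : Subgroup G} (hN : N.Normal) {u : G} (hu : u ∈ N) (q : G ⧸ N) :
    u • q = q := by
  induction q using QuotientGroup.induction_on with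
  | H w =>
    show ((u * w : G) : G ⧸ N) = (w : G ⧸ N)
    rw [QuotientGroup.eq, mul_inv_rev]
    have h := hN.conj_mem _ (N.inv_mem hu) w⁻¹
    rwa [inv_inv] at h

end coc

section mem

variable {g n : ℕ} {E : Subgroup (F g n)}

private theorem CRO_ak (ha : ∀ i : Fin g, ga i ∈ E) (k : ℕ) : ak g n k ∈ E := by
  unfold ak
  split_ifs with h
  · exact ha _
  · exact E.one_mem

private theorem CRO_bk (hb : ∀ i : Fin g, (i : ℕ) ≠ 0 → gb i ∈ E) {k : ℕ} (hk : k ≠ 0) :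
    bk g n k ∈ E := by
  unfold bk
  split_ifs with h
  · exact hb _ hk
  · exact E.one_mem

private theorem CRO_Pk (ha : ∀ i : Fin g, ga i ∈ E)
    (hb : ∀ i : Fin g, (i : ℕ) ≠ 0 → gb i ∈ E) (hc : ∀ j : Fin n, gc j ∈ E) (k : ℕ) :
    Pk g n k ∈ E := by
  unfold Pk
  refine E.mul_mem (E.mul_mem (seg_mem ?_) (cseg_mem ?_)) (CRO_ak ha 0)
  · intro i hi _
    exact ⟨ha i, hb i (by omega)⟩
  · intro i _ _
    exact hc i

private theorem CRO_vv (ha : ∀ i : Fin g, ga i ∈ E)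
    (hb : ∀ i : Fin g, (i : ℕ) ≠ 0 → gb i ∈ E) (hc : ∀ j : Fin n, gc j ∈ E) (k : ℕ) :
    vv g n k ∈ E := by
  induction k with
  | zero => exact E.one_mem
  | succ k ih =>
    exact E.mul_mem (E.mul_mem ih (E.inv_mem (CRO_bk hb (Nat.succ_ne_zero k))))
      (CRO_Pk ha hb hc _)

private theorem CRO_ul (ha : ∀ i : Fin g, ga i ∈ E)
    (hb : ∀ i : Fin g, (i : ℕ) ≠ 0 → gb i ∈ E) (hc : ∀ j : Fin n, gc j ∈ E) {i : ℕ}
    (hi : i ≠ 0) : ul g n i ∈ E := by
  unfold ul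
  rw [if_neg hi]
  split_ifs with h1 h2
  · refine E.mul_mem (E.mul_mem (CRO_vv ha hb hc _) (E.mul_mem (cseg_mem ?_) (CRO_ak ha 0)))
      (E.inv_mem (CRO_vv ha hb hc _))
    intro j _ _
    exact hc j
  · exact E.mul_mem (E.mul_mem (E.mul_mem (CRO_vv ha hb hc _)
      (E.inv_mem (CRO_bk hb (Nat.succ_ne_zero _)))) (CRO_Pk ha hb hc _))
      (E.inv_mem (CRO_vv ha hb hc _))
  · exact E.mul_mem (E.mul_mem (CRO_vv ha hb hc _) (CRO_ak ha _))
      (E.inv_mem (CRO_vv ha hb hc _))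

end mem

/-- the class of the surface group, changed by a coboundary -/
private noncomputable def CRO_C {g n : ℕ} (hg : 0 < g) (N : Subgroup (F g n))
    (φ : F g n ⧸ N → ℝ) (u : F g n) (q : F g n ⧸ N) : ℝ :=
  cz (Xp (rh N)) (Yp (rh N)) (fun _ => 0) (psi N φ) (iota g n u) (q, z0 n hg)
    + φ ((bk g n 0)⁻¹ • u • q) - φ ((bk g n 0)⁻¹ • q)

private theorem CRO_xs {g i : ℕ} (hi : i ≠ 0) : xs g i ≠ 0 := by
  unfold xs
  split_ifs <;> omega

private theorem CRO_xs0 (g : ℕ) : xs g 0 = 0 := if_pos (Or.inl rfl)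

theorem thm_CRO : St_CRO := by
  intro hLAB hLBI hORI g n hg hInd N hN ha φ C hC
  obtain ⟨I1, -, -, I4⟩ := hInd
  obtain ⟨O1, -, -⟩ := hORI g n hg
  obtain ⟨L1, L2, -, -⟩ := hLAB g n hg F2 (U2 g) (yy ^ dd g n) O1
  obtain ⟨-, B2⟩ := hLBI g n hg
  have hdd : 0 < dd g n := by unfold dd; omega
  have hak : ak g n 0 = ga ⟨0, hg⟩ := dif_pos hg
  have hbk : bk g n 0 = gb ⟨0, hg⟩ := dif_pos hg
  have hak' : ak g n 0 ∈ N := by rw [hak]; exact ha
  have hu0 : ul g n 0 = bk g n 0 * ak g n 0 * (bk g n 0)⁻¹ := if_pos rfl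
  have hu0' : ul g n 0 ∈ N := by
    rw [hu0]
    exact hN.conj_mem _ hak' _
  -- the first claim
  have hX : ∀ (q : F g n ⧸ N) (i : ℕ) (hi : i < dd g n),
      Xp (rh N) (q, ⟨i, hi⟩) = (ul g n i • q, ⟨xs g i, xs_lt hi⟩) := fun q i hi => rfl
  have hψ : ∀ (q : F g n ⧸ N) (i : ℕ) (hi : i < dd g n),
      psi N φ (q, ⟨i, hi⟩) = if i = 0 then φ ((bk g n 0)⁻¹ • q) else 0 := fun q i hi => rfl
  refine ⟨?_, ?_⟩
  · rintro ⟨q, i, hi⟩
    rw [hX, hψ, hψ]
    by_cases h0 : i = 0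
    · subst h0
      rw [if_pos (CRO_xs0 g), if_pos rfl, CRO_triv hN hu0']
    · rw [if_neg (CRO_xs h0), if_neg h0]
  -- the second claim
  have hpow : ∀ (q : F g n ⧸ N) (i : ℕ), i ≤ dd g n →
      cz (Xp (rh N)) (Yp (rh N)) (fun _ => 0) (psi N φ) (yy ^ i) (q, z0 n hg)
        = if i = 0 then 0 else φ ((bk g n 0)⁻¹ • q) := by
    intro q i
    induction i with
    | zero =>
      intro _
      rw [pow_zero, cz_one, if_pos rfl]
    | succ i ih =>
      intro hi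
      rw [pow_succ', cz_mul, I4 _ _ i (by omega), cz_yy, ih (by omega), hψ,
        if_neg (Nat.succ_ne_zero i)]
      split_ifs
      · ring
      · ring
  have hm' : ∀ (u v : F g n) (q : F g n ⧸ N),
      CRO_C hg N φ (u * v) q = CRO_C hg N φ u (v • q) + CRO_C hg N φ v q := by
    intro u v q
    unfold CRO_C
    rw [map_mul, cz_mul, I1, rh_apply, mul_smul]
    ring
  have hzero : ∀ (u v : F g n) (q : F g n ⧸ N),
      (fun (_ : F g n) (_ : F g n ⧸ N) => (0 : ℝ)) (u * v) q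
      = (fun (_ : F g n) (_ : F g n ⧸ N) => (0 : ℝ)) u (v • q)
      + (fun (_ : F g n) (_ : F g n ⧸ N) => (0 : ℝ)) v q := by
    intro u v q
    simp
  -- the kernel of the crossing cocycle
  have ea : ∀ i : Fin g, ga i ∈ CRO_eqs (C' := fun _ _ => (0 : ℝ)) hC.mul hzero := fun i q => hC.a i q
  have eb : ∀ i : Fin g, (i : ℕ) ≠ 0 → gb i ∈ CRO_eqs (C' := fun _ _ => (0 : ℝ)) hC.mul hzero := by
    intro i hi q
    show C (gb i) q = 0
    rw [hC.b, if_neg hi]
  have ec : ∀ j : Fin n, gc j ∈ CRO_eqs (C' := fun _ _ => (0 : ℝ)) hC.mul hzero := fun j q => hC.c j q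
  have kv : ∀ q, C (vv g n (g - 1))⁻¹ q = 0 :=
    (CRO_eqs (C' := fun _ _ => (0 : ℝ)) hC.mul hzero).inv_mem (CRO_vv ea eb ec (g - 1))
  have ku : ∀ i, i ≠ 0 → ∀ q, C (ul g n i) q = 0 := fun i hi => CRO_ul ea eb ec hi
  have ka : ∀ q, C (ak g n 0) q = 0 := CRO_ak ea 0
  have kb : ∀ q, C (bk g n 0) q = φ q := by
    intro q
    rw [hbk, hC.b, if_pos rfl]
  have htop := B2 (CRO_eqs (C' := CRO_C hg N φ) hC.mul hm') ?_ ?_
  · intro x hx
    have h : C x ((1 : F g n) : F g n ⧸ N)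
        = cz (Xp (rh N)) (Yp (rh N)) (fun _ => 0) (psi N φ) (iota g n x)
            (((1 : F g n) : F g n ⧸ N), z0 n hg)
          + φ ((bk g n 0)⁻¹ • x • ((1 : F g n) : F g n ⧸ N))
          - φ ((bk g n 0)⁻¹ • ((1 : F g n) : F g n ⧸ N)) := by
      have hx' : x ∈ CRO_eqs (C' := CRO_C hg N φ) hC.mul hm' := by
        rw [htop]
        exact Subgroup.mem_top x
      exact hx' _
    rw [CRO_triv hN hx] at h
    linarith
  · intro i hi q
    show C (ul g n i) q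
        = cz (Xp (rh N)) (Yp (rh N)) (fun _ => 0) (psi N φ) (iota g n (ul g n i)) (q, z0 n hg)
          + φ ((bk g n 0)⁻¹ • ul g n i • q) - φ ((bk g n 0)⁻¹ • q)
    have hio : iota g n (ul g n i) = (yy ^ xs g i)⁻¹ * xx * yy ^ i := L1 i hi.le
    rw [hio]
    by_cases h0 : i = 0
    · subst h0
      rw [CRO_xs0, pow_zero, inv_one, one_mul, mul_one, cz_xx, CRO_triv hN hu0' q]
      rw [hu0, hC.mul, hC.mul, CRO_inv hC.mul, ka, CRO_triv hN hak']
      ring
    · have hinv : (ev (Xp (rh N)) (Yp (rh N)) (yy ^ xs g i))⁻¹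
          (ul g n i • q, ⟨xs g i, xs_lt hi⟩) = (ul g n i • q, z0 n hg) := by
        rw [Equiv.Perm.inv_eq_iff_eq, I4 _ _ _ (xs_lt hi)]
      rw [ku i h0, cz_mul, cz_mul, I4 _ _ i hi, cz_xx, ev_xx, hX, cz_inv, hinv,
        hpow _ _ (xs_lt hi).le, hpow _ _ hi.le, if_neg (CRO_xs h0), if_neg h0]
      ring
  · intro q
    show C (Al g n) q
        = cz (Xp (rh N)) (Yp (rh N)) (fun _ => 0) (psi N φ) (iota g n (Al g n)) (q, z0 n hg)
          + φ ((bk g n 0)⁻¹ • Al g n • q) - φ ((bk g n 0)⁻¹ • q)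
    have hio : iota g n (Al g n) = yy ^ dd g n := L2
    have hAl : Al g n = bk g n 0 * (vv g n (g - 1))⁻¹ := rfl
    rw [hio, hpow _ _ le_rfl, if_neg hdd.ne', hAl, hC.mul, kv, kb, mul_smul, inv_smul_smul]
    ring

end Pool.Agent.PWK
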