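import Pool.Agent.PWK.St2

/-!
# PWK, module CRS: the class is a crossing number
-/

set_option autoImplicit false

namespace Pool.Agent.PWK

open Pool.Agent.PW

/-- the choice of representatives -/
theorem CRS_rep {G : Type} [Group G] (N A : Subgroup G) :
    ∃ s : G ⧸ N → G, (∀ q, ((s q : G) : G ⧸ N) = q) ∧ s ((1 : G) : G ⧸ N) = 1 ∧
      ∀ p ∈ A, ∀ q, ∃ r y : G, y ∈ A ∧ (s (p • q))⁻¹ * p * s q = r⁻¹ * y * r := by
  classical
  let R : Setoid (G ⧸ N) := MulAction.orbitRel A (G ⧸ N)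
  obtain ⟨o, ho1, ho2, ho3⟩ : ∃ o : G ⧸ N → G ⧸ N, (∀ p ∈ A, ∀ q, o (p • q) = o q) ∧
      (∀ q, ∃ p ∈ A, q = p • o q) ∧ o ((1 : G) : G ⧸ N) = ((1 : G) : G ⧸ N) := by
    refine ⟨fun q => if R q ((1 : G) : G ⧸ N) then ((1 : G) : G ⧸ N)
      else (Quotient.mk R q).out, ?_, ?_, ?_⟩
    · intro p hp q
      have h1 : R (p • q) q := ⟨⟨p, hp⟩, rfl⟩
      have h2 : R (p • q) ((1 : G) : G ⧸ N) ↔ R q ((1 : G) : G ⧸ N) :=
        ⟨fun h => R.trans (R.symm h1) h, fun h => R.trans h1 h⟩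
      have h3 : Quotient.mk R (p • q) = Quotient.mk R q := Quotient.sound h1
      simp only [h2, h3]
    · intro q
      by_cases h : R q ((1 : G) : G ⧸ N)
      · obtain ⟨p, hp⟩ := h
        refine ⟨p, p.2, ?_⟩
        simp only [if_pos (show R q ((1 : G) : G ⧸ N) from ⟨p, hp⟩)]
        exact hp.symm
      · have h1 : R q (Quotient.mk R q).out := R.symm (Quotient.mk_out q)
        obtain ⟨p, hp⟩ := h1
        refine ⟨p, p.2, ?_⟩
        simp only [if_neg h]
        exact hp.symm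
    · exact if_pos (R.refl _)
  obtain ⟨r, hr1, hr2⟩ : ∃ r : G ⧸ N → G, (∀ q, ((r q : G) : G ⧸ N) = q) ∧
      r ((1 : G) : G ⧸ N) = 1 := by
    refine ⟨fun q => if q = ((1 : G) : G ⧸ N) then 1 else q.out, fun q => ?_, if_pos rfl⟩
    simp only
    split_ifs with h
    · exact h.symm
    · exact QuotientGroup.out_eq' q
  obtain ⟨t, ht1, ht2, ht3⟩ : ∃ t : G ⧸ N → G, (∀ q, t q ∈ A) ∧ (∀ q, q = t q • o q) ∧
      t ((1 : G) : G ⧸ N) = 1 := by
    choose t ht1 ht2 using ho2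
    refine ⟨fun q => if q = ((1 : G) : G ⧸ N) then 1 else t q, fun q => ?_, fun q => ?_,
      if_pos rfl⟩
    · simp only
      split_ifs
      · exact A.one_mem
      · exact ht1 q
    · simp only
      split_ifs with h
      · rw [h, ho3, one_smul]
      · exact ht2 q
  refine ⟨fun q => t q * r (o q), fun q => ?_, ?_, ?_⟩
  · have h1 : ((t q * r (o q) : G) : G ⧸ N) = t q • ((r (o q) : G) : G ⧸ N) := rfl
    rw [h1, hr1]
    exact (ht2 q).symm
  · simp only
    rw [ht3, ho3, hr2, one_mul]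
  · intro p hp q
    refine ⟨r (o q), (t (p • q))⁻¹ * p * t q,
      A.mul_mem (A.mul_mem (A.inv_mem (ht1 _)) hp) (ht1 q), ?_⟩
    simp only
    rw [ho1 p hp q]
    group

theorem thm_CRS : St_CRS := by
  intro g n N f hf z hz haz hy
  have hN := hf.normal
  obtain ⟨s, hs1, hs2, hs3⟩ := CRS_rep N (away (n := n) z)
  have hmem : ∀ (v : F g n) (q : F g n ⧸ N), (s (v • q))⁻¹ * v * s q ∈ N := by
    intro v q
    rw [mul_assoc, ← QuotientGroup.eq, hs1]
    have h1 : ((v * s q : F g n) : F g n ⧸ N) = v • ((s q : F g n) : F g n ⧸ N) := rfl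
    rw [h1, hs1]
  have hA : ∀ p ∈ away (n := n) z, ∀ q, f ((s (p • q))⁻¹ * p * s q) = 0 := by
    intro p hp q
    obtain ⟨r, y, hyA, e⟩ := hs3 p hp q
    have h1 := hmem p q
    rw [e] at h1 ⊢
    have h2 : y ∈ N := by
      have h3 := hN.conj_mem _ h1 r
      have e3 : r * (r⁻¹ * y * r) * r⁻¹ = y := by group
      rwa [e3] at h3
    have h4 := hy y hyA h2 r⁻¹
    rwa [inv_inv] at h4
  have hfix : ∀ x ∈ N, ∀ q : F g n ⧸ N, x • q = q := by
    intro x hx q
    induction q using QuotientGroup.induction_on with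
    | H w =>
      have h1 : x • ((w : F g n) : F g n ⧸ N) = ((x * w : F g n) : F g n ⧸ N) := rfl
      rw [h1, QuotientGroup.eq]
      have h3 := hN.conj_mem _ (N.inv_mem hx) w⁻¹
      have e3 : w⁻¹ * x⁻¹ * w⁻¹⁻¹ = (x * w)⁻¹ * w := by group
      rwa [e3] at h3
  refine ⟨fun q => (f ((s ((gb z : F g n) • q))⁻¹ * gb z * s q) : ℝ),
    fun v q => (f ((s (v • q))⁻¹ * v * s q) : ℝ), ⟨?_, ?_, ?_, ?_⟩, ?_⟩
  · intro u v q
    have h1 := hf.add _ (hmem u (v • q)) _ (hmem v q)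
    have e : (s (u • v • q))⁻¹ * u * s (v • q) * ((s (v • q))⁻¹ * v * s q) =
        (s ((u * v) • q))⁻¹ * (u * v) * s q := by
      rw [mul_smul]
      group
    rw [e] at h1
    rw [h1]
    push_cast
    ring
  · intro i q
    by_cases hi : i = z
    · subst hi
      rw [hfix _ haz q]
      have h1 := hf.kill_a hz (m := 1) (by rwa [pow_one]) (s q)⁻¹
      rw [pow_one, inv_inv] at h1
      rw [h1]
      exact Rat.cast_zero
    · rw [hA _ (away_a hi) q]
      exact Rat.cast_zero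
  · intro i q
    split_ifs with h
    · have hi : i = z := Fin.ext (by rw [h, hz])
      rw [hi]
    · have hi : i ≠ z := by
        rintro rfl
        exact h hz
      rw [hA _ (away_b hi) q]
      exact Rat.cast_zero
  · intro j q
    rw [hA _ (away_c z j) q]
    exact Rat.cast_zero
  · intro x hx
    show ((f ((s (x • ((1 : F g n) : F g n ⧸ N)))⁻¹ * x * s ((1 : F g n) : F g n ⧸ N)) : ℚ) : ℝ) =
      (f x : ℝ)
    rw [hfix x hx, hs2, inv_one, one_mul, mul_one]

end Pool.Agent.PWK
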