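import Pool.Agent.PWK.St

/-!
# PWK: DET (helper26)

The determinant of the exponents is invariant under `G0`.
-/

set_option autoImplicit false

open scoped BigOperators

namespace Pool.Agent.PWK

private theorem DET_aR (γ : F2) : ab (aR γ) = ((ab γ).1 + (ab γ).2, (ab γ).2) := by
  refine F2_ind (P := fun γ => ab (aR γ) = ((ab γ).1 + (ab γ).2, (ab γ).2)) ?_ ?_ ?_ ?_ ?_ γ
  · rw [map_one, ab_one]
    rfl
  · rw [aR_xx, ab_xx]
    simp
  · rw [aR_yy, ab_mul, ab_xx, ab_yy]
    simp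
  · intro γ h
    rw [map_inv, ab_inv, ab_inv, h]
    ext
    · simp only [Prod.fst_neg, Prod.snd_neg]
      ring
    · simp only [Prod.snd_neg]
  · intro γ δ h1 h2
    rw [map_mul, ab_mul, ab_mul, h1, h2]
    ext
    · simp only [Prod.fst_add, Prod.snd_add]
      ring
    · simp only [Prod.snd_add]

private theorem DET_aL (γ : F2) : ab (aL γ) = ((ab γ).1, (ab γ).1 + (ab γ).2) := by
  refine F2_ind (P := fun γ => ab (aL γ) = ((ab γ).1, (ab γ).1 + (ab γ).2)) ?_ ?_ ?_ ?_ ?_ γ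
  · rw [map_one, ab_one]
    rfl
  · rw [aL_xx, ab_mul, ab_xx, ab_yy]
    simp
  · rw [aL_yy, ab_yy]
    simp
  · intro γ h
    rw [map_inv, ab_inv, ab_inv, h]
    ext
    · simp only [Prod.fst_neg]
    · simp only [Prod.fst_neg, Prod.snd_neg]
      ring
  · intro γ δ h1 h2
    rw [map_mul, ab_mul, ab_mul, h1, h2]
    ext
    · simp only [Prod.fst_add]
    · simp only [Prod.fst_add, Prod.snd_add]
      ring

private theorem DET_inv {φ : MulAut F2} (h : φ ∈ G0) :
    ∀ γ δ : F2, dt (ab (φ γ)) (ab (φ δ)) = dt (ab γ) (ab δ) := by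
  refine Subgroup.closure_induction
    (p := fun φ _ => ∀ γ δ : F2, dt (ab (φ γ)) (ab (φ δ)) = dt (ab γ) (ab δ)) ?_ ?_ ?_ ?_ h
  · rintro α (h | h)
    · intro γ δ
      rw [h, DET_aR, DET_aR]
      simp only [dt]
      ring
    · intro γ δ
      rw [h, DET_aL, DET_aL]
      simp only [dt]
      ring
  · intro γ δ
    rfl
  · intro a b _ _ ha hb γ δ
    rw [MulAut.mul_apply, MulAut.mul_apply, ha, hb]
  · intro a _ ha γ δ
    have h2 := ha (a⁻¹ γ) (a⁻¹ δ)
    rw [MulAut.apply_inv_self, MulAut.apply_inv_self] at h2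
    exact h2.symm

theorem thm_DET : St_DET := by
  intro α _ β hβ
  have h := DET_inv hβ xx ((β⁻¹ * α) xx)
  rw [MulAut.mul_apply, MulAut.apply_inv_self, ab_xx] at h
  rw [MulAut.mul_apply, h]
  simp [dt]

end Pool.Agent.PWK
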