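import Pool.Agent.PWK.St

/-!
# PWK: module DUA, finite dimensional duality
-/

set_option autoImplicit false

open scoped BigOperators

namespace Pool.Agent.PWK

/-- the linear map whose kernel is the space of the closed pairs -/
private noncomputable def DUA_L {Ω : Type} (x y : Equiv.Perm Ω) :
    ((Ω → ℝ) × (Ω → ℝ)) →ₗ[ℝ] (Ω → ℝ) where
  toFun u w := u.1 (y w) - u.1 w + (u.2 w - u.2 (x w))
  map_add' u v := by
    funext w
    simp only [Prod.fst_add, Prod.snd_add, Pi.add_apply]
    ring
  map_smul' c u := by
    funext w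
    simp only [Prod.smul_fst, Prod.smul_snd, Pi.smul_apply, smul_eq_mul, RingHom.id_apply]
    ring

private noncomputable def DUA_f {Ω : Type} [Fintype Ω] (ψ : Ω → ℝ) :
    ((Ω → ℝ) × (Ω → ℝ)) →ₗ[ℝ] ℝ where
  toFun u := ∑ w, ψ w * u.1 w
  map_add' u v := by
    simp only [Prod.fst_add, Pi.add_apply, mul_add, Finset.sum_add_distrib]
  map_smul' c u := by
    simp only [Prod.smul_fst, Pi.smul_apply, smul_eq_mul, RingHom.id_apply, Finset.mul_sum]
    exact Finset.sum_congr rfl fun w _ => by ring

theorem thm_DUA : St_DUA := by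
  classical
  intro Ω _ x y ψ hψ h
  have h1 : DUA_f ψ ∈ (LinearMap.ker (DUA_L x y)).dualAnnihilator := by
    rw [Submodule.mem_dualAnnihilator]
    intro u hu
    refine h u.1 u.2 fun w => ?_
    have := congrFun (LinearMap.mem_ker.1 hu) w
    simp only [DUA_L, LinearMap.coe_mk, AddHom.coe_mk, Pi.zero_apply] at this
    linarith
  rw [← LinearMap.range_dualMap_eq_dualAnnihilator_ker] at h1
  obtain ⟨g, hg⟩ := h1
  obtain ⟨v, hv⟩ : ∃ v : Ω → ℝ, ∀ φ : Ω → ℝ, g φ = ∑ w, φ w * v w := by
    refine ⟨fun w => g (Pi.single w 1), fun φ => ?_⟩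
    have := LinearMap.pi_apply_eq_sum_univ g φ
    rw [this]
    refine Finset.sum_congr rfl fun w _ => ?_
    rw [smul_eq_mul]
    congr 2
    funext j
    simp [Pi.single_apply, eq_comm]
  have key : ∀ p q : Ω → ℝ, ∑ w, (p (y w) - p w + (q w - q (x w))) * v w = ∑ w, ψ w * p w := by
    intro p q
    have := LinearMap.congr_fun hg (p, q)
    rw [LinearMap.dualMap_apply, hv] at this
    exact this
  -- the values
  have kp : ∀ z, v (y.symm z) - v z = ψ z := by
    intro z
    have := key (Pi.single z 1) 0
    simp only [Pi.zero_apply, sub_self, add_zero, sub_mul, Finset.sum_sub_distrib] at this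
    have e1 : ∑ w, (Pi.single z (1 : ℝ) : Ω → ℝ) (y w) * v w = v (y.symm z) := by
      rw [Finset.sum_eq_single (y.symm z)]
      · simp
      · intro b _ hb
        rw [Pi.single_eq_of_ne, zero_mul]
        intro hc
        exact hb (by rw [← hc]; simp)
      · intro hc
        exact absurd (Finset.mem_univ _) hc
    have e2 : ∑ w, (Pi.single z (1 : ℝ) : Ω → ℝ) w * v w = v z := by
      rw [Finset.sum_eq_single z]
      · simp
      · intro b _ hb
        rw [Pi.single_eq_of_ne hb, zero_mul]
      · intro hc
        exact absurd (Finset.mem_univ _) hc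
    have e3 : ∑ w, ψ w * (Pi.single z (1 : ℝ) : Ω → ℝ) w = ψ z := by
      rw [Finset.sum_eq_single z]
      · simp
      · intro b _ hb
        rw [Pi.single_eq_of_ne hb, mul_zero]
      · intro hc
        exact absurd (Finset.mem_univ _) hc
    rw [e1, e2, e3] at this
    exact this
  have kq : ∀ z, v (x z) = v z := by
    intro z
    have := key 0 (Pi.single (x z) 1)
    simp only [Pi.zero_apply, sub_self, zero_add, sub_mul, Finset.sum_sub_distrib, mul_zero,
      Finset.sum_const_zero] at this
    have e1 : ∑ w, (Pi.single (x z) (1 : ℝ) : Ω → ℝ) (x w) * v w = v z := by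
      rw [Finset.sum_eq_single z]
      · simp
      · intro b _ hb
        rw [Pi.single_eq_of_ne, zero_mul]
        intro hc
        exact hb (x.injective hc)
      · intro hc
        exact absurd (Finset.mem_univ _) hc
    have e2 : ∑ w, (Pi.single (x z) (1 : ℝ) : Ω → ℝ) w * v w = v (x z) := by
      rw [Finset.sum_eq_single (x z)]
      · simp
      · intro b _ hb
        rw [Pi.single_eq_of_ne hb, zero_mul]
      · intro hc
        exact absurd (Finset.mem_univ _) hc
    rw [e1, e2] at this
    linarith
  refine ⟨fun w => -(ψ w + v w), fun w => ?_, fun w => ?_⟩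
  · simp only [hψ, kq]
  · have h2 := kp (y w)
    have h3 := kp w
    simp only [Equiv.symm_apply_apply] at h2
    simp only
    linarith

end Pool.Agent.PWK
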