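import Pool.Agent.PWK.St

/-!
# PWK, DVD: positive words in a subgroup of finite index
-/

set_option autoImplicit false

namespace Pool.Agent.PWK

private theorem DVD_append (W V : List Bool) : wd (W ++ V) = wd W * wd V := by
  induction W with
  | nil => simp [wd]
  | cons b W ih =>
    cases b
    · simp only [List.cons_append, wd, ih, mul_assoc]
    · simp only [List.cons_append, wd, ih, mul_assoc]

private theorem DVD_R : aR ∈ G0 := Subgroup.subset_closure (by simp)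

private theorem DVD_L : aL ∈ G0 := Subgroup.subset_closure (by simp)

private theorem DVD_mem (W : List Bool) : wd W ∈ G0 := by
  induction W with
  | nil => exact G0.one_mem
  | cons b W ih =>
    cases b
    · exact G0.mul_mem DVD_L ih
    · exact G0.mul_mem DVD_R ih

/-- in a finite group all elements are images of positive words -/
private theorem DVD_surj {Q : Type*} [Group Q] [Finite Q] (φ : G0 →* Q) (g : G0) :
    ∃ V : List Bool, φ ⟨wd V, DVD_mem V⟩ = φ g := by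
  let M : Submonoid Q :=
    { carrier := {q | ∃ V : List Bool, φ ⟨wd V, DVD_mem V⟩ = q}
      one_mem' := ⟨[], by
        have : (⟨wd [], DVD_mem []⟩ : G0) = 1 := Subtype.ext rfl
        rw [this, map_one]⟩
      mul_mem' := by
        rintro a b ⟨V, rfl⟩ ⟨W, rfl⟩
        refine ⟨V ++ W, ?_⟩
        rw [← map_mul]
        congr 1
        exact Subtype.ext (DVD_append V W) }
  have hinv : ∀ q ∈ M, q⁻¹ ∈ M := by
    intro q hq
    have h1 : q⁻¹ = q ^ (orderOf q - 1) := by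
      rw [inv_eq_iff_mul_eq_one, ← pow_succ']
      rw [Nat.sub_add_cancel (orderOf_pos q), pow_orderOf_eq_one]
    rw [h1]
    exact M.pow_mem hq _
  have hall : ∀ (g : MulAut F2) (hg : g ∈ G0), φ ⟨g, hg⟩ ∈ M := by
    intro g hg
    refine Subgroup.closure_induction (k := {aR, aL}) (p := fun g hg => φ ⟨g, hg⟩ ∈ M) ?_ ?_ ?_ ?_ hg
    · intro x hx
      rcases hx with rfl | rfl
      · exact ⟨[true], congrArg φ (Subtype.ext (by simp [wd]))⟩
      · exact ⟨[false], congrArg φ (Subtype.ext (by simp [wd]))⟩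
    · have : (⟨1, Subgroup.one_mem _⟩ : G0) = 1 := rfl
      show φ (⟨1, Subgroup.one_mem _⟩ : G0) ∈ M
      rw [this, map_one]
      exact M.one_mem
    · intro x y hx hy h1 h2
      have h3 : φ (⟨x * y, Subgroup.mul_mem _ hx hy⟩ : G0) = φ ⟨x, hx⟩ * φ ⟨y, hy⟩ := by
        rw [← map_mul]
        rfl
      show φ (⟨x * y, Subgroup.mul_mem _ hx hy⟩ : G0) ∈ M
      rw [h3]
      exact M.mul_mem h1 h2
    · intro x hx h1
      have h3 : φ (⟨x⁻¹, Subgroup.inv_mem _ hx⟩ : G0) = (φ ⟨x, hx⟩)⁻¹ := by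
        rw [← map_inv]
        rfl
      show φ (⟨x⁻¹, Subgroup.inv_mem _ hx⟩ : G0) ∈ M
      rw [h3]
      exact hinv _ h1
  exact hall g.1 g.2

theorem thm_DVD : St_DVD := by
  classical
  intro D hD
  have hfi : (D.subgroupOf G0).FiniteIndex := ⟨hD⟩
  have hfin : Finite (G0 ⧸ (D.subgroupOf G0).normalCore) := Subgroup.finite_quotient_of_finiteIndex
  have := Fintype.ofFinite (G0 ⧸ (D.subgroupOf G0).normalCore)
  let φ := QuotientGroup.mk' (D.subgroupOf G0).normalCore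
  have hsurj : ∀ q : G0 ⧸ (D.subgroupOf G0).normalCore, ∃ V : List Bool, φ (⟨wd V, DVD_mem V⟩ * ⟨aL, DVD_L⟩) = q := by
    intro q
    obtain ⟨g, hg⟩ := QuotientGroup.mk'_surjective _ (q * (φ ⟨aL, DVD_L⟩)⁻¹)
    obtain ⟨V, hV⟩ := DVD_surj φ g
    refine ⟨V, ?_⟩
    rw [map_mul, hV]
    show φ g * _ = q
    rw [show φ g = q * (φ ⟨aL, DVD_L⟩)⁻¹ from hg]
    group
  choose V hV using hsurj
  refine ⟨Finset.univ.image V, fun W => ⟨V (φ ⟨wd W, DVD_mem W⟩)⁻¹, Finset.mem_image_of_mem _ (Finset.mem_univ _), ?_⟩⟩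
  have h1 : φ (⟨wd W, DVD_mem W⟩ * (⟨wd (V (φ ⟨wd W, DVD_mem W⟩)⁻¹), DVD_mem _⟩ * ⟨aL, DVD_L⟩)) = 1 := by
    rw [map_mul, hV, mul_inv_cancel]
  have h2 : ⟨wd W, DVD_mem W⟩ * (⟨wd (V (φ ⟨wd W, DVD_mem W⟩)⁻¹), DVD_mem _⟩ * ⟨aL, DVD_L⟩) ∈
      (D.subgroupOf G0).normalCore := (QuotientGroup.eq_one_iff _).1 h1
  have h3 := (Subgroup.normalCore_le _) h2
  rw [Subgroup.mem_subgroupOf] at h3
  rw [DVD_append, mul_assoc]
  exact h3

end Pool.Agent.PWK
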