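import Pool.Agent.PWK.St

/-!
# PWK, module EST: the cocycle of a word on the refinement (helper61)
-/

set_option autoImplicit false

open scoped BigOperators

namespace Pool.Agent.PWK

/-- the class of words for which the estimate holds, with the clause on the position -/
def EST_G (γ : F2) : Prop := ∃ (l : ℕ) (C : ℝ), 0 ≤ C ∧ |(ab γ).1| ≤ (l : ℤ) ∧
  |(ab γ).2| ≤ (l : ℤ) ∧ ∀ (Ω : Type) (n : ℕ)
  (x y : Equiv.Perm Ω) (P Q : Ω × Fin n × Fin n → ℝ),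
  (∀ B : ℝ, 0 ≤ B → (∀ m, |P m| ≤ B) → (∀ m, |Q m| ≤ B) →
    ∀ m, |cz (hx n x) (hy n y) P Q γ m| ≤ C * B) ∧
  (∀ m, Inr n l m → (ev (hx n x) (hy n y) γ m).1 = m.1 ∧
    (((ev (hx n x) (hy n y) γ m).2.1 : ℕ) : ℤ) = ((m.2.1 : ℕ) : ℤ) + (ab γ).1 ∧
    (((ev (hx n x) (hy n y) γ m).2.2 : ℕ) : ℤ) = ((m.2.2 : ℕ) : ℤ) + (ab γ).2) ∧
  (∀ ε : ℝ, 0 ≤ ε →
    (∀ m m' : Ω × Fin n × Fin n, m.1 = m'.1 → |((m.2.1 : ℕ) : ℤ) - ((m'.2.1 : ℕ) : ℤ)| ≤ l →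
      |((m.2.2 : ℕ) : ℤ) - ((m'.2.2 : ℕ) : ℤ)| ≤ l → |P m - P m'| ≤ ε ∧ |Q m - Q m'| ≤ ε) →
    ∀ m, Inr n l m → |cz (hx n x) (hy n y) P Q γ m
      - (((ab γ).1 : ℝ) * P m + ((ab γ).2 : ℝ) * Q m)| ≤ C * ε)

theorem EST_hx {Ω : Type} (n : ℕ) (x : Equiv.Perm Ω) (m : Ω × Fin n × Fin n)
    (h : (m.2.1 : ℕ) + 1 < n) : (hx n x m).1 = m.1 ∧ ((hx n x m).2.1 : ℕ) = (m.2.1 : ℕ) + 1 ∧
      (hx n x m).2.2 = m.2.2 := by
  have : hx n x m = (m.1, ⟨m.2.1 + 1, h⟩, m.2.2) := by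
    show (if h : (m.2.1 : ℕ) + 1 < n then (m.1, (⟨m.2.1 + 1, h⟩ : Fin n), m.2.2)
      else (x m.1, (⟨0, m.2.1.pos⟩ : Fin n), m.2.2)) = _
    rw [dif_pos h]
  rw [this]
  exact ⟨rfl, rfl, rfl⟩

theorem EST_hxi {Ω : Type} (n : ℕ) (x : Equiv.Perm Ω) (m : Ω × Fin n × Fin n)
    (h : 0 < (m.2.1 : ℕ)) : ((hx n x)⁻¹ m).1 = m.1 ∧
      (((hx n x)⁻¹ m).2.1 : ℕ) + 1 = (m.2.1 : ℕ) ∧ ((hx n x)⁻¹ m).2.2 = m.2.2 := by
  have : (hx n x)⁻¹ m = (m.1, ⟨m.2.1 - 1, by have := m.2.1.2; omega⟩, m.2.2) := by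
    show (if 0 < (m.2.1 : ℕ) then (m.1, (⟨m.2.1 - 1, by have := m.2.1.2; omega⟩ : Fin n), m.2.2)
      else (x.symm m.1, (⟨n - 1, by have := m.2.1.pos; omega⟩ : Fin n), m.2.2)) = _
    rw [if_pos h]
  rw [this]
  refine ⟨rfl, ?_, rfl⟩
  show ((m.2.1 : ℕ) - 1) + 1 = _
  omega

theorem EST_hy {Ω : Type} (n : ℕ) (y : Equiv.Perm Ω) (m : Ω × Fin n × Fin n)
    (h : (m.2.2 : ℕ) + 1 < n) : (hy n y m).1 = m.1 ∧ (hy n y m).2.1 = m.2.1 ∧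
      ((hy n y m).2.2 : ℕ) = (m.2.2 : ℕ) + 1 := by
  obtain ⟨h1, h2, h3⟩ := EST_hx n y (m.1, m.2.2, m.2.1) h
  exact ⟨h1, h3, h2⟩

theorem EST_hyi {Ω : Type} (n : ℕ) (y : Equiv.Perm Ω) (m : Ω × Fin n × Fin n)
    (h : 0 < (m.2.2 : ℕ)) : ((hy n y)⁻¹ m).1 = m.1 ∧ ((hy n y)⁻¹ m).2.1 = m.2.1 ∧
      (((hy n y)⁻¹ m).2.2 : ℕ) + 1 = (m.2.2 : ℕ) := by
  obtain ⟨h1, h2, h3⟩ := EST_hxi n y (m.1, m.2.2, m.2.1) h
  exact ⟨h1, h3, h2⟩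

theorem EST_one : EST_G 1 := by
  refine ⟨0, 0, le_refl _, ?_, ?_, fun Ω n x y P Q => ⟨?_, ?_, ?_⟩⟩
  · rw [ab_one]; simp
  · rw [ab_one]; simp
  · intro B hB _ _ m
    rw [cz_one]; simp
  · intro m _
    rw [map_one, ab_one]
    simp
  · intro ε hε _ m _
    rw [cz_one, ab_one]
    simp

theorem EST_xx : EST_G xx := by
  refine ⟨1, 1, zero_le_one, ?_, ?_, fun Ω n x y P Q => ⟨?_, ?_, ?_⟩⟩
  · rw [ab_xx]; simp
  · rw [ab_xx]; simp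
  · intro B hB hP _ m
    rw [cz_xx, one_mul]
    exact hP m
  · intro m hm
    obtain ⟨_, h2, _, _⟩ := hm
    rw [ev_xx, ab_xx]
    obtain ⟨e1, e2, e3⟩ := EST_hx n x m h2
    refine ⟨e1, ?_, ?_⟩
    · rw [e2]; push_cast; ring
    · rw [e3]; simp
  · intro ε hε _ m _
    rw [cz_xx, ab_xx]
    simpa using hε

theorem EST_yy : EST_G yy := by
  refine ⟨1, 1, zero_le_one, ?_, ?_, fun Ω n x y P Q => ⟨?_, ?_, ?_⟩⟩
  · rw [ab_yy]; simp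
  · rw [ab_yy]; simp
  · intro B hB _ hQ m
    rw [cz_yy, one_mul]
    exact hQ m
  · intro m hm
    obtain ⟨_, _, _, h4⟩ := hm
    rw [ev_yy, ab_yy]
    obtain ⟨e1, e2, e3⟩ := EST_hy n y m h4
    refine ⟨e1, ?_, ?_⟩
    · rw [e2]; simp
    · rw [e3]; push_cast; ring
  · intro ε hε _ m _
    rw [cz_yy, ab_yy]
    simpa using hε

theorem EST_xxi : EST_G xx⁻¹ := by
  refine ⟨1, 1, zero_le_one, ?_, ?_, fun Ω n x y P Q => ?_⟩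
  · rw [ab_inv, ab_xx]; simp
  · rw [ab_inv, ab_xx]; simp
  have key : ∀ m, Inr n 1 m → ((hx n x)⁻¹ m).1 = m.1 ∧
      (((hx n x)⁻¹ m).2.1 : ℕ) + 1 = (m.2.1 : ℕ) ∧ ((hx n x)⁻¹ m).2.2 = m.2.2 :=
    fun m hm => EST_hxi n x m hm.1
  refine ⟨?_, ?_, ?_⟩
  · intro B hB hP _ m
    rw [cz_inv, cz_xx, one_mul, abs_neg]
    exact hP _
  · intro m hm
    obtain ⟨e1, e2, e3⟩ := key m hm
    rw [map_inv, ev_xx, ab_inv, ab_xx]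
    refine ⟨e1, ?_, ?_⟩
    · rw [← e2]; push_cast; simp
    · rw [e3]; simp
  · intro ε hε hP m hm
    obtain ⟨e1, e2, e3⟩ := key m hm
    rw [cz_inv, cz_xx, ab_inv, ab_xx, ev_xx, one_mul]
    have h := (hP m ((hx n x)⁻¹ m) e1.symm (by rw [← e2]; push_cast; simp)
      (by rw [e3]; simp)).1
    have e : (-P ((hx n x)⁻¹ m) - ((((-((1 : ℤ), (0 : ℤ))).1 : ℤ) : ℝ) * P m
        + (((-((1 : ℤ), (0 : ℤ))).2 : ℤ) : ℝ) * Q m)) = P m - P ((hx n x)⁻¹ m) := by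
      simp
      ring
    rw [e]
    exact h

theorem EST_yyi : EST_G yy⁻¹ := by
  refine ⟨1, 1, zero_le_one, ?_, ?_, fun Ω n x y P Q => ?_⟩
  · rw [ab_inv, ab_yy]; simp
  · rw [ab_inv, ab_yy]; simp
  have key : ∀ m, Inr n 1 m → ((hy n y)⁻¹ m).1 = m.1 ∧
      ((hy n y)⁻¹ m).2.1 = m.2.1 ∧ (((hy n y)⁻¹ m).2.2 : ℕ) + 1 = (m.2.2 : ℕ) :=
    fun m hm => EST_hyi n y m hm.2.2.1
  refine ⟨?_, ?_, ?_⟩
  · intro B hB _ hQ m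
    rw [cz_inv, cz_yy, one_mul, abs_neg]
    exact hQ _
  · intro m hm
    obtain ⟨e1, e2, e3⟩ := key m hm
    rw [map_inv, ev_yy, ab_inv, ab_yy]
    refine ⟨e1, ?_, ?_⟩
    · rw [e2]; simp
    · rw [← e3]; push_cast; simp
  · intro ε hε hP m hm
    obtain ⟨e1, e2, e3⟩ := key m hm
    rw [cz_inv, cz_yy, ab_inv, ab_yy, ev_yy, one_mul]
    have h := (hP m ((hy n y)⁻¹ m) e1.symm (by rw [e2]; simp)
      (by rw [← e3]; push_cast; simp)).2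
    have e : (-Q ((hy n y)⁻¹ m) - ((((-((0 : ℤ), (1 : ℤ))).1 : ℤ) : ℝ) * P m
        + (((-((0 : ℤ), (1 : ℤ))).2 : ℤ) : ℝ) * Q m)) = Q m - Q ((hy n y)⁻¹ m) := by
      simp
      ring
    rw [e]
    exact h

theorem EST_mul {γ δ : F2} (hγ : EST_G γ) (hδ : EST_G δ) : EST_G (γ * δ) := by
  obtain ⟨l1, C1, hC1, a1, b1, H1⟩ := hγ
  obtain ⟨l2, C2, hC2, a2, b2, H2⟩ := hδ
  have ha : (ab (γ * δ)).1 = (ab γ).1 + (ab δ).1 := by rw [ab_mul]; rfl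
  have hb : (ab (γ * δ)).2 = (ab γ).2 + (ab δ).2 := by rw [ab_mul]; rfl
  refine ⟨l1 + l2, C1 + C2 + |((ab γ).1 : ℝ)| + |((ab γ).2 : ℝ)|, by positivity, ?_, ?_,
    fun Ω n x y P Q => ?_⟩
  · rw [ha]
    push_cast
    exact (abs_add_le _ _).trans (add_le_add a1 a2)
  · rw [hb]
    push_cast
    exact (abs_add_le _ _).trans (add_le_add b1 b2)
  obtain ⟨B1, p1, E1⟩ := H1 Ω n x y P Q
  obtain ⟨B2, p2, E2⟩ := H2 Ω n x y P Q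
  have pos : ∀ m, Inr n (l1 + l2) m → Inr n l2 m ∧ Inr n l1 (ev (hx n x) (hy n y) δ m) := by
    intro m hm
    obtain ⟨h1, h2, h3, h4⟩ := hm
    have hm2 : Inr n l2 m := ⟨by omega, by omega, by omega, by omega⟩
    obtain ⟨e1, e2, e3⟩ := p2 m hm2
    refine ⟨hm2, ?_⟩
    have := abs_le.1 a2
    have := abs_le.1 b2
    refine ⟨?_, ?_, ?_, ?_⟩
    · omega
    · omega
    · omega
    · omega
  refine ⟨?_, ?_, ?_⟩
  · intro B hB hP hQ m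
    rw [cz_mul]
    have h1 := B1 B hB hP hQ (ev (hx n x) (hy n y) δ m)
    have h2 := B2 B hB hP hQ m
    have h3 := abs_add_le (cz (hx n x) (hy n y) P Q γ (ev (hx n x) (hy n y) δ m))
      (cz (hx n x) (hy n y) P Q δ m)
    have h4 : 0 ≤ |((ab γ).1 : ℝ)| * B := by positivity
    have h5 : 0 ≤ |((ab γ).2 : ℝ)| * B := by positivity
    nlinarith
  · intro m hm
    obtain ⟨hm2, hm1⟩ := pos m hm
    obtain ⟨e1, e2, e3⟩ := p2 m hm2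
    obtain ⟨f1, f2, f3⟩ := p1 _ hm1
    rw [map_mul, Equiv.Perm.mul_apply, ha, hb]
    refine ⟨f1.trans e1, ?_, ?_⟩
    · rw [f2, e2]; ring
    · rw [f3, e3]; ring
  · intro ε hε hP m hm
    obtain ⟨hm2, hm1⟩ := pos m hm
    obtain ⟨e1, e2, e3⟩ := p2 m hm2
    have g1 := E1 ε hε (fun m m' h h' h'' => hP m m' h
      (h'.trans (by push_cast; omega)) (h''.trans (by push_cast; omega))) _ hm1
    have g2 := E2 ε hε (fun m m' h h' h'' => hP m m' h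
      (h'.trans (by push_cast; omega)) (h''.trans (by push_cast; omega))) m hm2
    obtain ⟨g3, g4⟩ := hP (ev (hx n x) (hy n y) δ m) m e1
      (by rw [e2, add_sub_cancel_left]; push_cast; exact a2.trans (by omega))
      (by rw [e3, add_sub_cancel_left]; push_cast; exact b2.trans (by omega))
    rw [cz_mul, ha, hb]
    set m' := ev (hx n x) (hy n y) δ m with hm'
    set c1 := cz (hx n x) (hy n y) P Q γ m'
    set c2 := cz (hx n x) (hy n y) P Q δ m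
    have hs : c1 + c2 - ((((ab γ).1 + (ab δ).1 : ℤ) : ℝ) * P m
        + (((ab γ).2 + (ab δ).2 : ℤ) : ℝ) * Q m)
        = (c1 - (((ab γ).1 : ℝ) * P m' + ((ab γ).2 : ℝ) * Q m'))
          + (c2 - (((ab δ).1 : ℝ) * P m + ((ab δ).2 : ℝ) * Q m))
          + ((ab γ).1 : ℝ) * (P m' - P m) + ((ab γ).2 : ℝ) * (Q m' - Q m) := by
      push_cast
      ring
    rw [hs]
    have k1 := abs_add_le ((c1 - (((ab γ).1 : ℝ) * P m' + ((ab γ).2 : ℝ) * Q m'))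
          + (c2 - (((ab δ).1 : ℝ) * P m + ((ab δ).2 : ℝ) * Q m))
          + ((ab γ).1 : ℝ) * (P m' - P m)) (((ab γ).2 : ℝ) * (Q m' - Q m))
    have k2 := abs_add_le ((c1 - (((ab γ).1 : ℝ) * P m' + ((ab γ).2 : ℝ) * Q m'))
          + (c2 - (((ab δ).1 : ℝ) * P m + ((ab δ).2 : ℝ) * Q m)))
          (((ab γ).1 : ℝ) * (P m' - P m))
    have k3 := abs_add_le (c1 - (((ab γ).1 : ℝ) * P m' + ((ab γ).2 : ℝ) * Q m'))
          (c2 - (((ab δ).1 : ℝ) * P m + ((ab δ).2 : ℝ) * Q m))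
    have k4 : |((ab γ).1 : ℝ) * (P m' - P m)| ≤ |((ab γ).1 : ℝ)| * ε := by
      rw [abs_mul]
      exact mul_le_mul_of_nonneg_left g3 (abs_nonneg _)
    have k5 : |((ab γ).2 : ℝ) * (Q m' - Q m)| ≤ |((ab γ).2 : ℝ)| * ε := by
      rw [abs_mul]
      exact mul_le_mul_of_nonneg_left g4 (abs_nonneg _)
    nlinarith

theorem EST_all (γ : F2) : EST_G γ ∧ EST_G γ⁻¹ := by
  refine F2_ind (P := fun γ => EST_G γ ∧ EST_G γ⁻¹) ?_ ?_ ?_ ?_ ?_ γ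
  · exact ⟨EST_one, by rw [inv_one]; exact EST_one⟩
  · exact ⟨EST_xx, EST_xxi⟩
  · exact ⟨EST_yy, EST_yyi⟩
  · intro γ h
    exact ⟨h.2, by rw [inv_inv]; exact h.1⟩
  · intro γ δ hγ hδ
    refine ⟨EST_mul hγ.1 hδ.1, ?_⟩
    rw [mul_inv_rev]
    exact EST_mul hδ.2 hγ.2

theorem thm_EST : St_EST := by
  intro γ
  obtain ⟨l, C, hC, _, _, H⟩ := (EST_all γ).1
  refine ⟨l, C, hC, fun Ω n x y P Q => ?_⟩
  obtain ⟨h1, _, h3⟩ := H Ω n x y P Q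
  exact ⟨h1, h3⟩

end Pool.Agent.PWK
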