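import Pool.Agent.PWK.St2

/-!
# PWK, FIX: a subgroup of finite index (helper72)
-/

set_option autoImplicit false

open scoped BigOperators

namespace Pool.Agent.PWK

open Pool.Agent.PW

/-- a criterion for finite relative index -/
private theorem FIX_index {G X : Type} [Group G] (D K : Subgroup G) (Φ : G → X)
    (hfin : (Φ '' (K : Set G)).Finite)
    (h : ∀ α ∈ K, ∀ β ∈ K, Φ α = Φ β → α * β⁻¹ ∈ D) : D.relIndex K ≠ 0 := by
  have hF : Finite (Φ '' (K : Set G)) := hfin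
  have hQ : Finite (K ⧸ D.subgroupOf K) := by
    have hmem : ∀ q : K ⧸ D.subgroupOf K, Φ ((q.out : G)⁻¹) ∈ Φ '' (K : Set G) := fun q =>
      ⟨_, K.inv_mem q.out.2, rfl⟩
    refine Finite.of_injective (β := (Φ '' (K : Set G) : Set X))
      (fun q : K ⧸ D.subgroupOf K => ⟨Φ ((q.out : G)⁻¹), hmem q⟩) ?_
    intro q q' hqq
    have h1 : Φ ((q.out : G)⁻¹) = Φ ((q'.out : G)⁻¹) := congrArg Subtype.val hqq
    have h2 := h _ (K.inv_mem q.out.2) _ (K.inv_mem q'.out.2) h1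
    rw [inv_inv] at h2
    have h3 : (q.out)⁻¹ * q'.out ∈ D.subgroupOf K := by
      rw [Subgroup.mem_subgroupOf]
      exact h2
    have h4 : (QuotientGroup.mk q.out : K ⧸ D.subgroupOf K) = QuotientGroup.mk q'.out :=
      QuotientGroup.eq.2 h3
    rwa [QuotientGroup.out_eq', QuotientGroup.out_eq'] at h4
  exact Subgroup.index_ne_zero_of_finite

variable {g n : ℕ}

/-- the mapping class `φ` belongs to the automorphism `α` -/
private def FIX_Q (N : Subgroup (F g n)) (α : MulAut F2) (φ : MulAut (F g n)) : Prop :=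
  φ ∈ MCG g n ∧ (∀ u, iota g n (φ u) = α (iota g n u)) ∧ ∀ x, φ x * x⁻¹ ∈ N

private theorem FIX_mem {N : Subgroup (F g n)} {α : MulAut F2} {φ : MulAut (F g n)}
    (h : FIX_Q N α φ) {x : F g n} (hx : x ∈ N) : φ x ∈ N := by
  have h1 := N.mul_mem (h.2.2 x) hx
  rwa [inv_mul_cancel_right] at h1

private theorem FIX_one (N : Subgroup (F g n)) : FIX_Q N 1 (1 : MulAut (F g n)) := by
  refine ⟨(MCG g n).one_mem, fun u => rfl, fun x => ?_⟩
  show x * x⁻¹ ∈ N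
  rw [mul_inv_cancel]
  exact N.one_mem

private theorem FIX_mul {N : Subgroup (F g n)} {α β : MulAut F2} {φ ψ : MulAut (F g n)}
    (h : FIX_Q N α φ) (h' : FIX_Q N β ψ) : FIX_Q N (α * β) (φ * ψ) := by
  refine ⟨(MCG g n).mul_mem h.1 h'.1, fun u => ?_, fun x => ?_⟩
  · rw [MulAut.mul_apply, MulAut.mul_apply, h.2.1, h'.2.1]
  · rw [MulAut.mul_apply]
    have h1 := N.mul_mem (h.2.2 (ψ x)) (h'.2.2 x)
    have h2 : φ (ψ x) * (ψ x)⁻¹ * (ψ x * x⁻¹) = φ (ψ x) * x⁻¹ := by group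
    rwa [h2] at h1

private theorem FIX_inv {N : Subgroup (F g n)} {α : MulAut F2} {φ : MulAut (F g n)}
    (h : FIX_Q N α φ) : FIX_Q N α⁻¹ φ⁻¹ := by
  refine ⟨(MCG g n).inv_mem h.1, fun u => ?_, fun x => ?_⟩
  · have h1 := h.2.1 (φ⁻¹ u)
    rw [MulAut.apply_inv_self] at h1
    rw [h1, MulAut.inv_apply_self]
  · have h1 := N.inv_mem (h.2.2 (φ⁻¹ x))
    rw [MulAut.apply_inv_self, mul_inv_rev, inv_inv] at h1
    exact h1

theorem thm_FIX : St_FIX := by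
  intro hAMC hLAB hORI g n hg hInd N f hf
  have hNn : N.Normal := hf.good.normal
  have hNf : N.FiniteIndex := hf.good.fin
  -- the subgroup of the automorphisms which act trivially
  obtain ⟨D1, hD1⟩ : ∃ D1 : Subgroup (MulAut F2), ∀ α, α ∈ D1 ↔ α ∈ G0 ∧ Tr (rh N) α := by
    refine ⟨{ carrier := {α | α ∈ G0 ∧ Tr (rh N) α}, mul_mem' := ?_, one_mem' := ?_,
              inv_mem' := ?_ }, fun α => Iff.rfl⟩
    · rintro α β ⟨h1, h2⟩ ⟨h3, h4⟩
      refine ⟨G0.mul_mem h1 h3, fun γ w => ?_⟩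
      rw [MulAut.mul_apply, h2, h4]
    · exact ⟨G0.one_mem, fun γ w => rfl⟩
    · rintro α ⟨h1, h2⟩
      refine ⟨G0.inv_mem h1, fun γ w => ?_⟩
      rw [← h2 (α⁻¹ γ) w, MulAut.apply_inv_self]
  -- the mapping classes
  have hex : ∀ α ∈ D1, ∃ φ, FIX_Q N α φ := by
    intro α hα
    obtain ⟨h1, h2⟩ := (hD1 α).1 hα
    obtain ⟨φ, h3, h4, h5⟩ := hAMC hLAB hORI g n hg hInd (F g n ⧸ N) (rh N) α h1 h2
    refine ⟨φ, h3, h4, fun x => ?_⟩
    have h6 := h5 x ((1 : F g n) : F g n ⧸ N)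
    have h7 : ((φ x : F g n) : F g n ⧸ N) = ((x : F g n) : F g n ⧸ N) := by
      have e1 : ∀ u : F g n, rh N u ((1 : F g n) : F g n ⧸ N) = ((u : F g n) : F g n ⧸ N) := by
        intro u
        rw [rh_apply]
        show ((u * 1 : F g n) : F g n ⧸ N) = _
        rw [mul_one]
      rw [e1, e1] at h6
      exact h6
    have h8 : x⁻¹ * φ x ∈ N := QuotientGroup.eq.1 h7.symm
    exact (hNn.mem_comm_iff).1 h8
  -- the subgroup
  obtain ⟨D, hD⟩ : ∃ D : Subgroup (MulAut F2), ∀ α, α ∈ D ↔ α ∈ D1 ∧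
      ∃ φ, FIX_Q N α φ ∧ ∀ x ∈ N, f (φ x) = f x := by
    refine ⟨{ carrier := {α | α ∈ D1 ∧ ∃ φ, FIX_Q N α φ ∧ ∀ x ∈ N, f (φ x) = f x},
              mul_mem' := ?_, one_mem' := ?_, inv_mem' := ?_ }, fun α => Iff.rfl⟩
    · rintro α β ⟨h1, φ, h2, h3⟩ ⟨h4, ψ, h5, h6⟩
      refine ⟨D1.mul_mem h1 h4, φ * ψ, FIX_mul h2 h5, fun x hx => ?_⟩
      rw [MulAut.mul_apply, h3 _ (FIX_mem h5 hx), h6 x hx]
    · exact ⟨D1.one_mem, 1, FIX_one N, fun x _ => rfl⟩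
    · rintro α ⟨h1, φ, h2, h3⟩
      refine ⟨D1.inv_mem h1, φ⁻¹, FIX_inv h2, fun x hx => ?_⟩
      rw [← h3 _ (FIX_mem (FIX_inv h2) hx), MulAut.apply_inv_self]
  refine ⟨D, ?_, ?_⟩
  · have hi1 : D1.relIndex G0 ≠ 0 := by
      refine FIX_index D1 G0 (fun α : MulAut F2 => (ev (Xp (rh N)) (Yp (rh N)) (α xx),
        ev (Xp (rh N)) (Yp (rh N)) (α yy))) (Set.toFinite _) ?_
      intro α hα β hβ hab
      have h1 : ev (Xp (rh N)) (Yp (rh N)) (α xx) = ev (Xp (rh N)) (Yp (rh N)) (β xx) :=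
        congrArg Prod.fst hab
      have h2 : ev (Xp (rh N)) (Yp (rh N)) (α yy) = ev (Xp (rh N)) (Yp (rh N)) (β yy) :=
        congrArg Prod.snd hab
      rw [hD1]
      refine ⟨G0.mul_mem hα (G0.inv_mem hβ), fun γ w => ?_⟩
      rw [MulAut.mul_apply, ev_pull' _ _ α, h1, h2, ← ev_pull' _ _ β, MulAut.apply_inv_self]
    have hi2 : D.relIndex D1 ≠ 0 := by
      classical
      choose φ hφ using hex
      refine FIX_index D D1 (fun α : MulAut F2 => if h : α ∈ D1 then (fun x : N => f (φ α h x))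
        else (fun _ => 0)) ?_ ?_
      · refine hf.orb.subset ?_
        rintro _ ⟨α, hα, rfl⟩
        have hα' : α ∈ D1 := hα
        refine ⟨φ α hα', (hφ α hα').1, (hφ α hα').2.2, fun x => ?_⟩
        simp only [dif_pos hα']
      · intro α hα β hβ hab
        simp only [dif_pos hα, dif_pos hβ] at hab
        rw [hD]
        refine ⟨D1.mul_mem hα (D1.inv_mem hβ), φ α hα * (φ β hβ)⁻¹,
          FIX_mul (hφ α hα) (FIX_inv (hφ β hβ)), fun x hx => ?_⟩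
        have h1 := congrFun hab ⟨(φ β hβ)⁻¹ x, FIX_mem (FIX_inv (hφ β hβ)) hx⟩
        rw [MulAut.mul_apply]
        have h2 : f (φ α hα ((φ β hβ)⁻¹ x)) = f (φ β hβ ((φ β hβ)⁻¹ x)) := h1
        rw [h2, MulAut.apply_inv_self]
    exact Subgroup.relIndex_ne_zero_trans hi2 hi1
  · intro α hα _
    obtain ⟨h1, φ, h2, h3⟩ := (hD α).1 hα
    obtain ⟨_, h5⟩ := (hD1 α).1 h1
    exact ⟨h5, φ, h2.1, h2.2.1, h2.2.2, h3⟩

end Pool.Agent.PWK
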