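import Pool.Agent.PWK.St2

/-!
# PWK, GDD: cocycles which agree on the stabilizer are cohomologous
-/

set_option autoImplicit false

namespace Pool.Agent.PWK

open Pool.Agent.PW

theorem thm_GDD : St_GDD := by
  intro g n hg hI N hN f ψ hf α hT φ h1 h2 h3
  obtain ⟨i1, -, i3, i4⟩ := hI
  refine ⟨hT, ?_⟩
  have hk : ∀ u : F g n, u • ((1 : F g n) : F g n ⧸ N) = (u : F g n ⧸ N) := fun u =>
    congrArg (fun v : F g n => (v : F g n ⧸ N)) (mul_one u)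
  -- every square is reached
  have hreach : ∀ w : (F g n ⧸ N) × Fin (dd g n), ∃ γ : F2,
      ev (Xp (rh N)) (Yp (rh N)) γ (((1 : F g n) : F g n ⧸ N), z0 n hg) = w := by
    rintro ⟨q, i, hi⟩
    obtain ⟨u, rfl⟩ := QuotientGroup.mk_surjective q
    refine ⟨yy ^ i * iota g n u, ?_⟩
    rw [map_mul, Equiv.Perm.mul_apply, i1, i4 _ _ i hi, rh_apply, hk]
  choose G hG using hreach
  -- the stabilizer
  have hstab : ∀ δ : F2, ev (Xp (rh N)) (Yp (rh N)) δ (((1 : F g n) : F g n ⧸ N), z0 n hg) =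
      (((1 : F g n) : F g n ⧸ N), z0 n hg) →
      cz (Xp (rh N)) (Yp (rh N)) (fun _ => 0) ψ (α δ) (((1 : F g n) : F g n ⧸ N), z0 n hg) =
      cz (Xp (rh N)) (Yp (rh N)) (fun _ => 0) ψ δ (((1 : F g n) : F g n ⧸ N), z0 n hg) := by
    intro δ hδ
    obtain ⟨u, i, hi, rfl⟩ := i3 δ
    rw [map_mul, Equiv.Perm.mul_apply, i1, i4 _ _ i hi, rh_apply, hk] at hδ
    have hi0 : i = 0 := by
      have h := congrArg (fun w : (F g n ⧸ N) × Fin (dd g n) => (w.2 : ℕ)) hδ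
      simpa [z0] using h
    have hu : u ∈ N := by
      have h := congrArg Prod.fst hδ
      simp only at h
      exact (QuotientGroup.eq_one_iff u).1 h
    subst hi0
    rw [pow_zero, one_mul, ← h1, hf u hu, hf (φ u) ?_, h3 u hu]
    have h4 := N.mul_mem (h2 u) hu
    rwa [inv_mul_cancel_right] at h4
  refine ⟨fun w => cz (Xp (rh N)) (Yp (rh N)) (fun _ => 0) ψ (α (G w)) (((1 : F g n) : F g n ⧸ N), z0 n hg) -
    cz (Xp (rh N)) (Yp (rh N)) (fun _ => 0) ψ (G w) (((1 : F g n) : F g n ⧸ N), z0 n hg), ?_⟩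
  intro γ w
  have hδ : ev (Xp (rh N)) (Yp (rh N)) ((G (ev (Xp (rh N)) (Yp (rh N)) γ w))⁻¹ * (γ * G w))
      (((1 : F g n) : F g n ⧸ N), z0 n hg) = (((1 : F g n) : F g n ⧸ N), z0 n hg) := by
    rw [map_mul, map_mul, Equiv.Perm.mul_apply, Equiv.Perm.mul_apply, hG, map_inv,
      Equiv.Perm.inv_eq_iff_eq, hG]
  have h5 := hstab _ hδ
  have h6 : γ * G w = G (ev (Xp (rh N)) (Yp (rh N)) γ w) *
      ((G (ev (Xp (rh N)) (Yp (rh N)) γ w))⁻¹ * (γ * G w)) := by group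
  have h7 := cz_mul (Xp (rh N)) (Yp (rh N)) (fun _ => 0) ψ γ (G w) (((1 : F g n) : F g n ⧸ N), z0 n hg)
  rw [hG] at h7
  have h8 := cz_mul (Xp (rh N)) (Yp (rh N)) (fun _ => 0) ψ (G (ev (Xp (rh N)) (Yp (rh N)) γ w))
    ((G (ev (Xp (rh N)) (Yp (rh N)) γ w))⁻¹ * (γ * G w)) (((1 : F g n) : F g n ⧸ N), z0 n hg)
  rw [← h6, hδ] at h8
  have h9 := cz_mul (Xp (rh N)) (Yp (rh N)) (fun _ => 0) ψ (α γ) (α (G w)) (((1 : F g n) : F g n ⧸ N), z0 n hg)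
  rw [hT (G w), hG, ← map_mul α] at h9
  have h10 := cz_mul (Xp (rh N)) (Yp (rh N)) (fun _ => 0) ψ (α (G (ev (Xp (rh N)) (Yp (rh N)) γ w)))
    (α ((G (ev (Xp (rh N)) (Yp (rh N)) γ w))⁻¹ * (γ * G w))) (((1 : F g n) : F g n ⧸ N), z0 n hg)
  rw [hT _ _, hδ, ← map_mul α, ← h6] at h10
  linarith

end Pool.Agent.PWK
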