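import Pool.Agent.PWK.St2

/-!
# PWK, IND: the induced action and the stabilizer of the square zero (helper62)
-/

set_option autoImplicit false

namespace Pool.Agent.PWK

open Pool.Agent.PW

private theorem IND_pow (g n : ℕ) (hg : 0 < g) (S : Type) (ρ : F g n →* Equiv.Perm S) (i : ℕ)
    (hi : i < dd g n) (s : S) :
    ev (Xp ρ) (Yp ρ) (yy ^ i) (s, z0 n hg) = (s, ⟨i, hi⟩) := by
  induction i with
  | zero => simp [z0]
  | succ i ih =>
    rw [pow_succ', map_mul, Equiv.Perm.mul_apply, ih (by omega), ev_yy]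
    show (if h : i + 1 < dd g n then (s, (⟨i + 1, h⟩ : Fin (dd g n)))
      else (ρ (Al g n) s, ⟨0, _⟩)) = _
    rw [dif_pos hi]

private theorem IND_last (g n : ℕ) (hg : 0 < g) (S : Type) (ρ : F g n →* Equiv.Perm S) (s : S) :
    ev (Xp ρ) (Yp ρ) (yy ^ dd g n) (s, z0 n hg) = (ρ (Al g n) s, z0 n hg) := by
  have hd : 0 < dd g n := by unfold dd; omega
  obtain ⟨d, hd'⟩ : ∃ d, dd g n = d + 1 := ⟨dd g n - 1, by omega⟩
  have h1 : yy ^ dd g n = yy * yy ^ d := by rw [hd', pow_succ']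
  rw [h1, map_mul, Equiv.Perm.mul_apply, IND_pow g n hg S ρ d (by omega), ev_yy]
  show (if h : d + 1 < dd g n then (s, (⟨d + 1, h⟩ : Fin (dd g n)))
      else (ρ (Al g n) s, ⟨0, _⟩)) = _
  rw [dif_neg (by omega)]
  rfl

theorem thm_IND : St_IND := by
  intro hLAB hLBI hORI g n hg
  obtain ⟨hU, -, -⟩ := hORI g n hg
  obtain ⟨hul, hAl, -, -⟩ := hLAB g n hg F2 (U2 g) (yy ^ dd g n) hU
  obtain ⟨-, hgen⟩ := hLBI g n hg
  have hul' : ∀ i ≤ dd g n, iota g n (ul g n i) = (yy ^ xs g i)⁻¹ * xx * yy ^ i := hul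
  have hAl' : iota g n (Al g n) = yy ^ dd g n := hAl
  have h4 := IND_pow g n hg
  have h1 : ∀ (S : Type) (ρ : F g n →* Equiv.Perm S) (u : F g n) (s : S),
      ev (Xp ρ) (Yp ρ) (iota g n u) (s, z0 n hg) = (ρ u s, z0 n hg) := by
    intro S ρ
    let E : Subgroup (F g n) :=
      { carrier := {u | ∀ s, ev (Xp ρ) (Yp ρ) (iota g n u) (s, z0 n hg) = (ρ u s, z0 n hg)}
        one_mem' := by
          intro s
          simp
        mul_mem' := by
          intro u v hu hv s
          simp only [Set.mem_setOf_eq] at hu hv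
          rw [map_mul, map_mul, Equiv.Perm.mul_apply, hv, hu, map_mul, Equiv.Perm.mul_apply]
        inv_mem' := by
          intro u hu s
          simp only [Set.mem_setOf_eq] at hu
          rw [map_inv, map_inv, Equiv.Perm.inv_eq_iff_eq, hu, map_inv]
          simp }
    have hE : E = ⊤ := by
      apply hgen
      · intro i hi s
        rw [hul' i hi.le, map_mul, map_mul, map_inv, Equiv.Perm.mul_apply, Equiv.Perm.mul_apply,
          h4 S ρ i hi, ev_xx, Equiv.Perm.inv_eq_iff_eq, h4 S ρ (xs g i) (xs_lt hi)]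
        rfl
      · intro s
        rw [hAl', IND_last g n hg S ρ s]
    intro u s
    have hu : u ∈ E := hE ▸ Subgroup.mem_top u
    exact hu s
  refine ⟨h1, ?_, ?_, fun S ρ i hi s => h4 S ρ i hi s⟩
  · intro u v huv
    have hu := h1 (F g n) (MulAction.toPermHom (F g n) (F g n)) u 1
    have hv := h1 (F g n) (MulAction.toPermHom (F g n) (F g n)) v 1
    rw [huv, hv] at hu
    have h := congrArg Prod.fst hu
    simp only [MulAction.toPermHom_apply, MulAction.toPerm_apply, smul_eq_mul, mul_one] at h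
    exact h.symm
  · intro γ
    let ρ : F g n →* Equiv.Perm (F g n) := MulAction.toPermHom (F g n) (F g n)
    let σ : F2 →* Equiv.Perm F2 := MulAction.toPermHom F2 F2
    let Θ : F g n × Fin (dd g n) → F2 := fun w => yy ^ (w.2 : ℕ) * iota g n w.1
    have hx : ∀ w, Θ (Xp ρ w) = σ xx (Θ w) := by
      rintro ⟨u, i, hi⟩
      show yy ^ xs g i * iota g n (ul g n i * u) = xx * (yy ^ i * iota g n u)
      rw [map_mul, hul' i hi.le]
      group
    have hy : ∀ w, Θ (Yp ρ w) = σ yy (Θ w) := by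
      rintro ⟨u, i, hi⟩
      by_cases h : i + 1 < dd g n
      · have e : Yp ρ (u, ⟨i, hi⟩) = (u, ⟨i + 1, h⟩) := dif_pos h
        rw [e]
        show yy ^ (i + 1) * iota g n u = yy * (yy ^ i * iota g n u)
        rw [pow_succ', mul_assoc]
      · have e : Yp ρ (u, ⟨i, hi⟩) = (Al g n * u, ⟨0, by omega⟩) := dif_neg h
        rw [e]
        show yy ^ 0 * iota g n (Al g n * u) = yy * (yy ^ i * iota g n u)
        have hd : dd g n = i + 1 := by omega
        rw [map_mul, hAl', hd, pow_succ', pow_zero, one_mul, mul_assoc]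
    have key := ev_conj (Xp ρ) (Yp ρ) (σ xx) (σ yy) Θ hx hy γ (1, z0 n hg)
    have e1 : ev (σ xx) (σ yy) γ = σ γ := by
      have : ev (σ xx) (σ yy) = σ := hom_ext2 (by rw [ev_xx]) (by rw [ev_yy])
      rw [this]
    have e2 : Θ (1, z0 n hg) = 1 := by
      show yy ^ 0 * iota g n 1 = 1
      simp
    rw [e1, e2] at key
    refine ⟨(ev (Xp ρ) (Yp ρ) γ (1, z0 n hg)).1, (ev (Xp ρ) (Yp ρ) γ (1, z0 n hg)).2,
      (ev (Xp ρ) (Yp ρ) γ (1, z0 n hg)).2.2, ?_⟩
    have e3 : σ γ 1 = γ := mul_one γ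
    rw [e3] at key
    exact key.symm

end Pool.Agent.PWK
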