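import Pool.Agent.PWK.St

/-!
# PWK, module INV (helper91): invariance of the pairing

Statement of helper17, `PWK.St_INV`.
-/

set_option autoImplicit false

open scoped BigOperators

namespace Pool.Agent.PWK

private theorem INV_one {M : Type} [Fintype M] (x y : Equiv.Perm M) (ψ p q : M → ℝ)
    (hψ : ∀ m, ψ (x m) = ψ m) (hcl : Cl x y p q) : ∑ m, ψ m * p (y m) = ∑ m, ψ m * p m := by
  have h1 : ∀ m, ψ m * p (y m) = ψ m * p m + (ψ (x m) * q (x m) - ψ m * q m) := by
    intro m
    have h := hcl m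
    rw [hψ]
    have h2 : p (y m) = q (x m) + p m - q m := by linarith
    rw [h2]
    ring
  rw [Finset.sum_congr rfl fun m _ => h1 m, Finset.sum_add_distrib, Finset.sum_sub_distrib,
    Equiv.sum_comp x (fun m => ψ m * q m), sub_self, add_zero]

private theorem INV_two {M : Type} [Fintype M] (x y : Equiv.Perm M) (u p q : M → ℝ)
    (hcl : Cl x y p q) :
    ∑ m, ((u (x m) - u m) * q (x m) - (u (y m) - u m) * p (y m)) = 0 := by
  have h1 : ∀ m, (u (x m) - u m) * q (x m) - (u (y m) - u m) * p (y m) =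
      (u (x m) * q (x m) - u m * q m) - (u (y m) * p (y m) - u m * p m) := by
    intro m
    have h := hcl m
    have h2 : p (y m) = q (x m) + p m - q m := by linarith
    rw [h2]
    ring
  rw [Finset.sum_congr rfl fun m _ => h1 m, Finset.sum_sub_distrib, Finset.sum_sub_distrib,
    Finset.sum_sub_distrib, Equiv.sum_comp x (fun m => u m * q m),
    Equiv.sum_comp y (fun m => u m * p m)]
  ring

theorem thm_INV : St_INV := by
  intro hQ α hα M _ x y ψ p q hψ hcl A u hW
  have hcl' := hcl.pull hα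
  have h0 : Cl x y (fun _ => 0) ψ := fun w => by rw [hψ]; ring
  have hq := hQ α hα M x y (fun _ => 0) ψ p q h0 hcl
  set x' := ev x y (α xx) with hx'
  set y' := ev x y (α yy) with hy'
  set P' : M → ℝ := cz x y p q (α xx) with hP'
  set Q' : M → ℝ := cz x y p q (α yy) with hQ'
  have ax : ∀ m, A (x m) = x' (A m) := fun m => by
    have := hW.act xx m
    rwa [ev_xx] at this
  have ay : ∀ m, A (y m) = y' (A m) := fun m => by
    have := hW.act yy m
    rwa [ev_yy] at this
  have vx : ∀ m, cz x y (fun _ => 0) ψ (α xx) (A m) = u (x m) - u m := fun m => by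
    have := hW.val xx m
    rw [ev_xx, cz_xx] at this
    linarith
  have vy : ∀ m, cz x y (fun _ => 0) ψ (α yy) (A m) = ψ m + (u (y m) - u m) := fun m => by
    have := hW.val yy m
    rw [ev_yy, cz_yy] at this
    linarith
  have hcl2 : Cl x y (fun m => P' (A m)) (fun m => Q' (A m)) := fun m => by
    show P' (A (y m)) + Q' (A m) = Q' (A (x m)) + P' (A m)
    rw [ax, ay]
    exact hcl' (A m)
  have e1 : Qf x' y' (cz x y (fun _ => 0) ψ (α xx)) (cz x y (fun _ => 0) ψ (α yy)) P' Q' =
      - ∑ m, ψ m * P' (A m) := by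
    unfold Qf
    rw [← Equiv.sum_comp A (fun m => cz x y (fun _ => 0) ψ (α xx) m * Q' (x' m) -
      cz x y (fun _ => 0) ψ (α yy) m * P' (y' m))]
    have h1 : ∀ m, cz x y (fun _ => 0) ψ (α xx) (A m) * Q' (x' (A m)) -
        cz x y (fun _ => 0) ψ (α yy) (A m) * P' (y' (A m)) =
        ((u (x m) - u m) * Q' (A (x m)) - (u (y m) - u m) * P' (A (y m))) -
          ψ m * P' (A (y m)) := by
      intro m
      rw [vx, vy, ax, ay]
      ring
    rw [Finset.sum_congr rfl fun m _ => h1 m, Finset.sum_sub_distrib,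
      INV_two x y u (fun m => P' (A m)) (fun m => Q' (A m)) hcl2,
      INV_one x y ψ (fun m => P' (A m)) (fun m => Q' (A m)) hψ hcl2, zero_sub]
  have e2 : Qf x y (fun _ => 0) ψ p q = - ∑ m, ψ m * p m := by
    unfold Qf
    rw [← INV_one x y ψ p q hψ hcl, ← Finset.sum_neg_distrib]
    refine Finset.sum_congr rfl fun m _ => ?_
    ring
  rw [e1, e2] at hq
  rw [← Equiv.sum_comp A (fun m => ψ (A⁻¹ m) * P' m)]
  have h3 : ∀ m, ψ (A⁻¹ (A m)) * P' (A m) = ψ m * P' (A m) := fun m => by
    rw [show A⁻¹ (A m) = m from A.symm_apply_apply m]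
  rw [Finset.sum_congr rfl fun m _ => h3 m]
  linarith

end Pool.Agent.PWK
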