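import Pool.Agent.PWK.St3

/-!
# PWK: the inner form of the theorem (helper17)
-/

set_option autoImplicit false

open scoped BigOperators

namespace Pool.Agent.PWK

open Pool.Agent.PW

theorem killed_fine_of (hM : Main) (hK : St_KLA) (hPs : St_PSH) (hSu : St_SUM) (hO : St_ONE)
    (hC : St_CRS) (hL : St_LAB) (hLb : St_LBI) (hOr : St_ORI) (hI : St_IND) (hA : St_AMC)
    (hCr : St_CRO) (hF : St_FIX) (hG : St_GDD) : KilledFine := by
  intro g n hg N f fine hz x hx
  have ind : Ind g n hg := hI hL hLb hOr g n hg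
  have one := hO hPs hSu hK g n N f fine.good ⟨0, hg⟩ rfl hz
  obtain ⟨φ, C, hcrs, hCx⟩ := hC g n N f fine.good ⟨0, hg⟩ rfl hz one
  obtain ⟨hψ, hcz⟩ := hCr hL hLb hOr g n hg ind N fine.good.normal hz φ C hcrs
  obtain ⟨D, hD, hD2⟩ := hF hA hL hOr g n hg ind N f fine
  have hfi := fine.good.fin
  have : Finite (F g n ⧸ N) := inferInstance
  have : Fintype ((F g n ⧸ N) × Fin (dd g n)) := Fintype.ofFinite _
  obtain ⟨u, hu1, hu2⟩ := hM _ (Xp (rh N)) (Yp (rh N)) (psi N φ) hψ D hD (by
    intro α hα hα0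
    obtain ⟨hTr, φ', hφ', h1, h2, h3⟩ := hD2 α hα hα0
    exact hG g n hg ind N fine.good.normal (fun x => (f x : ℝ)) (psi N φ)
      (fun x hx => by rw [hcz x hx, hCx x hx]) α hTr φ' h1 h2
      (fun x hx => by exact_mod_cast h3 x hx))
  have hpsi : (fun w => u (Yp (rh N) w) - u w) = psi N φ := by
    funext w
    exact hu2 w
  have hzero : (fun w => u (Xp (rh N) w) - u w) = fun _ => 0 := by
    funext w
    rw [hu1, sub_self]
  have h1 := hcz x hx
  have h2 := cz_cob (Xp (rh N)) (Yp (rh N)) u (iota g n x)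
    (((1 : F g n) : F g n ⧸ N), z0 n hg)
  rw [hpsi, hzero, h1, hCx x hx, ind.1 _ (rh N) x] at h2
  have h3 : rh N x ((1 : F g n) : F g n ⧸ N) = ((1 : F g n) : F g n ⧸ N) := by
    show (((x * 1 : F g n)) : F g n ⧸ N) = ((1 : F g n) : F g n ⧸ N)
    rw [QuotientGroup.eq]
    simpa using hx
  rw [h3, sub_self] at h2
  exact_mod_cast h2

/-- a class of `K` is zero if its extension vanishes on the normal core -/
theorem zero_of_core {g n : ℕ} {K : Subgroup (F g n)} [K.FiniteIndex] {f : K → ℚ}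
    (hf : IsClass K f) (h : ∀ y ∈ K.normalCore, ext0 K f y = 0) : f = 0 := by
  have hNn : K.normalCore.Normal := K.normalCore_normal
  have hfin : K.normalCore.FiniteIndex := inferInstance
  funext x
  obtain ⟨L, hL0, hLN⟩ := exists_exp hNn hfin
  have h1 := h _ (hLN (x : F g n))
  have h2 : (x : F g n) ^ L ∈ K := K.pow_mem x.2 L
  rw [ext0_mem h2] at h1
  have h3 : ∀ m : ℕ, f (x ^ m) = m * f x := by
    have hone : f 1 = 0 := by
      have := hf.add 1 1
      rw [mul_one] at this
      linarith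
    intro m
    induction m with
    | zero => simp [hone]
    | succ m ih =>
      rw [pow_succ, hf.add, ih]
      push_cast
      ring
  have h4 : (⟨(x : F g n) ^ L, h2⟩ : K) = x ^ L := rfl
  rw [h4, h3] at h1
  have h5 : (L : ℚ) ≠ 0 := by exact_mod_cast hL0.ne'
  rcases mul_eq_zero.mp h1 with h6 | h6
  · exact absurd h6 h5
  · exact h6

end Pool.Agent.PWK
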