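import Pool.Agent.PWK.St2

/-!
# PWK, KLA: the class kills the powers of all `ga i`, `gb i`
-/

set_option autoImplicit false

open scoped BigOperators

namespace Pool.Agent.PWK

open Pool.Agent.PW

theorem thm_KLA : St_KLA := by
  intro g n N f h i m
  have hN := h.normal
  have hz : (((⟨0, i.pos⟩ : Fin g) : Fin g) : ℕ) = 0 := rfl
  obtain ⟨φ, hφ, v, h1, h2⟩ := Pool.Agent.PWM.st_Move (n := n) ⟨0, i.pos⟩ i hz
  constructor
  · intro hm w
    obtain ⟨ψ, hψ, hψb⟩ := swap_ba (n := n) (⟨0, i.pos⟩ : Fin g)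
    have e0 : (φ * ψ) (gb ⟨0, i.pos⟩) = (v * gb i) * ga i * (v * gb i)⁻¹ := by
      rw [MulAut.mul_apply, hψb, map_mul, map_mul, map_inv, h1, h2]
      group
    have h3 := h.kill_b' hz ((MCG g n).mul_mem hφ hψ) (m := m) (by
      rw [e0, conj_pow]
      exact hN.conj_mem _ hm _) (w * (v * gb i)⁻¹)
    have e1 : w * (v * gb i)⁻¹ * (φ * ψ) (gb ⟨0, i.pos⟩) ^ m * (w * (v * gb i)⁻¹)⁻¹ =
        w * ga i ^ m * w⁻¹ := by
      rw [e0, conj_pow]
      group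
    rwa [e1] at h3
  · intro hm w
    have h3 := h.kill_b' hz hφ (m := m) (by
      rw [h2, conj_pow]
      exact hN.conj_mem _ hm _) (w * v⁻¹)
    have e1 : w * v⁻¹ * φ (gb ⟨0, i.pos⟩) ^ m * (w * v⁻¹)⁻¹ = w * gb i ^ m * w⁻¹ := by
      rw [h2, conj_pow]
      group
    rwa [e1] at h3

end Pool.Agent.PWK
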