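import Pool.Agent.PWK.St2

/-!
# PWK, module LAB (helper37): the isomorphism with a subgroup of the free group, generic group
-/

set_option autoImplicit false

open scoped BigOperators

namespace Pool.Agent.PWK

open Pool.Agent.PW

section

variable {g n : ℕ} {H : Type} [Group H] (U : ℕ → H) (A : H)

private theorem LAB_ak0 (hg : 0 < g) :
    io g n U A (ak g n 0) = (A * Vh U (g - 1))⁻¹ * U 0 * (A * Vh U (g - 1)) := by
  unfold ak ga io
  rw [dif_pos hg, FreeGroup.lift_apply_of]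
  simp

private theorem LAB_bk0 (hg : 0 < g) : io g n U A (bk g n 0) = A * Vh U (g - 1) := by
  unfold bk gb io
  rw [dif_pos hg, FreeGroup.lift_apply_of]
  simp

private theorem LAB_ak {k : ℕ} (hk : k < g) (h0 : k ≠ 0) :
    io g n U A (ak g n k) = (Vh U (k - 1))⁻¹ * U (2 * k) * Vh U (k - 1) := by
  unfold ak ga io
  rw [dif_pos hk, FreeGroup.lift_apply_of]
  simp [h0]

private theorem LAB_bk {k : ℕ} (hk : k < g) (h0 : k ≠ 0) :
    io g n U A (bk g n k) =
      (Vh U (k - 1))⁻¹ * (U (2 * k - 1))⁻¹ * Zh g U (g - 1 - k) * Vh U (k - 1) := by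
  unfold bk gb io
  rw [dif_pos hk, FreeGroup.lift_apply_of]
  simp [h0]

private theorem LAB_gc (m : Fin n) :
    io g n U A (gc m) =
      (Vh U (g - 1))⁻¹ * U (2 * g - 1 + m) * (U (2 * g + m))⁻¹ * Vh U (g - 1) := by
  unfold gc io
  rw [FreeGroup.lift_apply_of]

private theorem LAB_pc {m : ℕ} (hm : m < n) :
    io g n U A (pc g n m) =
      (Vh U (g - 1))⁻¹ * U (2 * g - 1 + m) * (U (2 * g + m))⁻¹ * Vh U (g - 1) := by
  unfold pc
  rw [dif_pos hm, LAB_gc]

private theorem LAB_hd (k : ℕ) :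
    io g n U A (hd g n k) = cm (io g n U A (ak g n k)) (io g n U A (bk g n k)) := by
  rw [← map_cm]
  congr 1
  unfold hd ak bk
  split_ifs
  · rfl
  · simp [cm]

variable (hU : U (dd g n) = A⁻¹ * U 0 * A)

include hU in
private theorem LAB_a (hg : 0 < g) : ∀ j ≤ n,
    io g n U A (cseg g n (n - j) j * ak g n 0) =
      (Vh U (g - 1))⁻¹ * U (2 * g - 1 + (n - j)) * Vh U (g - 1)
  | 0, _ => by
    have e : 2 * g - 1 + (n - 0) = dd g n := rfl
    rw [cseg_zero, one_mul, LAB_ak0 U A hg, e, hU]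
    group
  | j + 1, hj => by
    have ih := LAB_a hg j (by omega)
    have e1 : cseg g n (n - (j + 1)) (j + 1) = pc g n (n - (j + 1)) * cseg g n (n - j) j := by
      rw [add_comm j 1, cseg_add, cseg_one]
      congr 2
      omega
    rw [e1, mul_assoc, map_mul, ih, LAB_pc U A (by omega)]
    have e2 : 2 * g + (n - (j + 1)) = 2 * g - 1 + (n - j) := by omega
    rw [e2]
    group

private theorem LAB_Pk {k : ℕ} (h0 : k ≠ 0) (hk : k < g) :
    Pk g n (k - 1) = hd g n k * Pk g n k := by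
  unfold Pk
  have e1 : k - 1 + 1 = k := by omega
  have e2 : g - (k - 1) - 1 = 1 + (g - k - 1) := by omega
  rw [e1, e2, seg_add, seg_one]
  simp only [mul_assoc]

private theorem LAB_Vk {k : ℕ} (h0 : k ≠ 0) : Vh U k = U (2 * k - 1) * Vh U (k - 1) := by
  obtain ⟨m, rfl⟩ : ∃ m, k = m + 1 := ⟨k - 1, by omega⟩
  rfl

include hU in
private theorem LAB_b (hg : 0 < g) : ∀ j ≤ g - 1,
    io g n U A (Pk g n (g - 1 - j)) = (Vh U (g - 1 - j))⁻¹ * Zh g U j * Vh U (g - 1 - j)
  | 0, _ => by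
    have e1 : Pk g n (g - 1 - 0) = cseg g n (n - n) n * ak g n 0 := by
      unfold Pk
      have e : g - (g - 1 - 0) - 1 = 0 := by omega
      rw [e, seg_zero, one_mul, Nat.sub_self]
    rw [e1, LAB_a U A hU hg n le_rfl]
    have e2 : 2 * g - 1 + (n - n) = 2 * g - 1 := by omega
    rw [e2]
    rfl
  | j + 1, hj => by
    have ih := LAB_b hg j (by omega)
    obtain ⟨k, hk⟩ : ∃ k, k = g - 1 - j := ⟨_, rfl⟩
    have e1 : g - 1 - (j + 1) = k - 1 := by omega
    have e2 : g - 1 - k = j := by omega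
    have h0 : k ≠ 0 := by omega
    have hkg : k < g := by omega
    have e3 : Zh g U (j + 1) = (U (2 * k) * (U (2 * k - 1))⁻¹) * Zh g U j
      * ((U (2 * k))⁻¹ * U (2 * k - 1)) := by
      rw [hk]
      rfl
    rw [← hk, LAB_Vk U h0] at ih
    rw [e1, LAB_Pk h0 hkg, map_mul, ih, LAB_hd, LAB_ak U A hkg h0, LAB_bk U A hkg h0, e2, e3, cm]
    group

include hU in
private theorem LAB_b' (hg : 0 < g) {k : ℕ} (hk : k ≤ g - 1) :
    io g n U A (Pk g n k) = (Vh U k)⁻¹ * Zh g U (g - 1 - k) * Vh U k := by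
  have h := LAB_b U A hU hg (g - 1 - k) (by omega)
  have e : g - 1 - (g - 1 - k) = k := by omega
  rwa [e] at h

include hU in
private theorem LAB_c (hg : 0 < g) : ∀ k ≤ g - 1, io g n U A (vv g n k) = Vh U k
  | 0, _ => map_one _
  | k + 1, hk => by
    have ih := LAB_c hg k (by omega)
    have e : vv g n (k + 1) = vv g n k * (bk g n (k + 1))⁻¹ * Pk g n (k + 1) := rfl
    rw [e, map_mul, map_mul, map_inv, ih, LAB_b' U A hU hg hk,
      LAB_bk U A (by omega : k + 1 < g) (by omega)]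
    have e1 : Vh U (k + 1) = U (2 * k + 1) * Vh U k := rfl
    have e2 : 2 * (k + 1) - 1 = 2 * k + 1 := by omega
    rw [e1, e2, Nat.add_sub_cancel]
    group

end

/-- LAB. -/
theorem thm_LAB : St_LAB := by
  intro g n hg H _ U A hU
  refine ⟨fun i hi => ?_, ?_, ?_, fun m => ?_⟩
  · unfold ul
    split_ifs with h1 h2 h3
    · rw [map_mul, map_mul, map_inv, LAB_bk0 U A hg, LAB_ak0 U A hg, h1]
      group
    · have hm : i - (2 * g - 1) ≤ n := by
        unfold dd at hi
        omega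
      have h4 := LAB_a U A hU hg (n - (i - (2 * g - 1))) (by omega)
      have e1 : n - (n - (i - (2 * g - 1))) = i - (2 * g - 1) := by omega
      have e2 : 2 * g - 1 + (i - (2 * g - 1)) = i := by omega
      rw [e1, e2] at h4
      rw [map_mul, map_mul, map_inv, h4, LAB_c U A hU hg (g - 1) le_rfl]
      group
    · have hk : i / 2 + 1 ≤ g - 1 := by omega
      rw [map_mul, map_mul, map_mul, map_inv, map_inv, LAB_c U A hU hg (i / 2) (by omega),
        LAB_b' U A hU hg hk, LAB_bk U A (by omega : i / 2 + 1 < g) (by omega),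
        LAB_Vk U (by omega : i / 2 + 1 ≠ 0), Nat.add_sub_cancel]
      have e : 2 * (i / 2 + 1) - 1 = i := by omega
      rw [e]
      group
    · have e : 2 * (i / 2) = i := by omega
      rw [map_mul, map_mul, map_inv, LAB_c U A hU hg (i / 2 - 1) (by omega),
        LAB_ak U A (by omega : i / 2 < g) (by omega), e]
      group
  · unfold Al
    rw [map_mul, map_inv, LAB_bk0 U A hg, LAB_c U A hU hg (g - 1) le_rfl]
    group
  · have e1 : bdry g n = hd g n 0 * Pk g n 0 * (ak g n 0)⁻¹ := by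
      rw [bdry_eq]
      unfold Pk
      have e2 : g = 1 + (g - 0 - 1) := by omega
      have e3 : seg g n 0 g = hd g n 0 * seg g n (0 + 1) (g - 0 - 1) := by
        have e4 : seg g n 0 (1 + (g - 0 - 1)) = hd g n 0 * seg g n (0 + 1) (g - 0 - 1) := by
          rw [seg_add, seg_one]
        rwa [← e2] at e4
      rw [e3]
      group
    have h2 := LAB_b' U A hU hg (Nat.zero_le (g - 1))
    have e5 : Vh U 0 = 1 := rfl
    rw [e5, Nat.sub_zero] at h2
    refine ⟨(A * Vh U (g - 1))⁻¹ * U 0 * (A * Vh U (g - 1)) * (U 0)⁻¹, ?_⟩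
    rw [e1, map_mul, map_mul, map_inv, h2, LAB_hd, LAB_ak0 U A hg, LAB_bk0 U A hg, cm]
    group
  · refine ⟨(Vh U (g - 1))⁻¹, ?_⟩
    rw [LAB_gc]
    group

end Pool.Agent.PWK
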