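import Pool.Agent.PWK.St2

/-! # PWK.LBI (MP_26af1b_gt): the labels generate the free group -/

set_option autoImplicit false

namespace Pool.Agent.PWK

open Pool.Agent.PW

private theorem LBI_last (g n : ℕ) (hg : 0 < g) (m : ℕ) :
    ul g n (2 * g - 1 + m) =
      vv g n (g - 1) * (cseg g n m (n - m) * ak g n 0) * (vv g n (g - 1))⁻¹ := by
  have e : 2 * g - 1 + m - (2 * g - 1) = m := by omega
  rw [ul, if_neg (by omega), if_pos (by omega), e]

private theorem LBI_odd (g n k : ℕ) (hk : k + 1 < g) :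
    ul g n (2 * k + 1) =
      vv g n k * (bk g n (k + 1))⁻¹ * Pk g n (k + 1) * (vv g n k)⁻¹ := by
  have e : (2 * k + 1) / 2 = k := by omega
  rw [ul, if_neg (by omega), if_neg (by omega), if_pos (by omega), e]

private theorem LBI_even (g n k : ℕ) (hk : k + 1 < g) :
    ul g n (2 * (k + 1)) = vv g n k * ak g n (k + 1) * (vv g n k)⁻¹ := by
  have e : 2 * (k + 1) / 2 = k + 1 := by omega
  rw [ul, if_neg (by omega), if_neg (by omega), if_neg (by omega), e]
  rfl

private theorem LBI_Pk (g n k : ℕ) (hk : k + 1 < g) :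
    Pk g n k = cm (ga ⟨k + 1, hk⟩) (gb ⟨k + 1, hk⟩) * Pk g n (k + 1) := by
  have e : g - k - 1 = 1 + (g - (k + 1) - 1) := by omega
  unfold Pk
  rw [e, seg_add, seg_one, ← hd_fin]
  simp only [mul_assoc]

private theorem LBI_conj {G : Type} [Group G] {E : Subgroup G} {x y : G} (hx : x ∈ E)
    (h : x * y * x⁻¹ ∈ E) : y ∈ E := by
  have := E.mul_mem (E.mul_mem (E.inv_mem hx) h) hx
  simpa [mul_assoc] using this

theorem thm_LBI : St_LBI := by
  intro g n hg
  have h1 : ul g n (dd g n) = (Al g n)⁻¹ * ul g n 0 * Al g n := by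
    have e0 : ul g n 0 = bk g n 0 * ak g n 0 * (bk g n 0)⁻¹ := by rw [ul, if_pos rfl]
    have e1 : ul g n (dd g n) = vv g n (g - 1) * (cseg g n n (n - n) * ak g n 0)
        * (vv g n (g - 1))⁻¹ := LBI_last g n hg n
    rw [e0, e1, Nat.sub_self, cseg_zero, Al]
    group
  refine ⟨h1, ?_⟩
  intro E hu hA
  have hd0 : ul g n (dd g n) ∈ E := by
    rw [h1]
    exact E.mul_mem (E.mul_mem (E.inv_mem hA) (hu 0 (by unfold dd; omega))) hA
  have hu' : ∀ i ≤ dd g n, ul g n i ∈ E := by
    intro i hi
    rcases Nat.lt_or_ge i (dd g n) with h | h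
    · exact hu i h
    · have : i = dd g n := le_antisymm hi h
      rw [this]; exact hd0
  have hv : ∀ k, k + 1 ≤ g → vv g n k ∈ E := by
    intro k
    induction k with
    | zero => intro _; exact E.one_mem
    | succ k ih =>
      intro hk
      have h2 := E.mul_mem (hu (2 * k + 1) (by unfold dd; omega)) (ih (by omega))
      rw [LBI_odd g n k (by omega), inv_mul_cancel_right] at h2
      exact h2
  have hvl : vv g n (g - 1) ∈ E := hv (g - 1) (by omega)
  have hb0 : bk g n 0 ∈ E := by
    have h2 := E.mul_mem hA hvl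
    rw [Al, inv_mul_cancel_right] at h2
    exact h2
  have ha0 : ak g n 0 ∈ E := by
    have h2 := hu 0 (by unfold dd; omega)
    rw [ul, if_pos rfl] at h2
    exact LBI_conj hb0 h2
  have hcs : ∀ m ≤ n, cseg g n m (n - m) ∈ E := by
    intro m hm
    have h2 := hu' (2 * g - 1 + m) (by unfold dd; omega)
    rw [LBI_last g n hg m] at h2
    have h3 := E.mul_mem (LBI_conj hvl h2) (E.inv_mem ha0)
    rw [mul_inv_cancel_right] at h3
    exact h3
  have hc : ∀ j : Fin n, (gc j : F g n) ∈ E := by
    intro j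
    have e : n - (j : ℕ) = 1 + (n - (j + 1)) := by omega
    have h2 := hcs j (by omega)
    have h3 := hcs (j + 1) (by omega)
    rw [e, cseg_add, cseg_one, pc_fin] at h2
    have h4 := E.mul_mem h2 (E.inv_mem h3)
    rw [mul_inv_cancel_right] at h4
    exact h4
  have hak : ∀ k, k + 1 < g → ak g n (k + 1) ∈ E := by
    intro k hk
    have h2 := hu (2 * (k + 1)) (by unfold dd; omega)
    rw [LBI_even g n k hk] at h2
    exact LBI_conj (hv k (by omega)) h2
  have hbp : ∀ k, k + 1 < g → (bk g n (k + 1))⁻¹ * Pk g n (k + 1) ∈ E := by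
    intro k hk
    have h2 := hu (2 * k + 1) (by unfold dd; omega)
    rw [LBI_odd g n k hk, mul_assoc (vv g n k)] at h2
    exact LBI_conj (hv k (by omega)) h2
  have hbk' : ∀ k, k + 1 < g → Pk g n (k + 1) ∈ E → bk g n (k + 1) ∈ E := by
    intro k hk hP
    have h2 := E.mul_mem hP (E.inv_mem (hbp k hk))
    rw [mul_inv_rev, inv_inv, mul_inv_cancel_left] at h2
    exact h2
  have hP : ∀ m, m + 1 ≤ g → Pk g n (g - 1 - m) ∈ E := by
    intro m
    induction m with
    | zero =>
      intro _
      have e1 : g - (g - 1) - 1 = 0 := by omega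
      have h2 := hcs 0 (Nat.zero_le n)
      rw [Nat.sub_zero] at h2
      rw [Nat.sub_zero, Pk, e1, seg_zero, one_mul]
      exact E.mul_mem h2 ha0
    | succ m ih =>
      intro hm
      have h2 := ih (by omega)
      have e1 : g - 1 - m = (g - 1 - (m + 1)) + 1 := by omega
      rw [e1] at h2
      have hk : (g - 1 - (m + 1)) + 1 < g := by omega
      have h3 := hbk' _ hk h2
      have h4 := hak _ hk
      rw [ak, dif_pos hk] at h4
      rw [bk, dif_pos hk] at h3
      rw [LBI_Pk g n _ hk]
      refine E.mul_mem ?_ h2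
      unfold cm
      exact E.mul_mem (E.mul_mem (E.mul_mem h4 h3) (E.inv_mem h4)) (E.inv_mem h3)
  apply eq_top_of_gens
  · rintro ⟨i, hi⟩
    cases i with
    | zero =>
      rw [ak, dif_pos hi] at ha0
      exact ha0
    | succ i =>
      have h2 := hak i hi
      rw [ak, dif_pos hi] at h2
      exact h2
  · rintro ⟨i, hi⟩
    cases i with
    | zero =>
      rw [bk, dif_pos hi] at hb0
      exact hb0
    | succ i =>
      have h3 := hP (g - 1 - (i + 1)) (by omega)
      have e : g - 1 - (g - 1 - (i + 1)) = i + 1 := by omega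
      rw [e] at h3
      have h2 := hbk' i hi h3
      rw [bk, dif_pos hi] at h2
      exact h2
  · exact hc

end Pool.Agent.PWK
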