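import Pool.Agent.PWK.St

/-!
# PWK LFT: goodness lifts to the refinement (helper65)
-/

set_option autoImplicit false

open scoped BigOperators

namespace Pool.Agent.PWK

private theorem LFT_cX {Ω : Type} (n : ℕ) (x : Equiv.Perm Ω) (u : Ω → ℝ)
    (m : Ω × Fin n × Fin n) :
    cX n (fun w => u (x w) - u w) m = lf n u (hx n x m) - lf n u m := by
  obtain ⟨w, a, b⟩ := m
  simp only [cX, lf, hx, Equiv.coe_fn_mk]
  split_ifs with h
  · simp
  · simp

private theorem LFT_hy {Ω : Type} (n : ℕ) (y : Equiv.Perm Ω) (w : Ω) (a b : Fin n) :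
    hy n y (w, a, b) = if h : (b : ℕ) + 1 < n then (w, a, ⟨b + 1, h⟩) else (y w, a, ⟨0, b.pos⟩) := by
  simp only [hy, fl, hx, Equiv.trans_apply, Equiv.coe_fn_mk]
  split_ifs with h
  · rfl
  · rfl

private theorem LFT_cY {Ω : Type} (n : ℕ) (y : Equiv.Perm Ω) (ψ u : Ω → ℝ)
    (m : Ω × Fin n × Fin n) :
    cY n (fun w => ψ w + u (y w) - u w) m = cY n ψ m + (lf n u (hy n y m) - lf n u m) := by
  obtain ⟨w, a, b⟩ := m
  rw [LFT_hy]
  simp only [cY, lf]
  split_ifs with h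
  · simp
  · simp only
    ring

private theorem LFT_VX {Ω : Type} (n : ℕ) (x : Equiv.Perm Ω) (ψ : Ω → ℝ)
    (hψ : ∀ w, ψ (x w) = ψ w) (m : Ω × Fin n × Fin n) :
    ((((hx n x m).2.2 : ℕ) : ℝ) * ψ (hx n x m).1) - (((m.2.2 : ℕ) : ℝ) * ψ m.1) = 0 := by
  obtain ⟨w, a, b⟩ := m
  simp only [hx, Equiv.coe_fn_mk]
  split_ifs with h
  · simp
  · simp only [hψ]
    ring

private theorem LFT_VY {Ω : Type} (n : ℕ) (y : Equiv.Perm Ω) (ψ : Ω → ℝ)
    (m : Ω × Fin n × Fin n) :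
    (n : ℝ) * cY n ψ m + (((((hy n y m).2.2 : ℕ) : ℝ) * ψ (hy n y m).1)
      - (((m.2.2 : ℕ) : ℝ) * ψ m.1)) = lf n ψ m := by
  obtain ⟨w, a, b⟩ := m
  rw [LFT_hy]
  simp only [cY, lf]
  split_ifs with h
  · simp only
    push_cast
    ring
  · have hb := b.2
    have e : (n : ℝ) = ((b : ℕ) : ℝ) + 1 := by
      have : n = (b : ℕ) + 1 := by omega
      exact_mod_cast this
    simp only
    rw [e]
    push_cast
    ring

theorem thm_LFT : St_LFT := by
  intro α hα Ω n x y ψ u hψ hev hcz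
  obtain ⟨A, h, h1, h2⟩ := hα Ω n x y (fun _ => 0) ψ
  have ex : ev x y (α xx) = x := by
    ext w
    rw [hev, ev_xx]
  have ey : ev x y (α yy) = y := by
    ext w
    rw [hev, ev_yy]
  have ep : cz x y (fun _ => 0) ψ (α xx) = fun w => u (x w) - u w := by
    funext w
    rw [hcz, cz_xx, ev_xx]
    ring
  have eq : cz x y (fun _ => 0) ψ (α yy) = fun w => ψ w + u (y w) - u w := by
    funext w
    rw [hcz, cz_yy, ev_yy]
  rw [ex, ey] at h1 h2
  rw [ep, eq] at h2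
  have e0 : cX n (fun _ : Ω => (0 : ℝ)) = fun _ => 0 := by
    funext m
    simp [cX]
  have e1 : cX n (fun w => u (x w) - u w) = fun m => 0 + (lf n u (hx n x m) - lf n u m) := by
    funext m
    rw [LFT_cX, zero_add]
  have e2 : cY n (fun w => ψ w + u (y w) - u w)
      = fun m => cY n ψ m + (lf n u (hy n y m) - lf n u m) := by
    funext m
    rw [LFT_cY]
  rw [e0, e1, e2] at h2
  have hW : Wit (hx n x) (hy n y) (fun _ => 0) (cY n ψ) α A (fun m => h m + lf n u m) := by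
    refine ⟨h1, fun γ m => ?_⟩
    rw [h2, cz_add_cob]
    ring
  have hW2 := (hW.smul (n : ℝ)).add_cob (fun m => ((m.2.2 : ℕ) : ℝ) * ψ m.1)
  have e3 : (fun m : Ω × Fin n × Fin n => (n : ℝ) * 0 + (((((hx n x m).2.2 : ℕ) : ℝ)
      * ψ (hx n x m).1) - (((m.2.2 : ℕ) : ℝ) * ψ m.1))) = fun _ => 0 := by
    funext m
    rw [LFT_VX n x ψ hψ]
    ring
  have e4 : (fun m : Ω × Fin n × Fin n => (n : ℝ) * cY n ψ m + (((((hy n y m).2.2 : ℕ) : ℝ)
      * ψ (hy n y m).1) - (((m.2.2 : ℕ) : ℝ) * ψ m.1))) = lf n ψ := by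
    funext m
    exact LFT_VY n y ψ m
  rw [e3, e4] at hW2
  exact ⟨A, _, hW2⟩

end Pool.Agent.PWK
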