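import Pool.Agent.PWK.St2

/-!
# PWK: module ONE, the maximum principle on the finite quotient
-/

set_option autoImplicit false

open scoped BigOperators

namespace Pool.Agent.PWK

open Pool.Agent.PW

theorem thm_ONE : St_ONE := by
  classical
  intro hPSH hSUM hKLA g n N f h z hz haz y hy hyN w0
  have hN := h.normal
  have hF := h.fin
  have : Fintype (F g n ⧸ N) := Fintype.ofFinite _
  obtain ⟨κ, k1, k2, k3⟩ := hPSH g n N f h z hz haz y hy hyN
  obtain ⟨q0, hq0⟩ := Finite.exists_max (fun q : F g n ⧸ N => κ q.out)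
  have hout : ∀ w : F g n, κ ((w : F g n ⧸ N)).out = κ w := by
    intro w
    obtain ⟨x, hx⟩ := QuotientGroup.mk_out_eq_mul N w
    rw [hx]
    exact k1 w x x.2
  have hmax : ∀ w, κ w ≤ κ q0.out := by
    intro w
    rw [← hout w]
    exact hq0 (w : F g n ⧸ N)
  -- the step
  have hstep : ∀ c, κ c = κ q0.out → κ (c * gb z) = κ q0.out := by
    intro c hc
    have hs := hSUM hKLA g n N f h z hz y hy hyN c
    have hle : ∀ q ∈ (Finset.univ : Finset (F g n ⧸ N)),
        (if ∃ p ∈ away z, q = ((c * p : F g n) : F g n ⧸ N)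
          then f (q.out * y * (q.out)⁻¹) else 0) ≤ 0 := by
      intro q _
      split_ifs with hq
      · obtain ⟨p, hp, rfl⟩ := hq
        rw [← k3, hout, k2 c p hp, hc]
        linarith [hmax (((c * p : F g n) : F g n ⧸ N).out * gb z)]
      · exact le_rfl
    have hz0 := (Finset.sum_eq_zero_iff_of_nonpos hle).1 hs (c : F g n ⧸ N) (Finset.mem_univ _)
    rw [if_pos ⟨1, one_mem _, by rw [mul_one]⟩, ← k3, hout, hc] at hz0
    obtain ⟨x, hx⟩ := QuotientGroup.mk_out_eq_mul N c
    have e : ((c : F g n ⧸ N)).out * gb z = c * gb z * ((gb z)⁻¹ * (x : F g n) * gb z) := by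
      rw [hx]
      group
    have hmem : (gb z)⁻¹ * (x : F g n) * gb z ∈ N := by
      have := hN.conj_mem x x.2 (gb z)⁻¹
      rwa [inv_inv] at this
    rw [e, k1 _ _ hmem] at hz0
    linarith
  have hpow : ∀ (k : ℕ) (c : F g n), κ c = κ q0.out → κ (c * gb z ^ k) = κ q0.out := by
    intro k
    induction k with
    | zero => intro c hc; simpa using hc
    | succ k ih =>
      intro c hc
      rw [pow_succ, ← mul_assoc]
      exact hstep _ (ih c hc)
  obtain ⟨L, hL, hLN⟩ := exists_exp hN hF
  let E : Subgroup (F g n) :=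
    { carrier := {x | ∀ w, κ (w * x) = κ q0.out ↔ κ w = κ q0.out}
      one_mem' := fun w => by rw [mul_one]
      mul_mem' := fun {a b} ha hb w => by
        rw [← mul_assoc]
        exact (hb _).trans (ha _)
      inv_mem' := fun {a} ha w => by
        have := ha (w * a⁻¹)
        rw [inv_mul_cancel_right] at this
        exact this.symm }
  have hE : ∀ x, x ∈ E ↔ ∀ w, κ (w * x) = κ q0.out ↔ κ w = κ q0.out := fun x => Iff.rfl
  have haw : ∀ x ∈ away z, x ∈ E := fun x hx => (hE x).2 fun w => by rw [k2 w x hx]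
  have hbz : gb z ∈ E := by
    rw [hE]
    intro w
    refine ⟨fun hw => ?_, fun hw => hstep w hw⟩
    have h1 := hpow (L - 1) _ hw
    rw [mul_assoc, ← pow_succ', Nat.sub_add_cancel hL, k1 w _ (hLN _)] at h1
    exact h1
  have htop : E = ⊤ := by
    refine eq_top_of_gens ?_ ?_ ?_
    · intro i
      by_cases hi : i = z
      · rw [hi, hE]
        intro w
        rw [k1 w _ haz]
      · exact haw _ (away_a hi)
    · intro i
      by_cases hi : i = z
      · rw [hi]
        exact hbz
      · exact haw _ (away_b hi)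
    · intro j
      exact haw _ (Subgroup.subset_closure (Or.inr ⟨j, rfl⟩))
  have hall : ∀ w, κ w = κ q0.out := by
    intro w
    have h1 : (q0.out)⁻¹ * w ∈ E := by
      rw [htop]
      exact Subgroup.mem_top _
    have h2 := ((hE _).1 h1 q0.out).2 rfl
    rwa [mul_inv_cancel_left] at h2
  rw [← k3, hall (w0 * gb z), hall w0, sub_self]

end Pool.Agent.PWK
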