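import Pool.Agent.PWK.St2

/-!
# PWK, module ORB: finite orbits
-/

set_option autoImplicit false

open scoped BigOperators

namespace Pool.Agent.PWK

open Pool.Agent.PW

/-- ORB -/
theorem thm_ORB : St_ORB := by
  intro g n
  refine ⟨?_, ?_⟩
  · intro K _ f hR hf hfin
    refine ⟨good_of_finite hR hf hfin, ?_⟩
    have hle : K.normalCore ≤ K := K.normalCore_le
    refine (hfin.image (fun (H : K → ℚ) (x : K.normalCore) => H ⟨x, hle x.2⟩)).subset ?_
    rintro h ⟨φ, hφ, hx, hh⟩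
    have hK : ∀ x, x ∈ K ↔ φ x ∈ K := by
      intro x
      have h1 := hle (hx x)
      constructor
      · intro h2
        have h3 := K.mul_mem h1 h2
        rwa [inv_mul_cancel_right] at h3
      · intro h2
        have h3 := K.mul_mem (K.inv_mem h1) h2
        have e : (φ x * x⁻¹)⁻¹ * φ x = x := by group
        rwa [e] at h3
    refine ⟨fun x => f ⟨φ x, (hK x).1 x.2⟩, ⟨φ, hφ, hK, fun _ => rfl⟩, ?_⟩
    funext x
    rw [hh x, ext0_mem ((hK x).1 (hle x.2))]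
  · intro N f hF θ hθ
    refine ⟨hF.good.comp hθ, ?_⟩
    refine (hF.orb.image (fun (H : N → ℚ) (x : N.comap θ.toMonoidHom) => H ⟨θ x, x.2⟩)).subset ?_
    rintro h ⟨φ, hφ, hx, hh⟩
    have hS : θ * φ * θ⁻¹ ∈ MCG g n :=
      (MCG g n).mul_mem ((MCG g n).mul_mem hθ hφ) ((MCG g n).inv_mem hθ)
    refine ⟨fun x => f ((θ * φ * θ⁻¹) x), ⟨θ * φ * θ⁻¹, hS, ?_, fun _ => rfl⟩, ?_⟩
    · intro x
      have h1 := hx (θ⁻¹ x)
      have h2 : θ (φ (θ⁻¹ x) * (θ⁻¹ x)⁻¹) ∈ N := h1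
      rw [map_mul, map_inv] at h2
      have e1 : θ (θ⁻¹ x) = x := by simp
      rw [e1] at h2
      exact h2
    · funext x
      have e : (θ * φ * θ⁻¹) (θ x) = θ (φ x) := by simp
      show f ((θ * φ * θ⁻¹) (θ x)) = h x
      rw [e]
      exact (hh x).symm

end Pool.Agent.PWK
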