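import Pool.Agent.PWK.St2

/-!
# PWK: words in the free group of rank two
-/

set_option autoImplicit false

namespace Pool.Agent.PWK

open Pool.Agent.PW

private theorem ORI_zero (g : ℕ) : U2 g 0 = xx := by
  have h : xs g 0 = 0 := if_pos (Or.inl rfl)
  rw [U2, h, pow_zero, inv_one, one_mul, mul_one]

private theorem ORI_big {g i : ℕ} (h : 2 * g - 1 ≤ i) : U2 g i = (yy ^ i)⁻¹ * xx * yy ^ i := by
  have h : xs g i = i := if_pos (Or.inr h)
  rw [U2, h]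

private theorem ORI_odd {g j : ℕ} (h : j + 1 < g) :
    U2 g (2 * j + 1) = (yy ^ (2 * j + 2))⁻¹ * xx * yy ^ (2 * j + 1) := by
  have h : xs g (2 * j + 1) = 2 * j + 2 := by
    rw [xs, if_neg (by omega), if_pos (by omega)]
  rw [U2, h]

private theorem ORI_even {g j : ℕ} (h : j + 1 < g) :
    U2 g (2 * j + 2) = (yy ^ (2 * j + 1))⁻¹ * xx * yy ^ (2 * j + 2) := by
  have h : xs g (2 * j + 2) = 2 * j + 1 := by
    rw [xs, if_neg (by omega), if_neg (by omega)]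
    omega
  rw [U2, h]

/-- even times odd inverse -/
private theorem ORI_a {g j : ℕ} (h : j + 1 < g) :
    U2 g (2 * j + 2) * (U2 g (2 * j + 1))⁻¹ = (yy ^ (2 * j + 1))⁻¹ * cc * yy ^ (2 * j + 3) := by
  rw [ORI_odd h, ORI_even h, cc]
  group

/-- odd times even inverse -/
private theorem ORI_b {g j : ℕ} (h : j + 2 < g) :
    U2 g (2 * j + 3) * (U2 g (2 * j + 2))⁻¹ = (yy ^ (2 * j + 4))⁻¹ * cc * yy ^ (2 * j + 2) := by
  have h1 := ORI_odd (g := g) (j := j + 1) (by omega)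
  rw [show 2 * (j + 1) + 1 = 2 * j + 3 by ring, show 2 * (j + 1) + 2 = 2 * j + 4 by ring] at h1
  rw [h1, ORI_even (by omega), cc]
  group

private theorem ORI_join {G : Type} [Group G] (c y : G) (m a b d e : ℕ) :
    ((y ^ a)⁻¹ * c * y ^ b) * ((y ^ b)⁻¹ * c ^ (2 * m + 1) * y ^ d) * ((y ^ d)⁻¹ * c * y ^ e)
      = (y ^ a)⁻¹ * c ^ (2 * (m + 1) + 1) * y ^ e := by
  have e1 : c ^ (2 * (m + 1) + 1) = c * c ^ (2 * m + 1) * c := by
    rw [← pow_succ', ← pow_succ]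
    congr 1
  rw [e1]
  simp only [mul_assoc, mul_inv_cancel_left]

private theorem ORI_c {g : ℕ} (m : ℕ) : ∀ j : ℕ, m + j + 2 = g →
    Zh g (U2 g) m * (U2 g (2 * j + 2))⁻¹
      = (yy ^ (2 * j + 3))⁻¹ * cc ^ (2 * m + 1) * yy ^ (2 * j + 2) := by
  induction m with
  | zero =>
    intro j hj
    have h0 : Zh g (U2 g) 0 = U2 g (2 * j + 3) := by
      show U2 g (2 * g - 1) = _
      congr 1
      omega
    rw [h0, ORI_big (by omega), ORI_even (by omega), cc]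
    group
  | succ m ih =>
    intro j hj
    have i1 := ih (j + 1) (by omega)
    rw [show 2 * (j + 1) + 2 = 2 * j + 4 by ring, show 2 * (j + 1) + 3 = 2 * j + 5 by ring] at i1
    have a1 := ORI_a (g := g) (j := j + 1) (by omega)
    rw [show 2 * (j + 1) + 2 = 2 * j + 4 by ring, show 2 * (j + 1) + 3 = 2 * j + 5 by ring,
      show 2 * (j + 1) + 1 = 2 * j + 3 by ring] at a1
    have b1 := ORI_b (g := g) (j := j) (by omega)
    have h0 : Zh g (U2 g) (m + 1) = (U2 g (2 * j + 4) * (U2 g (2 * j + 3))⁻¹) * Zh g (U2 g) m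
        * ((U2 g (2 * j + 4))⁻¹ * U2 g (2 * j + 3)) := by
      show (U2 g (2 * (g - 1 - m)) * (U2 g (2 * (g - 1 - m) - 1))⁻¹) * Zh g (U2 g) m
        * ((U2 g (2 * (g - 1 - m)))⁻¹ * U2 g (2 * (g - 1 - m) - 1)) = _
      rw [show 2 * (g - 1 - m) = 2 * j + 4 by omega, show 2 * j + 4 - 1 = 2 * j + 3 by omega]
    have e1 : Zh g (U2 g) (m + 1) * (U2 g (2 * j + 2))⁻¹ =
        (U2 g (2 * j + 4) * (U2 g (2 * j + 3))⁻¹) * (Zh g (U2 g) m * (U2 g (2 * j + 4))⁻¹)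
          * (U2 g (2 * j + 3) * (U2 g (2 * j + 2))⁻¹) := by
      rw [h0]
      simp only [mul_assoc]
    rw [e1, a1, i1, b1, ORI_join]

theorem thm_ORI : St_ORI := by
  intro g n hg
  refine ⟨?_, ?_, ?_⟩
  · rw [ORI_zero, ORI_big]
    unfold dd
    omega
  · by_cases h1 : g = 1
    · subst h1
      have h0 : Zh 1 (U2 1) (1 - 1) = U2 1 1 := rfl
      rw [h0, ORI_zero, ORI_big (le_refl _), cc]
      group
    · obtain ⟨m, rfl⟩ : ∃ m, g = m + 2 := ⟨g - 2, by omega⟩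
      have i1 := ORI_c (g := m + 2) m 0 (by omega)
      have a1 := ORI_a (g := m + 2) (j := 0) (by omega)
      have b1 : U2 (m + 2) 1 * (U2 (m + 2) 0)⁻¹ = (yy ^ 2)⁻¹ * cc * yy ^ 1 := by
        have := ORI_odd (g := m + 2) (j := 0) (by omega)
        rw [show 2 * 0 + 1 = 1 by rfl, show 2 * 0 + 2 = 2 by rfl] at this
        rw [this, ORI_zero, cc]
        group
      rw [show 2 * 0 + 2 = 2 by rfl, show 2 * 0 + 3 = 3 by rfl] at i1
      rw [show 2 * 0 + 2 = 2 by rfl, show 2 * 0 + 3 = 3 by rfl, show 2 * 0 + 1 = 1 by rfl] at a1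
      have h0 : Zh (m + 2) (U2 (m + 2)) (m + 2 - 1) = (U2 (m + 2) 2 * (U2 (m + 2) 1)⁻¹) *
          Zh (m + 2) (U2 (m + 2)) m * ((U2 (m + 2) 2)⁻¹ * U2 (m + 2) 1) := by
        show (U2 (m + 2) (2 * (m + 2 - 1 - m)) * (U2 (m + 2) (2 * (m + 2 - 1 - m) - 1))⁻¹) *
          Zh (m + 2) (U2 (m + 2)) m
          * ((U2 (m + 2) (2 * (m + 2 - 1 - m)))⁻¹ * U2 (m + 2) (2 * (m + 2 - 1 - m) - 1)) = _
        rw [show 2 * (m + 2 - 1 - m) = 2 by omega]
      have e1 : Zh (m + 2) (U2 (m + 2)) (m + 2 - 1) * (U2 (m + 2) 0)⁻¹ =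
          (U2 (m + 2) 2 * (U2 (m + 2) 1)⁻¹) * (Zh (m + 2) (U2 (m + 2)) m * (U2 (m + 2) 2)⁻¹)
            * (U2 (m + 2) 1 * (U2 (m + 2) 0)⁻¹) := by
        rw [h0]
        simp only [mul_assoc]
      rw [e1, a1, i1, b1, ORI_join, pow_one]
      congr 3
  · intro m
    rw [ORI_big (by omega), ORI_big (by omega), cc]
    have e : 2 * g + m = (2 * g - 1 + m) + 1 := by omega
    rw [e]
    generalize 2 * g - 1 + m = k
    group

end Pool.Agent.PWK
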