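import Pool.Agent.PWK.St

/-!
# PWK: ORP (helper26)

Orthogonality of the transported functions.
-/

set_option autoImplicit false

open scoped BigOperators

namespace Pool.Agent.PWK

private theorem ORP_hx (n : ℕ) {Ω : Type} (x : Equiv.Perm Ω) (ψ : Ω → ℝ)
    (h : ∀ w, ψ (x w) = ψ w) (m : Ω × Fin n × Fin n) : lf n ψ (hx n x m) = lf n ψ m := by
  obtain ⟨w, a, b⟩ := m
  unfold lf hx
  simp only [Equiv.coe_fn_mk]
  split_ifs
  · rfl
  · exact h w

theorem thm_ORP : St_ORP := by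
  intro hEST hAVG hQIN hINV δ hδ hne Ω _ x y ψ hψ
  obtain ⟨C, hC0, hC⟩ := hAVG hEST (δ xx)
  have hT0 : 0 ≤ ∑ w, |ψ w| := Finset.sum_nonneg (fun w _ => abs_nonneg _)
  have hT : ∀ w, |ψ w| ≤ ∑ w, |ψ w| := fun w =>
    Finset.single_le_sum (f := fun w => |ψ w|) (fun w _ => abs_nonneg _) (Finset.mem_univ w)
  generalize hTd : ∑ w, |ψ w| = T at hT0 hT
  refine ⟨C * T * T * Fintype.card Ω, by positivity, ?_⟩
  intro n hn A u hW
  have hcl : Cl (hx n x) (hy n y) (fun _ => 0) (lf n ψ) := by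
    intro m
    rw [ORP_hx n x ψ hψ]
    ring
  have h1 := hINV hQIN δ hδ (Ω × Fin n × Fin n) (hx n x) (hy n y) (lf n ψ) (fun _ => 0)
    (lf n ψ) (ORP_hx n x ψ hψ) hcl A u hW
  have h2 := hC Ω n hn x y (fun _ => 0) (lf n ψ) (fun m => lf n ψ (A⁻¹ m)) T T hT0 hT0
    (fun m => by simp only [abs_zero]; exact hT0) (fun m => hT _)
    (fun m m' _ => by
      simp only [sub_zero, abs_zero]
      positivity)
    (fun m m' he => by
      simp only [lf, he, sub_self, abs_zero]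
      positivity)
    (fun m => hT _)
  simp only [mul_zero, zero_add] at h1 h2
  rw [Finset.sum_const_zero] at h1
  rw [h1] at h2
  have h3 : ∑ m, lf n ψ (A⁻¹ m) * (((ab (δ xx)).2 : ℝ) * lf n ψ m)
      = ((ab (δ xx)).2 : ℝ) * ∑ m, lf n ψ (A⁻¹ m) * lf n ψ m := by
    rw [Finset.mul_sum]
    exact Finset.sum_congr rfl (fun m _ => by ring)
  rw [h3, zero_sub, abs_neg, abs_mul] at h2
  have h4 : (1 : ℝ) ≤ |((ab (δ xx)).2 : ℝ)| := by
    have := Int.one_le_abs hne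
    exact_mod_cast this
  calc |∑ m, lf n ψ (A⁻¹ m) * lf n ψ m|
      ≤ |((ab (δ xx)).2 : ℝ)| * |∑ m, lf n ψ (A⁻¹ m) * lf n ψ m| :=
        le_mul_of_one_le_left (abs_nonneg _) h4
    _ ≤ C * T * T * Fintype.card Ω * n := h2

end Pool.Agent.PWK
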