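import Pool.Agent.PWK.St

/-!
# PWK, module PRM: the sum over coprime pairs diverges

Helper74, for MP_26af1b_gt.
-/

set_option autoImplicit false

open scoped BigOperators

namespace Pool.Agent.PWK

private def PRM_U (p : ℕ) : Finset (ℕ × ℕ) := (Finset.Ioo 0 p).image fun j => (j, p - j)

private theorem PRM_mem {p : ℕ} {u : ℕ × ℕ} (hu : u ∈ PRM_U p) :
    0 < u.1 ∧ 0 < u.2 ∧ u.1 + u.2 = p := by
  unfold PRM_U at hu
  rw [Finset.mem_image] at hu
  obtain ⟨j, hj, rfl⟩ := hu
  rw [Finset.mem_Ioo] at hj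
  refine ⟨hj.1, ?_, ?_⟩
  · show 0 < p - j
    omega
  · show j + (p - j) = p
    omega

private theorem PRM_card (p : ℕ) : (PRM_U p).card = p - 1 := by
  unfold PRM_U
  rw [Finset.card_image_of_injective]
  · rw [Nat.card_Ioo]
    omega
  · intro a b hab
    exact (Prod.mk.inj hab).1

private theorem PRM_cop {p : ℕ} (hp : p.Prime) {u : ℕ × ℕ} (hu : u ∈ PRM_U p) :
    Nat.Coprime u.1 u.2 := by
  obtain ⟨h1, h2, h3⟩ := PRM_mem hu
  have h4 : Nat.Coprime u.1 p := by
    apply Nat.Coprime.symm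
    rw [Nat.Prime.coprime_iff_not_dvd hp]
    intro hd
    have := Nat.le_of_dvd h1 hd
    omega
  rw [← h3] at h4
  exact (Nat.coprime_add_self_right).1 (by rw [add_comm] at h4; exact h4)

private theorem PRM_sum {p : ℕ} (hp : p.Prime) :
    1 / (p : ℝ) / 2 ≤ ∑ u ∈ PRM_U p, 1 / ((u.1 : ℝ) + (u.2 : ℝ)) ^ 2 := by
  have h1 : ∑ u ∈ PRM_U p, 1 / ((u.1 : ℝ) + (u.2 : ℝ)) ^ 2 =
      ∑ _u ∈ PRM_U p, 1 / (p : ℝ) ^ 2 := by
    apply Finset.sum_congr rfl
    intro u hu
    have h3 := (PRM_mem hu).2.2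
    have h4 : (u.1 : ℝ) + (u.2 : ℝ) = (p : ℝ) := by
      rw [← h3]
      push_cast
      rfl
    rw [h4]
  rw [h1, Finset.sum_const, PRM_card, nsmul_eq_mul]
  have h2 : (2 : ℝ) ≤ p := by exact_mod_cast hp.two_le
  have h5 : ((p - 1 : ℕ) : ℝ) = (p : ℝ) - 1 := by
    rw [Nat.cast_sub hp.one_le]
    simp
  rw [h5]
  have h6 : (0 : ℝ) < p := by linarith
  rw [div_div, mul_one_div, div_le_div_iff₀ (by positivity) (by positivity)]
  nlinarith

theorem thm_PRM : St_PRM := by
  intro Z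
  by_contra hcon
  push Not at hcon
  have hs : Summable fun p : Nat.Primes => 1 / ((p : ℕ) : ℝ) / 2 := by
    refine summable_of_sum_le (c := Z) (fun p => by positivity) ?_
    intro S
    classical
    have hdis : (S : Set Nat.Primes).PairwiseDisjoint fun p : Nat.Primes => PRM_U (p : ℕ) := by
      intro a _ b _ hab
      show Disjoint (PRM_U (a : ℕ)) (PRM_U (b : ℕ))
      rw [Finset.disjoint_left]
      intro u hu hv
      apply hab
      have h1 := (PRM_mem hu).2.2
      have h2 := (PRM_mem hv).2.2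
      exact Subtype.ext (h1.symm.trans h2)
    have hT := hcon (S.biUnion fun p : Nat.Primes => PRM_U (p : ℕ)) (by
      intro u hu
      rw [Finset.mem_biUnion] at hu
      obtain ⟨p, _, hu⟩ := hu
      exact ⟨(PRM_mem hu).1, (PRM_mem hu).2.1, PRM_cop p.2 hu⟩)
    rw [Finset.sum_biUnion hdis] at hT
    refine le_trans (Finset.sum_le_sum fun p _ => PRM_sum p.2) hT.le
  have h2 : Summable fun p : Nat.Primes => 1 / ((p : ℕ) : ℝ) := by
    have h3 := hs.mul_left 2
    refine h3.congr ?_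
    intro p
    ring
  exact Nat.Primes.not_summable_one_div h2

end Pool.Agent.PWK
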