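import Pool.Agent.PWK.St2

/-!
# PWK: pushes of the foot of the handle give a potential
-/

set_option autoImplicit false

namespace Pool.Agent.PWK

open Pool.Agent.PW

variable {g n : ℕ}

/-- The endomorphism which multiplies `gb z` by `y ^ k`. -/
private def PSH_e (z : Fin g) (y : F g n) (k : ℕ) : F g n →* F g n :=
  FreeGroup.lift fun x => if x = Gen.b z then y ^ k * gb z else FreeGroup.of x

private theorem PSH_ea (z : Fin g) (y : F g n) (k : ℕ) (i : Fin g) :
    PSH_e z y k (ga i) = ga i := by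
  unfold PSH_e ga
  rw [FreeGroup.lift_apply_of, if_neg (by simp)]

private theorem PSH_eb (z : Fin g) (y : F g n) (k : ℕ) :
    PSH_e z y k (gb z) = y ^ k * gb z := by
  have : PSH_e z y k (FreeGroup.of (Gen.b z)) = y ^ k * gb z := by
    unfold PSH_e
    rw [FreeGroup.lift_apply_of, if_pos rfl]
  exact this

private theorem PSH_eb' (z : Fin g) (y : F g n) (k : ℕ) {i : Fin g} (hi : i ≠ z) :
    PSH_e z y k (gb i) = gb i := by
  have : PSH_e z y k (FreeGroup.of (Gen.b i)) = FreeGroup.of (Gen.b i) := by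
    unfold PSH_e
    rw [FreeGroup.lift_apply_of, if_neg (by simpa using hi)]
  exact this

private theorem PSH_ec (z : Fin g) (y : F g n) (k : ℕ) (j : Fin n) :
    PSH_e z y k (gc j) = gc j := by
  unfold PSH_e gc
  rw [FreeGroup.lift_apply_of, if_neg (by simp)]

private theorem PSH_away (z : Fin g) (y : F g n) (k : ℕ) {p : F g n} (hp : p ∈ away z) :
    PSH_e z y k p = p := by
  have : away z ≤ (PSH_e z y k).eqLocus (MonoidHom.id _) := by
    unfold away
    rw [Subgroup.closure_le]
    rintro x (⟨j, hj, rfl | rfl⟩ | ⟨j, rfl⟩)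
    · exact PSH_ea z y k j
    · exact PSH_eb' z y k hj
    · exact PSH_ec z y k j
  exact this hp

/-- `f` is zero on the normal closure of `ga z`. -/
private theorem PSH_nc {N : Subgroup (F g n)} {f : F g n → ℚ} (h : Good N f) {z : Fin g}
    (hz : (z : ℕ) = 0) (ha : ga z ∈ N) {x : F g n}
    (hx : x ∈ Subgroup.normalClosure {(ga z : F g n)}) : x ∈ N ∧ f x = 0 := by
  have hN := h.normal
  let E : Subgroup (F g n) :=
    { carrier := {x | x ∈ N ∧ ∀ w, f (w * x * w⁻¹) = 0}
      one_mem' := ⟨N.one_mem, fun w => by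
        rw [mul_one, mul_inv_cancel, h.add.one]⟩
      mul_mem' := by
        rintro a b ⟨ha1, ha2⟩ ⟨hb1, hb2⟩
        refine ⟨N.mul_mem ha1 hb1, fun w => ?_⟩
        have e : w * (a * b) * w⁻¹ = (w * a * w⁻¹) * (w * b * w⁻¹) := by group
        rw [e, h.add _ (hN.conj_mem _ ha1 w) _ (hN.conj_mem _ hb1 w), ha2, hb2, add_zero]
      inv_mem' := by
        rintro a ⟨ha1, ha2⟩
        refine ⟨N.inv_mem ha1, fun w => ?_⟩
        have e : w * a⁻¹ * w⁻¹ = (w * a * w⁻¹)⁻¹ := by group
        rw [e, h.add.inv (hN.conj_mem _ ha1 w), ha2, neg_zero] }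
  have hE : E.Normal := by
    refine ⟨fun a hav v => ?_⟩
    refine ⟨hN.conj_mem _ hav.1 v, fun w => ?_⟩
    have e : w * (v * a * v⁻¹) * w⁻¹ = (w * v) * a * (w * v)⁻¹ := by group
    rw [e]
    exact hav.2 _
  have hle : Subgroup.normalClosure {(ga z : F g n)} ≤ E := by
    apply Subgroup.normalClosure_le_normal
    rintro _ rfl
    refine ⟨ha, fun w => ?_⟩
    have := h.kill_a hz (m := 1) (by rwa [pow_one]) w
    rwa [pow_one] at this
  have hxE := hle hx
  refine ⟨hxE.1, ?_⟩
  have := hxE.2 1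
  rwa [one_mul, inv_one, mul_one] at this

private theorem PSH_qa {z : Fin g} {x y : F g n} (h : qa n z x = qa n z y) :
    x * y⁻¹ ∈ Subgroup.normalClosure {(ga z : F g n)} := by
  have h1 : qa n z (x * y⁻¹) = 1 := by
    rw [map_mul, map_inv, h, mul_inv_cancel]
  unfold qa at h1
  rwa [QuotientGroup.mk'_apply, QuotientGroup.eq_one_iff] at h1

private theorem PSH_pow {z : Fin g} {T : MulAut (F g n)} (hT : Mild z T) {y : F g n}
    (hy : y ∈ away z) (hb : qa n z (T (gb z)) = qa n z (y * gb z)) (k : ℕ) :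
    Mild z (T ^ k) ∧ qa n z ((T ^ k) (gb z)) = qa n z (y ^ k * gb z) := by
  induction k with
  | zero =>
    rw [pow_zero, pow_zero, one_mul]
    exact ⟨Mild.one z, rfl⟩
  | succ k ih =>
    obtain ⟨i1, i2⟩ := ih
    refine ⟨?_, ?_⟩
    · rw [pow_succ]
      exact i1.mul hT
    · rw [pow_succ, MulAut.mul_apply, qa_eq hb i1.2.1, map_mul, map_mul, i1.2.2 y hy, i2,
        map_mul, pow_succ', map_mul, map_mul, mul_assoc]

private theorem PSH_all {z : Fin g} {T : MulAut (F g n)} (hT : Mild z T) {y : F g n}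
    (hy : y ∈ away z) (hb : qa n z (T (gb z)) = qa n z (y * gb z)) (k : ℕ) (x : F g n) :
    qa n z ((T ^ k) x) = qa n z (PSH_e z y k x) := by
  obtain ⟨i1, i2⟩ := PSH_pow hT hy hb k
  have key : (qa n z).comp (T ^ k : MulAut (F g n)).toMonoidHom = (qa n z).comp (PSH_e z y k) := by
    apply hom_ext
    · intro i
      show qa n z ((T ^ k) (ga i)) = qa n z (PSH_e z y k (ga i))
      rw [PSH_ea]
      by_cases hi : i = z
      · rw [hi, i1.2.1]
      · exact i1.2.2 _ (away_a hi)
    · intro i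
      show qa n z ((T ^ k) (gb i)) = qa n z (PSH_e z y k (gb i))
      by_cases hi : i = z
      · rw [hi, i2, PSH_eb]
      · rw [PSH_eb' z y k hi]
        exact i1.2.2 _ (away_b hi)
    · intro j
      show qa n z ((T ^ k) (gc j)) = qa n z (PSH_e z y k (gc j))
      rw [PSH_ec]
      exact i1.2.2 _ (away_c z j)
  exact DFunLike.congr_fun key x

theorem thm_PSH : St_PSH := by
  intro g n N f h z hz ha y hy hyN
  have hN := h.normal
  have hF := h.fin
  let _ : Fintype (F g n ⧸ N) := Subgroup.fintypeQuotientOfFiniteIndex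
  obtain ⟨-, T, hT, hb⟩ := pushable_eq hz hy
  -- the endomorphisms are trivial modulo `N`
  have hmod : ∀ (k : ℕ) (x : F g n), PSH_e z y k x * x⁻¹ ∈ N := by
    intro k
    apply mod_of_gens hN
    · intro i
      rw [PSH_ea, mul_inv_cancel]
      exact N.one_mem
    · intro i
      by_cases hi : i = z
      · rw [hi, PSH_eb, mul_inv_cancel_right]
        exact N.pow_mem hyN k
      · rw [PSH_eb' z y k hi, mul_inv_cancel]
        exact N.one_mem
    · intro j
      rw [PSH_ec, mul_inv_cancel]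
      exact N.one_mem
  have hTe : ∀ (k : ℕ) (x : F g n), (T ^ k) x * (PSH_e z y k x)⁻¹ ∈ N ∧
      f ((T ^ k) x * (PSH_e z y k x)⁻¹) = 0 := fun k x =>
    PSH_nc h hz ha (PSH_qa (PSH_all hT hy hb k x))
  have hTmod : ∀ (k : ℕ) (x : F g n), (T ^ k) x * x⁻¹ ∈ N := by
    intro k x
    have := N.mul_mem (hTe k x).1 (hmod k x)
    rwa [mul_assoc, inv_mul_cancel_left] at this
  obtain ⟨M, hM, -, hMf⟩ := h.stab T hT.1 1 one_pos (hTmod 1)
  have hfix : Fixes N f (PSH_e z y M) := by
    refine ⟨hmod M, fun x hx => ?_⟩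
    have m1 : PSH_e z y M x ∈ N := by
      have := N.mul_mem (hmod M x) hx
      rwa [inv_mul_cancel_right] at this
    have h1 := h.add _ (hTe M x).1 _ m1
    rw [inv_mul_cancel_right, (hTe M x).2, zero_add, hMf x hx] at h1
    exact h1.symm
  refine ⟨fun w => pot f (PSH_e z y M) w / M, ?_, ?_, ?_⟩
  · intro w x hx
    simp only
    rw [pot_mul_mem h.add hfix w hx]
  · intro w p hp
    simp only
    rw [pot_mul h.add hfix, PSH_away z y M hp, mul_inv_cancel, mul_one, mul_inv_cancel, h.add.one,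
      add_zero]
  · intro w
    simp only
    have hM0 : (M : ℚ) ≠ 0 := Nat.cast_ne_zero.mpr hM.ne'
    rw [pot_mul h.add hfix, PSH_eb, mul_inv_cancel_right]
    have e : w * y ^ M * w⁻¹ = (w * y * w⁻¹) ^ M := by rw [conj_pow]
    rw [e, h.add.pow (hN.conj_mem _ hyN w)]
    field_simp
    ring

end Pool.Agent.PWK
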