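import Pool.Agent.PWK.St

/-!
# PWK, module QIN: the cup product is invariant
-/

set_option autoImplicit false

open scoped BigOperators

namespace Pool.Agent.PWK

private theorem QIN_aR (M : Type) [Fintype M] (x y : Equiv.Perm M) (p q p' q' : M → ℝ)
    (h : Cl x y p' q') :
    Qf x (y * x) p (fun w => q (x w) + p w) p' (fun w => q' (x w) + p' w) = Qf x y p q p' q' := by
  unfold Qf
  have e1 : ∀ w, p w * (q' (x (x w)) + p' (x w)) - (q (x w) + p w) * p' ((y * x) w)
      = p w * q' (x w) - q (x w) * p' (y (x w)) := by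
    intro w
    have h1 := h (x w)
    rw [Equiv.Perm.mul_apply]
    linear_combination (- p w) * h1
  rw [Finset.sum_congr rfl fun w _ => e1 w, Finset.sum_sub_distrib, Finset.sum_sub_distrib]
  congr 1
  exact Equiv.sum_comp x (fun w => q w * p' (y w))

private theorem QIN_aL (M : Type) [Fintype M] (x y : Equiv.Perm M) (p q p' q' : M → ℝ)
    (h : Cl x y p' q') :
    Qf (x * y) y (fun w => p (y w) + q w) q (fun w => p' (y w) + q' w) q' = Qf x y p q p' q' := by
  unfold Qf
  have e1 : ∀ w, (p (y w) + q w) * q' ((x * y) w) - q w * (p' (y (y w)) + q' (y w))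
      = p (y w) * q' (x (y w)) - q w * p' (y w) := by
    intro w
    have h1 := h (y w)
    rw [Equiv.Perm.mul_apply]
    linear_combination (- q w) * h1
  rw [Finset.sum_congr rfl fun w _ => e1 w, Finset.sum_sub_distrib, Finset.sum_sub_distrib]
  congr 1
  exact Equiv.sum_comp y (fun w => p w * q' (x w))

theorem thm_QIN : St_QIN := by
  intro α hα
  refine Subgroup.closure_induction (p := fun α _ => ∀ (M : Type) [Fintype M] (x y : Equiv.Perm M)
    (p q p' q' : M → ℝ), Cl x y p q → Cl x y p' q' →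
    Qf (ev x y (α xx)) (ev x y (α yy)) (cz x y p q (α xx)) (cz x y p q (α yy))
      (cz x y p' q' (α xx)) (cz x y p' q' (α yy)) = Qf x y p q p' q') ?_ ?_ ?_ ?_ hα
  · rintro α (h | h)
    · intro M _ x y p q p' q' _ h2
      have c1 : ∀ p q : M → ℝ, cz x y p q (α xx) = p := by
        intro p q
        funext w
        rw [h, aR_xx, cz_xx]
      have c2 : ∀ p q : M → ℝ, cz x y p q (α yy) = fun w => q (x w) + p w := by
        intro p q
        funext w
        rw [h, aR_yy, cz_mul, cz_yy, cz_xx, ev_xx]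
      have c3 : ev x y (α xx) = x := by rw [h, aR_xx, ev_xx]
      have c4 : ev x y (α yy) = y * x := by rw [h, aR_yy, map_mul, ev_yy, ev_xx]
      rw [c1, c1, c2, c2, c3, c4]
      exact QIN_aR M x y p q p' q' h2
    · intro M _ x y p q p' q' _ h2
      have c1 : ∀ p q : M → ℝ, cz x y p q (α xx) = fun w => p (y w) + q w := by
        intro p q
        funext w
        rw [h, aL_xx, cz_mul, cz_xx, cz_yy, ev_yy]
      have c2 : ∀ p q : M → ℝ, cz x y p q (α yy) = q := by
        intro p q
        funext w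
        rw [h, aL_yy, cz_yy]
      have c3 : ev x y (α xx) = x * y := by rw [h, aL_xx, map_mul, ev_yy, ev_xx]
      have c4 : ev x y (α yy) = y := by rw [h, aL_yy, ev_yy]
      rw [c1, c1, c2, c2, c3, c4]
      exact QIN_aL M x y p q p' q' h2
  · intro M _ x y p q p' q' _ _
    have c1 : ∀ p q : M → ℝ, cz x y p q ((1 : MulAut F2) xx) = p := by
      intro p q
      funext w
      rw [MulAut.one_apply, cz_xx]
    have c2 : ∀ p q : M → ℝ, cz x y p q ((1 : MulAut F2) yy) = q := by
      intro p q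
      funext w
      rw [MulAut.one_apply, cz_yy]
    rw [c1, c1, c2, c2, MulAut.one_apply, MulAut.one_apply, ev_xx, ev_yy]
  · intro a b ha hb iha ihb M _ x y p q p' q' h1 h2
    have c1 : ∀ (p q : M → ℝ) (γ : F2), cz x y p q ((a * b) γ) =
        cz (ev x y (a xx)) (ev x y (a yy)) (cz x y p q (a xx)) (cz x y p q (a yy)) (b γ) := by
      intro p q γ
      funext w
      rw [MulAut.mul_apply, cz_pull']
    have c3 : ∀ γ : F2, ev x y ((a * b) γ) = ev (ev x y (a xx)) (ev x y (a yy)) (b γ) := by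
      intro γ
      rw [MulAut.mul_apply, ev_pull']
    rw [c1, c1, c1, c1, c3, c3, ihb M _ _ _ _ _ _ (Cl.pull ha h1) (Cl.pull ha h2)]
    exact iha M x y p q p' q' h1 h2
  · intro a ha iha M _ x y p q p' q' h1 h2
    have ha' : a⁻¹ ∈ G0 := G0.inv_mem ha
    have h := iha M (ev x y (a⁻¹ xx)) (ev x y (a⁻¹ yy)) (cz x y p q (a⁻¹ xx)) (cz x y p q (a⁻¹ yy))
      (cz x y p' q' (a⁻¹ xx)) (cz x y p' q' (a⁻¹ yy)) (Cl.pull ha' h1) (Cl.pull ha' h2)
    have c1 : ∀ (p q : M → ℝ) (γ : F2),
        cz (ev x y (a⁻¹ xx)) (ev x y (a⁻¹ yy)) (cz x y p q (a⁻¹ xx)) (cz x y p q (a⁻¹ yy)) (a γ) =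
          cz x y p q γ := by
      intro p q γ
      funext w
      rw [← cz_pull', MulAut.inv_apply_self]
    have c3 : ∀ γ : F2, ev (ev x y (a⁻¹ xx)) (ev x y (a⁻¹ yy)) (a γ) = ev x y γ := by
      intro γ
      rw [← ev_pull', MulAut.inv_apply_self]
    rw [c1, c1, c1, c1, c3, c3, ev_xx, ev_yy] at h
    have d1 : ∀ p q : M → ℝ, cz x y p q xx = p := fun p q => funext fun w => cz_xx x y p q w
    have d2 : ∀ p q : M → ℝ, cz x y p q yy = q := fun p q => funext fun w => cz_yy x y p q w
    rw [d1, d1, d2, d2] at h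
    exact h.symm

end Pool.Agent.PWK
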