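import Pool.Agent.PWK.St

/-!
# PWK, module STB (helper52): Stern-Brocot words
-/

set_option autoImplicit false

open scoped BigOperators

namespace Pool.Agent.PWK

private theorem STB_pos (W : List Bool) : 0 < (st W).1 ∧ 0 < (st W).2 ∧ Nat.Coprime (st W).1 (st W).2 := by
  induction W with
  | nil => exact ⟨Nat.one_pos, Nat.one_pos, Nat.coprime_one_left 1⟩
  | cons b W ih =>
    obtain ⟨h1, h2, h3⟩ := ih
    cases b with
    | true =>
      refine ⟨Nat.add_pos_left h1 _, h2, ?_⟩
      show Nat.Coprime ((st W).1 + (st W).2) (st W).2
      exact Nat.coprime_add_self_left.2 h3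
    | false =>
      refine ⟨h1, Nat.add_pos_left h1 _, ?_⟩
      show Nat.Coprime (st W).1 ((st W).1 + (st W).2)
      exact Nat.coprime_self_add_right.2 h3

private theorem STB_inj : Function.Injective st := by
  intro W
  induction W with
  | nil =>
    intro W' h
    cases W' with
    | nil => rfl
    | cons b W' =>
      obtain ⟨h1, h2, -⟩ := STB_pos W'
      cases b with
      | true =>
        have e : (1, 1) = ((st W').1 + (st W').2, (st W').2) := h
        have e1 := congrArg Prod.fst e
        have e2 := congrArg Prod.snd e
        simp only at e1 e2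
        omega
      | false =>
        have e : (1, 1) = ((st W').1, (st W').1 + (st W').2) := h
        have e1 := congrArg Prod.fst e
        have e2 := congrArg Prod.snd e
        simp only at e1 e2
        omega
  | cons a W ih =>
    intro W' h
    obtain ⟨g1, g2, -⟩ := STB_pos W
    cases W' with
    | nil =>
      cases a with
      | true =>
        have e : ((st W).1 + (st W).2, (st W).2) = (1, 1) := h
        have e1 := congrArg Prod.fst e
        have e2 := congrArg Prod.snd e
        simp only at e1 e2
        omega
      | false =>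
        have e : ((st W).1, (st W).1 + (st W).2) = (1, 1) := h
        have e1 := congrArg Prod.fst e
        have e2 := congrArg Prod.snd e
        simp only at e1 e2
        omega
    | cons b W' =>
      obtain ⟨h1, h2, -⟩ := STB_pos W'
      cases a with
      | true =>
        cases b with
        | true =>
          have e : ((st W).1 + (st W).2, (st W).2) = ((st W').1 + (st W').2, (st W').2) := h
          have e1 := congrArg Prod.fst e
          have e2 := congrArg Prod.snd e
          simp only at e1 e2
          have : st W = st W' := Prod.ext (by omega) e2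
          rw [ih this]
        | false =>
          have e : ((st W).1 + (st W).2, (st W).2) = ((st W').1, (st W').1 + (st W').2) := h
          have e1 := congrArg Prod.fst e
          have e2 := congrArg Prod.snd e
          simp only at e1 e2
          omega
      | false =>
        cases b with
        | true =>
          have e : ((st W).1, (st W).1 + (st W).2) = ((st W').1 + (st W').2, (st W').2) := h
          have e1 := congrArg Prod.fst e
          have e2 := congrArg Prod.snd e
          simp only at e1 e2
          omega
        | false =>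
          have e : ((st W).1, (st W).1 + (st W).2) = ((st W').1, (st W').1 + (st W').2) := h
          have e1 := congrArg Prod.fst e
          have e2 := congrArg Prod.snd e
          simp only at e1 e2
          have : st W = st W' := Prod.ext e1 (by omega)
          rw [ih this]

private theorem STB_surj (N : ℕ) : ∀ a b : ℕ, a + b ≤ N → 0 < a → 0 < b → Nat.Coprime a b → ∃ W, st W = (a, b) := by
  induction N with
  | zero => intro a b h ha; omega
  | succ N ih =>
    intro a b h ha hb hab
    rcases lt_trichotomy a b with hlt | heq | hgt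
    · obtain ⟨W, hW⟩ := ih a (b - a) (by omega) ha (by omega) (by
        have e : b = a + (b - a) := by omega
        rw [e] at hab
        exact Nat.coprime_self_add_right.1 hab)
      refine ⟨false :: W, ?_⟩
      show ((st W).1, (st W).1 + (st W).2) = (a, b)
      rw [hW]
      exact Prod.ext rfl (by show a + (b - a) = b; omega)
    · subst heq
      have : a = 1 := (Nat.coprime_self a).1 hab
      subst this
      exact ⟨[], rfl⟩
    · obtain ⟨W, hW⟩ := ih (a - b) b (by omega) (by omega) hb (by
        have e : a = (a - b) + b := by omega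
        rw [e] at hab
        exact Nat.coprime_add_self_left.1 hab)
      refine ⟨true :: W, ?_⟩
      show ((st W).1 + (st W).2, (st W).2) = (a, b)
      rw [hW]
      exact Prod.ext (by show a - b + b = a; omega) rfl

private theorem STB_bd (T : List Bool) : ∃ C : ℕ, ∀ W, (st (W ++ T)).1 ≤ C * (st W).1 ∧ (st (W ++ T)).2 ≤ C * (st W).2 := by
  refine ⟨max (st T).1 (st T).2, fun W => ?_⟩
  induction W with
  | nil =>
    show (st T).1 ≤ max (st T).1 (st T).2 * 1 ∧ (st T).2 ≤ max (st T).1 (st T).2 * 1
    rw [mul_one]
    exact ⟨le_max_left _ _, le_max_right _ _⟩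
  | cons b W ih =>
    obtain ⟨h1, h2⟩ := ih
    cases b with
    | true =>
      refine ⟨?_, h2⟩
      show (st (W ++ T)).1 + (st (W ++ T)).2 ≤ _ * ((st W).1 + (st W).2)
      rw [mul_add]
      exact add_le_add h1 h2
    | false =>
      refine ⟨h1, ?_⟩
      show (st (W ++ T)).1 + (st (W ++ T)).2 ≤ _ * ((st W).1 + (st W).2)
      rw [mul_add]
      exact add_le_add h1 h2

private theorem STB_eX_xx : eX xx = Multiplicative.ofAdd 1 := by simp [eX, xx]
private theorem STB_eX_yy : eX yy = 1 := by simp [eX, yy]
private theorem STB_eY_xx : eY xx = 1 := by simp [eY, xx]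
private theorem STB_eY_yy : eY yy = Multiplicative.ofAdd 1 := by simp [eY, yy]

private theorem STB_eX_aR (γ : F2) : eX (aR γ) = eX γ * eY γ := by
  have h : eX.comp (MulEquiv.toMonoidHom aR) = eX * eY := by
    refine hom_ext2 ?_ ?_
    · show eX (aR xx) = eX xx * eY xx
      rw [aR_xx, STB_eY_xx, mul_one]
    · show eX (aR yy) = eX yy * eY yy
      rw [aR_yy, map_mul, STB_eX_yy, STB_eX_xx, STB_eY_yy]
  exact DFunLike.congr_fun h γ

private theorem STB_eY_aR (γ : F2) : eY (aR γ) = eY γ := by
  have h : eY.comp (MulEquiv.toMonoidHom aR) = eY := by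
    refine hom_ext2 ?_ ?_
    · show eY (aR xx) = eY xx
      rw [aR_xx]
    · show eY (aR yy) = eY yy
      rw [aR_yy, map_mul, STB_eY_xx, mul_one]
  exact DFunLike.congr_fun h γ

private theorem STB_eX_aL (γ : F2) : eX (aL γ) = eX γ := by
  have h : eX.comp (MulEquiv.toMonoidHom aL) = eX := by
    refine hom_ext2 ?_ ?_
    · show eX (aL xx) = eX xx
      rw [aL_xx, map_mul, STB_eX_yy, mul_one]
    · show eX (aL yy) = eX yy
      rw [aL_yy]
  exact DFunLike.congr_fun h γ

private theorem STB_eY_aL (γ : F2) : eY (aL γ) = eX γ * eY γ := by
  have h : eY.comp (MulEquiv.toMonoidHom aL) = eX * eY := by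
    refine hom_ext2 ?_ ?_
    · show eY (aL xx) = eX xx * eY xx
      rw [aL_xx, map_mul, STB_eX_xx, STB_eY_xx, STB_eY_yy, one_mul, mul_one]
    · show eY (aL yy) = eX yy * eY yy
      rw [aL_yy, STB_eX_yy, one_mul]
  exact DFunLike.congr_fun h γ

private theorem STB_ab (W : List Bool) : ab ((wd W * aL) xx) = (((st W).1 : ℤ), ((st W).2 : ℤ)) := by
  induction W with
  | nil =>
    show ab (aL xx) = ((1 : ℤ), (1 : ℤ))
    have e1 : eX (xx * yy) = Multiplicative.ofAdd 1 := by rw [map_mul, STB_eX_xx, STB_eX_yy, mul_one]
    have e2 : eY (xx * yy) = Multiplicative.ofAdd 1 := by rw [map_mul, STB_eY_xx, STB_eY_yy, one_mul]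
    rw [aL_xx]
    unfold ab
    rw [e1, e2]
    rfl
  | cons b W ih =>
    have e1 : Multiplicative.toAdd (eX ((wd W * aL) xx)) = ((st W).1 : ℤ) := congrArg Prod.fst ih
    have e2 : Multiplicative.toAdd (eY ((wd W * aL) xx)) = ((st W).2 : ℤ) := congrArg Prod.snd ih
    cases b with
    | true =>
      show ab (aR ((wd W * aL) xx)) = ((((st W).1 + (st W).2 : ℕ) : ℤ), ((st W).2 : ℤ))
      unfold ab
      rw [STB_eX_aR, STB_eY_aR, toAdd_mul, e1, e2]
      push_cast
      rfl
    | false =>
      show ab (aL ((wd W * aL) xx)) = (((st W).1 : ℤ), (((st W).1 + (st W).2 : ℕ) : ℤ))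
      unfold ab
      rw [STB_eX_aL, STB_eY_aL, toAdd_mul, e1, e2]
      push_cast
      rfl

private theorem STB_G0 (W : List Bool) : wd W ∈ G0 := by
  induction W with
  | nil => exact one_mem _
  | cons b W ih =>
    cases b with
    | true => exact mul_mem (Subgroup.subset_closure (by simp)) ih
    | false => exact mul_mem (Subgroup.subset_closure (by simp)) ih

private theorem STB_app (W T : List Bool) : wd (W ++ T) = wd W * wd T := by
  induction W with
  | nil =>
    show wd T = 1 * wd T
    rw [one_mul]
  | cons b W ih =>
    cases b with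
    | true =>
      show aR * wd (W ++ T) = aR * wd W * wd T
      rw [ih, mul_assoc]
    | false =>
      show aL * wd (W ++ T) = aL * wd W * wd T
      rw [ih, mul_assoc]

theorem thm_STB : St_STB :=
  ⟨STB_pos, STB_inj, fun a b ha hb hab => STB_surj (a + b) a b le_rfl ha hb hab, STB_bd, STB_ab, STB_G0, STB_app⟩

end Pool.Agent.PWK
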