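import Pool.Agent.PWK.St2

/-!
# PWK, SUM: the sum of a class over a coset of the subgroup away from a handle (helper30)
-/

set_option autoImplicit false

open scoped BigOperators

namespace Pool.Agent.PWK

open Pool.Agent.PW

/-- SUM. -/
theorem thm_SUM : St_SUM := by
  intro hK g n N hN hFt f hg z _ y hy hyN c hdec
  obtain ⟨L, hL, hLN⟩ := exists_exp hN hg.fin
  let H : F g n ⧸ N → ℚ := fun q =>
    if ∃ p ∈ away z, q = ((c * p : F g n) : F g n ⧸ N) then 1 else 0
  have kpH : away z ≤ kp H := by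
    intro x hx
    rw [mem_kp]
    intro q
    have key : (∃ p ∈ away z, q * (x : F g n ⧸ N) = ((c * p : F g n) : F g n ⧸ N)) ↔
        (∃ p ∈ away z, q = ((c * p : F g n) : F g n ⧸ N)) := by
      constructor
      · rintro ⟨p, hp, e⟩
        refine ⟨p * x⁻¹, (away z).mul_mem hp ((away z).inv_mem hx), ?_⟩
        have e2 : ((c * (p * x⁻¹) : F g n) : F g n ⧸ N) =
            ((c * p : F g n) : F g n ⧸ N) * (x : F g n ⧸ N)⁻¹ := by
          rw [← QuotientGroup.mk_inv, ← QuotientGroup.mk_mul, mul_assoc]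
        rw [e2, ← e, mul_inv_cancel_right]
      · rintro ⟨p, hp, e⟩
        refine ⟨p * x, (away z).mul_mem hp hx, ?_⟩
        rw [e, ← QuotientGroup.mk_mul, mul_assoc]
    show (if ∃ p ∈ away z, q * (x : F g n ⧸ N) = ((c * p : F g n) : F g n ⧸ N) then (1 : ℚ)
      else 0) = if ∃ p ∈ away z, q = ((c * p : F g n) : F g n ⧸ N) then 1 else 0
    by_cases h : ∃ p ∈ away z, q = ((c * p : F g n) : F g n ⧸ N)
    · rw [if_pos h, if_pos (key.mpr h)]
    · rw [if_neg h, if_neg (fun h' => h (key.mp h'))]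
  have hle : away z ≤ trk hg.add H := by
    have hsub := kpH
    unfold away at hsub ⊢
    rw [Subgroup.closure_le] at hsub ⊢
    intro x hx
    have hxk := hsub hx
    rcases hx with ⟨j, _, rfl | rfl⟩ | ⟨j, rfl⟩
    · exact mem_trk_of_pow hg.add hxk hL (hLN _) ((hK g n N f hg j L).1 (hLN _))
    · exact mem_trk_of_pow hg.add hxk hL (hLN _) ((hK g n N f hg j L).2 (hLN _))
    · exact mem_trk_of_pow hg.add hxk hL (hLN _) (fun w => hg.marked w j L (hLN _))
  have h0 : tr N f H y = 0 := (hle hy).2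
  rw [tr_mem hyN] at h0
  refine Eq.trans ?_ h0
  refine Finset.sum_congr rfl fun q _ => ?_
  show _ = (if ∃ p ∈ away z, q = ((c * p : F g n) : F g n ⧸ N) then (1 : ℚ) else 0) * _
  by_cases h : ∃ p ∈ away z, q = ((c * p : F g n) : F g n ⧸ N)
  · rw [if_pos h, if_pos h, one_mul]
  · rw [if_neg h, if_neg h, zero_mul]

end Pool.Agent.PWK
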