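import Pool.Agent.PWK.MainM
import Pool.Agent.PWK.KFI
import Pool.Agent.PWK.ADR
import Pool.Agent.PWK.ADL
import Pool.Agent.PWK.ADM
import Pool.Agent.PWK.LFT
import Pool.Agent.PWK.EST
import Pool.Agent.PWK.AVG
import Pool.Agent.PWK.BIL
import Pool.Agent.PWK.QIN
import Pool.Agent.PWK.INV
import Pool.Agent.PWK.DET
import Pool.Agent.PWK.ORP
import Pool.Agent.PWK.BAB
import Pool.Agent.PWK.BES
import Pool.Agent.PWK.PRM
import Pool.Agent.PWK.STB
import Pool.Agent.PWK.DVD
import Pool.Agent.PWK.DIV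
import Pool.Agent.PWK.DUA
import Pool.Agent.PWK.KLA
import Pool.Agent.PWK.PSH
import Pool.Agent.PWK.SUM
import Pool.Agent.PWK.ONE
import Pool.Agent.PWK.CRS
import Pool.Agent.PWK.LAB
import Pool.Agent.PWK.LBI
import Pool.Agent.PWK.ORI
import Pool.Agent.PWK.IND
import Pool.Agent.PWK.AMC
import Pool.Agent.PWK.CRO
import Pool.Agent.PWK.FIX
import Pool.Agent.PWK.GDD
import Pool.Agent.PWK.ORB

/-!
# PWK: one killed curve suffices (helper17)
-/

set_option autoImplicit false

namespace Pool.Agent.PWK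

/-- part M: the weight argument -/
theorem main_M : Main :=
  main_of thm_LFT thm_EST thm_AVG thm_BIL thm_QIN thm_INV thm_DET thm_ORP thm_BAB
    (thm_ADM thm_ADR thm_ADL) thm_BES thm_PRM thm_STB thm_DVD thm_DIV thm_DUA

/-- the inner form -/
theorem killed_fine : KilledFine :=
  killed_fine_of main_M thm_KLA thm_PSH thm_SUM thm_ONE thm_CRS thm_LAB thm_LBI thm_ORI thm_IND
    thm_AMC thm_CRO thm_FIX thm_GDD

/-- **One killed curve suffices.** -/
theorem one_killed : OneKilled :=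
  thm_FIN main_M thm_KLA thm_PSH thm_SUM thm_ONE thm_CRS thm_LAB thm_LBI thm_ORI thm_IND
    thm_AMC thm_CRO thm_FIX thm_GDD thm_ORB

end Pool.Agent.PWK
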