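import Pool.Agent.PWK.Defs

/-!
# PWK: basic rules for `ev`, `cz`, `Wit` (helper17)
-/

set_option autoImplicit false

open scoped BigOperators

namespace Pool.Agent.PWK

variable {Ω : Type}

/-- induction on the words -/
theorem F2_ind {P : F2 → Prop} (h1 : P 1) (hx : P xx) (hy : P yy)
    (hi : ∀ γ, P γ → P γ⁻¹) (hm : ∀ γ δ, P γ → P δ → P (γ * δ)) (γ : F2) : P γ := by
  refine FreeGroup.induction_on γ h1 ?_ ?_ (fun a b ha hb => hm a b ha hb)
  · intro i
    fin_cases i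
    · exact hx
    · exact hy
  · intro i _
    fin_cases i
    · exact hi _ hx
    · exact hi _ hy

theorem sk_apply (x : Equiv.Perm Ω) (p : Ω → ℝ) (w : Ω) (t : ℝ) :
    sk x p (w, t) = (x w, t + p w) := rfl

/-- the skew product of the cocycle -/
theorem ev_sk (x y : Equiv.Perm Ω) (p q : Ω → ℝ) (γ : F2) (w : Ω) (t : ℝ) :
    ev (sk x p) (sk y q) γ (w, t) = (ev x y γ w, t + cz x y p q γ w) := by
  suffices h : ∀ γ : F2, ∀ w t, ev (sk x p) (sk y q) γ (w, t) =
      (ev x y γ w, t + (ev (sk x p) (sk y q) γ (w, 0)).2) from h γ w t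
  intro γ
  refine F2_ind (P := fun γ => ∀ w t, ev (sk x p) (sk y q) γ (w, t) =
      (ev x y γ w, t + (ev (sk x p) (sk y q) γ (w, 0)).2)) ?_ ?_ ?_ ?_ ?_ γ
  · intro w t
    simp
  · intro w t
    rw [ev_xx, ev_xx, sk_apply, sk_apply]
    simp
  · intro w t
    rw [ev_yy, ev_yy, sk_apply, sk_apply]
    simp
  · intro γ h w t
    have h0 : ∀ w t, ev (sk x p) (sk y q) γ⁻¹ (w, t) =
        ((ev x y γ)⁻¹ w, t - (ev (sk x p) (sk y q) γ ((ev x y γ)⁻¹ w, 0)).2) := by
      intro w t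
      rw [map_inv, Equiv.Perm.inv_eq_iff_eq, h]
      simp
    rw [h0, h0 w 0, map_inv]
    simp only [Prod.mk.injEq, true_and]
    ring
  · intro γ δ hγ hδ w t
    rw [map_mul, map_mul, Equiv.Perm.mul_apply, Equiv.Perm.mul_apply, Equiv.Perm.mul_apply,
      hδ, hγ, hδ w 0, hγ _ (0 + _)]
    simp only [Prod.mk.injEq, true_and]
    ring

theorem cz_one (x y : Equiv.Perm Ω) (p q : Ω → ℝ) (w : Ω) : cz x y p q 1 w = 0 := by
  simp [cz]

theorem cz_xx (x y : Equiv.Perm Ω) (p q : Ω → ℝ) (w : Ω) : cz x y p q xx w = p w := by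
  simp [cz, ev_xx, sk_apply]

theorem cz_yy (x y : Equiv.Perm Ω) (p q : Ω → ℝ) (w : Ω) : cz x y p q yy w = q w := by
  simp [cz, ev_yy, sk_apply]

theorem cz_mul (x y : Equiv.Perm Ω) (p q : Ω → ℝ) (γ δ : F2) (w : Ω) :
    cz x y p q (γ * δ) w = cz x y p q γ (ev x y δ w) + cz x y p q δ w := by
  have h := ev_sk x y p q (γ * δ) w 0
  rw [map_mul, Equiv.Perm.mul_apply, ev_sk x y p q δ w 0, ev_sk x y p q γ] at h
  have := congrArg Prod.snd h
  simp only [zero_add] at this
  linarith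

theorem cz_inv (x y : Equiv.Perm Ω) (p q : Ω → ℝ) (γ : F2) (w : Ω) :
    cz x y p q γ⁻¹ w = - cz x y p q γ ((ev x y γ)⁻¹ w) := by
  have h := cz_mul x y p q γ γ⁻¹ w
  rw [mul_inv_cancel, cz_one, map_inv] at h
  linarith

/-- a function with the cocycle rule is determined by the values on the generators -/
theorem cz_unique (x y : Equiv.Perm Ω) (p q : Ω → ℝ) (C : F2 → Ω → ℝ)
    (hm : ∀ γ δ w, C (γ * δ) w = C γ (ev x y δ w) + C δ w)
    (hx : ∀ w, C xx w = p w) (hy : ∀ w, C yy w = q w) (γ : F2) (w : Ω) :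
    C γ w = cz x y p q γ w := by
  have h1 : ∀ w, C 1 w = 0 := by
    intro w
    have := hm 1 1 w
    simp only [mul_one, map_one, Equiv.Perm.one_apply] at this
    linarith
  revert w
  refine F2_ind (P := fun γ => ∀ w, C γ w = cz x y p q γ w) ?_ ?_ ?_ ?_ ?_ γ
  · intro w
    rw [h1, cz_one]
  · intro w
    rw [hx, cz_xx]
  · intro w
    rw [hy, cz_yy]
  · intro γ h w
    rw [cz_inv, ← h]
    have := hm γ γ⁻¹ w
    rw [mul_inv_cancel, h1, map_inv] at this
    linarith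
  · intro γ δ hγ hδ w
    rw [hm, cz_mul, hγ, hδ]

theorem cz_add (x y : Equiv.Perm Ω) (p q p' q' : Ω → ℝ) (γ : F2) (w : Ω) :
    cz x y (fun w => p w + p' w) (fun w => q w + q' w) γ w
      = cz x y p q γ w + cz x y p' q' γ w := by
  refine (cz_unique x y _ _ (fun γ w => cz x y p q γ w + cz x y p' q' γ w) ?_ ?_ ?_ γ w).symm
  · intro γ δ w
    simp only [cz_mul]
    ring
  · intro w
    simp only [cz_xx]
  · intro w
    simp only [cz_yy]

theorem cz_smul (x y : Equiv.Perm Ω) (c : ℝ) (p q : Ω → ℝ) (γ : F2) (w : Ω) :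
    cz x y (fun w => c * p w) (fun w => c * q w) γ w = c * cz x y p q γ w := by
  refine (cz_unique x y _ _ (fun γ w => c * cz x y p q γ w) ?_ ?_ ?_ γ w).symm
  · intro γ δ w
    simp only [cz_mul]
    ring
  · intro w
    simp only [cz_xx]
  · intro w
    simp only [cz_yy]

/-- coboundaries -/
theorem cz_cob (x y : Equiv.Perm Ω) (u : Ω → ℝ) (γ : F2) (w : Ω) :
    cz x y (fun w => u (x w) - u w) (fun w => u (y w) - u w) γ w = u (ev x y γ w) - u w := by
  refine (cz_unique x y _ _ (fun γ w => u (ev x y γ w) - u w) ?_ ?_ ?_ γ w).symm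
  · intro γ δ w
    simp only [map_mul, Equiv.Perm.mul_apply]
    ring
  · intro w
    simp only [ev_xx]
  · intro w
    simp only [ev_yy]

/-- adding a coboundary -/
theorem cz_add_cob (x y : Equiv.Perm Ω) (p q u : Ω → ℝ) (γ : F2) (w : Ω) :
    cz x y (fun w => p w + (u (x w) - u w)) (fun w => q w + (u (y w) - u w)) γ w
      = cz x y p q γ w + (u (ev x y γ w) - u w) := by
  rw [cz_add x y p q (fun w => u (x w) - u w) (fun w => u (y w) - u w), cz_cob]

/-- composition with an endomorphism: the action -/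
theorem ev_pull {S : Type} (x y : Equiv.Perm S) (α : F2 →* F2) (γ : F2) :
    ev x y (α γ) = ev (ev x y (α xx)) (ev x y (α yy)) γ := by
  have : (ev x y).comp α = ev (ev x y (α xx)) (ev x y (α yy)) := by
    apply hom_ext2
    · simp [ev_xx]
    · simp [ev_yy]
  exact DFunLike.congr_fun this γ

/-- composition with an endomorphism: the cocycle -/
theorem cz_pull (x y : Equiv.Perm Ω) (p q : Ω → ℝ) (α : F2 →* F2) (γ : F2) (w : Ω) :
    cz x y p q (α γ) w
      = cz (ev x y (α xx)) (ev x y (α yy)) (cz x y p q (α xx)) (cz x y p q (α yy)) γ w := by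
  refine cz_unique _ _ _ _ (fun γ w => cz x y p q (α γ) w) ?_ ?_ ?_ γ w
  · intro γ δ w
    simp only [map_mul, cz_mul]
    rw [← ev_pull]
  · intro w
    rfl
  · intro w
    rfl

theorem ev_pull' {S : Type} (x y : Equiv.Perm S) (α : MulAut F2) (γ : F2) :
    ev x y (α γ) = ev (ev x y (α xx)) (ev x y (α yy)) γ :=
  ev_pull x y α.toMonoidHom γ

theorem cz_pull' (x y : Equiv.Perm Ω) (p q : Ω → ℝ) (α : MulAut F2) (γ : F2) (w : Ω) :
    cz x y p q (α γ) w
      = cz (ev x y (α xx)) (ev x y (α yy)) (cz x y p q (α xx)) (cz x y p q (α yy)) γ w :=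
  cz_pull x y p q α.toMonoidHom γ w

/-- an isomorphism of the actions -/
theorem ev_conj {S S' : Type} (x y : Equiv.Perm S) (x' y' : Equiv.Perm S') (A : S → S')
    (hx : ∀ w, A (x w) = x' (A w)) (hy : ∀ w, A (y w) = y' (A w)) (γ : F2) (w : S) :
    A (ev x y γ w) = ev x' y' γ (A w) := by
  revert w
  refine F2_ind (P := fun γ => ∀ w, A (ev x y γ w) = ev x' y' γ (A w)) ?_ ?_ ?_ ?_ ?_ γ
  · intro w
    simp
  · intro w
    rw [ev_xx, ev_xx, hx]
  · intro w
    rw [ev_yy, ev_yy, hy]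
  · intro γ h w
    rw [map_inv, map_inv, Equiv.Perm.eq_inv_iff_eq, ← h]
    simp
  · intro γ δ hγ hδ w
    simp only [map_mul, Equiv.Perm.mul_apply]
    rw [hγ, hδ]

theorem cz_conj {Ω' : Type} (x y : Equiv.Perm Ω) (x' y' : Equiv.Perm Ω') (A : Ω → Ω')
    (hx : ∀ w, A (x w) = x' (A w)) (hy : ∀ w, A (y w) = y' (A w)) (p q : Ω' → ℝ)
    (γ : F2) (w : Ω) :
    cz x' y' p q γ (A w) = cz x y (fun w => p (A w)) (fun w => q (A w)) γ w := by
  refine cz_unique x y _ _ (fun γ w => cz x' y' p q γ (A w)) ?_ ?_ ?_ γ w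
  · intro γ δ w
    simp only [cz_mul]
    rw [ev_conj x y x' y' A hx hy]
  · intro w
    simp only [cz_xx]
  · intro w
    simp only [cz_yy]

/-! ### witnesses -/

variable {x y : Equiv.Perm Ω} {p q : Ω → ℝ}

/-- it is enough to check the generators -/
theorem Wit.of_gens {α : MulAut F2} {A : Equiv.Perm Ω} {u : Ω → ℝ}
    (hx : ∀ m, A (x m) = ev x y (α xx) (A m)) (hy : ∀ m, A (y m) = ev x y (α yy) (A m))
    (cx : ∀ m, cz x y p q (α xx) (A m) = p m + u (x m) - u m)
    (cy : ∀ m, cz x y p q (α yy) (A m) = q m + u (y m) - u m) : Wit x y p q α A u := by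
  have hact : ∀ γ m, A (ev x y γ m) = ev x y (α γ) (A m) := by
    intro γ m
    rw [ev_conj x y (ev x y (α xx)) (ev x y (α yy)) A hx hy, ← ev_pull']
  refine ⟨hact, fun γ m => ?_⟩
  have h := cz_unique x y (fun w => p w + (u (x w) - u w)) (fun w => q w + (u (y w) - u w))
    (fun γ m => cz x y p q (α γ) (A m)) ?_ ?_ ?_ γ m
  · rw [h, cz_add_cob]
    ring
  · intro γ δ w
    simp only [map_mul, cz_mul]
    rw [hact]
  · intro w
    simp only [cx]
    ring
  · intro w
    simp only [cy]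
    ring

theorem Wit.one : Wit x y p q 1 1 (fun _ => 0) := by
  refine ⟨fun γ m => rfl, fun γ m => ?_⟩
  simp

theorem Wit.mul {α β : MulAut F2} {A B : Equiv.Perm Ω} {u v : Ω → ℝ}
    (hA : Wit x y p q α A u) (hB : Wit x y p q β B v) :
    Wit x y p q (α * β) (A * B) (fun m => v m + u (B m)) := by
  refine ⟨fun γ m => ?_, fun γ m => ?_⟩
  · simp only [Equiv.Perm.mul_apply, MulAut.mul_apply]
    rw [hB.act, hA.act]
  · simp only [Equiv.Perm.mul_apply, MulAut.mul_apply]
    rw [hA.val, hB.val, ← hB.act]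
    ring

theorem Wit.inv {α : MulAut F2} {A : Equiv.Perm Ω} {u : Ω → ℝ}
    (hA : Wit x y p q α A u) : Wit x y p q α⁻¹ A⁻¹ (fun m => - u (A⁻¹ m)) := by
  have h1 : ∀ γ m, A⁻¹ (ev x y γ m) = ev x y (α⁻¹ γ) (A⁻¹ m) := by
    intro γ m
    rw [Equiv.Perm.inv_eq_iff_eq, hA.act]
    simp
  refine ⟨h1, fun γ m => ?_⟩
  have h := hA.val (α⁻¹ γ) (A⁻¹ m)
  rw [← h1] at h
  rw [MulAut.apply_inv_self, show A (A⁻¹ m) = m from A.apply_symm_apply m] at h
  linarith

theorem Wit.add_cob {α : MulAut F2} {A : Equiv.Perm Ω} {u : Ω → ℝ}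
    (hA : Wit x y p q α A u) (v : Ω → ℝ) :
    Wit x y (fun w => p w + (v (x w) - v w)) (fun w => q w + (v (y w) - v w)) α A
      (fun m => u m + v (A m) - v m) := by
  refine ⟨hA.act, fun γ m => ?_⟩
  rw [cz_add_cob, cz_add_cob, hA.val, ← hA.act]
  ring

theorem Wit.smul {α : MulAut F2} {A : Equiv.Perm Ω} {u : Ω → ℝ}
    (hA : Wit x y p q α A u) (c : ℝ) :
    Wit x y (fun w => c * p w) (fun w => c * q w) α A (fun m => c * u m) := by
  refine ⟨hA.act, fun γ m => ?_⟩
  rw [cz_smul, cz_smul, hA.val]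
  ring

/-! ### exponents -/

theorem ab_one : ab 1 = 0 := by simp [ab]

theorem ab_mul (γ δ : F2) : ab (γ * δ) = ab γ + ab δ := by
  simp [ab]

theorem ab_inv (γ : F2) : ab γ⁻¹ = - ab γ := by
  simp [ab]

theorem ab_xx : ab xx = (1, 0) := by
  simp [ab, eX, eY, xx]

theorem ab_yy : ab yy = (0, 1) := by
  simp [ab, eX, eY, yy]

/-! ### the commutator -/

theorem aR_cc : aR cc = cc := by
  simp only [cc, map_mul, map_inv, aR_xx, aR_yy]
  group

theorem aL_cc : aL cc = cc := by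
  simp only [cc, map_mul, map_inv, aL_xx, aL_yy]
  group

/-- all automorphisms of `G0` fix the commutator -/
theorem G0_cc {α : MulAut F2} (h : α ∈ G0) : α cc = cc := by
  refine Subgroup.closure_induction (p := fun α _ => α cc = cc) ?_ ?_ ?_ ?_ h
  · rintro α (h | h)
    · rw [h]; exact aR_cc
    · rw [h]; exact aL_cc
  · rfl
  · intro a b _ _ ha hb
    rw [MulAut.mul_apply, hb, ha]
  · intro a _ ha
    have h2 : a⁻¹ (a cc) = cc := MulAut.inv_apply_self F2 a cc
    rw [ha] at h2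
    exact h2

theorem cz_cc (x y : Equiv.Perm Ω) (p q : Ω → ℝ) (w : Ω) :
    cz x y p q cc (y (x w)) = (p (y w) + q w) - (q (x w) + p w) := by
  have e : cc = (xx * yy) * (yy * xx)⁻¹ := by
    simp only [cc]
    group
  rw [e, cz_mul, cz_inv]
  have h1 : (ev x y (yy * xx))⁻¹ (y (x w)) = w := by
    rw [map_mul, ev_xx, ev_yy]
    simp [Equiv.Perm.mul_apply]
  have h2 : ev x y (yy * xx)⁻¹ (y (x w)) = w := by
    rw [map_inv]
    exact h1
  rw [h1, h2, cz_mul, cz_mul, cz_xx, cz_yy, cz_xx, cz_yy, ev_xx, ev_yy]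
  ring

/-- closed means that the value on the commutator is zero -/
theorem Cl_iff (x y : Equiv.Perm Ω) (p q : Ω → ℝ) :
    Cl x y p q ↔ ∀ w, cz x y p q cc w = 0 := by
  constructor
  · intro h w
    have := cz_cc x y p q (x.symm (y.symm w))
    simp only [Equiv.apply_symm_apply] at this
    rw [this, h]
    simp
  · intro h w
    have := cz_cc x y p q w
    rw [h] at this
    linarith

/-- the composition of a closed cocycle with an automorphism of `G0` is closed -/
theorem Cl.pull {α : MulAut F2} (h : α ∈ G0) {x y : Equiv.Perm Ω} {p q : Ω → ℝ}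
    (hc : Cl x y p q) :
    Cl (ev x y (α xx)) (ev x y (α yy)) (cz x y p q (α xx)) (cz x y p q (α yy)) := by
  rw [Cl_iff] at hc ⊢
  intro w
  rw [← cz_pull', G0_cc h]
  exact hc w

end Pool.Agent.PWK
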