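import Pool.Agent.PWK.St3

/-!
# PWK, part C: one central curve
-/

set_option autoImplicit false

namespace Pool.Agent.PWK

open Pool.Agent.PW

private theorem CEN_zpow {g n : ℕ} {N : Subgroup (F g n)} {f : F g n → ℚ} (h : Good N f)
    {z : Fin g} (hz : (z : ℕ) = 0) (hcen : ∀ x, cm (ga z) x ∈ N) (k : ℤ) :
    ∀ x ∈ N, f (ga z ^ k * x * (ga z ^ k)⁻¹) = f x := by
  have hN := h.normal
  induction k using Int.induction_on with
  | zero =>
    intro x _
    simp
  | succ i ih =>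
    intro x hx
    have e : ga z ^ ((i : ℤ) + 1) * x * (ga z ^ ((i : ℤ) + 1))⁻¹ =
        ga z * (ga z ^ (i : ℤ) * x * (ga z ^ (i : ℤ))⁻¹) * (ga z)⁻¹ := by
      rw [add_comm, zpow_add, zpow_one]
      group
    rw [e, h.inv_a hz hcen (hN.conj_mem x hx _)]
    exact ih x hx
  | pred i ih =>
    intro x hx
    have h1 : ga z ^ (-(i : ℤ) - 1) * x * (ga z ^ (-(i : ℤ) - 1))⁻¹ ∈ N := hN.conj_mem x hx _
    have e : ga z ^ (-(i : ℤ)) * x * (ga z ^ (-(i : ℤ)))⁻¹ =
        ga z * (ga z ^ (-(i : ℤ) - 1) * x * (ga z ^ (-(i : ℤ) - 1))⁻¹) * (ga z)⁻¹ := by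
      have e2 : ga (n := n) z ^ (-(i : ℤ)) = ga z * ga z ^ (-(i : ℤ) - 1) := by
        rw [← zpow_one_add]
        congr 1
        ring
      rw [e2]
      group
    rw [← h.inv_a hz hcen h1, ← e]
    exact ih x hx

/-- CEN: one central curve. -/
theorem thm_CEN : St_CEN := by
  intro hK hE g n hg N f hf hcen
  have hN := hf.good.normal
  let z : Fin g := ⟨0, hg⟩
  let q := QuotientGroup.mk' N
  let M : Subgroup (F g n) := (Subgroup.zpowers (q (ga z))).comap q
  have hcomm : ∀ y : F g n ⧸ N, Commute (q (ga z)) y := by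
    intro y
    obtain ⟨x, rfl⟩ := QuotientGroup.mk'_surjective N y
    have h1 : q (cm (ga z) x) = 1 := (QuotientGroup.eq_one_iff _).mpr (hcen x)
    have h2 : q (cm (ga z) x) = q (ga z) * q x * (q (ga z))⁻¹ * (q x)⁻¹ := by
      simp [cm]
    rw [h2] at h1
    show q (ga z) * q x = q x * q (ga z)
    rw [mul_inv_eq_one, mul_inv_eq_iff_eq_mul] at h1
    exact h1
  have hnorm : (Subgroup.zpowers (q (ga z))).Normal := by
    refine ⟨?_⟩
    intro x hx y
    obtain ⟨k, rfl⟩ := Subgroup.mem_zpowers_iff.mp hx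
    have h1 : y * q (ga z) ^ k * y⁻¹ = q (ga z) ^ k := by
      rw [mul_inv_eq_iff_eq_mul]
      exact ((hcomm y).zpow_left k).eq.symm
    rw [h1]
    exact hx
  have hM : M.Normal := hnorm.comap q
  have hNM : N ≤ M := by
    intro x hx
    show q x ∈ Subgroup.zpowers (q (ga z))
    have : q x = 1 := (QuotientGroup.eq_one_iff _).mpr hx
    rw [this]
    exact Subgroup.one_mem _
  have hinv : ∀ m ∈ M, ∀ x ∈ N, f (m * x * m⁻¹) = f x := by
    intro m hm x hx
    have h1 : q m ∈ Subgroup.zpowers (q (ga z)) := hm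
    obtain ⟨k, hk⟩ := Subgroup.mem_zpowers_iff.mp h1
    have h2 : ((m : F g n) : F g n ⧸ N) = ((ga z ^ k : F g n) : F g n ⧸ N) := by
      show q m = q (ga z ^ k)
      rw [map_zpow, hk]
    rw [hf.good.add.conj_eq hx h2]
    exact CEN_zpow hf.good rfl hcen k x hx
  obtain ⟨f1, hf1, hf1e⟩ := hE g n N M f hf hM hNM hinv
  intro x hx
  rw [← hf1e x hx]
  exact hK g n hg M f1 hf1 (Subgroup.mem_zpowers (q (ga z))) x (hNM hx)

end Pool.Agent.PWK
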