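import Pool.Agent.PWK.St

/-!
# PWK, module DIV: divergence of the sum over the words in a finite index subgroup (helper68)

Statement and proof: `St_DIV` in `PWK/St.lean`.
-/

set_option autoImplicit false

open scoped BigOperators

namespace Pool.Agent.PWK

private theorem DIV_dt (a b a' b' : ℕ) (ha : 0 < a) (ha' : 0 < a')
    (h : Nat.Coprime a b) (h' : Nat.Coprime a' b') (e : a * b' = b * a') :
    a = a' ∧ b = b' := by
  have h1 : a ∣ a' := by
    have : a ∣ b * a' := ⟨b', by rw [← e]⟩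
    exact h.dvd_of_dvd_mul_left this
  have h2 : a' ∣ a := by
    have : a' ∣ a * b' := ⟨b, by rw [e]; ring⟩
    exact h'.dvd_of_dvd_mul_right this
  have h3 : a = a' := Nat.dvd_antisymm h1 h2
  refine ⟨h3, ?_⟩
  subst h3
  have : a * b' = a * b := by rw [e]; ring
  exact (Nat.eq_of_mul_eq_mul_left ha this).symm

/-- the module DIV -/
theorem thm_DIV : St_DIV := by
  classical
  intro hPRM hSTB hDVD D hD Z
  obtain ⟨h1, h2, h3, h4, h5, h6, h7⟩ := hSTB
  obtain ⟨T, hT⟩ := hDVD D hD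
  choose V hVT hVD using hT
  choose c hc using h4
  have hTne : T.Nonempty := ⟨V [], hVT []⟩
  -- the common constant
  set C : ℕ := 1 + ∑ U ∈ T, c U with hC
  have hcC : ∀ U ∈ T, c U ≤ C := by
    intro U hU
    have := Finset.single_le_sum (f := c) (fun i _ => Nat.zero_le _) hU
    omega
  have hC1 : 1 ≤ C := by omega
  obtain ⟨P, hP, hPZ⟩ := hPRM (|Z| * (C : ℝ) ^ 2 * (T.card : ℝ))
  -- words of the pairs
  have hW : ∀ u : ℕ × ℕ, ∃ W : List Bool, u ∈ P → st W = u := by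
    intro u
    by_cases hu : u ∈ P
    · obtain ⟨ha, hb, hab⟩ := hP u hu
      obtain ⟨W, hW⟩ := h3 u.1 u.2 ha hb hab
      exact ⟨W, fun _ => hW⟩
    · exact ⟨[], fun h => absurd h hu⟩
  choose W hW using hW
  let E : ℕ × ℕ → List Bool := fun u => W u ++ V (W u)
  let f : ℕ × ℕ → MulAut F2 := fun u => wd (E u) * aL
  have hinj : ∀ X Y : List Bool, wd X * aL = wd Y * aL → X = Y := by
    intro X Y h
    have e1 := h5 X
    have e2 := h5 Y
    rw [h, e2] at e1
    apply h2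
    have a1 := congrArg Prod.fst e1
    have a2 := congrArg Prod.snd e1
    simp only at a1 a2
    apply Prod.ext
    · exact_mod_cast a1.symm
    · exact_mod_cast a2.symm
  have haL : aL ∈ G0 := Subgroup.subset_closure (by simp)
  refine ⟨P.image f, ?_, ?_, ?_⟩
  · intro α hα
    obtain ⟨u, _, rfl⟩ := Finset.mem_image.1 hα
    exact ⟨hVD (W u), G0.mul_mem (h6 _) haL⟩
  · intro α hα β hβ hne hdt
    obtain ⟨u, _, rfl⟩ := Finset.mem_image.1 hα
    obtain ⟨v, _, rfl⟩ := Finset.mem_image.1 hβ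
    apply hne
    have e1 : ab ((f u) xx) = (((st (E u)).1 : ℤ), ((st (E u)).2 : ℤ)) := h5 (E u)
    have e2 : ab ((f v) xx) = (((st (E v)).1 : ℤ), ((st (E v)).2 : ℤ)) := h5 (E v)
    rw [e1, e2] at hdt
    have hdt' : ((st (E u)).1 : ℤ) * ((st (E v)).2 : ℤ) - ((st (E u)).2 : ℤ) * ((st (E v)).1 : ℤ)
        = 0 := hdt
    have hdt2 : (st (E u)).1 * (st (E v)).2 = (st (E u)).2 * (st (E v)).1 := by
      have : ((st (E u)).1 : ℤ) * ((st (E v)).2 : ℤ) = ((st (E u)).2 : ℤ) * ((st (E v)).1 : ℤ) := by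
        linarith
      exact_mod_cast this
    obtain ⟨p1, p2, p3⟩ := h1 (E u)
    obtain ⟨q1, q2, q3⟩ := h1 (E v)
    obtain ⟨r1, r2⟩ := DIV_dt _ _ _ _ p1 q1 p3 q3 hdt2
    have : E u = E v := h2 (Prod.ext r1 r2)
    show wd (E u) * aL = wd (E v) * aL
    rw [this]
  · -- the sum
    set F : MulAut F2 → ℝ := fun α =>
      1 / (((ab (α xx)).1 : ℝ) ^ 2 + ((ab (α xx)).2 : ℝ) ^ 2) with hF
    show Z ≤ ∑ α ∈ P.image f, F α
    have hF0 : ∀ α, 0 ≤ F α := by
      intro α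
      simp only [hF]
      positivity
    -- the lower bound of a term
    have hCpos : (0 : ℝ) < (C : ℝ) := by exact_mod_cast hC1
    have hterm : ∀ u ∈ P, 1 / ((u.1 : ℝ) + (u.2 : ℝ)) ^ 2 ≤ (C : ℝ) ^ 2 * F (f u) := by
      intro u hu
      have e1 : ab ((f u) xx) = (((st (E u)).1 : ℤ), ((st (E u)).2 : ℤ)) := h5 (E u)
      obtain ⟨g1, g2⟩ := hc (V (W u)) (W u)
      rw [hW u hu] at g1 g2
      obtain ⟨p1, p2, p3⟩ := h1 (E u)
      obtain ⟨ha, hb, _⟩ := hP u hu
      have hcc := hcC (V (W u)) (hVT (W u))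
      have g1' : (st (E u)).1 ≤ C * u.1 := le_trans g1 (Nat.mul_le_mul_right _ hcc)
      have g2' : (st (E u)).2 ≤ C * u.2 := le_trans g2 (Nat.mul_le_mul_right _ hcc)
      have g1r : ((st (E u)).1 : ℝ) ≤ (C : ℝ) * (u.1 : ℝ) := by exact_mod_cast g1'
      have g2r : ((st (E u)).2 : ℝ) ≤ (C : ℝ) * (u.2 : ℝ) := by exact_mod_cast g2'
      have p1r : (0 : ℝ) < ((st (E u)).1 : ℝ) := by exact_mod_cast p1
      have p2r : (0 : ℝ) < ((st (E u)).2 : ℝ) := by exact_mod_cast p2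
      have har : (0 : ℝ) < (u.1 : ℝ) := by exact_mod_cast ha
      have hbr : (0 : ℝ) < (u.2 : ℝ) := by exact_mod_cast hb
      have hFv : F (f u) = 1 / (((st (E u)).1 : ℝ) ^ 2 + ((st (E u)).2 : ℝ) ^ 2) := by
        simp only [hF]
        rw [e1]
        simp
      rw [hFv]
      have s1 : ((st (E u)).1 : ℝ) ^ 2 ≤ ((C : ℝ) * (u.1 : ℝ)) ^ 2 :=
        pow_le_pow_left₀ p1r.le g1r 2
      have s2 : ((st (E u)).2 : ℝ) ^ 2 ≤ ((C : ℝ) * (u.2 : ℝ)) ^ 2 :=
        pow_le_pow_left₀ p2r.le g2r 2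
      have hden : 0 < ((st (E u)).1 : ℝ) ^ 2 + ((st (E u)).2 : ℝ) ^ 2 := by positivity
      have hden2 : 0 < ((u.1 : ℝ) + (u.2 : ℝ)) ^ 2 := by positivity
      rw [mul_one_div, div_le_div_iff₀ hden2 hden]
      have s3 : ((C : ℝ) * (u.1 : ℝ)) ^ 2 + ((C : ℝ) * (u.2 : ℝ)) ^ 2
          ≤ (C : ℝ) ^ 2 * ((u.1 : ℝ) + (u.2 : ℝ)) ^ 2 := by
        have : 0 ≤ (C : ℝ) ^ 2 * (2 * ((u.1 : ℝ) * (u.2 : ℝ))) := by positivity
        nlinarith
      linarith
    -- fibres
    have hfib : ∀ α ∈ P.image f, ((P.filter (fun u => f u = α)).card : ℝ) ≤ (T.card : ℝ) := by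
      intro α _
      have : (P.filter (fun u => f u = α)).card ≤ T.card := by
        apply Finset.card_le_card_of_injOn (fun u => V (W u))
        · intro u _
          exact hVT (W u)
        · intro u hu v hv huv
          have hu' := Finset.mem_filter.1 (Finset.mem_coe.1 hu)
          have hv' := Finset.mem_filter.1 (Finset.mem_coe.1 hv)
          have e : E u = E v := hinj _ _ (hu'.2.trans hv'.2.symm)
          have huv' : V (W u) = V (W v) := huv
          have e2 : W u ++ V (W u) = W v ++ V (W v) := e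
          rw [huv'] at e2
          have e3 : W u = W v := List.append_cancel_right e2
          rw [← hW u hu'.1, ← hW v hv'.1, e3]
      exact_mod_cast this
    have hsum : ∑ u ∈ P, F (f u) ≤ (T.card : ℝ) * ∑ α ∈ P.image f, F α := by
      rw [← Finset.sum_fiberwise_of_maps_to (s := P) (t := P.image f) (g := f)
        (fun u hu => Finset.mem_image_of_mem f hu) (fun u => F (f u)), Finset.mul_sum]
      apply Finset.sum_le_sum
      intro α hα
      have : ∑ u ∈ P.filter (fun u => f u = α), F (f u)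
          = ∑ u ∈ P.filter (fun u => f u = α), F α := by
        apply Finset.sum_congr rfl
        intro u hu
        rw [(Finset.mem_filter.1 hu).2]
      rw [this, Finset.sum_const, nsmul_eq_mul]
      exact mul_le_mul_of_nonneg_right (hfib α hα) (hF0 α)
    have hall : |Z| * (C : ℝ) ^ 2 * (T.card : ℝ)
        ≤ (C : ℝ) ^ 2 * ((T.card : ℝ) * ∑ α ∈ P.image f, F α) := by
      calc |Z| * (C : ℝ) ^ 2 * (T.card : ℝ) ≤ ∑ u ∈ P, 1 / ((u.1 : ℝ) + (u.2 : ℝ)) ^ 2 := hPZ
        _ ≤ ∑ u ∈ P, (C : ℝ) ^ 2 * F (f u) := Finset.sum_le_sum hterm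
        _ = (C : ℝ) ^ 2 * ∑ u ∈ P, F (f u) := by rw [Finset.mul_sum]
        _ ≤ _ := mul_le_mul_of_nonneg_left hsum (by positivity)
    have hTpos : (0 : ℝ) < (T.card : ℝ) := by exact_mod_cast hTne.card_pos
    have hprod : 0 < (C : ℝ) ^ 2 * (T.card : ℝ) := by positivity
    have : |Z| * ((C : ℝ) ^ 2 * (T.card : ℝ))
        ≤ (∑ α ∈ P.image f, F α) * ((C : ℝ) ^ 2 * (T.card : ℝ)) := by
      linarith
    exact le_trans (le_abs_self Z) (le_of_mul_le_mul_right this hprod)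

end Pool.Agent.PWK
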