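import Mathlib

/-!
# PWK: one killed curve suffices (MP_26af1b_gt).  Definitions (helper17)

Text: PWK_h17.md (team store).  `F2` is the free group on `X = xx`, `Y = yy`.  A finite `F2`-set is a
pair of permutations `x`, `y` of `Ω` (an origami with the squares `Ω`: `x w` is the square to the right
of the square `w`, `y w` is the square above `w`).
-/

set_option autoImplicit false

open scoped BigOperators

namespace Pool.Agent.PWK

/-! ### the free group of rank two -/

/-- the free group of rank two -/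
abbrev F2 : Type := FreeGroup (Fin 2)

/-- the generator `X` -/
def xx : F2 := FreeGroup.of 0

/-- the generator `Y` -/
def yy : F2 := FreeGroup.of 1

/-- the commutator -/
def cc : F2 := xx * yy * xx⁻¹ * yy⁻¹

/-- evaluation of a word in two permutations -/
def ev {S : Type} (x y : Equiv.Perm S) : F2 →* Equiv.Perm S := FreeGroup.lift ![x, y]

/-- the homomorphism given by the images of `X` and `Y` -/
def sub (u v : F2) : F2 →* F2 := FreeGroup.lift ![u, v]

theorem sub_xx (u v : F2) : sub u v xx = u := by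
  simp [sub, xx]

theorem sub_yy (u v : F2) : sub u v yy = v := by
  simp [sub, yy]

theorem ev_xx {S : Type} (x y : Equiv.Perm S) : ev x y xx = x := by
  simp [ev, xx]

theorem ev_yy {S : Type} (x y : Equiv.Perm S) : ev x y yy = y := by
  simp [ev, yy]

theorem hom_ext2 {G : Type*} [Group G] {f f' : F2 →* G} (h1 : f xx = f' xx)
    (h2 : f yy = f' yy) : f = f' := by
  apply FreeGroup.ext_hom
  intro i
  fin_cases i
  · exact h1
  · exact h2

/-- the automorphism `X ↦ X`, `Y ↦ Y X` -/
def aR : MulAut F2 :=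
  MonoidHom.toMulEquiv (sub xx (yy * xx)) (sub xx (yy * xx⁻¹))
    (hom_ext2 (by simp [sub_xx]) (by simp [sub_xx, sub_yy]))
    (hom_ext2 (by simp [sub_xx]) (by simp [sub_xx, sub_yy]))

/-- the automorphism `X ↦ X Y`, `Y ↦ Y` -/
def aL : MulAut F2 :=
  MonoidHom.toMulEquiv (sub (xx * yy) yy) (sub (xx * yy⁻¹) yy)
    (hom_ext2 (by simp [sub_xx, sub_yy]) (by simp [sub_yy]))
    (hom_ext2 (by simp [sub_xx, sub_yy]) (by simp [sub_yy]))

theorem aR_xx : aR xx = xx := by
  show sub xx (yy * xx) xx = xx
  exact sub_xx _ _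

theorem aR_yy : aR yy = yy * xx := by
  show sub xx (yy * xx) yy = yy * xx
  exact sub_yy _ _

theorem aL_xx : aL xx = xx * yy := by
  show sub (xx * yy) yy xx = xx * yy
  exact sub_xx _ _

theorem aL_yy : aL yy = yy := by
  show sub (xx * yy) yy yy = yy
  exact sub_yy _ _

/-- the group generated by the two automorphisms -/
def G0 : Subgroup (MulAut F2) := Subgroup.closure {aR, aL}

/-- the exponent of `X` -/
def eX : F2 →* Multiplicative ℤ := FreeGroup.lift ![Multiplicative.ofAdd 1, 1]

/-- the exponent of `Y` -/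
def eY : F2 →* Multiplicative ℤ := FreeGroup.lift ![1, Multiplicative.ofAdd 1]

/-- the exponents of `X` and `Y`, as a vector -/
def ab (γ : F2) : ℤ × ℤ := (Multiplicative.toAdd (eX γ), Multiplicative.toAdd (eY γ))

/-- the determinant -/
def dt (s t : ℤ × ℤ) : ℤ := s.1 * t.2 - s.2 * t.1

/-! ### cocycles -/

/-- the permutation `(w, t) ↦ (x w, t + p w)` -/
def sk {Ω : Type} (x : Equiv.Perm Ω) (p : Ω → ℝ) : Equiv.Perm (Ω × ℝ) where
  toFun u := (x u.1, u.2 + p u.1)
  invFun u := (x.symm u.1, u.2 - p (x.symm u.1))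
  left_inv u := by simp
  right_inv u := by simp

/-- the value at `w` on the word `γ` of the cocycle with `X ↦ p`, `Y ↦ q`:
`cz (γ δ) w = cz γ (δ w) + cz δ w` -/
def cz {Ω : Type} (x y : Equiv.Perm Ω) (p q : Ω → ℝ) (γ : F2) (w : Ω) : ℝ :=
  (ev (sk x p) (sk y q) γ (w, 0)).2

/-- the cocycle is closed: the value on the commutator is zero -/
def Cl {Ω : Type} (x y : Equiv.Perm Ω) (p q : Ω → ℝ) : Prop :=
  ∀ w, p (y w) + q w = q (x w) + p w

/-- the cup product of two cocycles -/
def Qf {Ω : Type} [Fintype Ω] (x y : Equiv.Perm Ω) (p q p' q' : Ω → ℝ) : ℝ :=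
  ∑ w, (p w * q' (x w) - q w * p' (y w))

/-! ### the refinement: every square is divided into `n * n` squares -/

/-- the square to the right -/
def hx (n : ℕ) {S : Type} (x : Equiv.Perm S) : Equiv.Perm (S × Fin n × Fin n) where
  toFun u := if h : (u.2.1 : ℕ) + 1 < n then (u.1, ⟨u.2.1 + 1, h⟩, u.2.2)
    else (x u.1, ⟨0, u.2.1.pos⟩, u.2.2)
  invFun u := if 0 < (u.2.1 : ℕ) then (u.1, ⟨u.2.1 - 1, by omega⟩, u.2.2)
    else (x.symm u.1, ⟨n - 1, by have := u.2.1.pos; omega⟩, u.2.2)
  left_inv u := by
    obtain ⟨s, a, b⟩ := u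
    dsimp only
    split_ifs with h1 h2 h3
    · simp
    · exact absurd (Nat.succ_pos _) h2
    · exact absurd h3 (lt_irrefl _)
    · simp only [Equiv.symm_apply_apply, Prod.mk.injEq, and_true, true_and]
      apply Fin.ext
      have := a.2
      simp only
      omega
  right_inv u := by
    obtain ⟨s, a, b⟩ := u
    dsimp only
    split_ifs with h1 h2 h3
    · simp only [Prod.mk.injEq, and_true, true_and]
      apply Fin.ext
      simp only
      omega
    · exact absurd h2 (by have := a.2; simp only; omega)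
    · exact absurd h3 (by simp only; omega)
    · simp only [Equiv.apply_symm_apply, Prod.mk.injEq, and_true, true_and]
      apply Fin.ext
      simp only
      omega

/-- the exchange of the coordinates -/
def fl (n : ℕ) (S : Type) : Equiv.Perm (S × Fin n × Fin n) where
  toFun u := (u.1, u.2.2, u.2.1)
  invFun u := (u.1, u.2.2, u.2.1)
  left_inv _ := rfl
  right_inv _ := rfl

/-- the square above -/
def hy (n : ℕ) {S : Type} (y : Equiv.Perm S) : Equiv.Perm (S × Fin n × Fin n) :=
  (fl n S).trans ((hx n y).trans (fl n S))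

/-- the crossing cocycle on `X`: the value of `p` if the square is left -/
def cX (n : ℕ) {Ω : Type} (p : Ω → ℝ) (u : Ω × Fin n × Fin n) : ℝ :=
  if (u.2.1 : ℕ) + 1 < n then 0 else p u.1

/-- the crossing cocycle on `Y` -/
def cY (n : ℕ) {Ω : Type} (q : Ω → ℝ) (u : Ω × Fin n × Fin n) : ℝ :=
  if (u.2.2 : ℕ) + 1 < n then 0 else q u.1

/-- the function which does not depend on the position in the square -/
def lf (n : ℕ) {Ω : Type} (ψ : Ω → ℝ) (u : Ω × Fin n × Fin n) : ℝ := ψ u.1

/-- `(A, u)` is a witness for `α`: `A` carries the action to the action composed with `α`, and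
the two cocycles are cohomologous. -/
structure Wit {M : Type} (x y : Equiv.Perm M) (p q : M → ℝ) (α : MulAut F2)
    (A : Equiv.Perm M) (u : M → ℝ) : Prop where
  act : ∀ γ m, A (ev x y γ m) = ev x y (α γ) (A m)
  val : ∀ γ m, cz x y p q (α γ) (A m) = cz x y p q γ m + u (ev x y γ m) - u m

end Pool.Agent.PWK
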