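import Pool.Agent.PWK.Bas
import Pool.Agent.PW.Orbit

/-!
# PWK, part P: the surface group as a subgroup of the free group of rank two.  Definitions (helper17)

`F g n` (genus `g ≥ 1`) is identified with the stabilizer of the square `0` of the origami with
the squares `0, ..., dd g n - 1`, `dd g n = 2 g - 1 + n`: `Y` maps the square `i` to `i + 1`
(cyclically), `X` exchanges `2 k - 1` and `2 k` for `1 ≤ k < g` and fixes all the other squares.
The element `iota u` of `F2` corresponds to `u`; the square `i` has the label `ul i` for `X`, and the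
label `1` for `Y`, except for the last square, which has the label `Al` for `Y`.
All formulas were tested with a computer for `g ≤ 5`, `n ≤ 3`.
-/

set_option autoImplicit false

namespace Pool.Agent.PWK

open Pool.Agent.PW

/-- the number of squares -/
def dd (g n : ℕ) : ℕ := 2 * g - 1 + n

/-- the generator `a k` (`1` if there is no such generator) -/
def ak (g n k : ℕ) : F g n := if h : k < g then ga ⟨k, h⟩ else 1

/-- the generator `b k` (`1` if there is no such generator) -/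
def bk (g n k : ℕ) : F g n := if h : k < g then gb ⟨k, h⟩ else 1

/-- `Π_k = [a_(k+1), b_(k+1)] ... [a_(g-1), b_(g-1)] c_0 ... c_(n-1) a_0` -/
def Pk (g n k : ℕ) : F g n := seg g n (k + 1) (g - k - 1) * cseg g n 0 n * ak g n 0

/-- `vv k` is the element `v_(k+1)` of the text: `v_1 = 1`, `v_(k+1) = v_k b_k⁻¹ Π_k` -/
def vv (g n : ℕ) : ℕ → F g n
  | 0 => 1
  | k + 1 => vv g n k * (bk g n (k + 1))⁻¹ * Pk g n (k + 1)

/-- the labels of the squares for `X`: `u_0 = b_0 a_0 b_0⁻¹`,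
`u_(2g-1+m) = v_g (c_m ... c_(n-1) a_0) v_g⁻¹`, `u_(2k-1) = v_k b_k⁻¹ Π_k v_k⁻¹`,
`u_(2k) = v_k a_k v_k⁻¹` for `1 ≤ k < g` -/
def ul (g n i : ℕ) : F g n :=
  if i = 0 then bk g n 0 * ak g n 0 * (bk g n 0)⁻¹
  else if 2 * g - 1 ≤ i then
    vv g n (g - 1) * (cseg g n (i - (2 * g - 1)) (n - (i - (2 * g - 1))) * ak g n 0)
      * (vv g n (g - 1))⁻¹
  else if i % 2 = 1 then
    vv g n (i / 2) * (bk g n (i / 2 + 1))⁻¹ * Pk g n (i / 2 + 1) * (vv g n (i / 2))⁻¹
  else vv g n (i / 2 - 1) * ak g n (i / 2) * (vv g n (i / 2 - 1))⁻¹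

/-- the label of the last square for `Y`: `b_0 v_g⁻¹` -/
def Al (g n : ℕ) : F g n := bk g n 0 * (vv g n (g - 1))⁻¹

section gen

variable {H : Type} [Group H]

/-- `V_1 = 1`, `V_(k+1) = U_(2k-1) V_k`; `Vh U k = V_(k+1)` -/
def Vh (U : ℕ → H) : ℕ → H
  | 0 => 1
  | k + 1 => U (2 * k + 1) * Vh U k

/-- `Z_g = U_(2g-1)`, `Z_k = U_(2k) U_(2k-1)⁻¹ Z_(k+1) U_(2k)⁻¹ U_(2k-1)`; `Zh g U m = Z_(g-m)` -/
def Zh (g : ℕ) (U : ℕ → H) : ℕ → H
  | 0 => U (2 * g - 1)
  | m + 1 => (U (2 * (g - 1 - m)) * (U (2 * (g - 1 - m) - 1))⁻¹) * Zh g U m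
      * ((U (2 * (g - 1 - m)))⁻¹ * U (2 * (g - 1 - m) - 1))

/-- the homomorphism with `ul i ↦ U i`, `Al ↦ A` (if `U (dd g n) = A⁻¹ * U 0 * A`) -/
def io (g n : ℕ) (U : ℕ → H) (A : H) : F g n →* H := FreeGroup.lift fun x =>
  match x with
  | Gen.a k => if (k : ℕ) = 0 then (A * Vh U (g - 1))⁻¹ * U 0 * (A * Vh U (g - 1))
      else (Vh U (k - 1))⁻¹ * U (2 * k) * Vh U (k - 1)
  | Gen.b k => if (k : ℕ) = 0 then A * Vh U (g - 1)
      else (Vh U (k - 1))⁻¹ * (U (2 * k - 1))⁻¹ * Zh g U (g - 1 - k) * Vh U (k - 1)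
  | Gen.c m => (Vh U (g - 1))⁻¹ * U (2 * g - 1 + m) * (U (2 * g + m))⁻¹ * Vh U (g - 1)

end gen

/-- the permutation `X` of the squares -/
def xs (g i : ℕ) : ℕ := if i = 0 ∨ 2 * g - 1 ≤ i then i else if i % 2 = 1 then i + 1 else i - 1

theorem xs_xs (g i : ℕ) : xs g (xs g i) = i := by
  by_cases h1 : i = 0 ∨ 2 * g - 1 ≤ i
  · have e : xs g i = i := if_pos h1
    rw [e, e]
  · by_cases h2 : i % 2 = 1
    · have e : xs g i = i + 1 := by
        rw [xs, if_neg h1, if_pos h2]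
      rw [e, xs, if_neg (by omega), if_neg (by omega)]
      rfl
    · have e : xs g i = i - 1 := by
        rw [xs, if_neg h1, if_neg h2]
      rw [e, xs, if_neg (by omega), if_pos (by omega)]
      omega

theorem xs_lt {g n i : ℕ} (h : i < dd g n) : xs g i < dd g n := by
  unfold xs dd at *
  split_ifs <;> omega

/-- the elements `Y^(-x(i)) X Y^i` -/
def U2 (g i : ℕ) : F2 := (yy ^ xs g i)⁻¹ * xx * yy ^ i

/-- the surface group in the free group of rank two -/
def iota (g n : ℕ) : F g n →* F2 := io g n (U2 g) (yy ^ dd g n)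

/-- the square zero -/
def z0 {g : ℕ} (n : ℕ) (hg : 0 < g) : Fin (dd g n) := ⟨0, by unfold dd; omega⟩

section ind

variable {g n : ℕ} {S : Type}

/-- the induced action, `X` -/
def Xp (ρ : F g n →* Equiv.Perm S) : Equiv.Perm (S × Fin (dd g n)) where
  toFun u := (ρ (ul g n u.2) u.1, ⟨xs g u.2, xs_lt u.2.2⟩)
  invFun u := ((ρ (ul g n (xs g u.2)))⁻¹ u.1, ⟨xs g u.2, xs_lt u.2.2⟩)
  left_inv u := by
    obtain ⟨s, i, hi⟩ := u
    simp only [Prod.mk.injEq]
    constructor
    · rw [xs_xs]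
      exact (ρ (ul g n i)).symm_apply_apply s
    · apply Fin.ext
      exact xs_xs g i
  right_inv u := by
    obtain ⟨s, i, hi⟩ := u
    simp only [Prod.mk.injEq]
    constructor
    · exact (ρ (ul g n (xs g i))).apply_symm_apply s
    · apply Fin.ext
      exact xs_xs g i

/-- the induced action, `Y` -/
def Yp (ρ : F g n →* Equiv.Perm S) : Equiv.Perm (S × Fin (dd g n)) where
  toFun u := if h : (u.2 : ℕ) + 1 < dd g n then (u.1, ⟨u.2 + 1, h⟩)
    else (ρ (Al g n) u.1, ⟨0, u.2.pos⟩)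
  invFun u := if 0 < (u.2 : ℕ) then (u.1, ⟨u.2 - 1, by omega⟩)
    else ((ρ (Al g n))⁻¹ u.1, ⟨dd g n - 1, by have := u.2.pos; omega⟩)
  left_inv u := by
    obtain ⟨s, i, hi⟩ := u
    dsimp only
    split_ifs with h1 h2 h3
    · simp
    · exact absurd (Nat.succ_pos _) h2
    · exact absurd h3 (lt_irrefl _)
    · simp only [Prod.mk.injEq]
      refine ⟨(ρ (Al g n)).symm_apply_apply s, ?_⟩
      apply Fin.ext
      simp only
      omega
  right_inv u := by
    obtain ⟨s, i, hi⟩ := u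
    dsimp only
    split_ifs with h1 h2 h3
    · simp only [Prod.mk.injEq, true_and]
      apply Fin.ext
      simp only
      omega
    · exact absurd h2 (by simp only; omega)
    · exact absurd h3 (by simp only; omega)
    · simp only [Prod.mk.injEq]
      refine ⟨(ρ (Al g n)).apply_symm_apply s, ?_⟩
      apply Fin.ext
      simp only
      omega

/-- the automorphism acts trivially on the induced action -/
def Tr (ρ : F g n →* Equiv.Perm S) (α : MulAut F2) : Prop :=
  ∀ γ w, ev (Xp ρ) (Yp ρ) (α γ) w = ev (Xp ρ) (Yp ρ) γ w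

end ind

variable {g n : ℕ}

/-- the action on the cosets -/
def rh (N : Subgroup (F g n)) : F g n →* Equiv.Perm (F g n ⧸ N) :=
  MulAction.toPermHom (F g n) (F g n ⧸ N)

theorem rh_apply (N : Subgroup (F g n)) (u : F g n) (q : F g n ⧸ N) : rh N u q = u • q := rfl

/-- `C` is the crossing cocycle with the weight `φ` for the letters `b 0` -/
structure IsCrs (N : Subgroup (F g n)) (φ : F g n ⧸ N → ℝ) (C : F g n → F g n ⧸ N → ℝ) :
    Prop where
  mul : ∀ u v q, C (u * v) q = C u (v • q) + C v q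
  a : ∀ i q, C (ga i) q = 0
  b : ∀ i q, C (gb i) q = if (i : ℕ) = 0 then φ q else 0
  c : ∀ j q, C (gc j) q = 0

/-- the function on the squares which belongs to the crossing cocycle -/
def psi (N : Subgroup (F g n)) (φ : F g n ⧸ N → ℝ) (w : (F g n ⧸ N) × Fin (dd g n)) : ℝ :=
  if (w.2 : ℕ) = 0 then φ ((bk g n 0)⁻¹ • w.1) else 0

/-- a class with finite orbit -/
structure Fine (N : Subgroup (F g n)) (f : F g n → ℚ) : Prop where
  good : Good N f
  orb : Set.Finite {h : N → ℚ | ∃ φ ∈ MCG g n, (∀ x, φ x * x⁻¹ ∈ N) ∧ ∀ x : N, h x = f (φ x)}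

end Pool.Agent.PWK
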