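import Pool.Agent.PWK.St3

/-!
# PWK, module EXT: extension of an invariant class with finite orbit to a larger group (offer 16370, helper81)

`thm_EXT : St_EXT`.
-/

set_option autoImplicit false

open scoped BigOperators

namespace Pool.Agent.PWK

open Pool.Agent.PW

variable {g n : ℕ}

private theorem EXT_finHom (Q : Type*) [Group Q] [Finite Q] : Finite (F g n →* Q) := by
  let E : (F g n →* Q) → (Fin g → Q) × (Fin g → Q) × (Fin n → Q) := fun φ =>
    (fun i => φ (ga i), fun i => φ (gb i), fun j => φ (gc j))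
  refine Finite.of_injective E ?_
  intro φ ψ h
  have h1 := congrArg Prod.fst h
  have h2 := congrArg (fun p => p.2.1) h
  have h3 := congrArg (fun p => p.2.2) h
  apply hom_ext
  · intro i
    exact congrFun h1 i
  · intro i
    exact congrFun h2 i
  · intro j
    exact congrFun h3 j

/-- equality modulo `N` -/
private theorem EXT_mod {N : Subgroup (F g n)} (hN : N.Normal) (x y : F g n) :
    QuotientGroup.mk' N x = QuotientGroup.mk' N y ↔ x * y⁻¹ ∈ N := by
  rw [QuotientGroup.mk'_apply, QuotientGroup.mk'_apply, QuotientGroup.eq]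
  constructor
  · intro h
    have := N.inv_mem (hN.conj_mem _ h y)
    have e : (y * (x⁻¹ * y) * y⁻¹)⁻¹ = x * y⁻¹ := by group
    rwa [e] at this
  · intro h
    have := hN.conj_mem _ (N.inv_mem h) y⁻¹
    have e : y⁻¹ * (x * y⁻¹)⁻¹ * y⁻¹⁻¹ = x⁻¹ * y := by group
    rwa [e] at this

/-- a power of an automorphism is trivial modulo `N` -/
private theorem EXT_pow {N : Subgroup (F g n)} (hN : N.Normal) (hF : N.FiniteIndex)
    (T : MulAut (F g n)) : ∃ d : ℕ, 0 < d ∧ ∀ x, (T ^ d) x * x⁻¹ ∈ N := by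
  have hfin : Finite (F g n ⧸ N) := Subgroup.finite_quotient_of_finiteIndex
  have hfin2 : Finite (F g n →* F g n ⧸ N) := EXT_finHom _
  let Ψ : ℕ → (F g n →* F g n ⧸ N) := fun k => (QuotientGroup.mk' N).comp (T ^ k).toMonoidHom
  obtain ⟨i, j, hij, hΨ⟩ := Finite.exists_ne_map_eq_of_infinite Ψ
  have key : ∀ i j : ℕ, i < j → Ψ i = Ψ j → ∃ d : ℕ, 0 < d ∧ ∀ x, (T ^ d) x * x⁻¹ ∈ N := by
    intro i j hij h
    refine ⟨j - i, by omega, fun x => ?_⟩
    have h1 := DFunLike.congr_fun h.symm ((T ^ i)⁻¹ x)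
    have h2 : QuotientGroup.mk' N ((T ^ j) ((T ^ i)⁻¹ x)) = QuotientGroup.mk' N ((T ^ i) ((T ^ i)⁻¹ x)) := h1
    rw [EXT_mod hN] at h2
    have e1 : (T ^ i) ((T ^ i)⁻¹ x) = x := by
      rw [← MulAut.mul_apply, mul_inv_cancel]
      rfl
    have e2 : (T ^ j) ((T ^ i)⁻¹ x) = (T ^ (j - i)) x := by
      rw [← MulAut.mul_apply]
      congr 1
      have e3 : T ^ j = T ^ (j - i) * T ^ i := by
        rw [← pow_add]
        congr 1
        omega
      rw [e3, mul_inv_cancel_right]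
    rw [e1, e2] at h2
    exact h2
  rcases lt_or_gt_of_ne hij with h | h
  · exact key i j h hΨ
  · exact key j i h hΨ.symm

/-- **EXT** -/
theorem thm_EXT : St_EXT := by
  classical
  intro g n N M f hf hM hNM hinv
  have h := hf.good
  have hN := h.normal
  have hF := h.fin
  have hft : Fintype (F g n ⧸ N) := Fintype.ofFinite _
  obtain ⟨L, hL, hLN⟩ := exists_exp hN hF
  have hL0 : (L : ℚ) ≠ 0 := by exact_mod_cast hL.ne'
  -- the weights
  let Z : Subgroup (F g n ⧸ N) := M.map (QuotientGroup.mk' N)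
  have hZ : ∀ y : F g n, (y : F g n ⧸ N) ∈ Z ↔ y ∈ M := by
    intro y
    constructor
    · rintro ⟨m, hm, hmy⟩
      have h1 := (EXT_mod hN m y).1 hmy
      have h2 := M.mul_mem (M.inv_mem (hNM h1)) hm
      have e : (m * y⁻¹)⁻¹ * m = y := by group
      rwa [e] at h2
    · intro hy
      exact ⟨y, hy, rfl⟩
  let H : F g n ⧸ N → ℚ := fun q => if q ∈ Z then 1 else 0
  have hkp : M ≤ kp H := by
    intro y hy q
    have : q * (y : F g n ⧸ N) ∈ Z ↔ q ∈ Z := Z.mul_mem_cancel_right ((hZ y).2 hy)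
    simp only [H, this]
  let C : ℚ := ∑ q : F g n ⧸ N, H q
  have hC : 0 < C := by
    apply Finset.sum_pos'
    · intro q _
      simp only [H]
      split_ifs <;> norm_num
    · refine ⟨1, Finset.mem_univ _, ?_⟩
      simp only [H, Z.one_mem, if_true]
      norm_num
  have htr : ∀ k ∈ N, tr N f H k = C * f k := by
    intro k hk
    rw [tr_mem hk, Finset.sum_mul]
    refine Finset.sum_congr rfl fun q _ => ?_
    simp only [H]
    split_ifs with hq
    · rw [one_mul, one_mul]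
      apply hinv _ _ k hk
      rw [← hZ]
      simpa using hq
    · simp
  let f1 : F g n → ℚ := fun x => f (x ^ L) / L
  have hf1tr : ∀ x ∈ M, f1 x = tr N f H x / C := by
    intro x hx
    have h1 := tr_pow h.add (hkp hx) L
    rw [htr _ (hLN x)] at h1
    show f (x ^ L) / L = tr N f H x / C
    rw [div_eq_div_iff hL0 hC.ne']
    linarith
  have hf1N : ∀ x ∈ N, f1 x = f x := by
    intro x hx
    show f (x ^ L) / L = f x
    rw [h.add.pow hx L]
    field_simp
  have hf1add : AddOn M f1 := by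
    intro x hx y hy
    rw [hf1tr _ (M.mul_mem hx hy), hf1tr x hx, hf1tr y hy, tr_mul h.add (hkp hx)]
    ring
  refine ⟨f1, ⟨⟨hM, Subgroup.finiteIndex_of_le hNM, hf1add, hNM h.bdryN, ?_, ?_, ?_⟩, ?_⟩, hf1N⟩
  · intro w
    rw [hf1N _ (hN.conj_mem _ h.bdryN w)]
    exact h.bdry w
  · intro w j m _
    show f ((w * gc j ^ m * w⁻¹) ^ L) / L = 0
    have e : (w * gc j ^ m * w⁻¹) ^ L = w * gc j ^ (m * L) * w⁻¹ := by
      rw [conj_pow, ← pow_mul]
    rw [e, h.marked w j (m * L) (by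
      rw [pow_mul]
      exact hLN _), zero_div]
  · intro T hT L₀ hL₀ _
    obtain ⟨d, hd, hTd⟩ := EXT_pow hN hF T
    have hdL : ∀ x, (T ^ (L₀ * d)) x * x⁻¹ ∈ N := by
      have h1 : ∀ k : ℕ, ∀ x, (T ^ (k * d)) x * x⁻¹ ∈ N := by
        intro k
        induction k with
        | zero =>
          intro x
          rw [zero_mul, pow_zero]
          show x * x⁻¹ ∈ N
          rw [mul_inv_cancel]
          exact N.one_mem
        | succ k ih =>
          intro x
          have e1 : (T ^ ((k + 1) * d)) x = (T ^ (k * d)) ((T ^ d) x) := by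
            rw [← MulAut.mul_apply, ← pow_add]
            congr 2
            ring
          rw [e1]
          have h2 := N.mul_mem (ih ((T ^ d) x)) (hTd x)
          have e2 : (T ^ (k * d)) ((T ^ d) x) * ((T ^ d) x)⁻¹ * ((T ^ d) x * x⁻¹) =
              (T ^ (k * d)) ((T ^ d) x) * x⁻¹ := by group
          rwa [e2] at h2
      exact h1 L₀
    obtain ⟨M₀, hM₀, hdvd, hM₀f⟩ := h.stab T hT (L₀ * d) (Nat.mul_pos hL₀ hd) hdL
    refine ⟨M₀, hM₀, dvd_trans (Dvd.intro _ rfl) hdvd, fun x _ => ?_⟩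
    show f (((T ^ M₀) x) ^ L) / L = f (x ^ L) / L
    rw [← map_pow, hM₀f _ (hLN x)]
  · have hfin2 : Finite (F g n →* F g n ⧸ N) := EXT_finHom _
    let P : (F g n →* F g n ⧸ N) → MulAut (F g n) → Prop := fun η φ =>
      φ ∈ MCG g n ∧ (QuotientGroup.mk' N).comp φ.toMonoidHom = η
    let c : (F g n →* F g n ⧸ N) → MulAut (F g n) := fun η =>
      if hη : ∃ φ, P η φ then hη.choose else 1
    have hc : ∀ η, (∃ φ, P η φ) → P η (c η) := by
      intro η hη
      simp only [c, dif_pos hη]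
      exact hη.choose_spec
    let A : (F g n →* F g n ⧸ N) × (N → ℚ) → (M → ℚ) := fun p x =>
      p.2 ⟨(c p.1 (x : F g n)) ^ L, hLN _⟩ / L
    refine ((Set.finite_univ.prod hf.orb).image A).subset ?_
    rintro k ⟨φ, hφ, -, hk⟩
    have hφc := hc ((QuotientGroup.mk' N).comp φ.toMonoidHom) ⟨φ, hφ, rfl⟩
    generalize hψ : c ((QuotientGroup.mk' N).comp φ.toMonoidHom) = ψ at hφc
    obtain ⟨hψM, hψe⟩ := hφc
    have hγ : ∀ x, (φ * ψ⁻¹) x * x⁻¹ ∈ N := by
      intro x
      have h1 := DFunLike.congr_fun hψe.symm (ψ⁻¹ x)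
      have h2 : QuotientGroup.mk' N (φ (ψ⁻¹ x)) = QuotientGroup.mk' N (ψ (ψ⁻¹ x)) := h1
      rw [EXT_mod hN] at h2
      have e1 : ψ (ψ⁻¹ x) = x := by
        rw [← MulAut.mul_apply, mul_inv_cancel]
        rfl
      rw [e1] at h2
      exact h2
    refine ⟨((QuotientGroup.mk' N).comp φ.toMonoidHom, fun x : N => f ((φ * ψ⁻¹) x)),
      ⟨Set.mem_univ _, ⟨φ * ψ⁻¹, (MCG g n).mul_mem hφ ((MCG g n).inv_mem hψM), hγ, fun _ => rfl⟩⟩,
      ?_⟩
    funext x
    rw [hk x]
    show f ((φ * ψ⁻¹) ((c ((QuotientGroup.mk' N).comp φ.toMonoidHom) (x : F g n)) ^ L)) / L =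
      f ((φ (x : F g n)) ^ L) / L
    rw [hψ, map_pow]
    congr 3
    rw [MulAut.mul_apply]
    congr 1
    rw [← MulAut.mul_apply, inv_mul_cancel]
    rfl

end Pool.Agent.PWK
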