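import Pool.Agent.PWK.St2

/-!
# PWK: assembly of part P (helper17)
-/

set_option autoImplicit false

open scoped BigOperators

namespace Pool.Agent.PWK

open Pool.Agent.PW

theorem thm_FIN : St_FIN := by
  intro hM hK hPs hSu hO hC hL hLb hOr hI hA hCr hF hG hOb g n hg K _ hR hex f hf h0 hfin
  obtain ⟨θ, hθ, hk⟩ := hex
  have fine0 := (hOb g n).1 K f hR hf hfin
  have fine := (hOb g n).2 _ _ fine0 θ hθ
  obtain ⟨N, hN⟩ : ∃ N : Subgroup (F g n), N = K.normalCore.comap θ.toMonoidHom := ⟨_, rfl⟩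
  obtain ⟨f', hf'⟩ : ∃ f' : F g n → ℚ, f' = fun x => ext0 K f (θ x) := ⟨_, rfl⟩
  rw [← hN, ← hf'] at fine
  have hz : ga ⟨0, hg⟩ ∈ N := by
    rw [hN]
    exact hk
  have ind : Ind g n hg := hI hL hLb hOr g n hg
  have one := hO hPs hSu hK g n N f' fine.good ⟨0, hg⟩ rfl hz
  obtain ⟨φ, C, hcrs, hCx⟩ := hC g n N f' fine.good ⟨0, hg⟩ rfl hz one
  obtain ⟨hψ, hcz⟩ := hCr hL hLb hOr g n hg ind N fine.good.normal hz φ C hcrs
  obtain ⟨D, hD, hD2⟩ := hF hA hL hOr g n hg ind N f' fine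
  have hfi := fine.good.fin
  have : Finite (F g n ⧸ N) := inferInstance
  have : Fintype ((F g n ⧸ N) × Fin (dd g n)) := Fintype.ofFinite _
  obtain ⟨u, hu1, hu2⟩ := hM _ (Xp (rh N)) (Yp (rh N)) (psi N φ) hψ D hD (by
    intro α hα hα0
    obtain ⟨hTr, φ', hφ', h1, h2, h3⟩ := hD2 α hα hα0
    exact hG g n hg ind N fine.good.normal (fun x => (f' x : ℝ)) (psi N φ)
      (fun x hx => by rw [hcz x hx, hCx x hx]) α hTr φ' h1 h2
      (fun x hx => by exact_mod_cast h3 x hx))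
  have hpsi : (fun w => u (Yp (rh N) w) - u w) = psi N φ := by
    funext w
    exact hu2 w
  have hzero : (fun w => u (Xp (rh N) w) - u w) = fun _ => 0 := by
    funext w
    rw [hu1, sub_self]
  have hvan : ∀ x ∈ N, f' x = 0 := by
    intro x hx
    have h1 := hcz x hx
    have h2 := cz_cob (Xp (rh N)) (Yp (rh N)) u (iota g n x)
      (((1 : F g n) : F g n ⧸ N), z0 n hg)
    rw [hpsi, hzero, h1, hCx x hx, ind.1 _ (rh N) x] at h2
    have h3 : rh N x ((1 : F g n) : F g n ⧸ N) = ((1 : F g n) : F g n ⧸ N) := by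
      show (((x * 1 : F g n)) : F g n ⧸ N) = ((1 : F g n) : F g n ⧸ N)
      rw [QuotientGroup.eq]
      simpa using hx
    rw [h3, sub_self] at h2
    exact_mod_cast h2
  have hvan0 : ∀ y ∈ K.normalCore, ext0 K f y = 0 := by
    intro y hy
    have h1 : θ (θ⁻¹ y) = y := by simp
    have h2 := hvan (θ⁻¹ y) (by
      rw [hN]
      show θ (θ⁻¹ y) ∈ K.normalCore
      rw [h1]
      exact hy)
    rw [hf'] at h2
    simpa [h1] using h2
  have hNn : K.normalCore.Normal := K.normalCore_normal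
  apply h0
  funext x
  obtain ⟨L, hL0, hLN⟩ := exists_exp hNn fine0.good.fin
  have h1 := hvan0 _ (hLN (x : F g n))
  have h2 : (x : F g n) ^ L ∈ K := K.pow_mem x.2 L
  rw [ext0_mem h2] at h1
  have h3 : ∀ m : ℕ, f (x ^ m) = m * f x := by
    have hone : f 1 = 0 := by
      have := hf.add 1 1
      rw [mul_one] at this
      linarith
    intro m
    induction m with
    | zero => simp [hone]
    | succ m ih =>
      rw [pow_succ, hf.add, ih]
      push_cast
      ring
  have h4 : (⟨(x : F g n) ^ L, h2⟩ : K) = x ^ L := rfl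
  rw [h4, h3] at h1
  have h5 : (L : ℚ) ≠ 0 := by exact_mod_cast hL0.ne'
  rcases mul_eq_zero.mp h1 with h6 | h6
  · exact absurd h6 h5
  · exact h6

end Pool.Agent.PWK
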