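import Pool.Agent.PWK.St

/-!
# PWK: assembly of part M (helper17)
-/

set_option autoImplicit false

open scoped BigOperators

namespace Pool.Agent.PWK

theorem main_of (h1 : St_LFT) (h2 : St_EST) (h3 : St_AVG) (h4 : St_BIL) (h5 : St_QIN)
    (h6 : St_INV) (h7 : St_DET) (h8 : St_ORP) (h9 : St_BAB) (hA : ∀ α ∈ G0, AdmAt α)
    (hB : St_BES) (hP : St_PRM) (hS : St_STB) (hV : St_DVD) (hD : St_DIV) (hU : St_DUA) :
    Main := by
  intro Ω _ x y ψ hψ D hD0 hGd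
  refine hU Ω x y ψ hψ ?_
  intro p q hcl
  by_contra hc
  set c : ℝ := ∑ w, ψ w * p w with hcdef
  set B : ℝ := ∑ w, |p w| + ∑ w, |q w| with hBdef
  have hB0 : 0 ≤ B := by
    rw [hBdef]
    exact add_nonneg (Finset.sum_nonneg fun _ _ => abs_nonneg _)
      (Finset.sum_nonneg fun _ _ => abs_nonneg _)
  have hp : ∀ w, |p w| ≤ B := by
    intro w
    have h1 : |p w| ≤ ∑ w, |p w| :=
      Finset.single_le_sum (f := fun w => |p w|) (fun _ _ => abs_nonneg _) (Finset.mem_univ w)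
    have h2 : 0 ≤ ∑ w, |q w| := Finset.sum_nonneg fun _ _ => abs_nonneg _
    rw [hBdef]
    linarith
  have hq : ∀ w, |q w| ≤ B := by
    intro w
    have h1 : |q w| ≤ ∑ w, |q w| :=
      Finset.single_le_sum (f := fun w => |q w|) (fun _ _ => abs_nonneg _) (Finset.mem_univ w)
    have h2 : 0 ≤ ∑ w, |p w| := Finset.sum_nonneg fun _ _ => abs_nonneg _
    rw [hBdef]
    linarith
  set K : ℝ := 2 * (Fintype.card Ω * B ^ 2) * ∑ w, ψ w ^ 2 with hK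
  have hc2 : 0 < c ^ 2 := by
    have : c ≠ 0 := hc
    positivity
  obtain ⟨T, hT1, hT2, hT3⟩ := hD hP hS hV D hD0 (K / c ^ 2 + 1)
  have key := hB h1 h2 h3 h4 h5 h6 h7 h8 h9 hA Ω x y ψ p q B hB0 hψ hcl hp hq
    T (fun i => i.1) (fun i => (hT1 i.1 i.2).2)
    (fun i => hGd i.1 (hT1 i.1 i.2).1 (hT1 i.1 i.2).2)
    (fun i j hij => hT2 i.1 i.2 j.1 j.2 (fun h => hij (Subtype.ext h)))
  have hs : ∑ i : T, 1 / (((ab ((i : MulAut F2) xx)).1 : ℝ) ^ 2 +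
      ((ab ((i : MulAut F2) xx)).2 : ℝ) ^ 2)
      = ∑ α ∈ T, 1 / (((ab (α xx)).1 : ℝ) ^ 2 + ((ab (α xx)).2 : ℝ) ^ 2) :=
    Finset.sum_coe_sort T (fun α => 1 / (((ab (α xx)).1 : ℝ) ^ 2 + ((ab (α xx)).2 : ℝ) ^ 2))
  rw [hs] at key
  have h10 : c ^ 2 * (K / c ^ 2 + 1) ≤ K := le_trans
    (mul_le_mul_of_nonneg_left hT3 hc2.le) key
  have h11 : c ^ 2 * (K / c ^ 2 + 1) = K + c ^ 2 := by
    field_simp
  rw [h11] at h10
  linarith

end Pool.Agent.PWK
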