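import Pool.Agent.PWK.SCD
import Pool.Agent.PWK.All
import Pool.Agent.PWK.EXT
import Pool.Agent.PWK.CEN
import Pool.Agent.PWK.COM

/-!
# PWK: reduction to a part of the span of a class; scalar curves (helper17)
-/

set_option autoImplicit false

open scoped BigOperators

namespace Pool.Agent.PWK

open Pool.Agent.PW

/-- **Reduction to a part of the span.**  If every class with finite orbit of the kernel `M` of a
nonzero stable part `V` of the span of the translates of `f` vanishes, then `f` has infinite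
orbit. -/
theorem infinite_of_part (g n : ℕ) (K : Subgroup (F g n)) [K.FiniteIndex]
    (hR : bdry g n ∈ K.normalCore) (f : K → ℚ) (hf : IsClass K f)
    (V : Submodule ℂ (K.normalCore → ℂ)) (hV0 : V ≠ ⊥) (hV : V ≤ spanOf K f)
    (hVst : ∀ w, ∀ v ∈ V, translate K w v ∈ V) (M : Subgroup (F g n))
    (hM : ∀ w, w ∈ M ↔ ∀ v ∈ V, translate K w v = v)
    (hvan : K.normalCore ≤ M → M.Normal → ∀ f1 : F g n → ℚ, Fine M f1 → ∀ x ∈ M, f1 x = 0) :
    (orbit K f).Infinite := by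
  intro hfin
  have fine0 := (thm_ORB g n).1 K f hR hf hfin
  have hNn : K.normalCore.Normal := K.normalCore_normal
  have hle : K.normalCore ≤ K := K.normalCore_le
  obtain ⟨v0, hv0V, hv0⟩ := Submodule.exists_mem_ne_zero_of_ne_bot hV0
  have hMn : M.Normal := by
    refine ⟨fun m hm w => (hM _).mpr fun v hv => ?_⟩
    rw [translate_mul, translate_mul, (hM m).mp hm _ (hVst _ _ hv), ← translate_mul,
      mul_inv_cancel, translate_one]
  have hNM : K.normalCore ≤ M := fun x hx =>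
    (hM x).mpr (fun v hv => translate_core K hf hx (hV hv))
  obtain ⟨x0, hx0⟩ : ∃ x0, v0 x0 ≠ 0 := by
    by_contra h
    push Not at h
    exact hv0 (funext h)
  obtain ⟨ℓ, hℓ⟩ : ∃ ℓ : Module.Dual ℚ ℂ, ℓ (v0 x0) ≠ 0 := by
    by_contra h
    push Not at h
    exact hx0 ((Module.forall_dual_apply_eq_zero_iff ℚ (v0 x0)).mp h)
  obtain ⟨ι, hι, cc, w, hvw⟩ := spanOf_sum K (hV hv0V)
  have hF1 := thm_COM g n K.normalCore (ext0 K f) fine0 ι (fun j => ℓ (cc j)) w
  obtain ⟨F1, hF1d⟩ : ∃ F1 : F g n → ℚ, F1 = fun x =>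
      ∑ j, ℓ (cc j) * ext0 K f ((w j)⁻¹ * x * w j) := ⟨_, rfl⟩
  rw [← hF1d] at hF1
  have hF1v : ∀ x : K.normalCore, F1 x = ℓ (v0 x) := by
    intro x
    rw [hF1d, hvw, map_sum]
    refine Finset.sum_congr rfl fun j _ => ?_
    have e : cc j * ((ext0 K f ((w j)⁻¹ * x * w j) : ℚ) : ℂ)
        = (ext0 K f ((w j)⁻¹ * x * w j)) • cc j := by
      rw [Rat.smul_def, mul_comm]
    rw [e, map_smul, smul_eq_mul, mul_comm]
  have hF1i : ∀ m ∈ M, ∀ x ∈ K.normalCore, F1 (m * x * m⁻¹) = F1 x := by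
    intro m hm x hx
    have hmx : m * x * m⁻¹ ∈ K.normalCore := hNn.conj_mem x hx m
    have h1 : translate K m⁻¹ v0 = v0 := (hM m⁻¹).mp (M.inv_mem hm) v0 hv0V
    have h2 := congrFun h1 ⟨x, hx⟩
    have h3 : v0 ⟨m⁻¹⁻¹ * x * m⁻¹, by rwa [inv_inv]⟩ = v0 ⟨x, hx⟩ := h2
    have e1 := hF1v ⟨m * x * m⁻¹, hmx⟩
    have e2 := hF1v ⟨x, hx⟩
    simp only at e1 e2
    rw [e1, e2, ← h3]
    congr 2
    apply Subtype.ext
    simp
  obtain ⟨f1, hf1, hf1e⟩ := thm_EXT g n K.normalCore M F1 hF1 hMn hNM hF1i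
  have hz2 := hvan hNM hMn f1 hf1 x0 (hNM x0.2)
  rw [hf1e _ x0.2, hF1v] at hz2
  exact hℓ hz2

/-- the kernel of a stable part -/
def kerOf {g n : ℕ} (K : Subgroup (F g n)) (V : Submodule ℂ (K.normalCore → ℂ)) :
    Subgroup (F g n) where
  carrier := {w | ∀ v ∈ V, translate K w v = v}
  one_mem' := fun v _ => translate_one K v
  mul_mem' := by
    intro a b ha hb v hv
    rw [translate_mul, hb v hv, ha v hv]
  inv_mem' := by
    intro a ha v hv
    have h1 : translate K a⁻¹ (translate K a v) = v := by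
      rw [← translate_mul, inv_mul_cancel, translate_one]
    rwa [ha v hv] at h1

/-- **scalar curve on a part of the span** -/
theorem scalar_curve (g n : ℕ) (hg : 0 < g) (K : Subgroup (F g n)) [K.FiniteIndex]
    (hR : bdry g n ∈ K.normalCore) (f : K → ℚ) (hf : IsClass K f)
    (V : Submodule ℂ (K.normalCore → ℂ)) (hV0 : V ≠ ⊥) (hV : V ≤ spanOf K f)
    (hVst : ∀ w, ∀ v ∈ V, translate K w v ∈ V) (θ : MulAut (F g n)) (hθ : θ ∈ MCG g n) (c : ℂ)
    (hc : ∀ v ∈ V, translate K (θ (ga ⟨0, hg⟩)) v = c • v) :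
    (orbit K f).Infinite :=
  scalar_curve_of killed_fine thm_EXT thm_CEN thm_COM thm_ORB g n hg K hR f hf V hV0 hV hVst
    θ hθ c hc

/-- one central curve, inner form -/
theorem central_fine (g n : ℕ) (hg : 0 < g) (N : Subgroup (F g n)) (f : F g n → ℚ)
    (hf : Fine N f) (hc : ∀ x, cm (ga ⟨0, hg⟩) x ∈ N) : ∀ x ∈ N, f x = 0 :=
  thm_CEN killed_fine thm_EXT g n hg N f hf hc

end Pool.Agent.PWK
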