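import Pool.Agent.PWK.KFI

/-!
# PWK: central and scalar curves, assembly (helper17)
-/

set_option autoImplicit false

open scoped BigOperators

namespace Pool.Agent.PWK

open Pool.Agent.PW

theorem one_scalar_of (hKF : KilledFine) (hE : St_EXT) (hC : St_CEN) (hCo : St_COM)
    (hS : St_SIM) (hOb : St_ORB) : OneScalar := by
  intro g n hg K _ hR hsc f hf h0 hfin
  have fine0 := (hOb g n).1 K f hR hf hfin
  have hNn : K.normalCore.Normal := K.normalCore_normal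
  have hNf : K.normalCore.FiniteIndex := inferInstance
  have hle : K.normalCore ≤ K := K.normalCore_le
  apply h0
  apply zero_of_core hf
  by_contra hne
  push Not at hne
  have hinv : ∀ k ∈ K, ∀ x ∈ K.normalCore, ext0 K f (k⁻¹ * x * k) = ext0 K f x := by
    intro k hk x hx
    have hone : f 1 = 0 := by
      have := hf.add 1 1
      rw [mul_one] at this
      linarith
    have hxK : x ∈ K := hle hx
    rw [ext0_mem (K.mul_mem (K.mul_mem (K.inv_mem hk) hxK) hk), ext0_mem hxK]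
    have h1 := hf.add ((⟨k, hk⟩ : K)⁻¹ * ⟨x, hxK⟩) ⟨k, hk⟩
    have h2 := hf.add (⟨k, hk⟩ : K)⁻¹ ⟨x, hxK⟩
    have h3 := hf.add (⟨k, hk⟩ : K)⁻¹ ⟨k, hk⟩
    rw [inv_mul_cancel, hone] at h3
    have e : (⟨k⁻¹ * x * k, K.mul_mem (K.mul_mem (K.inv_mem hk) hxK) hk⟩ : K)
        = (⟨k, hk⟩ : K)⁻¹ * ⟨x, hxK⟩ * ⟨k, hk⟩ := rfl
    rw [e, h1, h2]
    linarith
  obtain ⟨V, hVfd, hVst, hVirr, ⟨v0, hv0V, hv0, hv0K⟩, hVN, hVc⟩ :=
    hS (F g n) K.normalCore K hle (ext0 K f) fine0.good.add hinv hne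
  let ρ : Representation ℂ (F g n) V :=
    { toFun := fun w => (Rt K.normalCore w).restrict (hVst w)
      map_one' := by
        apply LinearMap.ext
        intro v
        apply Subtype.ext
        simp [LinearMap.restrict_apply]
      map_mul' := by
        intro v w
        apply LinearMap.ext
        intro u
        apply Subtype.ext
        simp [LinearMap.restrict_apply] }
  have hρ : ∀ w (v : V), ((ρ w v : V) : K.normalCore → ℂ) = Rt K.normalCore w v := fun _ _ => rfl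
  have hρN : ∀ x ∈ K.normalCore, ρ x = 1 := by
    intro x hx
    apply LinearMap.ext
    intro v
    apply Subtype.ext
    rw [hρ]
    exact hVN x hx v v.2
  obtain ⟨θ, hθ, c, hc⟩ := hsc V ρ hρN (by
      intro U hU
      have hUV : U.map V.subtype ≤ V := by
        rintro _ ⟨u, _, rfl⟩
        exact u.2
      rcases hVirr (U.map V.subtype) hUV (by
        rintro w _ ⟨u, hu, rfl⟩
        exact ⟨ρ w u, hU w u hu, rfl⟩) with h | h
      · left
        rw [eq_bot_iff]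
        intro u hu
        have h2 : (u : K.normalCore → ℂ) ∈ U.map V.subtype := ⟨u, hu, rfl⟩
        rw [h] at h2
        exact (Submodule.mem_bot ℂ).mpr (Subtype.ext ((Submodule.mem_bot ℂ).mp h2))
      · right
        rw [eq_top_iff]
        intro u _
        have : (u : K.normalCore → ℂ) ∈ U.map V.subtype := by
          rw [h]
          exact u.2
        obtain ⟨u', hu', e⟩ := this
        have e2 : u' = u := Subtype.ext e
        rwa [← e2])
    ⟨⟨v0, hv0V⟩, fun h => hv0 (congrArg Subtype.val h), fun k hk => Subtype.ext (by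
      rw [hρ]
      exact hv0K k hk)⟩
  let M : Subgroup (F g n) := ρ.ker
  have hM : ∀ w, w ∈ M ↔ ρ w = 1 := fun w => MonoidHom.mem_ker
  have hMn : M.Normal := MonoidHom.normal_ker ρ
  have hNM : K.normalCore ≤ M := fun x hx => (hM x).mpr (hρN x hx)
  obtain ⟨x0, hx0⟩ : ∃ x0, v0 x0 ≠ 0 := by
    by_contra h
    push Not at h
    exact hv0 (funext h)
  obtain ⟨ℓ, hℓ⟩ : ∃ ℓ : Module.Dual ℚ ℂ, ℓ (v0 x0) ≠ 0 := by
    by_contra h
    push Not at h
    exact hx0 ((Module.forall_dual_apply_eq_zero_iff ℚ (v0 x0)).mp h)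
  obtain ⟨ι, hι, cc, w, hvw⟩ := hVc v0 hv0V
  have hF1 := hCo g n K.normalCore (ext0 K f) fine0 ι (fun j => ℓ (cc j)) w
  obtain ⟨F1, hF1d⟩ : ∃ F1 : F g n → ℚ, F1 = fun x =>
      ∑ j, ℓ (cc j) * ext0 K f ((w j)⁻¹ * x * w j) := ⟨_, rfl⟩
  rw [← hF1d] at hF1
  have hF1v : ∀ x : K.normalCore, F1 x = ℓ (v0 x) := by
    intro x
    rw [hF1d, hvw, map_sum]
    refine Finset.sum_congr rfl fun j _ => ?_
    have e : cc j * ((ext0 K f ((w j)⁻¹ * x * w j) : ℚ) : ℂ)
        = (ext0 K f ((w j)⁻¹ * x * w j)) • cc j := by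
      rw [Rat.smul_def, mul_comm]
    rw [e, map_smul, smul_eq_mul, mul_comm]
  have hF1i : ∀ m ∈ M, ∀ x ∈ K.normalCore, F1 (m * x * m⁻¹) = F1 x := by
    intro m hm x hx
    have hmx : m * x * m⁻¹ ∈ K.normalCore := hNn.conj_mem x hx m
    have h1 : ρ m⁻¹ ⟨v0, hv0V⟩ = ⟨v0, hv0V⟩ := by
      rw [(hM m⁻¹).mp (M.inv_mem hm)]
      rfl
    have h2 := congrFun (congrArg Subtype.val h1) ⟨x, hx⟩
    have h3 : v0 ⟨m⁻¹⁻¹ * x * m⁻¹, by rwa [inv_inv]⟩ = v0 ⟨x, hx⟩ := h2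
    have e1 := hF1v ⟨m * x * m⁻¹, hmx⟩
    have e2 := hF1v ⟨x, hx⟩
    simp only at e1 e2
    rw [e1, e2, ← h3]
    congr 2
    apply Subtype.ext
    simp
  obtain ⟨f1, hf1, hf1e⟩ := hE g n K.normalCore M F1 hF1 hMn hNM hF1i
  have hf2 := (hOb g n).2 M f1 hf1 θ hθ
  have hcen : ∀ x, cm (ga ⟨0, hg⟩) x ∈ M.comap θ.toMonoidHom := by
    intro x
    show θ (cm (ga ⟨0, hg⟩) x) ∈ M
    have e : θ (cm (ga ⟨0, hg⟩) x) = (θ (ga ⟨0, hg⟩) * θ x) * (θ x * θ (ga ⟨0, hg⟩))⁻¹ := by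
      simp [cm, mul_assoc]
    rw [e, hM, map_mul]
    have h1 : ρ (θ (ga ⟨0, hg⟩) * θ x) = ρ (θ x * θ (ga ⟨0, hg⟩)) := by
      apply LinearMap.ext
      intro v
      rw [map_mul, map_mul, Module.End.mul_apply, Module.End.mul_apply, hc, hc, map_smul]
    rw [h1, ← map_mul, mul_inv_cancel, map_one]
  have hz := hC hKF hE g n hg _ _ hf2 hcen
  have hz2 : f1 x0 = 0 := by
    have h1 : θ (θ⁻¹ (x0 : F g n)) = x0 := by simp
    have h2 := hz (θ⁻¹ (x0 : F g n)) (by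
      show θ (θ⁻¹ (x0 : F g n)) ∈ M
      rw [h1]
      exact hNM x0.2)
    simpa [h1] using h2
  rw [hf1e _ x0.2, hF1v] at hz2
  exact hℓ hz2

end Pool.Agent.PWK
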