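import Pool.Agent.PWK.KFI

/-!
# PWK: a curve which acts by a scalar on a part of the span of a class (helper17)
-/

set_option autoImplicit false

open scoped BigOperators

namespace Pool.Agent.PWK

open Pool.Agent.PW

variable {g n : ℕ}

/-- the translate of a function on the normal core of `K` by an element `w`:
`x ↦ h (w⁻¹ * x * w)` -/
def translate (K : Subgroup (F g n)) (w : F g n) (h : K.normalCore → ℂ) : K.normalCore → ℂ :=
  fun x => h ⟨w⁻¹ * x * w, by
    have := K.normalCore_normal.conj_mem x.1 x.2 w⁻¹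
    rwa [inv_inv] at this⟩

/-- the complex span of the translates of the restriction of `f` to the normal core of `K` -/
def spanOf (K : Subgroup (F g n)) (f : K → ℚ) : Submodule ℂ (K.normalCore → ℂ) :=
  Submodule.span ℂ (Set.range fun w : F g n =>
    translate K w fun x => ((f ⟨x, K.normalCore_le x.2⟩ : ℚ) : ℂ))

theorem translate_mul (K : Subgroup (F g n)) (v w : F g n) (h : K.normalCore → ℂ) :
    translate K (v * w) h = translate K v (translate K w h) := by
  funext x
  simp only [translate]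
  congr 1
  apply Subtype.ext
  simp [mul_assoc]

theorem translate_one (K : Subgroup (F g n)) (h : K.normalCore → ℂ) :
    translate K 1 h = h := by
  funext x
  simp [translate]

theorem translate_add (K : Subgroup (F g n)) (w : F g n) (h h' : K.normalCore → ℂ) :
    translate K w (h + h') = translate K w h + translate K w h' := rfl

theorem translate_smul (K : Subgroup (F g n)) (w : F g n) (c : ℂ) (h : K.normalCore → ℂ) :
    translate K w (c • h) = c • translate K w h := rfl

/-- the normal core acts trivially on the span of the translates of a class -/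
theorem translate_core (K : Subgroup (F g n)) {f : K → ℚ} (hf : IsClass K f) {x : F g n}
    (hx : x ∈ K.normalCore) {v : K.normalCore → ℂ} (hv : v ∈ spanOf K f) :
    translate K x v = v := by
  have hNn : K.normalCore.Normal := K.normalCore_normal
  have hle : K.normalCore ≤ K := K.normalCore_le
  have hone : f 1 = 0 := by
    have := hf.add 1 1
    rw [mul_one] at this
    linarith
  induction hv using Submodule.span_induction with
  | mem v hv =>
    obtain ⟨w, rfl⟩ := hv
    simp only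
    rw [← translate_mul]
    funext y
    simp only [translate]
    have hxw : w⁻¹ * x * w ∈ K := hle (by
      have := hNn.conj_mem x hx w⁻¹
      rwa [inv_inv] at this)
    have hyw : w⁻¹ * (y : F g n) * w ∈ K := hle (by
      have := hNn.conj_mem y.1 y.2 w⁻¹
      rwa [inv_inv] at this)
    have e : ∀ (p : (x * w)⁻¹ * (y : F g n) * (x * w) ∈ K),
        (⟨(x * w)⁻¹ * (y : F g n) * (x * w), p⟩ : K)
        = (⟨w⁻¹ * x * w, hxw⟩ : K)⁻¹ * ⟨w⁻¹ * y * w, hyw⟩ * ⟨w⁻¹ * x * w, hxw⟩ := by
      intro p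
      apply Subtype.ext
      simp only [Subgroup.coe_mul, InvMemClass.coe_inv]
      group
    have h3 := hf.add (⟨w⁻¹ * x * w, hxw⟩ : K)⁻¹ ⟨w⁻¹ * x * w, hxw⟩
    rw [inv_mul_cancel, hone] at h3
    rw [e, hf.add, hf.add]
    congr 1
    linarith
  | zero => rfl
  | add v w _ _ hv hw => rw [translate_add, hv, hw]
  | smul c v _ hv => rw [translate_smul, hv]

/-- elements of the span as finite sums -/
theorem spanOf_sum (K : Subgroup (F g n)) {f : K → ℚ} {v : K.normalCore → ℂ}
    (hv : v ∈ spanOf K f) : ∃ (ι : Type) (_ : Fintype ι) (c : ι → ℂ) (w : ι → F g n),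
      ∀ x : K.normalCore, v x = ∑ j, c j * ((ext0 K f ((w j)⁻¹ * x * w j) : ℚ) : ℂ) := by
  have hNn : K.normalCore.Normal := K.normalCore_normal
  have hle : K.normalCore ≤ K := K.normalCore_le
  unfold spanOf at hv
  rw [Finsupp.mem_span_range_iff_exists_finsupp] at hv
  obtain ⟨c, hc⟩ := hv
  refine ⟨c.support, inferInstance, fun j => c j, fun j => j, fun x => ?_⟩
  rw [← hc, Finsupp.sum, Finset.sum_apply, ← Finset.sum_coe_sort]
  refine Finset.sum_congr rfl fun j _ => ?_
  have hx : (j : F g n)⁻¹ * (x : F g n) * j ∈ K.normalCore := by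
    have := hNn.conj_mem x.1 x.2 (j : F g n)⁻¹
    rwa [inv_inv] at this
  rw [ext0_mem (hle hx)]
  rfl

/-- **A class with a scalar curve on a part of the span of its translates has infinite orbit.** -/
theorem scalar_curve_of (hKF : KilledFine) (hE : St_EXT) (hC : St_CEN) (hCo : St_COM)
    (hOb : St_ORB) (g n : ℕ) (hg : 0 < g) (K : Subgroup (F g n)) [K.FiniteIndex]
    (hR : bdry g n ∈ K.normalCore) (f : K → ℚ) (hf : IsClass K f)
    (V : Submodule ℂ (K.normalCore → ℂ)) (hV0 : V ≠ ⊥) (hV : V ≤ spanOf K f)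
    (hVst : ∀ w, ∀ v ∈ V, translate K w v ∈ V) (θ : MulAut (F g n)) (hθ : θ ∈ MCG g n) (c : ℂ)
    (hc : ∀ v ∈ V, translate K (θ (ga ⟨0, hg⟩)) v = c • v) :
    (orbit K f).Infinite := by
  intro hfin
  have fine0 := (hOb g n).1 K f hR hf hfin
  have hNn : K.normalCore.Normal := K.normalCore_normal
  have hle : K.normalCore ≤ K := K.normalCore_le
  obtain ⟨v0, hv0V, hv0⟩ := Submodule.exists_mem_ne_zero_of_ne_bot hV0
  let M : Subgroup (F g n) :=
    { carrier := {w | ∀ v ∈ V, translate K w v = v}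
      one_mem' := fun v _ => translate_one K v
      mul_mem' := by
        intro a b ha hb v hv
        rw [translate_mul, hb v hv, ha v hv]
      inv_mem' := by
        intro a ha v hv
        have h1 : translate K a⁻¹ (translate K a v) = v := by
          rw [← translate_mul, inv_mul_cancel, translate_one]
        rwa [ha v hv] at h1 }
  have hM : ∀ w, w ∈ M ↔ ∀ v ∈ V, translate K w v = v := fun w => Iff.rfl
  have hMn : M.Normal := by
    refine ⟨fun m hm w v hv => ?_⟩
    rw [translate_mul, translate_mul, (hM m).mp hm _ (hVst _ _ hv), ← translate_mul,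
      mul_inv_cancel, translate_one]
  have hNM : K.normalCore ≤ M := fun x hx =>
    (hM x).mpr (fun v hv => translate_core K hf hx (hV hv))
  obtain ⟨x0, hx0⟩ : ∃ x0, v0 x0 ≠ 0 := by
    by_contra h
    push Not at h
    exact hv0 (funext h)
  obtain ⟨ℓ, hℓ⟩ : ∃ ℓ : Module.Dual ℚ ℂ, ℓ (v0 x0) ≠ 0 := by
    by_contra h
    push Not at h
    exact hx0 ((Module.forall_dual_apply_eq_zero_iff ℚ (v0 x0)).mp h)
  obtain ⟨ι, hι, cc, w, hvw⟩ := spanOf_sum K (hV hv0V)
  have hF1 := hCo g n K.normalCore (ext0 K f) fine0 ι (fun j => ℓ (cc j)) w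
  obtain ⟨F1, hF1d⟩ : ∃ F1 : F g n → ℚ, F1 = fun x =>
      ∑ j, ℓ (cc j) * ext0 K f ((w j)⁻¹ * x * w j) := ⟨_, rfl⟩
  rw [← hF1d] at hF1
  have hF1v : ∀ x : K.normalCore, F1 x = ℓ (v0 x) := by
    intro x
    rw [hF1d, hvw, map_sum]
    refine Finset.sum_congr rfl fun j _ => ?_
    have e : cc j * ((ext0 K f ((w j)⁻¹ * x * w j) : ℚ) : ℂ)
        = (ext0 K f ((w j)⁻¹ * x * w j)) • cc j := by
      rw [Rat.smul_def, mul_comm]
    rw [e, map_smul, smul_eq_mul, mul_comm]
  have hF1i : ∀ m ∈ M, ∀ x ∈ K.normalCore, F1 (m * x * m⁻¹) = F1 x := by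
    intro m hm x hx
    have hmx : m * x * m⁻¹ ∈ K.normalCore := hNn.conj_mem x hx m
    have h1 : translate K m⁻¹ v0 = v0 := (hM m⁻¹).mp (M.inv_mem hm) v0 hv0V
    have h2 := congrFun h1 ⟨x, hx⟩
    have h3 : v0 ⟨m⁻¹⁻¹ * x * m⁻¹, by rwa [inv_inv]⟩ = v0 ⟨x, hx⟩ := h2
    have e1 := hF1v ⟨m * x * m⁻¹, hmx⟩
    have e2 := hF1v ⟨x, hx⟩
    simp only at e1 e2
    rw [e1, e2, ← h3]
    congr 2
    apply Subtype.ext
    simp
  obtain ⟨f1, hf1, hf1e⟩ := hE g n K.normalCore M F1 hF1 hMn hNM hF1i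
  have hf2 := (hOb g n).2 M f1 hf1 θ hθ
  have hcen : ∀ x, cm (ga ⟨0, hg⟩) x ∈ M.comap θ.toMonoidHom := by
    intro x
    show θ (cm (ga ⟨0, hg⟩) x) ∈ M
    have e : θ (cm (ga ⟨0, hg⟩) x) = (θ (ga ⟨0, hg⟩) * θ x) * (θ x * θ (ga ⟨0, hg⟩))⁻¹ := by
      simp [cm, mul_assoc]
    rw [e, hM]
    intro v hv
    have h1 : ∀ u ∈ V, translate K (θ (ga ⟨0, hg⟩) * θ x) u
        = translate K (θ x * θ (ga ⟨0, hg⟩)) u := by
      intro u hu
      rw [translate_mul, translate_mul, hc _ (hVst _ _ hu), hc _ hu, translate_smul]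
    rw [translate_mul, h1 _ (hVst _ _ hv), ← translate_mul, mul_inv_cancel, translate_one]
  have hz := hC hKF hE g n hg _ _ hf2 hcen
  have hz2 : f1 x0 = 0 := by
    have h1 : θ (θ⁻¹ (x0 : F g n)) = x0 := by simp
    have h2 := hz (θ⁻¹ (x0 : F g n)) (by
      show θ (θ⁻¹ (x0 : F g n)) ∈ M
      rw [h1]
      exact hNM x0.2)
    simpa [h1] using h2
  rw [hf1e _ x0.2, hF1v] at hz2
  exact hℓ hz2

end Pool.Agent.PWK
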