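import Pool.Agent.PWK.PRT

/-!
# PWK: a curve which acts by a scalar on the translates of one vector (helper17)
-/

set_option autoImplicit false

namespace Pool.Agent.PWK

open Pool.Agent.PW

theorem translate_spanOf {g n : ℕ} (K : Subgroup (F g n)) (f : K → ℚ) (w : F g n)
    {v : K.normalCore → ℂ} (hv : v ∈ spanOf K f) : translate K w v ∈ spanOf K f := by
  induction hv using Submodule.span_induction with
  | mem v hv =>
    obtain ⟨u, rfl⟩ := hv
    simp only
    rw [← translate_mul]
    exact Submodule.subset_span ⟨w * u, rfl⟩
  | zero => exact (spanOf K f).zero_mem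
  | add v v' _ _ hv hv' =>
    rw [translate_add]
    exact (spanOf K f).add_mem hv hv'
  | smul c v _ hv =>
    rw [translate_smul]
    exact (spanOf K f).smul_mem c hv

/-- **a curve acts by one scalar on all translates of a vector of the span** -/
theorem scalar_vector (g n : ℕ) (hg : 0 < g) (K : Subgroup (F g n)) [K.FiniteIndex]
    (hR : bdry g n ∈ K.normalCore) (f : K → ℚ) (hf : IsClass K f)
    (v : K.normalCore → ℂ) (hv : v ∈ spanOf K f) (hv0 : v ≠ 0)
    (θ : MulAut (F g n)) (hθ : θ ∈ MCG g n) (c : ℂ)
    (hc : ∀ w, translate K (θ (ga ⟨0, hg⟩)) (translate K w v) = c • translate K w v) :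
    (orbit K f).Infinite := by
  have hmem : v ∈ Submodule.span ℂ (Set.range fun w : F g n => translate K w v) :=
    Submodule.subset_span ⟨1, translate_one K v⟩
  refine scalar_curve g n hg K hR f hf
    (Submodule.span ℂ (Set.range fun w : F g n => translate K w v)) ?_ ?_ ?_ θ hθ c ?_
  · intro h
    rw [h] at hmem
    exact hv0 ((Submodule.mem_bot ℂ).mp hmem)
  · rw [Submodule.span_le]
    rintro _ ⟨w, rfl⟩
    exact translate_spanOf K f w hv
  · intro w u hu
    induction hu using Submodule.span_induction with
    | mem u hu =>
      obtain ⟨w', rfl⟩ := hu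
      simp only
      rw [← translate_mul]
      exact Submodule.subset_span ⟨w * w', rfl⟩
    | zero => exact Submodule.zero_mem _
    | add u u' _ _ hu hu' =>
      rw [translate_add]
      exact Submodule.add_mem _ hu hu'
    | smul b u _ hu =>
      rw [translate_smul]
      exact Submodule.smul_mem _ b hu
  · intro u hu
    induction hu using Submodule.span_induction with
    | mem u hu =>
      obtain ⟨w', rfl⟩ := hu
      exact hc w'
    | zero =>
      rw [smul_zero]
      rfl
    | add u u' _ _ hu hu' => rw [translate_add, hu, hu', smul_add]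
    | smul b u _ hu => rw [translate_smul, hu, smul_comm]

end Pool.Agent.PWK
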