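import Pool.Agent.PWK.Bas

/-!
# PWK, part M (the weight argument on a finite set with two permutations): statements (helper17)

Text: PWK_h17.md (team store).  Every `St_XXX` is proved in its own file `PWK/XXX.lean` as
`thm_XXX : St_XXX`.  Where the statement has the form `St_YYY → ...`, this is a hypothesis (another
module).  The rules for `ev`, `cz`, `Wit`, `ab`, `Cl` are in `PWK/Bas.lean` (use `Wit.of_gens`,
`cz_unique`, `ev_conj`, `cz_conj`, `cz_pull'`, `ev_pull'`, `cz_add_cob`, `cz_mul`, `Cl.pull`).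
-/

set_option autoImplicit false

open scoped BigOperators

namespace Pool.Agent.PWK

/-! ### the refinement -/

/-- ADR.  Proof: `A (w,a,b) = (x^[a+b ≥ n] w, (a+b) mod n, b)` (that is, if `a + b < n` then
`(w, a+b, b)` else `(x w, a+b-n, b)`; the inverse is `(w,c,b) ↦ (w, c-b, b)` if `b ≤ c` else
`(x⁻¹ w, c+n-b, b)`), and `h (w,a,b) = p w` if `n ≤ a + b`, else `0`.
(1) `A (hx m) = hx (A m)`: if `a+1<n`: both are `(w, a+b+1, b)` (if `a+b+1<n`), `(x w, 0, b)` (if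
`a+b+1=n`), `(x w, a+b+1-n, b)` (if `a+b≥n`).  If `a=n-1`: `A (x w,0,b) = (x w,b,b)`, and `hx (A m)` is
`hx (w,n-1,0) = (x w,0,0)` for `b=0`, `hx (x w,b-1,b) = (x w,b,b)` for `b ≥ 1`.
(2) `hy (hx (A m)) = hy (A (hx m))` by (1).  If `b+1<n` it is `(x^[a+b+1≥n] w,(a+b+1) mod n,b+1)`
`= A (w,a,b+1)`.  If `b=n-1`: `hx (A m)=(x w,a,n-1)` in both cases `a=0`, `a≥1`, so
`hy = (y (x w),a,0) = A (y (x w),a,0)`.
(3) both sides are `p w` if `a+b=n-1` and `0` otherwise.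
(4) `b+1<n`: both sides are `p w` if `a+b=n-1`, and `0` otherwise.  `b=n-1`: both sides are `q (x w)`
plus (`p w` if `a=0`). -/
def St_ADR : Prop := ∀ (Ω : Type) (n : ℕ) (x y : Equiv.Perm Ω) (p q : Ω → ℝ),
  ∃ (A : Equiv.Perm (Ω × Fin n × Fin n)) (h : Ω × Fin n × Fin n → ℝ),
    (∀ m, A (hx n x m) = hx n x (A m)) ∧
    (∀ m, A (hy n (y * x) m) = hy n y (hx n x (A m))) ∧
    (∀ m, cX n p (A m) = cX n p m + h (hx n x m) - h m) ∧
    (∀ m, cY n q (hx n x (A m)) + cX n p (A m)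
      = cY n (fun w => q (x w) + p w) m + h (hy n (y * x) m) - h m)

/-- ADL.  Proof: apply `St_ADR` to `(y, x, q, p)` (the roles of `X`, `Y` are exchanged) and conjugate
`A` by the exchange of the coordinates `fl n Ω` (`A' = fl ∘ A ∘ fl`, `h' = h ∘ fl`); `hy n y` is
`fl ∘ hx n y ∘ fl` by definition, `hx n x = fl ∘ hy n x ∘ fl`, `cY n q = cX n q ∘ fl`. -/
def St_ADL : Prop := St_ADR → ∀ (Ω : Type) (n : ℕ) (x y : Equiv.Perm Ω) (p q : Ω → ℝ),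
  ∃ (A : Equiv.Perm (Ω × Fin n × Fin n)) (h : Ω × Fin n × Fin n → ℝ),
    (∀ m, A (hy n y m) = hy n y (A m)) ∧
    (∀ m, A (hx n (x * y) m) = hx n x (hy n y (A m))) ∧
    (∀ m, cY n q (A m) = cY n q m + h (hy n y m) - h m) ∧
    (∀ m, cX n p (hy n y (A m)) + cY n q (A m)
      = cX n (fun w => p (y w) + q w) m + h (hx n (x * y) m) - h m)

/-- the refinements of the action and of its composition with `α` are isomorphic, and the crossing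
cocycles are cohomologous -/
def AdmAt (α : MulAut F2) : Prop :=
  ∀ (Ω : Type) (n : ℕ) (x y : Equiv.Perm Ω) (p q : Ω → ℝ),
  ∃ (A : Equiv.Perm (Ω × Fin n × Fin n)) (h : Ω × Fin n × Fin n → ℝ),
    (∀ γ m, A (ev (hx n (ev x y (α xx))) (hy n (ev x y (α yy))) γ m)
      = ev (hx n x) (hy n y) (α γ) (A m)) ∧
    (∀ γ m, cz (hx n x) (hy n y) (cX n p) (cY n q) (α γ) (A m)
      = cz (hx n (ev x y (α xx))) (hy n (ev x y (α yy))) (cX n (cz x y p q (α xx)))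
          (cY n (cz x y p q (α yy))) γ m
        + h (ev (hx n (ev x y (α xx))) (hy n (ev x y (α yy))) γ m) - h m)

/-- ADM.  Proof: `Subgroup.closure_induction` over `G0 = closure {aR, aL}`.
`aR`: `aR xx = xx`, `aR yy = yy * xx`, so `ev x y (aR xx) = x`, `ev x y (aR yy) = y * x`,
`cz x y p q (aR yy) w = q (x w) + p w`; take `A`, `h` from `St_ADR`; the first claim is `ev_conj` +
`ev_pull'`, the second follows from its case of the generators by `cz_unique` (both sides satisfy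
`C (γδ) m = C γ (δ m) + C δ m` for the action with the hats; as in `Wit.of_gens`).  `aL`: from `St_ADL`.
`1`: `A = 1`, `h = 0`.  Product `α * β`: `(α*β) γ = α (β γ)`.  Let `x1 = ev x y (α xx)` etc.,
`p1 = cz x y p q (α xx)` etc.  Take `(A, h)` for `α` at `(x,y,p,q)` and `(B, k)` for `β` at
`(x1,y1,p1,q1)`; `ev x1 y1 (β xx) = ev x y (α (β xx))` (`ev_pull'`), `cz x1 y1 p1 q1 (β xx) =
cz x y p q (α (β xx))` (`cz_pull'`).  Then `A ∘ B` and `m ↦ k m + h (B m)` work.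
Inverse: put `x1 = ev x y (α⁻¹ xx)` etc.; `AdmAt α` at `(x1,y1,p1,q1)` gives `(A, h)` with
`ev x1 y1 (α xx) = x` etc.; take `A⁻¹` and `m ↦ - h (A⁻¹ m)`. -/
def St_ADM : Prop := St_ADR → St_ADL → ∀ α ∈ G0, AdmAt α

/-- LFT: goodness lifts to the refinement.  Proof: the hypotheses say `ev x y (α xx) = x`,
`ev x y (α yy) = y` (as permutations), `cz x y 0 ψ (α xx) = u ∘ x - u`,
`cz x y 0 ψ (α yy) = ψ + u ∘ y - u`.  `AdmAt α` with `p = 0`, `q = ψ` gives `A, h`.  The function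
`U (w,a,b) = u w` satisfies `cX n (u ∘ x - u) m = U (hx m) - U m`,
`cY n (ψ + u ∘ y - u) m = cY n ψ m + U (hy m) - U m`, and `cX n 0 = 0`.  Hence
`Wit (hx n x) (hy n y) 0 (cY n ψ) α A (h + U)`.  Multiply by `n` (`Wit.smul`) and add the coboundary of
`V (w,a,b) = b * ψ w` (`Wit.add_cob`): `V (hx m) - V m = 0` (as `ψ ∘ x = ψ`) and
`V (hy m) - V m = ψ w - (n * ψ w if b = n-1 else 0)`, so `n * cY n ψ + (V ∘ hy - V) = lf n ψ`. -/
def St_LFT : Prop := ∀ α : MulAut F2, AdmAt α → ∀ (Ω : Type) (n : ℕ) (x y : Equiv.Perm Ω)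
  (ψ u : Ω → ℝ), (∀ w, ψ (x w) = ψ w) → (∀ γ w, ev x y (α γ) w = ev x y γ w) →
  (∀ γ w, cz x y (fun _ => 0) ψ (α γ) w
    = cz x y (fun _ => 0) ψ γ w + u (ev x y γ w) - u w) →
  ∃ (A : Equiv.Perm (Ω × Fin n × Fin n)) (v : Ω × Fin n × Fin n → ℝ),
    Wit (hx n x) (hy n y) (fun _ => 0) (lf n ψ) α A v

/-! ### estimates -/

/-- the point has distance at least `l` from the boundary of its square -/
def Inr (n l : ℕ) {Ω : Type} (m : Ω × Fin n × Fin n) : Prop :=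
  l ≤ (m.2.1 : ℕ) ∧ (m.2.1 : ℕ) + l < n ∧ l ≤ (m.2.2 : ℕ) ∧ (m.2.2 : ℕ) + l < n

/-- EST.  Proof: induction on `γ` (`F2_ind`) of the statement with one more clause: for `Inr n l m`,
`(ev (hx n x) (hy n y) γ m).1 = m.1` and its coordinates are `m.2.1 + (ab γ).1`, `m.2.2 + (ab γ).2`
(as integers), and `|(ab γ).1| ≤ l`, `|(ab γ).2| ≤ l`.  `1`: `l = 0`.  Generators: `l = 1`, `C = 1`.
Inverse: `cz γ⁻¹ m = - cz γ (γ⁻¹ m)`: the first two clauses need the statement for `γ⁻¹` (it is better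
to do the induction over reduced lists or over the generators and their inverses: the class of `γ`
with the statement for `γ` and for `γ⁻¹` contains the generators and is closed under products and
inverses).  Product: `l = l_γ + l_δ`, `C = C_γ + C_δ + |(ab γ).1| + |(ab γ).2|`:
`cz (γδ) m = cz γ (δ m) + cz δ m`, the point `δ m` is in the same square, at distance `≤ l_δ`. -/
def St_EST : Prop := ∀ γ : F2, ∃ (l : ℕ) (C : ℝ), 0 ≤ C ∧ ∀ (Ω : Type) (n : ℕ)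
  (x y : Equiv.Perm Ω) (P Q : Ω × Fin n × Fin n → ℝ),
  (∀ B : ℝ, 0 ≤ B → (∀ m, |P m| ≤ B) → (∀ m, |Q m| ≤ B) →
    ∀ m, |cz (hx n x) (hy n y) P Q γ m| ≤ C * B) ∧
  (∀ ε : ℝ, 0 ≤ ε →
    (∀ m m' : Ω × Fin n × Fin n, m.1 = m'.1 → |((m.2.1 : ℕ) : ℤ) - ((m'.2.1 : ℕ) : ℤ)| ≤ l →
      |((m.2.2 : ℕ) : ℤ) - ((m'.2.2 : ℕ) : ℤ)| ≤ l → |P m - P m'| ≤ ε ∧ |Q m - Q m'| ≤ ε) →
    ∀ m, Inr n l m → |cz (hx n x) (hy n y) P Q γ m
      - (((ab γ).1 : ℝ) * P m + ((ab γ).2 : ℝ) * Q m)| ≤ C * ε)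

/-- `P` has Lipschitz constant `2 * B / n` inside each square -/
def Slow (n : ℕ) {Ω : Type} (B : ℝ) (P : Ω × Fin n × Fin n → ℝ) : Prop :=
  ∀ m m' : Ω × Fin n × Fin n, m.1 = m'.1 →
    |P m - P m'| ≤ 2 * B * ((|((m.2.1 : ℕ) : ℝ) - ((m'.2.1 : ℕ) : ℝ)|
      + |((m.2.2 : ℕ) : ℝ) - ((m'.2.2 : ℕ) : ℝ)|) / n)

/-- AVG.  Proof from `St_EST`: interior points: `ε = 2 * B * (2 l / n)`, there are at most
`n ^ 2 * card Ω` points, contribution at most `T * C0 * (4 B l / n) * n ^ 2 * card Ω`.  The points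
without `Inr n l` are at most `4 * l * n * card Ω` (for each of the four conditions the coordinate has at
most `l` values), there `|cz| ≤ C0 * B` and the linear term is at most `(|(ab γ).1| + |(ab γ).2|) * B`.
So `C = 4 * l * C0 + 4 * l * (C0 + |(ab γ).1| + |(ab γ).2|)`. -/
def St_AVG : Prop := St_EST → ∀ γ : F2, ∃ C : ℝ, 0 ≤ C ∧ ∀ (Ω : Type) [Fintype Ω] (n : ℕ), 0 < n →
  ∀ (x y : Equiv.Perm Ω) (P Q F : Ω × Fin n × Fin n → ℝ) (B T : ℝ), 0 ≤ B → 0 ≤ T →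
  (∀ m, |P m| ≤ B) → (∀ m, |Q m| ≤ B) → Slow n B P → Slow n B Q → (∀ m, |F m| ≤ T) →
  |∑ m, F m * cz (hx n x) (hy n y) P Q γ m
    - ∑ m, F m * (((ab γ).1 : ℝ) * P m + ((ab γ).2 : ℝ) * Q m)|
    ≤ C * T * B * Fintype.card Ω * n

/-- the bilinear refinement of `p` -/
noncomputable def bp (n : ℕ) {Ω : Type} (y : Equiv.Perm Ω) (p : Ω → ℝ)
    (m : Ω × Fin n × Fin n) : ℝ :=
  (1 - ((m.2.2 : ℕ) : ℝ) / n) * p m.1 + (((m.2.2 : ℕ) : ℝ) / n) * p (y m.1)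

/-- the bilinear refinement of `q` -/
noncomputable def bq (n : ℕ) {Ω : Type} (x : Equiv.Perm Ω) (q : Ω → ℝ)
    (m : Ω × Fin n × Fin n) : ℝ :=
  (1 - ((m.2.1 : ℕ) : ℝ) / n) * q m.1 + (((m.2.1 : ℕ) : ℝ) / n) * q (x m.1)

/-- BIL.  Proof: closed: in all cases `bp (hy m) - bp m = (p (y w) - p w) / n` and
`bq (hx m) - bq m = (q (x w) - q w) / n` (also if the last coordinate is `n - 1`), and
`p (y w) - p w = q (x w) - q w` as `(p, q)` is closed.  Bounds: convex combinations.  `Slow`: the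
difference is `(b - b') / n * (p (y w) - p w)`.  Sum: `∑ ψ w * p (y w) = ∑ ψ w * p w` because
`∑ ψ w * (q (x w) - q w) = 0` (`ψ ∘ x = ψ`); so for each `(a,b)` the sum over `w` is `∑ ψ p`. -/
def St_BIL : Prop := ∀ (Ω : Type) [Fintype Ω] (n : ℕ), 0 < n → ∀ (x y : Equiv.Perm Ω)
  (ψ p q : Ω → ℝ) (B : ℝ), (∀ w, ψ (x w) = ψ w) → Cl x y p q → (∀ w, |p w| ≤ B) →
  (∀ w, |q w| ≤ B) →
  Cl (hx n x) (hy n y) (bp n y p) (bq n x q) ∧ (∀ m, |bp n y p m| ≤ B) ∧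
  (∀ m, |bq n x q m| ≤ B) ∧ Slow n B (bp n y p) ∧ Slow n B (bq n x q) ∧
  ∑ m, lf n ψ m * bp n y p m = (n : ℝ) ^ 2 * ∑ w, ψ w * p w

/-! ### the cup product -/

/-- QIN.  Proof: `Subgroup.closure_induction` over `G0` for the statement for all `M, x, y, ...`; closedness
of the pulled back cocycles is `Cl.pull` in `PWK/Bas.lean`.
`aR`: `x' = x`, `y' = y * x`, `p1' = p1`, `q1' w = q1 (x w) + p1 w`, so the sum is
`∑ p1 w * (q2 (x (x w)) + p2 (x w)) - (q1 (x w) + p1 w) * p2 (y (x w))`, and closedness at `x w`: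
`q2 (x (x w)) + p2 (x w) = p2 (y (x w)) + q2 (x w)` gives `∑ p1 w * q2 (x w) - q1 (x w) * p2 (y (x w))`.
`aL`: `x' = x * y`, `y' = y`, `p1' w = p1 (y w) + q1 w`, `q1' = q1`:
`∑ (p1 (y w) + q1 w) * q2 (x (y w)) - q1 w * (p2 (y (y w)) + q2 (y w))`, closedness at `y w`:
`p2 (y (y w)) + q2 (y w) = q2 (x (y w)) + p2 (y w)`, the sum is
`∑ p1 (y w) * q2 (x (y w)) - q1 w * p2 (y w)`.  Product: `ev_pull'`, `cz_pull'`.  Inverse: apply the
statement for `α` to `x1 = ev x y (α⁻¹ xx)` etc. (closed by `Cl.pull`). -/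
def St_QIN : Prop := ∀ α ∈ G0, ∀ (M : Type) [Fintype M] (x y : Equiv.Perm M)
  (p q p' q' : M → ℝ), Cl x y p q → Cl x y p' q' →
  Qf (ev x y (α xx)) (ev x y (α yy)) (cz x y p q (α xx)) (cz x y p q (α yy))
    (cz x y p' q' (α xx)) (cz x y p' q' (α yy)) = Qf x y p q p' q'

/-- INV.  Proof: let `x' = ev x y (α xx)`, `y' = ev x y (α yy)`, `c' = (cz x y 0 ψ (α xx), ...)`,
`η' = (cz x y p q (α xx), cz x y p q (α yy))` (closed, `Cl.pull`).  `(0, ψ)` is closed.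
(1) `∑ (ũ (x' m) - ũ m) * q' (x' m) - (ũ (y' m) - ũ m) * p' (y' m) = 0` for every closed `(p', q')`
(with respect to `x', y'`) and every `ũ`: a coboundary in the first place gives `Qf = 0`
(shift the sums: `∑ ũ m * (q' m - q' (x' m) - p' m + p' (y' m)) = 0`).
(2) the witness gives `c'.X m = ũ (x' m) - ũ m`, `c'.Y m = ψ (A⁻¹ m) + ũ (y' m) - ũ m` with
`ũ = u ∘ A⁻¹` (as `A⁻¹ (x' m) = x (A⁻¹ m)`).  So
`Qf x' y' c' η' = Qf x' y' (0, ψ ∘ A⁻¹) η' = - ∑ ψ (A⁻¹ m) * η'.X (y' m) = - ∑ ψ (A⁻¹ m) * η'.X m`,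
the last step because `η'.X (y' m) = η'.X m + η'.Y (x' m) - η'.Y m` and `ψ ∘ A⁻¹` is invariant under
`x'` (`ψ (A⁻¹ (x' m)) = ψ (x (A⁻¹ m)) = ψ (A⁻¹ m)`).
(3) `Qf x' y' c' η' = Qf x y (0, ψ) (p, q)` (`St_QIN`) `= - ∑ ψ m * p (y m) = - ∑ ψ m * p m` (the same
argument). -/
def St_INV : Prop := St_QIN → ∀ α ∈ G0, ∀ (M : Type) [Fintype M] (x y : Equiv.Perm M)
  (ψ p q : M → ℝ), (∀ m, ψ (x m) = ψ m) → Cl x y p q →
  ∀ (A : Equiv.Perm M) (u : M → ℝ), Wit x y (fun _ => 0) ψ α A u →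
  ∑ m, ψ (A⁻¹ m) * cz x y p q (α xx) m = ∑ m, ψ m * p m

/-- DET.  Proof: for `φ ∈ G0`: `dt (ab (φ γ)) (ab (φ δ)) = dt (ab γ) (ab δ)` for all `γ, δ`
(`Subgroup.closure_induction`; for `aR`: `ab (aR γ) = ((ab γ).1 + (ab γ).2, (ab γ).2)`, for `aL`:
`ab (aL γ) = ((ab γ).1, (ab γ).1 + (ab γ).2)`, both by `F2_ind`).  Apply it to `φ = β`, `γ = xx`,
`δ = β⁻¹ (α xx)`: `dt (ab (β xx)) (ab (α xx)) = dt (1, 0) (ab ((β⁻¹ * α) xx))`. -/
def St_DET : Prop := ∀ α ∈ G0, ∀ β ∈ G0,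
  (ab ((β⁻¹ * α) xx)).2 = dt (ab (β xx)) (ab (α xx))

/-- ORP: orthogonality.  Proof: let `ψ̂ = lf n ψ`, `T = ∑ w, |ψ w|` (a bound of `|ψ|`).  `St_INV` for
`(p, q) = (0, ψ̂)` (closed with respect to the hats, because `ψ̂ ∘ hx = ψ̂`) gives
`∑ ψ̂ (A⁻¹ m) * cz 0 ψ̂ (δ xx) m = 0`.  `St_AVG` for `γ = δ xx`, `P = 0`, `Q = ψ̂` (`Slow` holds: it is
constant on each square), `F = ψ̂ ∘ A⁻¹`, `B = T`: `|0 - (ab (δ xx)).2 * ∑ ψ̂ (A⁻¹ m) * ψ̂ m| ≤`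
`C * T * T * card Ω * n`.  An integer which is not zero has absolute value at least one. -/
def St_ORP : Prop := St_EST → St_AVG → St_QIN → St_INV → ∀ δ ∈ G0, (ab (δ xx)).2 ≠ 0 →
  ∀ (Ω : Type) [Fintype Ω] (x y : Equiv.Perm Ω) (ψ : Ω → ℝ), (∀ w, ψ (x w) = ψ w) →
  ∃ C : ℝ, 0 ≤ C ∧ ∀ n : ℕ, 0 < n → ∀ (A : Equiv.Perm (Ω × Fin n × Fin n))
    (u : Ω × Fin n × Fin n → ℝ), Wit (hx n x) (hy n y) (fun _ => 0) (lf n ψ) δ A u →
    |∑ m, lf n ψ (A⁻¹ m) * lf n ψ m| ≤ C * n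

/-! ### the inequality -/

/-- BAB (real analysis).  Proof: `λ_i = 1 / (s_i.1 ^ 2 + s_i.2 ^ 2)` (zero if `s_i = 0`), `Z = ∑ λ_i`; then
`∑ λ_i ^ 2 * (s_i.1 ^ 2 + s_i.2 ^ 2) = Z`.  Let `f = ∑ λ_i s_i.1 ψ_i`, `g = ∑ λ_i s_i.2 ψ_i` (functions on
`M n`).  `|Z n² c - ∑ (f P + g Q)| ≤ C n Z`, by (4).  By (1), (2):
`∑ f² + ∑ g² ≤ n² S Z + C' n`, with `C'` independent of `n`.  Cauchy and Schwarz:
`(∑ f P + ∑ g Q)² ≤ 2 ((∑ f P)² + (∑ g Q)²) ≤ 2 n² K (∑ f² + ∑ g²) ≤ 2 n² K (n² S Z + C' n)`.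
Divide by `n⁴` and let `n → ∞`: `Z² c² ≤ 2 K S Z`; if `Z = 0` the claim is `0 ≤ 2 K S`. -/
def St_BAB : Prop := ∀ (ι : Type) [Fintype ι] (s : ι → ℝ × ℝ) (M : ℕ → Type)
  [∀ n, Fintype (M n)] (f : ∀ n, ι → M n → ℝ) (P Q : ∀ n, M n → ℝ) (S K c C : ℝ),
  0 ≤ S → 0 ≤ K → 0 ≤ C →
  (∀ n : ℕ, 0 < n → ∀ i, ∑ m, f n i m ^ 2 = (n : ℝ) ^ 2 * S) →
  (∀ n : ℕ, 0 < n → ∀ i j, i ≠ j → |∑ m, f n i m * f n j m| ≤ C * n) →
  (∀ n : ℕ, 0 < n → ∑ m, P n m ^ 2 ≤ (n : ℝ) ^ 2 * K) →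
  (∀ n : ℕ, 0 < n → ∑ m, Q n m ^ 2 ≤ (n : ℝ) ^ 2 * K) →
  (∀ n : ℕ, 0 < n → ∀ i, |(n : ℝ) ^ 2 * c - ∑ m, f n i m * ((s i).1 * P n m + (s i).2 * Q n m)|
    ≤ C * n) →
  c ^ 2 * ∑ i, 1 / ((s i).1 ^ 2 + (s i).2 ^ 2) ≤ 2 * K * S

/-- the hypothesis on one automorphism: it acts trivially on the finite set and does not change the
class of the cocycle `(0, ψ)` -/
def Gd {Ω : Type} (x y : Equiv.Perm Ω) (ψ : Ω → ℝ) (α : MulAut F2) : Prop :=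
  (∀ γ w, ev x y (α γ) w = ev x y γ w) ∧ ∃ u : Ω → ℝ, ∀ γ w,
    cz x y (fun _ => 0) ψ (α γ) w = cz x y (fun _ => 0) ψ γ w + u (ev x y γ w) - u w

/-- BES.  Proof: for `n ≥ 1` and each `i` take the witness `A_i` of `St_LFT` for `α i` (choice), and put
`ψ_i = lf n ψ ∘ A_i⁻¹`.  Apply `St_BAB` with `M n = Ω × Fin n × Fin n`, `P = bp n y p`, `Q = bq n x q`,
`s i = ab (α i xx)`, `S = ∑ ψ²`, `K = card Ω * B²`, `c = ∑ ψ p`.
(1) `∑ ψ_i² = ∑ (lf n ψ)² = n² S` (bijection).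
(2) `∑ ψ_i ψ_j = ∑ lf n ψ ((A_j⁻¹ A_i)⁻¹ m) * lf n ψ m` (shift by `A_j`), and `A_j⁻¹ A_i` is a witness for
`(α j)⁻¹ * α i` (`Wit.mul`, `Wit.inv`), which has `(ab ((α j)⁻¹ (α i xx))).2 = dt ... ≠ 0` by `St_DET`
(for the pair `(j, i)`); `St_ORP` gives the bound `C_ij * n`.
(3) `|P| ≤ B`, `|Q| ≤ B` (`St_BIL`).
(4) `St_INV` with `(P, Q)`: `∑ ψ_i * cz P Q (α i xx) = ∑ lf n ψ * bp n y p = n² c`, and `St_AVG` for
`γ = α i xx`, `F = ψ_i`, `T = ∑ |ψ w|`. -/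
def St_BES : Prop := St_LFT → St_EST → St_AVG → St_BIL → St_QIN → St_INV → St_DET → St_ORP →
  St_BAB → (∀ α ∈ G0, AdmAt α) →
  ∀ (Ω : Type) [Fintype Ω] (x y : Equiv.Perm Ω) (ψ p q : Ω → ℝ) (B : ℝ), 0 ≤ B →
  (∀ w, ψ (x w) = ψ w) → Cl x y p q → (∀ w, |p w| ≤ B) → (∀ w, |q w| ≤ B) →
  ∀ (ι : Type) [Fintype ι] (α : ι → MulAut F2), (∀ i, α i ∈ G0) → (∀ i, Gd x y ψ (α i)) →
  (∀ i j, i ≠ j → dt (ab (α i xx)) (ab (α j xx)) ≠ 0) →
  (∑ w, ψ w * p w) ^ 2 * ∑ i, 1 / (((ab (α i xx)).1 : ℝ) ^ 2 + ((ab (α i xx)).2 : ℝ) ^ 2)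
    ≤ 2 * (Fintype.card Ω * B ^ 2) * ∑ w, ψ w ^ 2

/-! ### divergence -/

/-- PRM.  Proof: for a prime `l` the pairs `(j, l - j)`, `0 < j < l`, are coprime; their contribution is
`(l - 1) / l ^ 2 ≥ 1 / (2 l)`, and the sum over the primes diverges (`Nat.Primes.not_summable_one_div` or
`not_summable_one_div_on_primes`). -/
def St_PRM : Prop := ∀ Z : ℝ, ∃ T : Finset (ℕ × ℕ),
  (∀ u ∈ T, 0 < u.1 ∧ 0 < u.2 ∧ Nat.Coprime u.1 u.2) ∧
  Z ≤ ∑ u ∈ T, 1 / ((u.1 : ℝ) + (u.2 : ℝ)) ^ 2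

/-- the vector of a word (`true` is `R`, `false` is `L`) -/
def st : List Bool → ℕ × ℕ
  | [] => (1, 1)
  | true :: W => ((st W).1 + (st W).2, (st W).2)
  | false :: W => ((st W).1, (st W).1 + (st W).2)

/-- the automorphism of a word -/
def wd : List Bool → MulAut F2
  | [] => 1
  | true :: W => aR * wd W
  | false :: W => aL * wd W

/-- STB.  Proof: (1) induction.  (2) `st (true :: W)` has first coordinate larger than the second,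
`st (false :: W)` smaller, `st [] = (1,1)` equal; so the first letter is determined by the value, and
`st W` is determined.  (3) Euclid: strong induction on `a + b`: `a = b` implies `a = b = 1`; `a > b`:
`(a - b, b)`; `a < b`: `(a, b - a)`.  (4) by induction on `W`, with
`C = max (st T).1 (st T).2`.  (5) `ab (aR γ) = ((ab γ).1 + (ab γ).2, (ab γ).2)`,
`ab (aL γ) = ((ab γ).1, (ab γ).1 + (ab γ).2)` (`F2_ind`), `aL xx = xx * yy`.  (6), (7) by induction. -/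
def St_STB : Prop :=
  (∀ W, 0 < (st W).1 ∧ 0 < (st W).2 ∧ Nat.Coprime (st W).1 (st W).2) ∧
  Function.Injective st ∧
  (∀ a b : ℕ, 0 < a → 0 < b → Nat.Coprime a b → ∃ W, st W = (a, b)) ∧
  (∀ T, ∃ C : ℕ, ∀ W, (st (W ++ T)).1 ≤ C * (st W).1 ∧ (st (W ++ T)).2 ≤ C * (st W).2) ∧
  (∀ W, ab ((wd W * aL) xx) = (((st W).1 : ℤ), ((st W).2 : ℤ))) ∧
  (∀ W, wd W ∈ G0) ∧ (∀ W T, wd (W ++ T) = wd W * wd T)

/-- DVD.  Proof: let `N` be the normal core of `D.subgroupOf G0` in `G0`; it has finite index, so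
`Q = G0 ⧸ N` is a finite group, generated by the images of `aR`, `aL`.  In a finite group the
submonoid generated by a set is the subgroup generated by it (`Subgroup.closure_toSubmonoid_of_finite`
or: `g⁻¹ = g ^ (orderOf g - 1)`), so every element of `Q` is the image of some `wd V`, hence (apply this to
`k * aL⁻¹`) every `k ∈ Q` is the image of some `wd V * aL`.  Let `T` contain one such `V` for each `k`;
for `W` take the `V` of `k = (image of wd W)⁻¹`; then `wd (W ++ V) * aL = wd W * (wd V * aL)` is in `N`,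
so in `D`.  (`wd (W ++ V) = wd W * wd V` by induction.) -/
def St_DVD : Prop := ∀ D : Subgroup (MulAut F2), D.relIndex G0 ≠ 0 →
  ∃ T : Finset (List Bool), ∀ W : List Bool, ∃ V ∈ T, wd (W ++ V) * aL ∈ D

/-- DIV.  Proof: take `T` from `St_DVD`, `C ≥ 1` a common constant for all `V ∈ T` in `St_STB` (4).  For the
finite set `P` of coprime pairs of `St_PRM` with the bound `Z * C² * card T` (for `Z ≥ 0`) take the words
`W_u`, `u ∈ P`, `st W_u = u` (injective in `u`), `V_u ∈ T` with `wd (W_u ++ V_u) * aL ∈ D`; the set of the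
words `W_u ++ V_u` is called `E`; the map `P → E` has fibres with at most `card T` elements (the
word and `V` determine `W`).  `T' = {wd E * aL}`; the map `W ↦ wd W * aL` is injective since
`ab ((wd W * aL) xx) = st W` and `st` is injective.  For `W = W_u ++ V_u`: `(st W).1 ^ 2 + (st W).2 ^ 2 ≤`
`C² (u.1 ^ 2 + u.2 ^ 2) ≤ C² (u.1 + u.2) ^ 2`.  So the sum over `T'` is at least
`(1 / card T) ∑ u, 1 / (C² (u.1 + u.2)²) ≥ Z`.  Two different coprime positive pairs have determinant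
different from zero: `a b' = b a'` implies `a ∣ a'`, `a' ∣ a`. -/
def St_DIV : Prop := St_PRM → St_STB → St_DVD → ∀ D : Subgroup (MulAut F2), D.relIndex G0 ≠ 0 →
  ∀ Z : ℝ, ∃ T : Finset (MulAut F2), (∀ α ∈ T, α ∈ D ∧ α ∈ G0) ∧
    (∀ α ∈ T, ∀ β ∈ T, α ≠ β → dt (ab (α xx)) (ab (β xx)) ≠ 0) ∧
    Z ≤ ∑ α ∈ T, 1 / (((ab (α xx)).1 : ℝ) ^ 2 + ((ab (α xx)).2 : ℝ) ^ 2)

/-! ### duality and the theorem -/

/-- DUA.  Proof: the linear map `L (p, q) w = p (y w) - p w + q w - q (x w)` from `(Ω → ℝ) × (Ω → ℝ)` to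
`Ω → ℝ`; its kernel consists of the closed pairs, the functional `(p, q) ↦ ∑ ψ p` is zero on the kernel,
so it is `(p, q) ↦ ∑ v w * L (p, q) w` for some `v` (finite dimensional duality:
`LinearMap.range_dualMap_eq_dualAnnihilator_ker`, or the Fredholm alternative with the transpose).  With
`q = 0`: `ψ w = v (y⁻¹ w) - v w`; with `p = 0`: `v w = v (x⁻¹ w)`.  Take `u = - v ∘ y⁻¹ = - (ψ + v)`:
`u (x w) = u w`, `u (y w) - u w = - v w + v (y⁻¹ w) = ψ w`. -/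
def St_DUA : Prop := ∀ (Ω : Type) [Fintype Ω] (x y : Equiv.Perm Ω) (ψ : Ω → ℝ),
  (∀ w, ψ (x w) = ψ w) → (∀ p q : Ω → ℝ, Cl x y p q → ∑ w, ψ w * p w = 0) →
  ∃ u : Ω → ℝ, (∀ w, u (x w) = u w) ∧ ∀ w, u (y w) - u w = ψ w

/-- the main theorem of part M -/
def Main : Prop := ∀ (Ω : Type) [Fintype Ω] (x y : Equiv.Perm Ω) (ψ : Ω → ℝ),
  (∀ w, ψ (x w) = ψ w) → ∀ D : Subgroup (MulAut F2), D.relIndex G0 ≠ 0 →
  (∀ α ∈ D, α ∈ G0 → Gd x y ψ α) →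
  ∃ u : Ω → ℝ, (∀ w, u (x w) = u w) ∧ ∀ w, u (y w) - u w = ψ w

end Pool.Agent.PWK
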