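import Pool.Agent.PWK.St
import Pool.Agent.PWK.Defs2
import Pool.Agent.PWM.Swp

/-!
# PWK, part P (surface groups): statements (helper17)

Text: PWK_h17.md (team store).  Every `St_XXX` is proved in its own file `PWK/XXX.lean` as
`thm_XXX : St_XXX`.  Definitions: `PWK/Defs2.lean`; the landed library `Pool/Agent/PW` (`Words`:
`seg`, `cseg`, `seg_add`, `cseg_add`, `bdry_eq`, `bdry_split`, `hom_ext`, `eq_top_of_gens`;
`Transfer`: `AddOn`, `tr`, `trk`, `mem_trk_of_pow`; `Good`: `Good`, `mod_of_gens`, `exists_exp`, `kill_b`,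
`kill_b'`; `Central`: `kill_a`, `away`, `qa`, `Mild`, `pushable_eq`; `Orbit`: `ext0`, `good_of_finite`).
-/

set_option autoImplicit false

open scoped BigOperators

namespace Pool.Agent.PWK

open Pool.Agent.PW

/-! ### step one: pushes of a foot of the handle with the killed curve `a 0` -/

/-- KLA.  Proof: `Sw i j h` of `PWM/Swp` (`j = i + 1`) has `(Sw i j h)⁻¹ (gb i) = gb j`, `(ga i) ↦ ga j`,
and is a mapping class; by induction on `i` there is `φ ∈ MCG g n` with `φ (ga z) = ga i`,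
`φ (gb z) = gb i` (`z = 0`).  Then `Good.kill_b'` gives the second claim.  The first: the
automorphism of `swap_ba` (`PW/Central`) maps `gb z` to `gb z * ga z * (gb z)⁻¹`; composed with `φ`: a
mapping class which maps `gb z` to `gb i * ga i * (gb i)⁻¹`; use `Good.kill_b'` with `w * (gb i)⁻¹`. -/
def St_KLA : Prop := ∀ (g n : ℕ) (N : Subgroup (F g n)) (f : F g n → ℚ), Good N f →
  ∀ (i : Fin g) (m : ℕ), (ga i ^ m ∈ N → ∀ w : F g n, f (w * ga i ^ m * w⁻¹) = 0) ∧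
    (gb i ^ m ∈ N → ∀ w : F g n, f (w * gb i ^ m * w⁻¹) = 0)

/-- PSH.  Proof: `f` is zero on the normal closure of `ga z` (`Good.kill_a` with `m = 1`, additivity,
closure induction), so `f x = f x'` if `x, x' ∈ N` and `qa n z x = qa n z x'`.
`pushable_eq` gives `T` with `Mild z T`, `qa (T (gb z)) = qa (y * gb z)`.  For `k : ℕ` let `E_k` be the
endomorphism `gb z ↦ y ^ k * gb z`, all the other generators fixed; `qa (T^k x) = qa (E_k x)` for all `x`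
(both are homomorphisms; `T^k` is `Mild`, `qa (T^k (gb z)) = qa (y^k * gb z)` by induction and
`qa_eq`).  `E_k x * x⁻¹ ∈ N`, `T x * x⁻¹ ∈ N` (`mod_of_gens`; the normal closure of `ga z` is in `N`).
`Good.stab` for `T` and `L = 1` gives `M > 0` with `f (T^M x) = f x`, so `f (E_M x) = f x` for `x ∈ N`.
For `k` and `h, x : F g n` put `D k x h = f (h * (E_k x * x⁻¹) * h⁻¹)`: then
`D k (x * x') h = D k x h + D k x' (h * x)` (as
`E_k (x x') (x x')⁻¹ = (E_k x x⁻¹) * x * (E_k x' x'⁻¹) * x⁻¹`), `D k (gb z) h = f (h * y^k * h⁻¹) =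
k * f (h * y * h⁻¹)`, zero for the other generators; so `D k x h = k * D 1 x h` for all `x`
(closure induction over the generators, for all `h`).  For `x ∈ N`:
`D M x 1 = f (E_M x) - f x = 0`, so `D 1 x 1 = 0`.  Put `κ w = D 1 w 1`.  `κ (w * x) = κ w + D 1 x w`; for
`x ∈ N`: `D 1 x w = D 1 (w * x * w⁻¹) 1` up to `D 1 w 1 + D 1 w⁻¹ (w x) = D 1 w 1 + D 1 w⁻¹ w = 0` (`D k x h`
depends only on `h` modulo `N`, `AddOn.conj`) `= 0`.  For `p ∈ away z`: `E_1 p = p`, `D 1 p w = 0`.  For `gb z`: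
`D 1 (gb z) w = f (w * y * w⁻¹)`. -/
def St_PSH : Prop := ∀ (g n : ℕ) (N : Subgroup (F g n)) (f : F g n → ℚ), Good N f →
  ∀ (z : Fin g), (z : ℕ) = 0 → ga z ∈ N → ∀ y ∈ away z, y ∈ N →
  ∃ κ : F g n → ℚ, (∀ w, ∀ x ∈ N, κ (w * x) = κ w) ∧ (∀ w, ∀ p ∈ away z, κ (w * p) = κ w) ∧
    (∀ w, κ (w * gb z) - κ w = f (w * y * w⁻¹))

/-- SUM.  Proof: let `H q = 1` if `∃ p ∈ away z, q = c * p` (in the quotient), else `0`.  For `x ∈ away z`,
`x ∈ kp H` (`PW/Transfer`; `kp H = {x | ∀ q, H (q * x) = H q}`).  `away z` is generated by `ga i`, `gb i`, `i ≠ z`,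
and `gc j`; each of these is in `trk h.add H` by `mem_trk_of_pow` with `m = L` of `exists_exp`
(`St_KLA`, `Good.marked`).  So `y ∈ trk h.add H`: `tr N f H y = 0`, and `tr_mem` computes it as the sum. -/
def St_SUM : Prop := St_KLA → ∀ (g n : ℕ) (N : Subgroup (F g n)) [N.Normal] [Fintype (F g n ⧸ N)]
  (f : F g n → ℚ), Good N f → ∀ (z : Fin g), (z : ℕ) = 0 → ∀ y ∈ away z, y ∈ N → ∀ c : F g n,
  ∀ [DecidablePred fun q : F g n ⧸ N => ∃ p ∈ away z, q = ((c * p : F g n) : F g n ⧸ N)],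
  ∑ q : F g n ⧸ N, (if ∃ p ∈ away z, q = ((c * p : F g n) : F g n ⧸ N)
    then f (q.out * y * (q.out)⁻¹) else 0) = 0

/-- ONE: step one.  Proof: `κ` from `St_PSH`; it is a function on the finite group `F ⧸ N` (well defined
because `κ (w * x) = κ w` for `x ∈ N`).  Let `q.out` be the representatives.  `St_SUM`:
`∑ (κ (q.out * gb z) - κ q.out) = 0` over the `q` in the coset `c * H`, `H` the image of `away z`; `κ` is
constant `= κ c` on it.  Let `c` be such that `κ c` is maximal: every summand is `≤ 0`, so all are zero,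
so `κ (c * gb z) = κ c` (take `q = c`: `f` is invariant under conjugation by `N`, so
`f (q.out * y * q.out⁻¹) = f (c * y * c⁻¹)`).  So the set of the `w` with `κ w` maximal is closed under
multiplication from the right by `away z`, by `N` and by `gb z`; hence also by `(gb z)⁻¹`
(`= (gb z)^(L-1)` modulo `N`), and it contains with `w` all of `F` (`ga z ∈ N`; the group generated is
everything, `eq_top_of_gens`).  So `κ` is constant and `f (w * y * w⁻¹) = 0`. -/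
def St_ONE : Prop := St_PSH → St_SUM → St_KLA → ∀ (g n : ℕ) (N : Subgroup (F g n))
  (f : F g n → ℚ), Good N f →
  ∀ (z : Fin g), (z : ℕ) = 0 → ga z ∈ N → ∀ y ∈ away z, y ∈ N → ∀ w, f (w * y * w⁻¹) = 0

/-- CRS: the class is a crossing number.  Proof: choose for each `q : F ⧸ N` a representative `s q`
such that (1) `s 1 = 1`, (2) `(s (p • q))⁻¹ * p * s q ∈ r⁻¹ * (away z) * r` for some `r` depending
only on the orbit of `q` under `away z`: choose in each orbit of `away z` on `F ⧸ N` (left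
multiplication) a point `q₀ = r N` (`r = 1` for the orbit of the coset `1`), for each `q` of the orbit
`p_q ∈ away z` with `q = p_q • q₀` (`p_q = 1` for `q = q₀`) and put `s q = p_q * r`.  Then
`(s (p • q))⁻¹ * p * s q = r⁻¹ * (p_(p•q)⁻¹ * p * p_q) * r` is in `N`, so
`p_(p•q)⁻¹ * p * p_q ∈ N ∩ away z`, and `f` of it is zero by the hypothesis.  Define
`C v q = f ((s (v • q))⁻¹ * v * s q)` (real); the cocycle rule holds by additivity on `N`, `C p q = 0` for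
`p ∈ away z`, `C (ga z) q = 0` (`ga z • q = q` since `ga z ∈ N` and `N` is normal, and
`f ((s q)⁻¹ * ga z * s q) = 0`, `Good.kill_a` with `m = 1`), `φ q = C (gb z) q`, and
`C x 1 = f x` for `x ∈ N`. -/
def St_CRS : Prop := ∀ (g n : ℕ) (N : Subgroup (F g n)) (f : F g n → ℚ), Good N f →
  ∀ (z : Fin g), (z : ℕ) = 0 → ga z ∈ N → (∀ y ∈ away z, y ∈ N → ∀ w, f (w * y * w⁻¹) = 0) →
  ∃ (φ : F g n ⧸ N → ℝ) (C : F g n → F g n ⧸ N → ℝ), IsCrs N φ C ∧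
    ∀ x ∈ N, C x ((1 : F g n) : F g n ⧸ N) = (f x : ℝ)

/-! ### the surface group in the free group of rank two -/

/-- LAB.  Proof (with `V k = Vh U k`, `Z m = Zh g U m`, `ι = io g n U A`, `d = dd g n`):
(a) for `m ≤ n`: `ι (cseg g n m (n-m) * ak 0) = (V (g-1))⁻¹ * U (2g-1+m) * V (g-1)`: downward induction
on `m`; `m = n`: `ι (ga 0) = (A V)⁻¹ U 0 (A V) = V⁻¹ U d V` by the hypothesis on `U d`, `d = 2g-1+n`.
(b) for `k ≤ g-1`: `ι (Pk k) = (V k)⁻¹ * Z (g-1-k) * V k`: downward induction; `k = g-1` is (a) with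
`m = 0`; `Pk (k-1) = [a_k, b_k] * Pk k`, and with `V = V (k-1)`, `V k = U (2k-1) * V`,
`Z = Z (g-1-k)`: `ι a_k = V⁻¹ U(2k) V`, `ι b_k = V⁻¹ U(2k-1)⁻¹ Z V`; the product is
`V⁻¹ (U(2k) U(2k-1)⁻¹ Z U(2k)⁻¹ U(2k-1)) V` (`group`).
(c) `ι (vv k) = V k` for `k ≤ g-1`: induction with (b).
(d) the claims: `ul 0`, `Al`: (c); `ul (2k-1)`, `ul (2k)`: (b), (c); `ul (2g-1+m)`: (a), (c).
(e) `bdry = a_0 b_0 a_0⁻¹ b_0⁻¹ * seg 1 (g-1) * cseg 0 n = a_0 (u_0⁻¹ * Pk 0) a_0⁻¹` with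
`u_0 = b_0 a_0 b_0⁻¹ = ul 0`, and `ι (Pk 0) = Z (g-1)` by (b); so `ι bdry` is conjugate to
`U 0⁻¹ * Z (g-1)`, hence to `Z (g-1) * U 0⁻¹`.  (f) `gc`: by definition. -/
def St_LAB : Prop := ∀ (g n : ℕ), 0 < g → ∀ (H : Type) [Group H] (U : ℕ → H) (A : H),
  U (dd g n) = A⁻¹ * U 0 * A →
  (∀ i ≤ dd g n, io g n U A (ul g n i) = U i) ∧ io g n U A (Al g n) = A ∧
  (∃ w, io g n U A (bdry g n) = w * (Zh g U (g - 1) * (U 0)⁻¹) * w⁻¹) ∧
  ∀ m : Fin n, ∃ w, io g n U A (gc m) = w * (U (2 * g - 1 + m) * (U (2 * g + m))⁻¹) * w⁻¹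

/-- LBI.  Proof: let `E` contain the `ul i`, `i < d`, and `Al`; by the first formula also
`ul d`.  `vv (k+1) = ul (2k+1) * vv k` for `k + 1 ≤ g - 1`, so all `vv k ∈ E`, `k ≤ g - 1`; `bk 0 = Al * vv (g-1)`,
`ak 0 = (bk 0)⁻¹ * ul 0 * bk 0`; `ak k` from `ul (2k)`; `cseg m (n-m) * ak 0` from `ul (2g-1+m)`, `m ≤ n`, so all
`gc m ∈ E`; `bk k`: `(bk k)⁻¹ * Pk k ∈ E` from `ul (2k-1)` and `Pk (g-1) = cseg 0 n * ak 0 ∈ E`; downward
induction: `Pk k ∈ E` gives `bk k ∈ E`, so `Pk (k-1) = [ak k, bk k] * Pk k ∈ E`.  `eq_top_of_gens`.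
First formula: `ul d = vv (g-1) * ak 0 * (vv (g-1))⁻¹`, `Al = bk 0 * (vv (g-1))⁻¹`. -/
def St_LBI : Prop := ∀ (g n : ℕ), 0 < g →
  ul g n (dd g n) = (Al g n)⁻¹ * ul g n 0 * Al g n ∧
  ∀ E : Subgroup (F g n), (∀ i < dd g n, ul g n i ∈ E) → Al g n ∈ E → E = ⊤

/-- ORI.  Proof: `U2 g i = Y^(-x(i)) X Y^i`, `x(0) = 0`, `x(2k-1) = 2k`, `x(2k) = 2k-1` for `1 ≤ k < g`,
`x(i) = i` for `i ≥ 2g-1`.  With `c = X Y X⁻¹ Y⁻¹`:
(a) `U(2k) U(2k-1)⁻¹ = Y^(-(2k-1)) c Y^(2k+1)` for `1 ≤ k < g`;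
(b) `U(2k+1) U(2k)⁻¹ = Y^(-(2k+2)) c Y^(2k)` for `1 ≤ k < g-1`, `U(1) U(0)⁻¹ = Y^(-2) c Y` if `g ≥ 2`,
`U(2g-1) U(2g-2)⁻¹ = Y^(-(2g-1)) c Y^(2g-2)` if `g ≥ 2`.
(c) Claim, by induction on `m < g - 1`, with `k = g-1-m ≥ 1`:
`Zh g U m * U(2k)⁻¹ = Y^(-(2k+1)) c^(2m+1) Y^(2k)`.  `m = 0`: (b).  Step:
`Zh g U (m+1) = (U(2k) U(2k-1)⁻¹) * (Zh g U m * U(2k)⁻¹) * U(2k-1)
= Y^(-(2k-1)) c^(2m+2) Y^(2k) U(2k-1)` by (a), and
`Zh g U (m+1) * U(2k-2)⁻¹ = Y^(-(2k-1)) c^(2m+2) Y^(2k) * (U(2k-1) U(2k-2)⁻¹)`, which is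
`Y^(-(2k-1)) c^(2m+3) Y^(2k-2)` if `k ≥ 2` and `Y^(-1) c^(2m+3) Y` if `k = 1` (then `m + 1 = g - 1`,
`2m+3 = 2g-1`: the claim of the lemma).  For `g = 1`: `U(1) U(0)⁻¹ = Y⁻¹ X Y X⁻¹ = Y⁻¹ c Y`.
(d) `U(2g+m) U(2g-1+m)⁻¹ = Y^(-(2g+m)) c Y^(2g+m)`. -/
def St_ORI : Prop := ∀ (g n : ℕ), 0 < g →
  U2 g (dd g n) = (yy ^ dd g n)⁻¹ * U2 g 0 * yy ^ dd g n ∧
  Zh g (U2 g) (g - 1) * (U2 g 0)⁻¹ = yy⁻¹ * cc ^ (2 * g - 1) * yy ∧
  ∀ m : ℕ, U2 g (2 * g - 1 + m) * (U2 g (2 * g + m))⁻¹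
    = (yy ^ (2 * g + m))⁻¹ * cc⁻¹ * yy ^ (2 * g + m)

/-- IND.  Proof: (4) by induction on `i`.  (1) the set of the `u` with the property (for all `s`) is a
subgroup; it contains `ul i`, `i < d`: `iota (ul i) = U2 i = (Y^(x(i)))⁻¹ X Y^i` (`St_LAB`, the hypothesis is the
first clause of `St_ORI`) and `Y^i (s,0) = (s,i)`, `X (s,i) = (ρ (ul i) s, x(i))`,
`(Y^(x(i)))⁻¹ (t, x(i)) = (t, 0)`; and `Al`: `iota Al = Y^d`, `Y^d (s,0) = (ρ Al s, 0)`.  So it is everything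
(`St_LBI`).  (2) take `S = F g n` with left multiplication: `iota u = iota v` gives `u * 1 = v * 1`.
(3) on `S = F g n` let `Θ : S × Fin d → F2`, `Θ (u, i) = Y^i * iota u`.  `Θ (X (u,i)) = Y^(x(i)) iota (ul i) iota u =
X Y^i iota u = X Θ (u,i)`, `Θ (Y (u,i)) = Y Θ (u,i)` (last square: `iota Al = Y^d`).  So
`Θ (ev .. γ m) = γ * Θ m` (`ev_conj` with the left multiplications on `F2`), and with `m = (1, 0)`:
`γ = Θ (ev .. γ (1,0)) = Y^i * iota u`. -/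
def St_IND : Prop := St_LAB → St_LBI → St_ORI → ∀ (g n : ℕ) (hg : 0 < g),
  (∀ (S : Type) (ρ : F g n →* Equiv.Perm S) (u : F g n) (s : S),
    ev (Xp ρ) (Yp ρ) (iota g n u) (s, z0 n hg) = (ρ u s, z0 n hg)) ∧
  Function.Injective (iota g n) ∧
  (∀ γ : F2, ∃ (u : F g n) (i : ℕ), i < dd g n ∧ γ = yy ^ i * iota g n u) ∧
  (∀ (S : Type) (ρ : F g n →* Equiv.Perm S) (i : ℕ) (hi : i < dd g n) (s : S),
    ev (Xp ρ) (Yp ρ) (yy ^ i) (s, z0 n hg) = (s, ⟨i, hi⟩))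

/-- the conclusion of `St_IND` for `g, n` -/
def Ind (g n : ℕ) (hg : 0 < g) : Prop :=
  (∀ (S : Type) (ρ : F g n →* Equiv.Perm S) (u : F g n) (s : S),
    ev (Xp ρ) (Yp ρ) (iota g n u) (s, z0 n hg) = (ρ u s, z0 n hg)) ∧
  Function.Injective (iota g n) ∧
  (∀ γ : F2, ∃ (u : F g n) (i : ℕ), i < dd g n ∧ γ = yy ^ i * iota g n u) ∧
  (∀ (S : Type) (ρ : F g n →* Equiv.Perm S) (i : ℕ) (hi : i < dd g n) (s : S),
    ev (Xp ρ) (Yp ρ) (yy ^ i) (s, z0 n hg) = (s, ⟨i, hi⟩))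

/-- AMC: the automorphisms of `G0` which act trivially give mapping classes.  Proof: let `s₀ ∈ S`.
For `u`: `α (iota u) = Y^i * iota u'` by `Ind` (3), and `ev (α (iota u)) (s₀,0) = ev (iota u) (s₀,0) =
(ρ u s₀, 0)`, while `ev (Y^i * iota u') (s₀,0) = (ρ u' s₀, i)`: so `i = 0`, `α (iota u) = iota u'` and
`ρ u' s = ρ u s` for all `s` (repeat for each `s`; `iota` is injective).  `u ↦ u'` is a homomorphism (`iota`
injective); the same for `α⁻¹` (it acts trivially too), the two are inverse to each other: `φ`.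
`φ ∈ MCG`: `iota bdry = w * cc^(2g-1) * w⁻¹` for some `w ∈ F2` (`St_LAB`, `St_ORI`), and `α cc = cc` (`G0_cc`), so
`iota (φ bdry) = α w * cc^(2g-1) * (α w)⁻¹ = t * iota bdry * t⁻¹`, `t = α w * w⁻¹`.  `t` fixes the square `0`
(for all `s`): `ev w⁻¹ (s,0) = m`, `ev (α w) m = ev w m = (s,0)`.  So `t = iota v` for some `v` (`Ind` (3), (4)) and
`φ bdry = v * bdry * v⁻¹`.  The same for `gc j` (`iota (gc j)` is conjugate to `cc⁻¹`). -/
def St_AMC : Prop := St_LAB → St_ORI → ∀ (g n : ℕ) (hg : 0 < g), Ind g n hg →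
  ∀ (S : Type) [Nonempty S] (ρ : F g n →* Equiv.Perm S) (α : MulAut F2), α ∈ G0 → Tr ρ α →
  ∃ φ ∈ MCG g n, (∀ u, iota g n (φ u) = α (iota g n u)) ∧ ∀ u s, ρ (φ u) s = ρ u s

/-- CRO: the class as a cocycle of `F2`.  Proof: first claim: for the squares `i ≥ 1`, `x(i) ≥ 1`, both sides
are zero; the square `0` is fixed and `Xp (q,0) = (ul 0 • q, 0)` with `ul 0 = b_0 a_0 b_0⁻¹ ∈ N` (normal), so
`ul 0 • q = q`.  Second claim: put `C' u q = cz (Xp) (Yp) 0 ψ (iota u) (q, 0)`, a cocycle in `u` with the rule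
of `IsCrs` (`Ind` (1)), `θ q = φ (b_0⁻¹ • q)`, `C'' u q = C' u q + θ (u • q) - θ q`.
`C' (ul 0) q = 0` (`iota (ul 0) = X`); for `1 ≤ i < d`: `iota (ul i) = (Y^(x(i)))⁻¹ X Y^i`:
`C' (ul i) q = θ q - θ (ul i • q)`, so `C'' (ul i) = 0`; `C'' (ul 0) q = θ (ul 0 • q) - θ q = 0`;
`iota Al = Y^d`: `C' Al q = θ q`, `C'' Al q = θ (Al • q) = φ (b_0⁻¹ • Al • q) = φ (v⁻¹ • q)`, `v = vv (g-1)`,
`Al = b_0 v⁻¹`.  On the other side `C p = 0` for all `p` in the group generated by `away z` and `a_0`, which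
contains `v` and the `ul i`, `i ≥ 1`; `C (ul 0) q = C b_0 (a_0 b_0⁻¹ • q) - C b_0 (b_0⁻¹ • q) = 0` since
`a_0 ∈ N`; `C Al q = C b_0 (v⁻¹ • q) = φ (v⁻¹ • q)`.  So `C = C''` on the generators `ul i`, `Al` (`St_LBI`), so
everywhere, and for `x ∈ N`: `x • 1 = 1`, `C x 1 = C' x 1`. -/
def St_CRO : Prop := St_LAB → St_LBI → St_ORI → ∀ (g n : ℕ) (hg : 0 < g), Ind g n hg →
  ∀ (N : Subgroup (F g n)), N.Normal → ga ⟨0, hg⟩ ∈ N →
  ∀ (φ : F g n ⧸ N → ℝ) (C : F g n → F g n ⧸ N → ℝ), IsCrs N φ C →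
  (∀ w, psi N φ (Xp (rh N) w) = psi N φ w) ∧
  ∀ x ∈ N, cz (Xp (rh N)) (Yp (rh N)) (fun _ => 0) (psi N φ) (iota g n x)
    (((1 : F g n) : F g n ⧸ N), z0 n hg) = C x ((1 : F g n) : F g n ⧸ N)

/-- FIX: a subgroup of finite index.  Proof: `Ω = (F ⧸ N) × Fin d` is finite.  `D1 = {α ∈ G0 | Tr (rh N) α}` is a
subgroup (`Tr` is closed under products and inverses); the map `α ↦ (ev x y (α xx), ev x y (α yy))` from
`G0` to the finite set `Perm Ω × Perm Ω` has the property: equal values for `α, β` imply that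
`γ ↦ ev x y (α γ)` and `γ ↦ ev x y (β γ)` are equal (`ev_pull'`), so `α * β⁻¹ ∈ D1`; so `D1` has
finite index in `G0`.  For `α ∈ D1` let `φ_α` be the mapping class of `St_AMC` (unique, `iota` is
injective), `φ_(α β) = φ_α φ_β`, `φ_α x * x⁻¹ ∈ N` (`rh N (φ u) 1 = rh N u 1`).  `D = {α ∈ D1 | f ∘ φ_α = f on N}` is a
subgroup; the map `α ↦ (f ∘ φ_α on N)` from `D1` to the finite set of `Fine.orb` has the property:
equal values for `α, β` imply `α * β⁻¹ ∈ D` (`f (φ_α x) = f (φ_β x)`; put `x = φ_β⁻¹ x'`).  Index: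
`Subgroup.relIndex_mul_relIndex` or directly: `G0 ⧸ D` injects into a finite set. -/
def St_FIX : Prop := St_AMC → St_LAB → St_ORI → ∀ (g n : ℕ) (hg : 0 < g), Ind g n hg →
  ∀ (N : Subgroup (F g n)) (f : F g n → ℚ), Fine N f →
  ∃ D : Subgroup (MulAut F2), D.relIndex G0 ≠ 0 ∧ ∀ α ∈ D, α ∈ G0 → Tr (rh N) α ∧
    ∃ φ ∈ MCG g n, (∀ u, iota g n (φ u) = α (iota g n u)) ∧ (∀ x, φ x * x⁻¹ ∈ N) ∧
      ∀ x ∈ N, f (φ x) = f x

/-- GDD: such an automorphism is good.  Proof: every `w ∈ Ω` is `ev γ_w (1, 0)` for some `γ_w`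
(`w = (u • 1, i)`, `γ_w = Y^i * iota u`, `Ind` (1), (4)).  If `δ` fixes `(1,0)` then `δ = iota x` with `x ∈ N`
(`Ind` (3), (4), (1)), and `cz (α δ) (1,0) = cz (iota (φ x)) (1,0) = f (φ x) = f x = cz δ (1,0)`.  Put
`u w = cz (α γ_w) (1,0) - cz γ_w (1,0)`.  For `γ` and `w` let `δ = (γ_(γ w))⁻¹ * γ * γ_w`; it fixes `(1,0)`, and so
does `α δ` (`Tr`).  `cz (α (γ * γ_w)) (1,0) = cz (α γ) w + cz (α γ_w) (1,0)` (`ev (α γ_w) (1,0) = w`) and also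
`= cz (α γ_(γ w)) (1,0) + cz (α δ) (1,0)`; the same without `α`; subtract:
`cz (α γ) w - cz γ w = u (γ w) - u w`. -/
def St_GDD : Prop := ∀ (g n : ℕ) (hg : 0 < g), Ind g n hg →
  ∀ (N : Subgroup (F g n)), N.Normal → ∀ (f : F g n → ℝ) (ψ : (F g n ⧸ N) × Fin (dd g n) → ℝ),
  (∀ x ∈ N, cz (Xp (rh N)) (Yp (rh N)) (fun _ => 0) ψ (iota g n x)
    (((1 : F g n) : F g n ⧸ N), z0 n hg) = f x) →
  ∀ α : MulAut F2, Tr (rh N) α → ∀ φ : MulAut (F g n), (∀ u, iota g n (φ u) = α (iota g n u)) →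
  (∀ x, φ x * x⁻¹ ∈ N) → (∀ x ∈ N, f (φ x) = f x) →
  Gd (Xp (rh N)) (Yp (rh N)) ψ α

/-- ORB: finite orbits.  Proof: (1) `good_of_finite`; if `φ x * x⁻¹ ∈ N = K.normalCore` for all `x` then
`φ` keeps `K` (`N ≤ K`), so `f ∘ φ` is in `orbit K f`; the function `h` on `N` is the restriction to `N` of this
element of the orbit, so the set is contained in the image of a finite set.  (2) `Good.comp`; let
`N' = N.comap θ`, `f' = f ∘ θ`; for `φ ∈ MCG` with `φ x * x⁻¹ ∈ N'` put `φ₁ = θ φ θ⁻¹ ∈ MCG`: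
`φ₁ x * x⁻¹ ∈ N`, and `f' (φ x) = f (φ₁ (θ x))`, so the set for `(N', f')` is the image of a subset of the set
for `(N, f)` under `h ↦ h ∘ θ`. -/
def St_ORB : Prop := ∀ (g n : ℕ),
  (∀ (K : Subgroup (F g n)) [K.FiniteIndex] (f : K → ℚ), bdry g n ∈ K.normalCore →
    IsClass K f → (orbit K f).Finite → Fine K.normalCore (ext0 K f)) ∧
  ∀ (N : Subgroup (F g n)) (f : F g n → ℚ), Fine N f → ∀ θ ∈ MCG g n,
    Fine (N.comap θ.toMonoidHom) (fun x => f (θ x))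

/-- the theorem: one killed nonseparating simple closed curve suffices -/
def OneKilled : Prop := ∀ (g n : ℕ) (hg : 0 < g) (K : Subgroup (F g n)) [K.FiniteIndex],
  bdry g n ∈ K.normalCore → (∃ θ ∈ MCG g n, θ (ga ⟨0, hg⟩) ∈ K.normalCore) →
  ∀ f : K → ℚ, IsClass K f → f ≠ 0 → (orbit K f).Infinite

/-- FIN: assembly.  Proof: suppose `orbit K f` is finite.  `St_ORB`: `Fine` for `N₀ = K.normalCore`, and for
`N = θ⁻¹ N₀`, `f' = ext0 K f ∘ θ`, with `ga 0 ∈ N`.  `St_ONE`, `St_CRS`: a crossing cocycle; `St_CRO`: `ψ = psi N φ`,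
`cz 0 ψ (iota x) (1,0) = f' x` on `N`; `St_FIX` gives `D`, `St_GDD` gives the hypothesis of `Main`; so `ψ = u ∘ y - u`,
`u ∘ x = u`, `cz 0 ψ γ w = u (γ w) - u w` (`cz_cob`), so `f' x = u (iota x (1,0)) - u (1,0) = 0` for `x ∈ N`
(`Ind` (1)).  Hence `ext0 K f = 0` on `N₀`, and `f = 0` as in `infinite_of_central` (a power of each
element of `K` is in `N₀`). -/
def St_FIN : Prop := Main → St_KLA → St_PSH → St_SUM → St_ONE → St_CRS → St_LAB → St_LBI →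
  St_ORI → St_IND → St_AMC → St_CRO → St_FIX → St_GDD → St_ORB → OneKilled

end Pool.Agent.PWK
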